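import Pool.Agent.Lib_helper4.AsyF.Defs

set_option autoImplicit false

namespace Pool.Agent.Lib_helper4.Asy

/-! ## Block ARR : arrangement of the small objects into closed blocks -/

section real

def arrMap {α β : Type} (f : α → β) : Blk α → Blk β
  | .ob As Bs => .ob (As.map f) (Bs.map f)
  | .gad us => .gad (us.map fun p => (f p.1, f p.2))
  | .sol o => .sol (f o)

theorem arr_unpair_map {α β : Type} (f : α → β) (us : List (α × α)) :
    unpair (us.map fun p => (f p.1, f p.2)) = (unpair us).map f := by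
  unfold unpair
  induction us with
  | nil => rfl
  | cons p t ih => simp [ih]

theorem arr_objs_map {α β : Type} (f : α → β) (b : Blk α) :
    (arrMap f b).objs = b.objs.map f := by
  cases b with
  | ob As Bs => simp [arrMap, Blk.objs]
  | gad us => exact arr_unpair_map f us
  | sol o => rfl

theorem arr_map_map {α β γ : Type} (f : α → β) (g : β → γ) (b : Blk α) :
    arrMap g (arrMap f b) = arrMap (g ∘ f) b := by
  cases b with
  | ob As Bs => simp [arrMap]
  | gad us => simp [arrMap, Function.comp_def]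
  | sol o => rfl

theorem arr_lift {β τ : Type} (f : β → τ) : ∀ (l0 : List τ) (L : List β),
    l0.Perm (L.map f) → ∃ L' : List β, L'.Perm L ∧ L'.map f = l0 := by
  intro l0
  induction l0 with
  | nil =>
    intro L h
    have : L = [] := by simpa using h.length_eq.symm
    subst this
    exact ⟨[], List.Perm.refl _, rfl⟩
  | cons t l1 ih =>
    intro L h
    have ht : t ∈ L.map f := h.subset List.mem_cons_self
    obtain ⟨x, hx, rfl⟩ := List.mem_map.1 ht
    obtain ⟨L1, L2, rfl⟩ := List.append_of_mem hx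
    have h2 : (f x :: l1).Perm (f x :: (L1 ++ L2).map f) := h.trans (by
      rw [List.map_append, List.map_cons, List.map_append]
      exact List.perm_middle)
    obtain ⟨L', h3, h4⟩ := ih _ (h2.cons_inv)
    exact ⟨x :: L', (h3.cons x).trans List.perm_middle.symm, by simp [h4]⟩

theorem arr_unpair_lift {β τ : Type} (f : β → τ) : ∀ (us : List (τ × τ)) (L : List β),
    L.map f = unpair us → ∃ us' : List (β × β), us'.map (fun p => (f p.1, f p.2)) = us ∧
      unpair us' = L := by
  intro us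
  induction us with
  | nil =>
    intro L h
    have : L = [] := by simpa [unpair] using h
    subst this
    exact ⟨[], rfl, rfl⟩
  | cons p t ih =>
    intro L h
    have h' : L.map f = p.1 :: p.2 :: unpair t := by simpa [unpair] using h
    match L, h' with
    | [], h' => simp at h'
    | [a], h' => simp at h'
    | a :: b :: L1, h' =>
      simp only [List.map_cons, List.cons.injEq] at h'
      obtain ⟨h1, h2, h3⟩ := h'
      obtain ⟨us', h4, h5⟩ := ih L1 h3
      exact ⟨(a, b) :: us', by simp [h1, h2, h4], by simp only [unpair] at h5 ⊢; simp [h5]⟩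

theorem arr_unflat1 {β τ : Type} (f : β → τ) (b : Blk τ) (L : List β)
    (h : L.map f = b.objs) : ∃ b' : Blk β, arrMap f b' = b ∧ b'.objs = L := by
  cases b with
  | ob As Bs =>
    simp only [Blk.objs] at h
    obtain ⟨A, B, h1, h2, h3⟩ := List.map_eq_append_iff.1 h
    exact ⟨.ob A B, by simp [arrMap, h2, h3], by simp [Blk.objs, h1]⟩
  | gad us =>
    obtain ⟨us', h1, h2⟩ := arr_unpair_lift f us L h
    exact ⟨.gad us', by simp [arrMap, h1], h2⟩
  | sol o =>
    simp only [Blk.objs] at h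
    match L, h with
    | [a], h =>
      simp only [List.map_cons, List.map_nil, List.cons.injEq, and_true] at h
      exact ⟨.sol a, by simp [arrMap, h], rfl⟩
    | [], h => simp at h
    | a :: b :: L1, h => simp at h

theorem arr_unflat {β τ : Type} (f : β → τ) : ∀ (bl0 : List (Blk τ)) (L : List β),
    L.map f = bl0.flatMap Blk.objs →
    ∃ bl : List (Blk β), bl.map (arrMap f) = bl0 ∧ bl.flatMap Blk.objs = L := by
  intro bl0
  induction bl0 with
  | nil =>
    intro L h
    have : L = [] := by simpa using h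
    subst this
    exact ⟨[], rfl, rfl⟩
  | cons b t ih =>
    intro L h
    rw [List.flatMap_cons] at h
    obtain ⟨A, B, h1, h2, h3⟩ := List.map_eq_append_iff.1 h
    obtain ⟨b', h4, h5⟩ := arr_unflat1 f b A h2
    obtain ⟨bl, h6, h7⟩ := ih B h3
    exact ⟨b' :: bl, by simp [h4, h6], by simp [h5, h7, h1]⟩

def arrU {α : Type} (t : Tg α) : Tg Unit := ⟨(), t.lev, t.seg⟩

theorem arr_good {k J : ℕ} {α : Type} (b : Blk (Tg α)) (h : GoodBlk k J (arrMap arrU b)) :
    GoodBlk k J b := by
  cases b with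
  | ob As Bs =>
    simp only [arrMap, GoodBlk, GoodOb] at h ⊢
    obtain ⟨h1, h2, h3, h4⟩ := h
    refine ⟨by simpa [Function.comp_def, arrU] using h1,
      by simpa [Function.comp_def, arrU] using h2, ?_, ?_⟩
    · intro a ha b hb
      exact h3 (arrU a) (List.mem_map_of_mem ha) (arrU b) (List.mem_map_of_mem hb)
    · intro a ha b hb
      rw [← List.map_append] at h4
      exact h4 (arrU a) (List.mem_map_of_mem ha) (arrU b) (List.mem_map_of_mem hb)
  | gad us =>
    simp only [arrMap, GoodBlk, GoodGad] at h ⊢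
    obtain ⟨h1, h2, h3⟩ := h
    refine ⟨by simpa using h1, ?_, ?_⟩
    · intro p hp
      exact h2 (arrU p.1, arrU p.2) (List.mem_map.2 ⟨p, hp, rfl⟩)
    · intro a ha b hb
      rw [arr_unpair_map] at h3
      exact h3 (arrU a) (List.mem_map_of_mem ha) (arrU b) (List.mem_map_of_mem hb)
  | sol o => exact h

end real

section pins

theorem arr_coe_range {β : Type} (n : ℕ) (f : ℕ → List β) :
    (((List.range n).flatMap f : List β) : Multiset β) = ∑ i ∈ Finset.range n, (f i : Multiset β) := by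
  induction n with
  | zero => simp
  | succ n ih =>
    rw [List.range_succ, List.flatMap_append, Finset.sum_range_succ, ← ih, ← Multiset.coe_add]
    simp

theorem arr_flatMap_cons {α β : Type} (f : α → β) (g : α → List β) (l : List α) :
    (l.flatMap fun a => f a :: g a).Perm (l.map f ++ l.flatMap g) := by
  induction l with
  | nil => simp
  | cons a t ih =>
    simp only [List.flatMap_cons, List.map_cons, List.cons_append]
    refine List.Perm.cons _ ?_
    refine (List.Perm.append_left _ ih).trans ?_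
    rw [← List.append_assoc, ← List.append_assoc]
    exact List.Perm.append_right _ List.perm_append_comm

theorem arr_tags_pin (J : ℕ) {α : Type} (X : ℕ → ℕ → List α) (x : ℕ → α)
    (hx : ∀ j, 1 ≤ j → j < J → X j 0 = x j :: (X j 0).tail) :
    (allTags J X).Perm ((((List.range J).filter (1 ≤ ·)).map fun j => (⟨x j, j, 0⟩ : Tg α)) ++
      allTags J (fun j s => if s = 0 ∧ 1 ≤ j then (X j s).tail else X j s)) := by
  have hQ : 0 < QQ J := by unfold QQ; positivity
  rw [← Multiset.coe_eq_coe, ← Multiset.coe_add]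
  have h1 : (((((List.range J).filter (1 ≤ ·)).map fun j => (⟨x j, j, 0⟩ : Tg α)) :
      List (Tg α)) : Multiset (Tg α)) =
      ∑ j ∈ Finset.range J, (if 1 ≤ j then {(⟨x j, j, 0⟩ : Tg α)} else 0 : Multiset (Tg α)) := by
    have : ((List.range J).filter (1 ≤ ·)).map (fun j => (⟨x j, j, 0⟩ : Tg α)) =
        (List.range J).flatMap fun j => if 1 ≤ j then [(⟨x j, j, 0⟩ : Tg α)] else [] := by
      induction (List.range J) with
      | nil => rfl
      | cons a t ih =>
        by_cases ha : 1 ≤ a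
        · simp [ha, ← ih]
        · simp [ha, ← ih]
    rw [this, arr_coe_range]
    refine Finset.sum_congr rfl fun j _ => ?_
    split_ifs <;> simp
  rw [h1]
  unfold allTags
  rw [arr_coe_range, arr_coe_range, ← Finset.sum_add_distrib]
  refine Finset.sum_congr rfl fun j hj => ?_
  have hj' : j < J := Finset.mem_range.1 hj
  rw [arr_coe_range, arr_coe_range]
  have h2 : (if 1 ≤ j then {(⟨x j, j, 0⟩ : Tg α)} else 0 : Multiset (Tg α)) =
      ∑ s ∈ Finset.range (QQ J), if s = 0 then
        (if 1 ≤ j then {(⟨x j, j, 0⟩ : Tg α)} else 0 : Multiset (Tg α)) else 0 := by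
    rw [Finset.sum_ite_eq' (Finset.range (QQ J)) 0]
    simp [hQ]
  rw [h2, ← Finset.sum_add_distrib]
  refine Finset.sum_congr rfl fun s _ => ?_
  by_cases hs : s = 0
  · subst hs
    by_cases h1j : 1 ≤ j
    · have := hx j h1j hj'
      simp only [h1j, and_self, if_true]
      rw [this]
      simp
    · simp [h1j]
  · simp [hs]

theorem arr_real (k J : ℕ) {α : Type} (X : ℕ → ℕ → List α) (x : ℕ → α)
    (hx : ∀ j, 1 ≤ j → j < J → X j 0 = x j :: (X j 0).tail)
    (bl0 : List (Blk (Tg Unit))) (hgood : ∀ b ∈ bl0, GoodBlk k J b)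
    (hP : (bl0.flatMap Blk.objs).Perm ((allTags J X).map arrU))
    (A B : ℕ → List (Tg Unit))
    (hpin : ∀ j, 1 ≤ j → j < J → Blk.ob (⟨(), j, 0⟩ :: A j) (B j) ∈ bl0) :
    ∃ bl : List (Blk (Tg α)), (∀ b ∈ bl, GoodBlk k J b) ∧
      (bl.flatMap Blk.objs).Perm (allTags J X) ∧
      ∀ j, 1 ≤ j → j < J → ∃ As Bs, Blk.ob (⟨x j, j, 0⟩ :: As) Bs ∈ bl := by
  classical
  set I := (List.range J).filter (1 ≤ ·) with hI
  have hImem : ∀ j, j ∈ I ↔ 1 ≤ j ∧ j < J := by
    intro j; simp [hI, and_comm]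
  have hInd : I.Nodup := List.Nodup.filter _ List.nodup_range
  set pins : List (Blk (Tg Unit)) := I.map (fun j => Blk.ob (⟨(), j, 0⟩ :: A j) (B j)) with hpins
  have hpnd : pins.Nodup := by
    refine hInd.map ?_
    intro a b hab
    simp only [Blk.ob.injEq, List.cons.injEq, Tg.mk.injEq] at hab
    exact hab.1.1.2.1
  have hpsub : pins ⊆ bl0 := by
    intro b hb
    obtain ⟨j, hj, rfl⟩ := List.mem_map.1 hb
    exact hpin j ((hImem j).1 hj).1 ((hImem j).1 hj).2
  obtain ⟨l, hl1, hl2⟩ := hpnd.subperm hpsub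
  obtain ⟨R, hR⟩ := hl2.exists_perm_append
  have hbl0 : bl0.Perm (pins ++ R) := hR.trans (List.Perm.append_right _ hl1)
  set X' : ℕ → ℕ → List α := fun j s => if s = 0 ∧ 1 ≤ j then (X j s).tail else X j s with hX'
  have htag := arr_tags_pin J X x hx
  rw [← hI, ← hX'] at htag
  -- cancel the pins
  have h1 : (I.map (fun j => (⟨(), j, 0⟩ : Tg Unit)) ++
      (I.flatMap (fun j => A j ++ B j) ++ R.flatMap Blk.objs)).Perm
      (I.map (fun j => (⟨(), j, 0⟩ : Tg Unit)) ++ (allTags J X').map arrU) := by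
    have e1 : (bl0.flatMap Blk.objs).Perm ((pins ++ R).flatMap Blk.objs) :=
      hbl0.flatMap_right _
    have e2 : ((pins ++ R).flatMap Blk.objs) =
        I.flatMap (fun j => (⟨(), j, 0⟩ : Tg Unit) :: (A j ++ B j)) ++ R.flatMap Blk.objs := by
      rw [List.flatMap_append, hpins, List.flatMap_map]
      simp [Blk.objs]
    have e3 := (arr_flatMap_cons (fun j => (⟨(), j, 0⟩ : Tg Unit)) (fun j => A j ++ B j) I)
    have e4 : ((allTags J X).map arrU).Perm
        (I.map (fun j => (⟨(), j, 0⟩ : Tg Unit)) ++ (allTags J X').map arrU) := by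
      refine (htag.map arrU).trans ?_
      rw [List.map_append, List.map_map]
      exact List.Perm.refl _
    refine List.Perm.trans ?_ (e1.symm.trans (hP.trans e4))
    rw [e2, ← List.append_assoc]
    exact List.Perm.append_right _ e3.symm
  have h2 := (List.perm_append_left_iff _).1 h1
  set LM : List (Tg α × Bool) := I.map (fun j => ((⟨x j, j, 0⟩ : Tg α), true)) ++
    (allTags J X').map (fun t => (t, false)) with hLM
  set f' : Tg α × Bool → Tg Unit × Bool := fun p => (arrU p.1, p.2) with hf'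
  set blM0 : List (Blk (Tg Unit × Bool)) :=
    I.map (fun j => Blk.ob (((⟨(), j, 0⟩ : Tg Unit), true) :: (A j).map (fun t => (t, false)))
      ((B j).map (fun t => (t, false)))) ++ R.map (arrMap (fun t => (t, false))) with hblM0
  have h3 : (blM0.flatMap Blk.objs).Perm (LM.map f') := by
    have e1 : blM0.flatMap Blk.objs =
        I.flatMap (fun j => ((⟨(), j, 0⟩ : Tg Unit), true) ::
          (A j ++ B j).map (fun t => (t, false))) ++
        (R.flatMap Blk.objs).map (fun t => (t, false)) := by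
      rw [hblM0, List.flatMap_append, List.flatMap_map, List.flatMap_map, List.map_flatMap]
      congr 1
      · simp [Blk.objs]
      · congr 1
        funext b
        exact arr_objs_map _ b
    have e3 := (arr_flatMap_cons (fun j => ((⟨(), j, 0⟩ : Tg Unit), true))
      (fun j => (A j ++ B j).map (fun t => (t, false))) I)
    have e4 : LM.map f' = I.map (fun j => ((⟨(), j, 0⟩ : Tg Unit), true)) ++
        ((allTags J X').map arrU).map (fun t => (t, false)) := by
      rw [hLM, List.map_append, List.map_map, List.map_map, List.map_map]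
      rfl
    rw [e1, e4]
    refine (List.Perm.append_right _ e3).trans ?_
    rw [List.append_assoc]
    refine List.Perm.append_left _ ?_
    have : (I.flatMap fun j => (A j ++ B j).map (fun t => (t, false))) ++
        (R.flatMap Blk.objs).map (fun t => (t, false)) =
        (I.flatMap (fun j => A j ++ B j) ++ R.flatMap Blk.objs).map (fun t => (t, false)) := by
      simp only [List.map_append, List.map_flatMap]
    rw [this]
    exact h2.map _
  obtain ⟨L', h4, h5⟩ := arr_lift f' _ _ h3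
  obtain ⟨blM, h6, h7⟩ := arr_unflat f' _ _ h5
  refine ⟨blM.map (arrMap Prod.fst), ?_, ?_, ?_⟩
  · intro b hb
    obtain ⟨c, hc, rfl⟩ := List.mem_map.1 hb
    apply arr_good
    have e1 : arrMap f' c ∈ blM0 := by rw [← h6]; exact List.mem_map_of_mem hc
    have e2 : arrMap arrU (arrMap Prod.fst c) = arrMap Prod.fst (arrMap f' c) := by
      rw [arr_map_map, arr_map_map]
      rfl
    rw [e2]
    have e3 : arrMap Prod.fst (arrMap f' c) ∈ pins ++ R := by
      rw [hblM0, List.mem_append] at e1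
      rw [List.mem_append]
      rcases e1 with e1 | e1
      · left
        obtain ⟨j, hj, h⟩ := List.mem_map.1 e1
        rw [← h]
        refine List.mem_map.2 ⟨j, hj, ?_⟩
        simp [arrMap, Function.comp_def]
      · right
        obtain ⟨r, hr, h⟩ := List.mem_map.1 e1
        rw [← h, arr_map_map]
        have : arrMap (Prod.fst ∘ fun t : Tg Unit => (t, false)) r = r := by
          have hid : (Prod.fst ∘ fun t : Tg Unit => (t, false)) = id := rfl
          rw [hid]
          cases r <;> simp [arrMap]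
        rw [this]
        exact hr
    exact hgood _ (hbl0.symm.subset e3)
  · have e1 : (blM.map (arrMap Prod.fst)).flatMap Blk.objs = L'.map Prod.fst := by
      rw [← h7, List.flatMap_map, List.map_flatMap]
      congr 1
      funext b
      exact arr_objs_map _ b
    rw [e1]
    refine (h4.map _).trans ?_
    have e2 : LM.map Prod.fst = I.map (fun j => (⟨x j, j, 0⟩ : Tg α)) ++ allTags J X' := by
      rw [hLM, List.map_append, List.map_map, List.map_map]
      congr 1
      exact List.map_id _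
    rw [e2]
    exact htag.symm
  · intro j hj1 hj2
    have e1 : Blk.ob (((⟨(), j, 0⟩ : Tg Unit), true) :: (A j).map (fun t => (t, false)))
      ((B j).map (fun t => (t, false))) ∈ blM.map (arrMap f') := by
      rw [h6, hblM0, List.mem_append]
      left
      exact List.mem_map.2 ⟨j, (hImem j).2 ⟨hj1, hj2⟩, rfl⟩
    obtain ⟨c, hc, h⟩ := List.mem_map.1 e1
    cases c with
    | ob As Bs =>
      simp only [arrMap, Blk.ob.injEq] at h
      obtain ⟨h8, h9⟩ := h
      match As, h8 with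
      | [], h8 => simp at h8
      | z :: As1, h8 =>
        simp only [List.map_cons, List.cons.injEq] at h8
        have hz : z ∈ LM := by
          refine h4.subset ?_
          rw [← h7]
          refine List.mem_flatMap.2 ⟨_, hc, ?_⟩
          simp [Blk.objs]
        have hz1 := h8.1
        simp only [hf', arrU, Prod.mk.injEq, Tg.mk.injEq, true_and] at hz1
        rw [hLM, List.mem_append] at hz
        rcases hz with hz | hz
        · obtain ⟨i, hi, hzi⟩ := List.mem_map.1 hz
          subst hzi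
          simp only at hz1
          have : i = j := hz1.1.1
          subst this
          refine ⟨As1.map Prod.fst, Bs.map Prod.fst, ?_⟩
          refine List.mem_map.2 ⟨_, hc, ?_⟩
          simp [arrMap]
        · obtain ⟨t, ht, hzt⟩ := List.mem_map.1 hz
          subst hzt
          simp at hz1
    | gad us => simp [arrMap] at h
    | sol o => simp [arrMap] at h

end pins

end Pool.Agent.Lib_helper4.Asy

namespace Pool.Agent.Lib_helper4.Asy

section blocks

def arT (j s : ℕ) : Tg Unit := ⟨(), j, s⟩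
def arDl (j : ℕ) : ℕ := 64 ^ (2 * j)
def arEp (j : ℕ) : ℕ := 64 ^ (2 * j + 1)
def arStar (j s : ℕ) : ℕ := if (s / arDl j) % 2 = 0 then s + arDl j else s - arDl j
def arFil (J j s : ℕ) : ℕ := (s + arEp j) % QQ J
def arG (k J j s : ℕ) : Blk (Tg Unit) :=
  .ob (List.replicate (k / 2 ^ j) (arT j s) ++ List.replicate (k % 2 ^ j) (arT 0 (arFil J j s)))
    (List.replicate ((k - 1) / 2 ^ j) (arT j (arStar j s)) ++
      List.replicate ((k - 1) % 2 ^ j) (arT 0 (arFil J j s)))
def arS (k J j s : ℕ) : Blk (Tg Unit) :=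
  .ob (arT j s :: List.replicate (k - 2 ^ j) (arT 0 (arFil J j s)))
    (List.replicate (k - 1) (arT 0 (arFil J j s)))
def arGd (k : ℕ) : Blk (Tg Unit) := .gad (List.replicate (k / 2) (arT 1 0, arT 1 (arDl 1)))
def arPl (k u v a : ℕ) : Blk (Tg Unit) :=
  .ob ((List.replicate u (arT 0 a) ++ List.replicate v (arT 0 (a + 1))).take k)
    ((List.replicate u (arT 0 a) ++ List.replicate v (arT 0 (a + 1))).drop k)

theorem ar_star_cases (j s : ℕ) : (arStar j s = s + arDl j) ∨ (arStar j s + arDl j = s) := by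
  unfold arStar
  split_ifs with h
  · left; rfl
  · right
    have h1 : 1 ≤ s / arDl j := by
      generalize s / arDl j = q at h
      omega
    have h2 : 0 < arDl j := by unfold arDl; positivity
    have h3 : arDl j ≤ s := by
      have := (Nat.le_div_iff_mul_le h2).1 h1
      omega
    omega

theorem ar_dl_cast (j : ℕ) : ((arDl j : ℕ) : ℤ) = dl j := by
  unfold arDl dl; push_cast; rfl

theorem ar_ep_cast (j : ℕ) : ((arEp j : ℕ) : ℤ) = ep j := by
  unfold arEp ep; push_cast; rfl

theorem ar_F1 (J j s : ℕ) : Fr J j s (arStar j s) := by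
  rcases ar_star_cases j s with h | h
  · refine ⟨dl j, Or.inl rfl, ?_⟩
    rw [h, ← ar_dl_cast]
    push_cast
    rw [add_sub_cancel_left]
  · refine ⟨-dl j, Or.inr (Or.inl rfl), ?_⟩
    have : (s : ℤ) = arStar j s + arDl j := by exact_mod_cast h.symm
    rw [← ar_dl_cast, this]
    rw [sub_add_cancel_left]

theorem ar_F1' (J j s : ℕ) : Fr J j (arStar j s) s := by
  rcases ar_star_cases j s with h | h
  · refine ⟨-dl j, Or.inr (Or.inl rfl), ?_⟩
    rw [h, ← ar_dl_cast]
    push_cast
    rw [sub_add_cancel_left]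
  · refine ⟨dl j, Or.inl rfl, ?_⟩
    have : (s : ℤ) = arStar j s + arDl j := by exact_mod_cast h.symm
    rw [← ar_dl_cast, this]
    rw [add_sub_cancel_left]

theorem ar_fil_mod (J j s : ℕ) : ((arFil J j s : ℕ) : ℤ) ≡ s + ep j [ZMOD (QQ J : ℤ)] := by
  unfold arFil
  rw [← ar_ep_cast]
  push_cast
  exact Int.mod_modEq _ _

theorem ar_F2 (J j s : ℕ) : Fr J j s (arFil J j s) := by
  refine ⟨ep j, by simp [Fset], ?_⟩
  have := (ar_fil_mod J j s).sub_right (s : ℤ)
  simpa using this

theorem ar_F3 (J j s : ℕ) : Fr J j (arStar j s) (arFil J j s) := by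
  rcases ar_star_cases j s with h | h
  · refine ⟨ep j - dl j, by simp [Fset], ?_⟩
    have := (ar_fil_mod J j s).sub_right ((arStar j s : ℕ) : ℤ)
    refine this.trans ?_
    rw [h, ← ar_dl_cast]
    push_cast
    ring_nf
    exact Int.ModEq.refl _
  · refine ⟨ep j + dl j, by simp [Fset], ?_⟩
    have := (ar_fil_mod J j s).sub_right ((arStar j s : ℕ) : ℤ)
    refine this.trans ?_
    have h' : (s : ℤ) = arStar j s + arDl j := by exact_mod_cast h.symm
    rw [h', ← ar_dl_cast]
    ring_nf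
    exact Int.ModEq.refl _

theorem ar_W0 (J j s : ℕ) : Wr J j s s := ⟨0, Or.inl rfl, by simp⟩

theorem ar_W1 (J j a b : ℕ) (hj : 1 ≤ j) (h : Fr J j a b) : Wr J j a b := by
  obtain ⟨e, he, h⟩ := h
  exact ⟨e, Or.inr (Or.inl ⟨hj, he⟩), h⟩

theorem ar_W2 (J j s : ℕ) (h1 : 1 ≤ j) (h2 : j < J) : Wr J 0 (arFil J j s) s := by
  refine ⟨-ep j, Or.inr (Or.inr ⟨rfl, Or.inr (Or.inr ⟨j, h1, h2, Or.inl rfl⟩)⟩), ?_⟩
  have := (ar_fil_mod J j s).symm.sub_left (s : ℤ)
  refine this.symm.trans ?_
  ring_nf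
  exact Int.ModEq.refl _

theorem ar_W3 (J j s : ℕ) (h1 : 1 ≤ j) (h2 : j < J) :
    Wr J 0 (arFil J j s) (arStar j s) := by
  rcases ar_star_cases j s with h | h
  · refine ⟨-ep j + dl j, Or.inr (Or.inr ⟨rfl, Or.inr (Or.inr ⟨j, h1, h2,
      Or.inr (Or.inr rfl)⟩)⟩), ?_⟩
    have := (ar_fil_mod J j s).symm.sub_left ((arStar j s : ℕ) : ℤ)
    refine this.symm.trans ?_
    rw [h, ← ar_dl_cast]
    push_cast
    ring_nf
    exact Int.ModEq.refl _
  · refine ⟨-ep j - dl j, Or.inr (Or.inr ⟨rfl, Or.inr (Or.inr ⟨j, h1, h2,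
      Or.inr (Or.inl rfl)⟩)⟩), ?_⟩
    have := (ar_fil_mod J j s).symm.sub_left ((arStar j s : ℕ) : ℤ)
    refine this.symm.trans ?_
    have h' : (s : ℤ) = arStar j s + arDl j := by exact_mod_cast h.symm
    rw [h', ← ar_dl_cast]
    ring_nf
    exact Int.ModEq.refl _

theorem ar_W4 (J a b : ℕ) (h : b = a ∨ b = a + 1) (c : ℕ) (h' : c = a ∨ c = a + 1) :
    Wr J 0 b c := by
  rcases h with rfl | rfl <;> rcases h' with rfl | rfl
  · exact ar_W0 _ _ _
  · exact ⟨1, Or.inr (Or.inr ⟨rfl, Or.inl rfl⟩), by push_cast; ring_nf; exact Int.ModEq.refl _⟩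
  · exact ⟨-1, Or.inr (Or.inr ⟨rfl, Or.inr (Or.inl rfl)⟩),
      by push_cast; ring_nf; exact Int.ModEq.refl _⟩
  · exact ar_W0 _ _ _

theorem ar_goodG (k J j s : ℕ) (h1 : 1 ≤ j) (h2 : j < J) : GoodBlk k J (arG k J j s) := by
  refine ⟨?_, ?_, ?_, ?_⟩
  · simp only [List.map_append, List.map_replicate, List.sum_append, List.sum_replicate, arT]
    simp only [smul_eq_mul, pow_zero, mul_one]
    exact Nat.div_add_mod' _ _
  · simp only [List.map_append, List.map_replicate, List.sum_append, List.sum_replicate, arT]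
    simp only [smul_eq_mul, pow_zero, mul_one]
    exact Nat.div_add_mod' _ _
  · intro a ha b hb
    rw [List.mem_append] at ha hb
    have F1 := ar_F1 J j s
    have F1' := ar_F1' J j s
    have F2 := ar_F2 J j s
    have F3 := ar_F3 J j s
    rcases ha with ha | ha <;> rcases hb with hb | hb <;>
      rw [List.eq_of_mem_replicate ha, List.eq_of_mem_replicate hb]
    · exact ⟨fun _ => F1, fun _ => F1'⟩
    · exact ⟨fun _ => F2, fun h => absurd h (by simp [arT])⟩
    · exact ⟨fun h => absurd h (by simp [arT]), fun _ => F3⟩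
    · exact ⟨fun h => absurd h (by simp [arT]), fun h => absurd h (by simp [arT])⟩
  · intro a ha b hb
    have key : ∀ a ∈ (List.replicate (k / 2 ^ j) (arT j s) ++
        List.replicate (k % 2 ^ j) (arT 0 (arFil J j s))) ++
        (List.replicate ((k - 1) / 2 ^ j) (arT j (arStar j s)) ++
      List.replicate ((k - 1) % 2 ^ j) (arT 0 (arFil J j s))),
      a = arT j s ∨ a = arT j (arStar j s) ∨ a = arT 0 (arFil J j s) := by
      intro a ha
      simp only [List.mem_append] at ha
      rcases ha with (ha | ha) | (ha | ha) <;> have := List.eq_of_mem_replicate ha <;> tauto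
    rcases key a ha with rfl | rfl | rfl <;> rcases key b hb with rfl | rfl | rfl
    · exact ar_W0 _ _ _
    · exact ar_W1 _ _ _ _ h1 (ar_F1 J j s)
    · exact ar_W1 _ _ _ _ h1 (ar_F2 J j s)
    · exact ar_W1 _ _ _ _ h1 (ar_F1' J j s)
    · exact ar_W0 _ _ _
    · exact ar_W1 _ _ _ _ h1 (ar_F3 J j s)
    · exact ar_W2 _ _ _ h1 h2
    · exact ar_W3 _ _ _ h1 h2
    · exact ar_W0 _ _ _

theorem ar_goodS (k J j s : ℕ) (h1 : 1 ≤ j) (h2 : j < J) (h3 : 2 ^ j ≤ k) :
    GoodBlk k J (arS k J j s) := by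
  refine ⟨?_, ?_, ?_, ?_⟩
  · simp only [List.map_cons, List.map_replicate, List.sum_cons, List.sum_replicate, arT]
    simp only [smul_eq_mul, pow_zero, mul_one]
    omega
  · simp only [List.map_replicate, List.sum_replicate, arT]
    simp only [smul_eq_mul, pow_zero, mul_one]
  · intro a ha b hb
    rw [List.eq_of_mem_replicate hb]
    rcases List.mem_cons.1 ha with rfl | ha
    · exact ⟨fun _ => ar_F2 J j s, fun h => absurd h (by simp [arT])⟩
    · rw [List.eq_of_mem_replicate ha]
      exact ⟨fun h => absurd h (by simp [arT]), fun h => absurd h (by simp [arT])⟩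
  · intro a ha b hb
    have key : ∀ a ∈ (arT j s :: List.replicate (k - 2 ^ j) (arT 0 (arFil J j s))) ++
        (List.replicate (k - 1) (arT 0 (arFil J j s))),
      a = arT j s ∨ a = arT 0 (arFil J j s) := by
      intro a ha
      simp only [List.mem_append, List.mem_cons] at ha
      rcases ha with (ha | ha) | ha
      · left; exact ha
      · right; exact List.eq_of_mem_replicate ha
      · right; exact List.eq_of_mem_replicate ha
    rcases key a ha with rfl | rfl <;> rcases key b hb with rfl | rfl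
    · exact ar_W0 _ _ _
    · exact ar_W1 _ _ _ _ h1 (ar_F2 J j s)
    · exact ar_W2 _ _ _ h1 h2
    · exact ar_W0 _ _ _

theorem ar_goodGd (k J : ℕ) : GoodBlk k J (arGd k) := by
  have e1 : arStar 1 0 = arDl 1 := by simp [arStar]
  have F1 := ar_F1 J 1 0
  have F1' := ar_F1' J 1 0
  rw [e1] at F1 F1'
  refine ⟨by simp, ?_, ?_⟩
  · intro p hp
    rw [List.eq_of_mem_replicate hp]
    exact ⟨rfl, rfl, F1, F1'⟩
  · intro a ha b hb
    have key : ∀ a ∈ unpair (List.replicate (k / 2) (arT 1 0, arT 1 (arDl 1))),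
      a = arT 1 0 ∨ a = arT 1 (arDl 1) := by
      intro a ha
      unfold unpair at ha
      obtain ⟨p, hp, ha⟩ := List.mem_flatMap.1 ha
      rw [List.eq_of_mem_replicate hp] at ha
      simpa using ha
    rcases key a ha with rfl | rfl <;> rcases key b hb with rfl | rfl
    · exact ar_W0 _ _ _
    · exact ar_W1 _ _ _ _ le_rfl F1
    · exact ar_W1 _ _ _ _ le_rfl F1'
    · exact ar_W0 _ _ _

theorem ar_goodPl (k J u v a : ℕ) (hk : 1 ≤ k) (huv : u + v = 2 * k - 1) :
    GoodBlk k J (arPl k u v a) := by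
  have hmem : ∀ x ∈ (List.replicate u (arT 0 a) ++ List.replicate v (arT 0 (a + 1))),
      x = arT 0 a ∨ x = arT 0 (a + 1) := by
    intro x hx
    rw [List.mem_append] at hx
    rcases hx with hx | hx
    · left; exact List.eq_of_mem_replicate hx
    · right; exact List.eq_of_mem_replicate hx
  have hlev : ∀ x ∈ (List.replicate u (arT 0 a) ++ List.replicate v (arT 0 (a + 1))),
      x.lev = 0 := by
    intro x hx
    rcases hmem x hx with rfl | rfl <;> rfl
  have hsum : ∀ l : List (Tg Unit), (∀ x ∈ l, x.lev = 0) →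
      (l.map fun a => 2 ^ a.lev).sum = l.length := by
    intro l
    induction l with
    | nil => intro _; rfl
    | cons b t ih =>
      intro h
      rw [List.map_cons, List.sum_cons, ih (fun x hx => h x (List.mem_cons_of_mem _ hx)),
        h b List.mem_cons_self, List.length_cons]
      simp [add_comm]
  have hlen : (List.replicate u (arT 0 a) ++ List.replicate v (arT 0 (a + 1))).length =
      2 * k - 1 := by simp [huv]
  refine ⟨?_, ?_, ?_, ?_⟩
  · rw [hsum _ (fun x hx => hlev x (List.mem_of_mem_take hx)), List.length_take, hlen]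
    omega
  · rw [hsum _ (fun x hx => hlev x (List.mem_of_mem_drop hx)), List.length_drop, hlen]
    omega
  · intro x hx y hy
    have hx0 := hlev x (List.mem_of_mem_take hx)
    have hy0 := hlev y (List.mem_of_mem_drop hy)
    exact ⟨fun h => by omega, fun h => by omega⟩
  · intro x hx y hy
    rw [List.take_append_drop] at hx hy
    have hx0 := hlev x hx
    have h1 : x.seg = a ∨ x.seg = a + 1 := by
      rcases hmem x hx with rfl | rfl
      · left; rfl
      · right; rfl
    have h2 : y.seg = a ∨ y.seg = a + 1 := by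
      rcases hmem y hy with rfl | rfl
      · left; rfl
      · right; rfl
    rw [hx0]
    exact ar_W4 J a _ h1 _ h2

end blocks

end Pool.Agent.Lib_helper4.Asy

namespace Pool.Agent.Lib_helper4.Asy

section multisets

noncomputable def arPhi : Multiset (Blk (Tg Unit)) →+ Multiset (Tg Unit) :=
  Multiset.sumAddMonoidHom.comp
    (Multiset.mapAddMonoidHom (fun b => (b.objs : Multiset (Tg Unit))))

theorem arPhi_single (b : Blk (Tg Unit)) : arPhi {b} = (b.objs : Multiset (Tg Unit)) := by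
  simp [arPhi]

theorem arPhi_coe (l : List (Blk (Tg Unit))) :
    arPhi (l : Multiset (Blk (Tg Unit))) = ((l.flatMap Blk.objs : List (Tg Unit)) :
      Multiset (Tg Unit)) := by
  induction l with
  | nil => simp
  | cons b t ih =>
    rw [← Multiset.cons_coe, ← Multiset.singleton_add, map_add, ih, arPhi_single,
      List.flatMap_cons, Multiset.coe_add]

noncomputable def arWt : Multiset (Tg Unit) →+ ℕ :=
  Multiset.sumAddMonoidHom.comp (Multiset.mapAddMonoidHom (fun a => 2 ^ a.lev))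

theorem arWt_single (a : Tg Unit) : arWt {a} = 2 ^ a.lev := by simp [arWt]

theorem arWt_coe (l : List (Tg Unit)) :
    arWt (l : Multiset (Tg Unit)) = (l.map fun a => 2 ^ a.lev).sum := by
  simp [arWt]

theorem arWt_ob (k J : ℕ) (hk : 1 ≤ k) (As Bs : List (Tg Unit)) (h : GoodOb k J As Bs) :
    arWt (arPhi {Blk.ob As Bs}) = 2 * k - 1 := by
  rw [arPhi_single, arWt_coe]
  simp only [Blk.objs, List.map_append, List.sum_append]
  rw [h.1, h.2.1]
  omega

theorem ar_phiG (k J j s : ℕ) : arPhi {arG k J j s} =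
    (k / 2 ^ j) • ({arT j s} : Multiset (Tg Unit)) + (k % 2 ^ j) • {arT 0 (arFil J j s)} +
      (((k - 1) / 2 ^ j) • {arT j (arStar j s)} + ((k - 1) % 2 ^ j) • {arT 0 (arFil J j s)}) := by
  rw [arPhi_single]
  simp only [arG, Blk.objs, Multiset.nsmul_singleton]
  rw [← Multiset.coe_add, ← Multiset.coe_add, ← Multiset.coe_add]
  simp only [Multiset.coe_replicate]

theorem ar_phiS (k J j s : ℕ) : arPhi {arS k J j s} =
    ({arT j s} : Multiset (Tg Unit)) + (k - 2 ^ j) • {arT 0 (arFil J j s)} +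
      (k - 1) • {arT 0 (arFil J j s)} := by
  rw [arPhi_single]
  simp only [arS, Blk.objs, Multiset.nsmul_singleton]
  rw [← Multiset.coe_add, ← Multiset.cons_coe]
  simp only [Multiset.coe_replicate]
  rw [Multiset.singleton_add]

theorem ar_phiGd (k : ℕ) : arPhi {arGd k} =
    (k / 2) • (({arT 1 0} : Multiset (Tg Unit)) + {arT 1 (arDl 1)}) := by
  rw [arPhi_single]
  simp only [arGd, Blk.objs]
  generalize k / 2 = n
  induction n with
  | zero => simp [unpair]
  | succ n ih =>
    have : unpair (List.replicate (n + 1) (arT 1 0, arT 1 (arDl 1))) =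
        arT 1 0 :: arT 1 (arDl 1) :: unpair (List.replicate n (arT 1 0, arT 1 (arDl 1))) := by
      simp [unpair, List.replicate_succ]
    rw [this, ← Multiset.cons_coe, ← Multiset.cons_coe, ih, succ_nsmul]
    rw [← Multiset.singleton_add, ← Multiset.singleton_add (arT 1 (arDl 1))]
    abel

theorem ar_phiPl (k u v a : ℕ) : arPhi {arPl k u v a} =
    u • ({arT 0 a} : Multiset (Tg Unit)) + v • {arT 0 (a + 1)} := by
  rw [arPhi_single]
  simp only [arPl, Blk.objs, Multiset.nsmul_singleton]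
  rw [List.take_append_drop, ← Multiset.coe_add]
  simp only [Multiset.coe_replicate]

theorem arWt_T (j s : ℕ) : arWt {arT j s} = 2 ^ j := arWt_single _

/-! ### bijections of the segments -/

theorem ar_dvd (J j : ℕ) (hj : j < J) : arDl j * 2 ∣ QQ J := by
  unfold arDl QQ
  have : (64 : ℕ) ^ (2 * j) * 2 ∣ 64 ^ (2 * j) * 64 := Nat.mul_dvd_mul_left _ (by norm_num)
  refine this.trans ?_
  rw [← pow_succ]
  exact pow_dvd_pow _ (by omega)

theorem ar_star_lt (J j s : ℕ) (hj : j < J) (hs : s < QQ J) : arStar j s < QQ J := by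
  obtain ⟨c, hc⟩ := ar_dvd J j hj
  have h2 : 0 < arDl j := by unfold arDl; positivity
  unfold arStar
  split_ifs with h
  · have h3 : s / arDl j < 2 * c := by
      rw [Nat.div_lt_iff_lt_mul h2]
      calc s < QQ J := hs
        _ = arDl j * 2 * c := hc
        _ = 2 * c * arDl j := by ring
    have h4 : s / arDl j + 1 < 2 * c := by
      generalize s / arDl j = q at h h3
      omega
    have h5 : s < (s / arDl j + 1) * arDl j := Nat.lt_mul_of_div_lt (by omega) h2
    have h6 : (s / arDl j + 1 + 1) * arDl j ≤ 2 * c * arDl j := Nat.mul_le_mul_right _ (by omega)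
    rw [hc]
    nlinarith
  · omega

theorem ar_star_star (j s : ℕ) : arStar j (arStar j s) = s := by
  have h2 : 0 < arDl j := by unfold arDl; positivity
  by_cases h : (s / arDl j) % 2 = 0
  · have e : arStar j s = s + arDl j := by simp [arStar, h]
    rw [e]
    have e2 : (s + arDl j) / arDl j = s / arDl j + 1 := Nat.add_div_right _ h2
    unfold arStar
    rw [e2]
    have : ¬ (s / arDl j + 1) % 2 = 0 := by
      generalize s / arDl j = q at h
      omega
    rw [if_neg this]
    omega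
  · have h3 : arStar j s + arDl j = s := by
      rcases ar_star_cases j s with h' | h'
      · exfalso
        unfold arStar at h'
        rw [if_neg h] at h'
        omega
      · exact h'
    generalize arStar j s = t at h3
    subst h3
    have e2 : (t + arDl j) / arDl j = t / arDl j + 1 := Nat.add_div_right _ h2
    rw [e2] at h
    unfold arStar
    have : (t / arDl j) % 2 = 0 := by
      generalize t / arDl j = q at h
      omega
    rw [if_pos this]

def arInv (J j t : ℕ) : ℕ := (t + (QQ J - arEp j)) % QQ J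

theorem ar_ep_lt (J j : ℕ) (hj : j < J) : arEp j < QQ J := by
  unfold arEp QQ
  exact Nat.pow_lt_pow_right (by norm_num) (by omega)

theorem ar_Q_pos (J : ℕ) : 0 < QQ J := by unfold QQ; positivity

theorem ar_fil_lt (J j s : ℕ) : arFil J j s < QQ J := Nat.mod_lt _ (ar_Q_pos J)
theorem ar_inv_lt (J j s : ℕ) : arInv J j s < QQ J := Nat.mod_lt _ (ar_Q_pos J)

theorem ar_inv_fil (J j s : ℕ) (hj : j < J) (hs : s < QQ J) : arInv J j (arFil J j s) = s := by
  have h := ar_ep_lt J j hj
  unfold arInv arFil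
  rw [Nat.mod_add_mod]
  have : s + arEp j + (QQ J - arEp j) = s + QQ J := by omega
  rw [this, Nat.add_mod_right, Nat.mod_eq_of_lt hs]

theorem ar_fil_inv (J j s : ℕ) (hj : j < J) (hs : s < QQ J) : arFil J j (arInv J j s) = s := by
  have h := ar_ep_lt J j hj
  unfold arInv arFil
  rw [Nat.mod_add_mod]
  have : s + (QQ J - arEp j) + arEp j = s + QQ J := by omega
  rw [this, Nat.add_mod_right, Nat.mod_eq_of_lt hs]

def arGdc (k g j s : ℕ) : ℕ := if j = 1 ∧ (s = 0 ∨ s = arDl 1) then g * (k / 2) else 0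

theorem ar_level (k J j : ℕ) (hj : j < J) (h : ℕ) (lf : ℕ → ℕ) :
    arPhi (∑ s ∈ Finset.range (QQ J), (h • {arG k J j s} + lf s • {arS k J j s})) =
    ∑ s ∈ Finset.range (QQ J), (h * (k / 2 ^ j + (k - 1) / 2 ^ j) + lf s) •
      ({arT j s} : Multiset (Tg Unit)) +
    ∑ t ∈ Finset.range (QQ J), (h * (k % 2 ^ j + (k - 1) % 2 ^ j) +
      lf (arInv J j t) * (k - 2 ^ j + (k - 1))) • ({arT 0 t} : Multiset (Tg Unit)) := by
  rw [map_sum]
  have e1 : ∀ s, arPhi (h • {arG k J j s} + lf s • {arS k J j s}) =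
      (h * (k / 2 ^ j) + lf s) • ({arT j s} : Multiset (Tg Unit)) +
      (h * ((k - 1) / 2 ^ j)) • ({arT j (arStar j s)} : Multiset (Tg Unit)) +
      (h * (k % 2 ^ j + (k - 1) % 2 ^ j) + lf s * (k - 2 ^ j + (k - 1))) •
        ({arT 0 (arFil J j s)} : Multiset (Tg Unit)) := by
    intro s
    rw [map_add, map_nsmul, map_nsmul, ar_phiG, ar_phiS]
    simp only [smul_add, add_smul, mul_add, smul_smul]
    abel
  rw [Finset.sum_congr rfl fun s _ => e1 s, Finset.sum_add_distrib, Finset.sum_add_distrib]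
  have e2 : ∑ s ∈ Finset.range (QQ J),
      (h * ((k - 1) / 2 ^ j)) • ({arT j (arStar j s)} : Multiset (Tg Unit)) =
      ∑ s ∈ Finset.range (QQ J), (h * ((k - 1) / 2 ^ j)) • ({arT j s} : Multiset (Tg Unit)) := by
    refine Finset.sum_nbij' (arStar j) (arStar j) ?_ ?_ ?_ ?_ ?_
    · intro s hs
      exact Finset.mem_range.2 (ar_star_lt J j s hj (Finset.mem_range.1 hs))
    · intro s hs
      exact Finset.mem_range.2 (ar_star_lt J j s hj (Finset.mem_range.1 hs))
    · intro s _; exact ar_star_star j s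
    · intro s _; exact ar_star_star j s
    · intro s _; rfl
  have e3 : ∑ s ∈ Finset.range (QQ J),
      (h * (k % 2 ^ j + (k - 1) % 2 ^ j) + lf s * (k - 2 ^ j + (k - 1))) •
        ({arT 0 (arFil J j s)} : Multiset (Tg Unit)) =
      ∑ t ∈ Finset.range (QQ J), (h * (k % 2 ^ j + (k - 1) % 2 ^ j) +
      lf (arInv J j t) * (k - 2 ^ j + (k - 1))) • ({arT 0 t} : Multiset (Tg Unit)) := by
    refine Finset.sum_nbij' (arFil J j) (arInv J j) ?_ ?_ ?_ ?_ ?_
    · intro s hs
      exact Finset.mem_range.2 (ar_fil_lt J j s)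
    · intro s hs
      exact Finset.mem_range.2 (ar_inv_lt J j s)
    · intro s hs; exact ar_inv_fil J j s hj (Finset.mem_range.1 hs)
    · intro s hs; exact ar_fil_inv J j s hj (Finset.mem_range.1 hs)
    · intro s hs
      rw [ar_inv_fil J j s hj (Finset.mem_range.1 hs)]
  rw [e2, e3, ← Finset.sum_add_distrib]
  congr 1
  refine Finset.sum_congr rfl fun s _ => ?_
  rw [← add_smul]
  congr 1
  ring

theorem ar_main (k J : ℕ) (hJ : 2 ≤ J) (g : ℕ) (h : ℕ → ℕ) (lf : ℕ → ℕ → ℕ) :
    arPhi (∑ j ∈ Finset.Ico 1 J, ∑ s ∈ Finset.range (QQ J),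
        (h j • {arG k J j s} + lf j s • {arS k J j s}) + g • {arGd k}) =
      ∑ j ∈ Finset.Ico 1 J, ∑ s ∈ Finset.range (QQ J),
        (h j * (k / 2 ^ j + (k - 1) / 2 ^ j) + lf j s + arGdc k g j s) •
          ({arT j s} : Multiset (Tg Unit)) +
      ∑ t ∈ Finset.range (QQ J), (∑ j ∈ Finset.Ico 1 J,
        (h j * (k % 2 ^ j + (k - 1) % 2 ^ j) + lf j (arInv J j t) * (k - 2 ^ j + (k - 1)))) •
          ({arT 0 t} : Multiset (Tg Unit)) := by
  rw [map_add, map_sum, Finset.sum_congr rfl fun j hj =>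
    ar_level k J j (Finset.mem_Ico.1 hj).2 (h j) (lf j)]
  rw [Finset.sum_add_distrib]
  have e1 : ∑ t ∈ Finset.range (QQ J), (∑ j ∈ Finset.Ico 1 J,
        (h j * (k % 2 ^ j + (k - 1) % 2 ^ j) + lf j (arInv J j t) * (k - 2 ^ j + (k - 1)))) •
          ({arT 0 t} : Multiset (Tg Unit)) =
      ∑ j ∈ Finset.Ico 1 J, ∑ t ∈ Finset.range (QQ J), 
        (h j * (k % 2 ^ j + (k - 1) % 2 ^ j) + lf j (arInv J j t) * (k - 2 ^ j + (k - 1))) •
          ({arT 0 t} : Multiset (Tg Unit)) := by
    rw [Finset.sum_comm]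
    refine Finset.sum_congr rfl fun t _ => ?_
    rw [Finset.sum_smul]
  rw [e1]
  have e2 : arPhi (g • {arGd k}) = ∑ j ∈ Finset.Ico 1 J, ∑ s ∈ Finset.range (QQ J),
        (arGdc k g j s) • ({arT j s} : Multiset (Tg Unit)) := by
    rw [map_nsmul, ar_phiGd]
    have e3 : ∑ j ∈ Finset.Ico 1 J, ∑ s ∈ Finset.range (QQ J),
        (arGdc k g j s) • ({arT j s} : Multiset (Tg Unit)) =
        ∑ s ∈ Finset.range (QQ J), (arGdc k g 1 s) • ({arT 1 s} : Multiset (Tg Unit)) := by
      refine Finset.sum_eq_single 1 ?_ ?_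
      · intro j _ hj
        refine Finset.sum_eq_zero fun s _ => ?_
        simp [arGdc, hj]
      · intro h
        exact absurd (Finset.mem_Ico.2 ⟨le_rfl, by omega⟩) h
    rw [e3]
    have hd : 0 < arDl 1 := by unfold arDl; positivity
    have hd2 : arDl 1 < QQ J := by
      unfold arDl QQ
      exact Nat.pow_lt_pow_right (by norm_num) (by omega)
    have e4 : ∀ s, (arGdc k g 1 s) • ({arT 1 s} : Multiset (Tg Unit)) =
        (if s = 0 then (g * (k / 2)) • ({arT 1 s} : Multiset (Tg Unit)) else 0) +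
        (if s = arDl 1 then (g * (k / 2)) • ({arT 1 s} : Multiset (Tg Unit)) else 0) := by
      intro s
      unfold arGdc
      by_cases h1 : s = 0
      · subst h1
        have h2 : ¬ (0 = arDl 1) := by omega
        simp [h2]
      · by_cases h2 : s = arDl 1
        · simp [h2, hd.ne']
        · simp [h1, h2]
    rw [Finset.sum_congr rfl fun s _ => e4 s, Finset.sum_add_distrib,
      Finset.sum_ite_eq' (Finset.range (QQ J)) 0, Finset.sum_ite_eq' (Finset.range (QQ J)) (arDl 1)]
    rw [if_pos (Finset.mem_range.2 (ar_Q_pos J)), if_pos (Finset.mem_range.2 hd2)]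
    rw [mul_smul, mul_smul, ← smul_add, ← smul_add]
  rw [e2]
  have e5 : ∑ j ∈ Finset.Ico 1 J, ∑ s ∈ Finset.range (QQ J),
        (h j * (k / 2 ^ j + (k - 1) / 2 ^ j) + lf j s + arGdc k g j s) •
          ({arT j s} : Multiset (Tg Unit)) =
      ∑ j ∈ Finset.Ico 1 J, ∑ s ∈ Finset.range (QQ J),
        (h j * (k / 2 ^ j + (k - 1) / 2 ^ j) + lf j s) • ({arT j s} : Multiset (Tg Unit)) +
      ∑ j ∈ Finset.Ico 1 J, ∑ s ∈ Finset.range (QQ J),
        (arGdc k g j s) • ({arT j s} : Multiset (Tg Unit)) := by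
    rw [← Finset.sum_add_distrib]
    refine Finset.sum_congr rfl fun j _ => ?_
    rw [← Finset.sum_add_distrib]
    refine Finset.sum_congr rfl fun s _ => ?_
    rw [← add_smul]
  rw [e5]
  abel

end multisets

section chunks

theorem arr_chunk (k J : ℕ) (hk : 2 ≤ k) (r : ℕ → ℕ) : ∀ (n a p : ℕ),
    (∀ i < n, 2 * k - 1 ≤ r (a + 1 + i)) →
    (2 * k - 1) ∣ p + ∑ i ∈ Finset.range n, r (a + 1 + i) →
    ∃ P : Multiset (Blk (Tg Unit)), (∀ b ∈ P, GoodBlk k J b) ∧
      arPhi P = p • ({arT 0 a} : Multiset (Tg Unit)) +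
        ∑ i ∈ Finset.range n, r (a + 1 + i) • ({arT 0 (a + 1 + i)} : Multiset (Tg Unit)) := by
  intro n
  induction n with
  | zero =>
    intro a p _ hd
    simp only [Finset.range_zero, Finset.sum_empty, add_zero] at hd ⊢
    obtain ⟨x, rfl⟩ := hd
    refine ⟨x • {arPl k (2 * k - 1) 0 a}, ?_, ?_⟩
    · intro b hb
      have := Multiset.mem_of_mem_nsmul hb
      rw [Multiset.mem_singleton] at this
      rw [this]
      exact ar_goodPl k J _ _ a (by omega) (by omega)
    · rw [map_nsmul, ar_phiPl, zero_smul, add_zero, smul_smul, mul_comm]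
  | succ n ih =>
    intro a p hr hd
    have hsum : ∑ i ∈ Finset.range (n + 1), r (a + 1 + i) =
        r (a + 1) + ∑ i ∈ Finset.range n, r (a + 1 + 1 + i) := by
      rw [Finset.sum_range_succ', add_comm, add_zero]
      congr 1
      refine Finset.sum_congr rfl fun i _ => ?_
      congr 1
      ring
    have hsum2 : ∑ i ∈ Finset.range (n + 1), r (a + 1 + i) •
        ({arT 0 (a + 1 + i)} : Multiset (Tg Unit)) =
        r (a + 1) • ({arT 0 (a + 1)} : Multiset (Tg Unit)) +
        ∑ i ∈ Finset.range n, r (a + 1 + 1 + i) •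
          ({arT 0 (a + 1 + 1 + i)} : Multiset (Tg Unit)) := by
      rw [Finset.sum_range_succ', add_comm, add_zero]
      congr 1
      refine Finset.sum_congr rfl fun i _ => ?_
      have : a + 1 + (i + 1) = a + 1 + 1 + i := by ring
      rw [this]
    rw [hsum] at hd
    rw [hsum2]
    have hr0 : 2 * k - 1 ≤ r (a + 1) := by simpa using hr 0 (by omega)
    have hr' : ∀ i < n, 2 * k - 1 ≤ r (a + 1 + 1 + i) := by
      intro i hi
      have := hr (i + 1) (by omega)
      have e : a + 1 + (i + 1) = a + 1 + 1 + i := by ring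
      rwa [e] at this
    set w := 2 * k - 1 with hw
    have hwpos : 0 < w := by omega
    set x := p / w with hx
    set p' := p % w with hp'
    have hpx : w * x + p' = p := Nat.div_add_mod p w
    have hp'lt : p' < w := Nat.mod_lt _ hwpos
    set S := ∑ i ∈ Finset.range n, r (a + 1 + 1 + i) with hS
    by_cases h0 : p' = 0
    · obtain ⟨P, hP1, hP2⟩ := ih (a + 1) (r (a + 1)) hr' (by
        rw [← hpx, h0, add_zero] at hd
        exact (Nat.dvd_add_right (Dvd.intro _ rfl)).1 hd)
      refine ⟨x • {arPl k w 0 a} + P, ?_, ?_⟩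
      · intro b hb
        rcases Multiset.mem_add.1 hb with hb | hb
        · have := Multiset.mem_of_mem_nsmul hb
          rw [Multiset.mem_singleton] at this
          rw [this]
          exact ar_goodPl k J _ _ a (by omega) (by omega)
        · exact hP1 b hb
      · rw [map_add, map_nsmul, ar_phiPl, zero_smul, add_zero, smul_smul, hP2, ← hpx, h0,
          add_zero, mul_comm w x]
    · have hp'pos : 0 < p' := Nat.pos_of_ne_zero h0
      obtain ⟨P, hP1, hP2⟩ := ih (a + 1) (r (a + 1) - (w - p')) hr' (by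
        have e : p + (r (a + 1) + S) = w * (x + 1) + (r (a + 1) - (w - p') + S) := by
          rw [← hpx, Nat.mul_succ]
          omega
        rw [e] at hd
        exact (Nat.dvd_add_right (Dvd.intro _ rfl)).1 hd)
      refine ⟨x • {arPl k w 0 a} + {arPl k p' (w - p') a} + P, ?_, ?_⟩
      · intro b hb
        rcases Multiset.mem_add.1 hb with hb | hb
        · rcases Multiset.mem_add.1 hb with hb | hb
          · have := Multiset.mem_of_mem_nsmul hb
            rw [Multiset.mem_singleton] at this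
            rw [this]
            exact ar_goodPl k J _ _ a (by omega) (by omega)
          · rw [Multiset.mem_singleton] at hb
            rw [hb]
            exact ar_goodPl k J _ _ a (by omega) (by omega)
        · exact hP1 b hb
      · rw [map_add, map_add, map_nsmul, ar_phiPl, ar_phiPl, zero_smul, add_zero, smul_smul, hP2]
        have e1 : p • ({arT 0 a} : Multiset (Tg Unit)) =
            (x * w) • {arT 0 a} + p' • {arT 0 a} := by
          rw [← add_smul, mul_comm x w, hpx]
        have e2 : r (a + 1) • ({arT 0 (a + 1)} : Multiset (Tg Unit)) =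
            (w - p') • {arT 0 (a + 1)} + (r (a + 1) - (w - p')) • {arT 0 (a + 1)} := by
          rw [← add_smul]
          congr 1
          omega
        rw [e1, e2]
        abel

/-- all remaining dominoes -/
theorem arr_chunk' (k J Q : ℕ) (hk : 2 ≤ k) (hQ : 0 < Q) (r : ℕ → ℕ)
    (hr : ∀ i < Q, 2 * k - 1 ≤ r i) (hd : (2 * k - 1) ∣ ∑ i ∈ Finset.range Q, r i) :
    ∃ P : Multiset (Blk (Tg Unit)), (∀ b ∈ P, GoodBlk k J b) ∧
      arPhi P = ∑ i ∈ Finset.range Q, r i • ({arT 0 i} : Multiset (Tg Unit)) := by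
  obtain ⟨n, rfl⟩ : ∃ n, Q = n + 1 := ⟨Q - 1, by omega⟩
  obtain ⟨P, hP1, hP2⟩ := arr_chunk k J hk r n 0 (r 0) (fun i hi => by
      have := hr (i + 1) (by omega)
      rwa [zero_add, add_comm 1 i]) (by
      rw [Finset.sum_range_succ', add_comm] at hd
      convert hd using 3
      ring_nf)
  refine ⟨P, hP1, ?_⟩
  rw [hP2, Finset.sum_range_succ', add_comm]
  congr 1
  refine Finset.sum_congr rfl fun i _ => ?_
  have : 0 + 1 + i = i + 1 := by ring
  rw [this]

end chunks

end Pool.Agent.Lib_helper4.Asy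

namespace Pool.Agent.Lib_helper4.Asy

section numbers

theorem ar_J2 (k : ℕ) : 2 ≤ lvJ k := le_max_left _ _

theorem ar_Jk (k : ℕ) (hk : 2 ≤ k) : lvJ k ≤ k := by
  unfold lvJ
  refine max_le hk ?_
  exact (Nat.clog_le_iff_le_pow (by norm_num)).2 (Nat.lt_two_pow_self).le

theorem ar_pow_le (k j : ℕ) (hk : 2 ≤ k) (h1 : 1 ≤ j) (hj : j < lvJ k) :
    2 ^ j ≤ k ∧ (3 ≤ k → 2 ^ j + 1 ≤ k) := by
  by_cases h : j < Nat.clog 2 k
  · have := (Nat.lt_clog_iff_pow_lt (by norm_num)).1 h
    omega
  · unfold lvJ at hj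
    have h2 : j < 2 := by
      rcases lt_max_iff.1 hj with h3 | h3
      · exact h3
      · exact absurd h3 h
    have h3 : j = 1 := by omega
    subst h3
    omega

theorem ar_y (k m : ℕ) (hk : 1 ≤ k) (hm : 2 ≤ m) : k % m + (k - 1) % m + 3 ≤ 2 * m := by
  obtain ⟨c, rfl⟩ : ∃ c, k = c + 1 := ⟨k - 1, by omega⟩
  simp only [Nat.add_sub_cancel]
  have hr : c % m < m := Nat.mod_lt _ (by omega)
  rw [Nat.add_mod]
  have h1 : 1 % m = 1 := Nat.mod_eq_of_lt (by omega)
  rw [h1]
  by_cases h : c % m + 1 = m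
  · rw [h, Nat.mod_self]
    omega
  · rw [Nat.mod_eq_of_lt (by omega)]
    omega

theorem ar_geom (J : ℕ) : ∀ r, r ≤ J →
    (∑ j ∈ Finset.Ico 1 (r + 1), ((2 * 2 ^ j - 3 : ℤ)) * 4 ^ (J - j)) =
      4 ^ (J - r) * (2 ^ r - 1) ^ 2 := by
  intro r
  induction r with
  | zero => intro _; simp
  | succ r ih =>
    intro hr
    rw [Finset.sum_Ico_succ_top (by omega), ih (by omega)]
    have h1 : J - r = (J - (r + 1)) + 1 := by omega
    rw [h1]
    generalize J - (r + 1) = t
    have h4 : ((2 : ℤ) ^ r) ^ 2 = 4 ^ r := by rw [← pow_mul, mul_comm, pow_mul]; norm_num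
    rw [pow_succ (4 : ℤ) t, pow_succ (2 : ℤ) r]
    ring

theorem ar_budget (k M : ℕ) (hk : 2 ≤ k) (h : ℕ → ℕ)
    (hh : ∀ j, 1 ≤ j → j < lvJ k →
      h j * (k / 2 ^ j + (k - 1) / 2 ^ j) ≤ 4 ^ (lvJ k - j) * M) :
    2 * ∑ j ∈ Finset.Ico 1 (lvJ k), h j * (k % 2 ^ j + (k - 1) % 2 ^ j) ≤ 4 ^ (lvJ k) * M := by
  by_cases hk2 : k = 2
  · subst hk2
    have hJ : lvJ 2 = 2 := le_antisymm (ar_Jk 2 le_rfl) (ar_J2 2)
    rw [hJ] at hh ⊢
    have := hh 1 le_rfl (by norm_num)
    rw [Finset.sum_Ico_succ_top (by norm_num), Finset.Ico_self, Finset.sum_empty]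
    norm_num at this ⊢
    omega
  · have hk3 : 3 ≤ k := by omega
    have hJ := ar_J2 k
    obtain ⟨r, hr⟩ : ∃ r, lvJ k = r + 1 := ⟨lvJ k - 1, by omega⟩
    have h1 : ∀ j ∈ Finset.Ico 1 (lvJ k), ((2 * (h j * (k % 2 ^ j + (k - 1) % 2 ^ j)) : ℕ) : ℤ) ≤
        ((2 * 2 ^ j - 3 : ℤ)) * 4 ^ (lvJ k - j) * M := by
      intro j hj
      rw [Finset.mem_Ico] at hj
      have e1 := hh j hj.1 hj.2
      have e2 : 2 ≤ 2 ^ j := by
        calc 2 = 2 ^ 1 := by norm_num
          _ ≤ 2 ^ j := Nat.pow_le_pow_right (by norm_num) hj.1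
      have e3 := ar_y k (2 ^ j) (by omega) e2
      have e4 := (ar_pow_le k j hk hj.1 hj.2).2 hk3
      have e5 : 1 ≤ k / 2 ^ j := (Nat.one_le_div_iff (by positivity)).2 (by omega)
      have e6 : 1 ≤ (k - 1) / 2 ^ j := (Nat.one_le_div_iff (by positivity)).2 (by omega)
      set y := k % 2 ^ j + (k - 1) % 2 ^ j with hy
      set q := k / 2 ^ j + (k - 1) / 2 ^ j with hq
      have e7 : 2 ≤ q := by omega
      have e8 : 2 * (h j * y) ≤ 4 ^ (lvJ k - j) * M * y := by
        calc 2 * (h j * y) ≤ q * (h j * y) := Nat.mul_le_mul_right _ e7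
          _ = h j * q * y := by ring
          _ ≤ 4 ^ (lvJ k - j) * M * y := Nat.mul_le_mul_right _ e1
      have e9 : ((2 * (h j * y) : ℕ) : ℤ) ≤ ((4 ^ (lvJ k - j) * M * y : ℕ) : ℤ) := by
        exact_mod_cast e8
      refine e9.trans ?_
      push_cast
      have e10 : (y : ℤ) ≤ 2 * 2 ^ j - 3 := by
        have : ((y + 3 : ℕ) : ℤ) ≤ ((2 * 2 ^ j : ℕ) : ℤ) := by exact_mod_cast e3
        push_cast at this
        linarith
      have e11 : (0 : ℤ) ≤ 4 ^ (lvJ k - j) * M := by positivity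
      nlinarith
    have h2 : ((2 * ∑ j ∈ Finset.Ico 1 (lvJ k), h j * (k % 2 ^ j + (k - 1) % 2 ^ j) : ℕ) : ℤ) ≤
        (4 ^ (lvJ k) * M : ℤ) := by
      rw [Finset.mul_sum]
      push_cast
      have h3 := Finset.sum_le_sum h1
      push_cast at h3
      refine h3.trans ?_
      rw [← Finset.sum_mul]
      have h4 := ar_geom (lvJ k) r (by omega)
      rw [← hr] at h4
      rw [h4]
      have h5 : (4 : ℤ) ^ (lvJ k - r) * (2 ^ r - 1) ^ 2 ≤ 4 ^ lvJ k := by
        have e1 : (4 : ℤ) ^ lvJ k = 4 ^ (lvJ k - r) * 4 ^ r := by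
          rw [← pow_add]; congr 1; omega
        rw [e1]
        have e2 : ((2 : ℤ) ^ r - 1) ^ 2 ≤ 4 ^ r := by
          have e3 : (4 : ℤ) ^ r = (2 ^ r) ^ 2 := by
            rw [← pow_mul, mul_comm, pow_mul]; norm_num
          have e4 : (1 : ℤ) ≤ 2 ^ r := one_le_pow₀ (by norm_num)
          rw [e3]
          nlinarith
        exact mul_le_mul_of_nonneg_left e2 (by positivity)
      exact mul_le_mul_of_nonneg_right h5 (by positivity)
    exact_mod_cast h2

/-- choice of the number of gadgets -/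
theorem ar_choose_g (k T : ℕ) (hk : 2 ≤ k) :
    ∃ g < 2 * k - 1, 4 * (k / 2) * g ≡ T [MOD (2 * k - 1)] := by
  rcases Nat.even_or_odd' k with ⟨c, hc | hc⟩
  · refine ⟨T % (2 * k - 1), Nat.mod_lt _ (by omega), ?_⟩
    have e1 : 4 * (k / 2) = (2 * k - 1) + 1 := by omega
    rw [e1, add_mul, one_mul]
    have : (2 * k - 1) * (T % (2 * k - 1)) + T % (2 * k - 1) ≡ 0 + T [MOD (2 * k - 1)] :=
      Nat.ModEq.add (Nat.modEq_zero_iff_dvd.2 (Dvd.intro _ rfl)) (Nat.mod_modEq _ _)
    simpa using this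
  · set w := 2 * k - 1 with hw
    have hwpos : 0 < w := by omega
    refine ⟨(w - T % w) % w, Nat.mod_lt _ hwpos, ?_⟩
    have e1 : 4 * (k / 2) + 1 = w := by omega
    have hlt : T % w < w := Nat.mod_lt _ hwpos
    have h1 : 4 * (k / 2) * ((w - T % w) % w) ≡ 4 * (k / 2) * (w - T % w) [MOD w] :=
      Nat.ModEq.mul_left _ (Nat.mod_modEq _ _)
    refine h1.trans ?_
    have h2 : 4 * (k / 2) * (w - T % w) + (w - T % w) = w * (w - T % w) := by
      calc 4 * (k / 2) * (w - T % w) + (w - T % w) = (4 * (k / 2) + 1) * (w - T % w) := by ring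
        _ = w * (w - T % w) := by rw [e1]
    have h3 : 4 * (k / 2) * (w - T % w) + (w - T % w) ≡ T + (w - T % w) [MOD w] := by
      rw [h2]
      have h4 : T + (w - T % w) = w * (T / w + 1) := by
        have := Nat.div_add_mod T w
        rw [mul_add, mul_one]
        omega
      rw [h4]
      exact (Nat.modEq_zero_iff_dvd.2 (Dvd.intro _ rfl)).trans
        (Nat.modEq_zero_iff_dvd.2 (Dvd.intro _ rfl)).symm
    exact Nat.ModEq.add_right_cancel' _ h3

end numbers

end Pool.Agent.Lib_helper4.Asy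

namespace Pool.Agent.Lib_helper4.Asy

section final

theorem ar_tags (J : ℕ) {α : Type} (X : ℕ → ℕ → List α) :
    (((allTags J X).map arrU : List (Tg Unit)) : Multiset (Tg Unit)) =
      ∑ j ∈ Finset.range J, ∑ s ∈ Finset.range (QQ J),
        (X j s).length • ({arT j s} : Multiset (Tg Unit)) := by
  unfold allTags
  rw [List.map_flatMap, arr_coe_range]
  refine Finset.sum_congr rfl fun j _ => ?_
  rw [List.map_flatMap, arr_coe_range]
  refine Finset.sum_congr rfl fun s _ => ?_
  rw [List.map_map, Multiset.nsmul_singleton, ← Multiset.coe_replicate]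
  congr 1
  exact List.eq_replicate_iff.2 ⟨by simp, by
    intro b hb
    obtain ⟨a, _, rfl⟩ := List.mem_map.1 hb
    rfl⟩

theorem ar_wt1 (k J : ℕ) (hk : 2 ≤ k) (hJ : J = lvJ k) (g : ℕ) (h : ℕ → ℕ) (lf : ℕ → ℕ → ℕ) :
    arWt (arPhi (∑ j ∈ Finset.Ico 1 J, ∑ s ∈ Finset.range (QQ J),
        (h j • {arG k J j s} + lf j s • {arS k J j s}) + g • {arGd k})) =
      (2 * k - 1) * (∑ j ∈ Finset.Ico 1 J,
      ∑ s ∈ Finset.range (QQ J), (h j + lf j s)) + 4 * (k / 2) * g := by
  simp only [map_add, map_sum, map_nsmul]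
  have eG : ∀ j ∈ Finset.Ico 1 J, ∀ s, arWt (arPhi {arG k J j s}) = 2 * k - 1 := by
    intro j hj s
    rw [Finset.mem_Ico] at hj
    exact arWt_ob k J (by omega) _ _ (ar_goodG k J j s hj.1 hj.2)
  have eS : ∀ j ∈ Finset.Ico 1 J, ∀ s, arWt (arPhi {arS k J j s}) = 2 * k - 1 := by
    intro j hj s
    rw [Finset.mem_Ico] at hj
    exact arWt_ob k J (by omega) _ _ (ar_goodS k J j s hj.1 hj.2
      (ar_pow_le k j hk hj.1 (hJ ▸ hj.2)).1)
  have eD : arWt (arPhi {arGd k}) = 4 * (k / 2) := by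
    rw [ar_phiGd, map_nsmul, map_add, arWt_T, arWt_T, smul_eq_mul]
    ring
  have e1 : ∀ j ∈ Finset.Ico 1 J, ∑ s ∈ Finset.range (QQ J),
      (h j • arWt (arPhi {arG k J j s}) + lf j s • arWt (arPhi {arS k J j s})) =
      (2 * k - 1) * ∑ s ∈ Finset.range (QQ J), (h j + lf j s) := by
    intro j hj
    rw [Finset.mul_sum]
    refine Finset.sum_congr rfl fun s _ => ?_
    rw [eG j hj s, eS j hj s, smul_eq_mul, smul_eq_mul]
    ring
  rw [eD, Finset.sum_congr rfl e1, ← Finset.mul_sum, smul_eq_mul]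
  rw [mul_comm g]

set_option maxHeartbeats 4000000 in
theorem ar_abs (k M D : ℕ) (hk : 2 ≤ k) (n : ℕ → ℕ → ℕ)
    (hX : ∀ j < lvJ k, ∀ s < QQ (lvJ k), n j s ≤ 4 ^ (lvJ k - j) * M + D ∧
      4 ^ (lvJ k - j) * M ≤ n j s + D)
    (hM : 1000 * k ^ 4 * (D + 1) ≤ M) :
    ∃ B : Multiset (Blk (Tg Unit)), (∀ b ∈ B, GoodBlk k (lvJ k) b) ∧
      arPhi B = ∑ j ∈ Finset.range (lvJ k), ∑ s ∈ Finset.range (QQ (lvJ k)),
        n j s • ({arT j s} : Multiset (Tg Unit)) ∧
      ∀ j, 1 ≤ j → j < lvJ k → arG k (lvJ k) j 0 ∈ B := by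
  set J := lvJ k with hJdef
  have hJ2 : 2 ≤ J := ar_J2 k
  have hJk : J ≤ k := ar_Jk k hk
  have hQ : 0 < QQ J := ar_Q_pos J
  -- numerics
  have hk2 : k ^ 2 ≤ k ^ 4 := Nat.pow_le_pow_right (by omega) (by norm_num)
  have hk3 : k ^ 3 ≤ k ^ 4 := Nat.pow_le_pow_right (by omega) (by norm_num)
  have hk1 : k ≤ k ^ 4 := by
    calc k = k ^ 1 := (pow_one k).symm
      _ ≤ k ^ 4 := Nat.pow_le_pow_right (by omega) (by norm_num)
  have hk0 : 1 ≤ k ^ 4 := Nat.one_le_pow _ _ (by omega)
  have hkD : k ^ 2 * D ≤ k ^ 4 * D := Nat.mul_le_mul_right _ hk2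
  have hD' : D ≤ k ^ 4 * D := by nlinarith
  have hM' : 1000 * (k ^ 4 * D) + 1000 * k ^ 4 ≤ M := by
    calc 1000 * (k ^ 4 * D) + 1000 * k ^ 4 = 1000 * k ^ 4 * (D + 1) := by ring
      _ ≤ M := hM
  have h4 : ∀ j < J, M ≤ 4 ^ (J - j) * M := fun j _ =>
    Nat.le_mul_of_pos_left _ (by positivity)
  -- the sizes
  set q : ℕ → ℕ := fun j => k / 2 ^ j + (k - 1) / 2 ^ j with hq
  set y : ℕ → ℕ := fun j => k % 2 ^ j + (k - 1) % 2 ^ j with hy
  have hq1 : ∀ j, 1 ≤ j → j < J → 1 ≤ q j := by
    intro j h1 h2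
    have e4 := (ar_pow_le k j hk h1 h2).1
    have e5 : 1 ≤ k / 2 ^ j := (Nat.one_le_div_iff (by positivity)).2 (by omega)
    exact e5.trans (Nat.le_add_right _ _)
  have hq2 : ∀ j, q j ≤ 2 * k := by
    intro j
    have e1 : k / 2 ^ j ≤ k := Nat.div_le_self _ _
    have e2 : (k - 1) / 2 ^ j ≤ k - 1 := Nat.div_le_self _ _
    simp only [hq]
    omega
  set h : ℕ → ℕ := fun j => (4 ^ (J - j) * M - D - 2 * k ^ 2) / q j with hh
  have hqh : ∀ j, h j * q j ≤ 4 ^ (J - j) * M - D - 2 * k ^ 2 := fun j => Nat.div_mul_le_self _ _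
  have hqh2 : ∀ j, 1 ≤ j → j < J → 4 ^ (J - j) * M - D - 2 * k ^ 2 < h j * q j + q j := by
    intro j h1 h2
    have := Nat.lt_div_mul_add (a := 4 ^ (J - j) * M - D - 2 * k ^ 2) (hq1 j h1 h2)
    exact this
  have hh1 : ∀ j, 1 ≤ j → j < J → 1 ≤ h j := by
    intro j h1 h2
    have e1 := h4 j h2
    have e2 := hq2 j
    exact (Nat.one_le_div_iff (hq1 j h1 h2)).2 (by omega)
  -- the number of gadgets
  set T : ℕ := ∑ j ∈ Finset.Ico 1 J, ∑ s ∈ Finset.range (QQ J), n j s * 2 ^ j +
    ∑ t ∈ Finset.range (QQ J), n 0 t with hT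
  obtain ⟨g, hg1, hg2⟩ := ar_choose_g k T hk
  have hgk : g * (k / 2) ≤ k ^ 2 := by
    have e1 : k / 2 * 2 ≤ k := Nat.div_mul_le_self _ _
    calc g * (k / 2) ≤ 2 * k * (k / 2) := Nat.mul_le_mul_right _ (by omega)
      _ = k * (k / 2 * 2) := by ring
      _ ≤ k * k := Nat.mul_le_mul_left _ e1
      _ = k ^ 2 := by ring
  have hgdc : ∀ j s, arGdc k g j s ≤ k ^ 2 := by
    intro j s
    unfold arGdc
    split_ifs
    · exact hgk
    · exact Nat.zero_le _
  set lf : ℕ → ℕ → ℕ := fun j s => n j s - h j * q j - arGdc k g j s with hlf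
  have hn : ∀ j, 1 ≤ j → j < J → ∀ s < QQ J, h j * q j + lf j s + arGdc k g j s = n j s := by
    intro j h1 h2 s hs
    have e1 := (hX j h2 s hs).2
    have e2 := hqh j
    have e3 := hgdc j s
    have e4 := h4 j h2
    simp only [hlf]
    omega
  have hlf2 : ∀ j, 1 ≤ j → j < J → ∀ s < QQ J, lf j s ≤ 2 * D + 2 * k ^ 2 + 2 * k := by
    intro j h1 h2 s hs
    have e1 := (hX j h2 s hs).1
    have e2 := hqh2 j h1 h2
    have e3 := hq2 j
    have e4 := h4 j h2
    simp only [hlf]
    omega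
  set U : ℕ → ℕ := fun t => ∑ j ∈ Finset.Ico 1 J,
    (h j * y j + lf j (arInv J j t) * (k - 2 ^ j + (k - 1))) with hU
  have hUle : ∀ t, 2 * U t ≤ 4 ^ J * M + 2 * (k * ((2 * D + 2 * k ^ 2 + 2 * k) * (2 * k))) := by
    intro t
    simp only [hU]
    rw [Finset.sum_add_distrib, mul_add]
    refine Nat.add_le_add (ar_budget k M hk h ?_) ?_
    · intro j h1 h2
      exact (hqh j).trans ((Nat.sub_le _ _).trans (Nat.sub_le _ _))
    · refine Nat.mul_le_mul_left _ ?_
      have e1 : ∑ j ∈ Finset.Ico 1 J, lf j (arInv J j t) * (k - 2 ^ j + (k - 1)) ≤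
          ∑ j ∈ Finset.Ico 1 J, (2 * D + 2 * k ^ 2 + 2 * k) * (2 * k) := by
        refine Finset.sum_le_sum fun j hj => ?_
        rw [Finset.mem_Ico] at hj
        refine Nat.mul_le_mul (hlf2 j hj.1 hj.2 _ (ar_inv_lt J j t)) ?_
        exact (Nat.add_le_add (Nat.sub_le _ _) (Nat.sub_le _ _)).trans (by omega)
      refine e1.trans ?_
      rw [Finset.sum_const, Nat.card_Ico, smul_eq_mul]
      refine Nat.mul_le_mul_right _ ?_
      omega
  have h16 : 16 * M ≤ 4 ^ J * M := by
    refine Nat.mul_le_mul_right _ ?_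
    calc 16 = 4 ^ 2 := by norm_num
      _ ≤ 4 ^ J := Nat.pow_le_pow_right (by norm_num) hJ2
  have hR : ∀ t < QQ J, U t + (2 * k - 1) ≤ n 0 t := by
    intro t ht
    have e1 := (hX 0 (by omega) t ht).2
    rw [Nat.sub_zero] at e1
    have e2 := hUle t
    have e3 : 2 * (k * ((2 * D + 2 * k ^ 2 + 2 * k) * (2 * k))) =
        8 * (k ^ 2 * D) + 8 * k ^ 4 + 8 * k ^ 3 := by ring
    rw [e3] at e2
    generalize 4 ^ J * M = Z at *
    omega
  set R : ℕ → ℕ := fun t => n 0 t - U t with hRdef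
  have hRU : ∀ t < QQ J, U t + R t = n 0 t := by
    intro t ht
    have := hR t ht
    simp only [hRdef]
    omega
  -- the blocks
  set B1 : Multiset (Blk (Tg Unit)) := ∑ j ∈ Finset.Ico 1 J, ∑ s ∈ Finset.range (QQ J),
        (h j • {arG k J j s} + lf j s • {arS k J j s}) + g • {arGd k} with hB1
  have hmain := ar_main k J hJ2 g h lf
  rw [← hB1] at hmain
  have hmain2 : arPhi B1 = ∑ j ∈ Finset.Ico 1 J, ∑ s ∈ Finset.range (QQ J),
      n j s • ({arT j s} : Multiset (Tg Unit)) +
      ∑ t ∈ Finset.range (QQ J), U t • ({arT 0 t} : Multiset (Tg Unit)) := by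
    rw [hmain]
    congr 1
    refine Finset.sum_congr rfl fun j hj => Finset.sum_congr rfl fun s hs => ?_
    rw [Finset.mem_Ico] at hj
    rw [← hn j hj.1 hj.2 s (Finset.mem_range.1 hs)]
  -- weights
  have hwt : arWt (arPhi B1) = (2 * k - 1) * (∑ j ∈ Finset.Ico 1 J,
      ∑ s ∈ Finset.range (QQ J), (h j + lf j s)) + 4 * (k / 2) * g := by
    exact ar_wt1 k J hk hJdef g h lf
  have hwt2 : arWt (arPhi B1) = ∑ j ∈ Finset.Ico 1 J, ∑ s ∈ Finset.range (QQ J), n j s * 2 ^ j +
      ∑ t ∈ Finset.range (QQ J), U t := by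
    rw [hmain2]
    simp only [map_add, map_sum, map_nsmul, arWt_T, smul_eq_mul, pow_zero, mul_one]
  have hdvd : (2 * k - 1) ∣ ∑ t ∈ Finset.range (QQ J), R t := by
    have e1 : ∑ t ∈ Finset.range (QQ J), U t + ∑ t ∈ Finset.range (QQ J), R t =
        ∑ t ∈ Finset.range (QQ J), n 0 t := by
      rw [← Finset.sum_add_distrib]
      exact Finset.sum_congr rfl fun t ht => hRU t (Finset.mem_range.1 ht)
    have e2 : (∑ t ∈ Finset.range (QQ J), R t) + 4 * (k / 2) * g + (2 * k - 1) *
        (∑ j ∈ Finset.Ico 1 J, ∑ s ∈ Finset.range (QQ J), (h j + lf j s)) = T := by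
      have := hwt.symm.trans hwt2
      rw [hT]
      omega
    have e3 : (∑ t ∈ Finset.range (QQ J), R t) + 4 * (k / 2) * g ≡ 0 + 4 * (k / 2) * g
        [MOD (2 * k - 1)] := by
      rw [zero_add]
      refine Nat.ModEq.trans ?_ hg2.symm
      rw [← e2]
      have : (∑ t ∈ Finset.range (QQ J), R t) + 4 * (k / 2) * g + 0 ≡
        (∑ t ∈ Finset.range (QQ J), R t) + 4 * (k / 2) * g + (2 * k - 1) *
        (∑ j ∈ Finset.Ico 1 J, ∑ s ∈ Finset.range (QQ J), (h j + lf j s))
          [MOD (2 * k - 1)] := by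
        refine Nat.ModEq.add_left _ ?_
        exact (Nat.modEq_zero_iff_dvd.2 (Dvd.intro _ rfl)).symm
      simpa using this
    exact Nat.modEq_zero_iff_dvd.1 (Nat.ModEq.add_right_cancel' _ e3)
  obtain ⟨P, hP1, hP2⟩ := arr_chunk' k J (QQ J) hk hQ R (fun t ht => by
    have := hR t ht
    simp only [hRdef]
    omega) hdvd
  refine ⟨B1 + P, ?_, ?_, ?_⟩
  · intro b hb
    rcases Multiset.mem_add.1 hb with hb | hb
    · rw [hB1] at hb
      rcases Multiset.mem_add.1 hb with hb | hb
      · obtain ⟨j, hj, hb⟩ := Multiset.mem_sum.1 hb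
        obtain ⟨s, hs, hb⟩ := Multiset.mem_sum.1 hb
        rw [Finset.mem_Ico] at hj
        rcases Multiset.mem_add.1 hb with hb | hb
        · have := Multiset.mem_of_mem_nsmul hb
          rw [Multiset.mem_singleton] at this
          rw [this]
          exact ar_goodG k J j s hj.1 hj.2
        · have := Multiset.mem_of_mem_nsmul hb
          rw [Multiset.mem_singleton] at this
          rw [this]
          exact ar_goodS k J j s hj.1 hj.2 (ar_pow_le k j hk hj.1 hj.2).1
      · have := Multiset.mem_of_mem_nsmul hb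
        rw [Multiset.mem_singleton] at this
        rw [this]
        exact ar_goodGd k J
    · exact hP1 b hb
  · have hsplit : ∀ F : ℕ → Multiset (Tg Unit), ∑ j ∈ Finset.range J, F j =
        F 0 + ∑ j ∈ Finset.Ico 1 J, F j := by
      intro F
      rw [Finset.range_eq_Ico, Finset.sum_eq_sum_Ico_succ_bot (by omega : 0 < J)]
    rw [map_add, hmain2, hP2, hsplit]
    have e1 : ∑ s ∈ Finset.range (QQ J), n 0 s • ({arT 0 s} : Multiset (Tg Unit)) =
        ∑ t ∈ Finset.range (QQ J), U t • ({arT 0 t} : Multiset (Tg Unit)) +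
        ∑ t ∈ Finset.range (QQ J), R t • ({arT 0 t} : Multiset (Tg Unit)) := by
      rw [← Finset.sum_add_distrib]
      refine Finset.sum_congr rfl fun t ht => ?_
      rw [← add_smul, hRU t (Finset.mem_range.1 ht)]
    rw [e1]
    abel
  · intro j h1 h2
    refine Multiset.mem_add.2 (Or.inl ?_)
    rw [hB1]
    refine Multiset.mem_add.2 (Or.inl ?_)
    refine Multiset.mem_sum.2 ⟨j, Finset.mem_Ico.2 ⟨h1, h2⟩, ?_⟩
    refine Multiset.mem_sum.2 ⟨0, Finset.mem_range.2 hQ, ?_⟩
    refine Multiset.mem_add.2 (Or.inl ?_)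
    have := hh1 j h1 h2
    exact Multiset.mem_nsmul.2 ⟨by omega, Multiset.mem_singleton_self _⟩

theorem arr (k M D : ℕ) (hk : 2 ≤ k) {α : Type} (X : ℕ → ℕ → List α)
    (hX : ∀ j < lvJ k, ∀ s < QQ (lvJ k), (X j s).length ≤ 4 ^ (lvJ k - j) * M + D ∧
      4 ^ (lvJ k - j) * M ≤ (X j s).length + D)
    (hM : 1000 * k ^ 4 * (D + 1) ≤ M) :
    ∃ bl : List (Blk (Tg α)), (∀ b ∈ bl, GoodBlk k (lvJ k) b) ∧
      (bl.flatMap Blk.objs).Perm (allTags (lvJ k) X) ∧
      ∀ j, 1 ≤ j → j < lvJ k → ∀ O rest, X j 0 = O :: rest →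
        ∃ As Bs, Blk.ob (⟨O, j, 0⟩ :: As) Bs ∈ bl := by
  obtain ⟨B, hB1, hB2, hB3⟩ := ar_abs k M D hk (fun j s => (X j s).length) hX hM
  have hk0 : 1 ≤ k ^ 4 := Nat.one_le_pow _ _ (by omega)
  have hDM : D + 1 ≤ M := by nlinarith
  have hne : ∀ j < lvJ k, X j 0 ≠ [] := by
    intro j hj h0
    have := (hX j hj 0 (ar_Q_pos _)).2
    rw [h0] at this
    have e : M ≤ 4 ^ (lvJ k - j) * M := Nat.le_mul_of_pos_left _ (by positivity)
    simp only [List.length_nil] at this
    omega
  have hJ2 := ar_J2 k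
  obtain ⟨d, -⟩ := List.exists_mem_of_ne_nil _ (hne 0 (by omega))
  set x : ℕ → α := fun j => (X j 0).headD d with hx
  have hx1 : ∀ j, 1 ≤ j → j < lvJ k → X j 0 = x j :: (X j 0).tail := by
    intro j _ hj
    have := hne j hj
    match h : X j 0, this with
    | [], this => exact absurd rfl this
    | a :: t, _ => simp [hx, h]
  have hlist : arPhi ((B.toList : List (Blk (Tg Unit))) : Multiset (Blk (Tg Unit))) =
      (((allTags (lvJ k) X).map arrU : List (Tg Unit)) : Multiset (Tg Unit)) := by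
    rw [Multiset.coe_toList, hB2, ar_tags]
  rw [arPhi_coe, Multiset.coe_eq_coe] at hlist
  have hpin : ∀ j, 1 ≤ j → j < lvJ k → Blk.ob (⟨(), j, 0⟩ ::
      (List.replicate (k / 2 ^ j - 1) (arT j 0) ++
        List.replicate (k % 2 ^ j) (arT 0 (arFil (lvJ k) j 0))))
      (List.replicate ((k - 1) / 2 ^ j) (arT j (arStar j 0)) ++
      List.replicate ((k - 1) % 2 ^ j) (arT 0 (arFil (lvJ k) j 0))) ∈ B.toList := by
    intro j h1 h2
    rw [Multiset.mem_toList]
    have e4 := (ar_pow_le k j hk h1 h2).1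
    have e5 : 1 ≤ k / 2 ^ j := (Nat.one_le_div_iff (by positivity)).2 (by omega)
    have := hB3 j h1 h2
    unfold arG at this
    obtain ⟨c, hc⟩ : ∃ c, k / 2 ^ j = c + 1 := ⟨k / 2 ^ j - 1, by omega⟩
    rw [hc, List.replicate_succ, List.cons_append] at this
    rw [hc, Nat.add_sub_cancel]
    exact this
  obtain ⟨bl, h1, h2, h3⟩ := arr_real k (lvJ k) X x hx1 B.toList
    (fun b hb => hB1 b (Multiset.mem_toList.1 hb)) hlist _ _ hpin
  refine ⟨bl, h1, h2, ?_⟩
  intro j hj1 hj2 O rest hO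
  obtain ⟨As, Bs, h⟩ := h3 j hj1 hj2
  have : x j = O := by simp [hx, hO]
  rw [this] at h
  exact ⟨As, Bs, h⟩

end final

end Pool.Agent.Lib_helper4.Asy
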