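import Pool.Agent.Lib_helper4.AsyF.OBO

set_option autoImplicit false

namespace Pool.Agent.Lib_helper4.Asy

theorem frow_length (k : ℕ) (β : Obj → Bool) (u : Obj × Obj) : (frow k β u).length = 4 := by
  unfold frow; split <;> rfl

theorem grow_length (k : ℕ) (β : Obj → Bool) (u : Obj × Obj) : (grow k β u).length = 4 := by
  unfold grow; split <;> rfl

theorem flat4_length {α : Type} (f : α → List ℕ) (hf : ∀ u, (f u).length = 4) (us : List α) :
    (us.flatMap f).length = 4 * us.length := by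
  induction us with
  | nil => rfl
  | cons u us ih => rw [List.flatMap_cons, List.length_append, hf, ih, List.length_cons]; ring

theorem flat4_get {α : Type} (f : α → List ℕ) (hf : ∀ u, (f u).length = 4) (s : List α) (u : α)
    (r : List α) (i : ℕ) (hi : i < 4) :
    ((s ++ u :: r).flatMap f)[4 * s.length + i]? = (f u)[i]? := by
  rw [List.flatMap_append, List.flatMap_cons,
    List.getElem?_append_right (by rw [flat4_length f hf]; omega), flat4_length f hf,
    Nat.add_sub_cancel_left, List.getElem?_append_left (by rw [hf]; exact hi)]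

theorem gad_cells (k : ℕ) (β : Obj → Bool) (s : List (Obj × Obj)) (u : Obj × Obj)
    (r : List (Obj × Obj)) (i : ℕ) (hi : i < 4) :
    (gadp k β (s ++ u :: r))[4 * s.length + i]? = (frow k β u)[i]? ∧
      (gadp k β (s ++ u :: r))[4 * (s ++ u :: r).length + 4 * s.length + i]? =
        (grow k β u)[i]? := by
  unfold gadp
  have h1 := flat4_length (frow k β) (frow_length k β) (s ++ u :: r)
  constructor
  · rw [List.getElem?_append_left
      (by rw [h1]; simp only [List.length_append, List.length_cons]; omega)]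
    exact flat4_get _ (frow_length k β) s u r i hi
  · rw [List.getElem?_append_right (by rw [h1]; omega), h1, add_assoc, Nat.add_sub_cancel_left]
    exact flat4_get _ (grow_length k β) s u r i hi

theorem len2 {l : List ℕ} (h : l.length = 2) : ∃ a b, l = [a, b] := by
  match l, h with
  | [a, b], _ => exact ⟨a, b, rfl⟩

theorem unit_form {u : Obj × Obj} (h : u.1.1.length = 2 ∧ u.1.2.length = 2 ∧
    u.2.1.length = 2 ∧ u.2.2.length = 2) :
    ∃ a b c d a' b' c' d', u = (([a, b], [c, d]), ([a', b'], [c', d'])) := by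
  obtain ⟨⟨u1, u2⟩, ⟨u3, u4⟩⟩ := u
  obtain ⟨a, b, h1⟩ := len2 h.1
  obtain ⟨c, d, h2⟩ := len2 h.2.1
  obtain ⟨a', b', h3⟩ := len2 h.2.2.1
  obtain ⟨c', d', h4⟩ := len2 h.2.2.2
  simp only at h1 h2 h3 h4
  subst h1 h2 h3 h4
  exact ⟨a, b, c, d, a', b', c', d', rfl⟩

theorem rows_perm (k : ℕ) (β : Obj → Bool) (u : Obj × Obj) (h : u.1.1.length = 2 ∧
    u.1.2.length = 2 ∧ u.2.1.length = 2 ∧ u.2.2.length = 2) :
    (frow k β u ++ grow k β u).Perm (labels u.1 ++ labels u.2) := by
  obtain ⟨a, b, c, d, a', b', c', d', rfl⟩ := unit_form h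
  rw [List.perm_iff_count]
  intro x
  unfold frow grow lt labels
  by_cases hk : k % 2 = 0
  · rw [if_pos hk, if_pos hk]
    cases β ([a, b], [c, d]) <;> cases β ([a', b'], [c', d']) <;>
      simp [List.count_cons] <;> omega
  · rw [if_neg hk, if_neg hk]
    cases β ([a, b], [c, d]) <;> cases β ([a', b'], [c', d']) <;>
      simp [List.count_cons] <;> omega

theorem flat_two {α : Type} (f g : α → List ℕ) (us : List α) :
    (us.flatMap f ++ us.flatMap g).Perm (us.flatMap fun u => f u ++ g u) := by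
  induction us with
  | nil => simp
  | cons u us ih =>
    simp only [List.flatMap_cons]
    refine List.Perm.trans ?_ (List.Perm.append_left _ ih)
    rw [List.append_assoc, List.append_assoc]
    apply List.Perm.append_left
    rw [← List.append_assoc, ← List.append_assoc]
    exact List.Perm.append_right _ List.perm_append_comm

theorem gadp_perm (k : ℕ) (β : Obj → Bool) (us : List (Obj × Obj)) (h : GadSize k us) :
    (gadp k β us).Perm ((unpair us).flatMap labels) := by
  unfold gadp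
  refine (flat_two _ _ us).trans ?_
  have h2 := h.2
  clear h
  induction us with
  | nil => simp [unpair]
  | cons u us ih =>
    have e : unpair (u :: us) = u.1 :: u.2 :: unpair us := by simp [unpair]
    rw [e, List.flatMap_cons, List.flatMap_cons, List.flatMap_cons, ← List.append_assoc]
    exact (rows_perm k β u (h2 u (by simp))).append (ih (fun v hv => h2 v (by simp [hv])))

/-- the eight cells of a unit -/
theorem gad_eight (k : ℕ) (β : Obj → Bool) (us : List (Obj × Obj)) (h : GadSize k us)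
    (u : Obj × Obj) (hu : u ∈ us) :
    ∃ T G, G = 4 * (k / 2) + T ∧ T + 4 ≤ 4 * (k / 2) ∧
      (∀ i < 4, (gadp k β us)[T + i]? = (frow k β u)[i]?) ∧
      (∀ i < 4, (gadp k β us)[G + i]? = (grow k β u)[i]?) := by
  obtain ⟨s, r, rfl⟩ := List.append_of_mem hu
  have hl := h.1
  refine ⟨4 * s.length, _, rfl, ?_, ?_, ?_⟩
  · rw [← hl, List.length_append, List.length_cons]; omega
  · intro i hi
    exact (gad_cells k β s u r i hi).1
  · intro i hi
    rw [← hl]
    exact (gad_cells k β s u r i hi).2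

theorem gadp_junction_A (k : ℕ) (_hk : 2 ≤ k) (β : Obj → Bool) (us : List (Obj × Obj))
    (h : GadSize k us) (u : Obj × Obj) (hu : u ∈ us) (side : List ℕ)
    (hs : side = u.1.1 ∨ side = u.1.2) (x y : ℕ) (hx : side[0]? = some x)
    (hy : side[1]? = some y) :
    ∃ p z, (gadp k β us)[p + 1]? = some z ∧
      (((gadp k β us)[p]? = some x ∧ (gadp k β us)[p + 2]? = some y) ∨
       ((gadp k β us)[p]? = some y ∧ (gadp k β us)[p + 2]? = some x)) ∧ z ∈ labels u.2 := by
  obtain ⟨T, G, -, -, hT, hG⟩ := gad_eight k β us h u hu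
  obtain ⟨a, b, c, d, a', b', c', d', rfl⟩ := unit_form (h.2 u hu)
  have t0 := hT 0 (by norm_num)
  have t1 := hT 1 (by norm_num)
  have t2 := hT 2 (by norm_num)
  have g1 := hG 1 (by norm_num)
  have g2 := hG 2 (by norm_num)
  have g3 := hG 3 (by norm_num)
  clear hT hG
  generalize gadp k β us = L at *
  rcases hs with rfl | rfl <;>
  · simp only [List.getElem?_cons_zero, List.getElem?_cons_succ, Option.some.injEq] at hx hy
    subst hx hy
    by_cases hk : k % 2 = 0 <;> cases hβ : β ([a, b], [c, d]) <;>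
      cases hβ' : β ([a', b'], [c', d']) <;>
      simp [frow, grow, lt, hk, hβ, hβ'] at t0 t1 t2 g1 g2 g3 <;>
      first
      | exact ⟨T, _, t1, Or.inl ⟨t0, t2⟩, by simp [labels]⟩
      | exact ⟨T, _, t1, Or.inr ⟨t0, t2⟩, by simp [labels]⟩
      | exact ⟨G + 1, _, g2, Or.inl ⟨g1, g3⟩, by simp [labels]⟩
      | exact ⟨G + 1, _, g2, Or.inr ⟨g1, g3⟩, by simp [labels]⟩

theorem gadp_junction_B (k : ℕ) (_hk : 2 ≤ k) (β : Obj → Bool) (us : List (Obj × Obj))
    (h : GadSize k us) (u : Obj × Obj) (hu : u ∈ us) (side : List ℕ)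
    (hs : side = u.2.1 ∨ side = u.2.2) (x y : ℕ) (hx : side[0]? = some x)
    (hy : side[1]? = some y) :
    ∃ p z, (gadp k β us)[p + 1]? = some z ∧
      (((gadp k β us)[p]? = some x ∧ (gadp k β us)[p + 2]? = some y) ∨
       ((gadp k β us)[p]? = some y ∧ (gadp k β us)[p + 2]? = some x)) ∧ z ∈ labels u.1 := by
  obtain ⟨T, G, -, -, hT, hG⟩ := gad_eight k β us h u hu
  obtain ⟨a, b, c, d, a', b', c', d', rfl⟩ := unit_form (h.2 u hu)
  have t1 := hT 1 (by norm_num)
  have t2 := hT 2 (by norm_num)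
  have t3 := hT 3 (by norm_num)
  have g0 := hG 0 (by norm_num)
  have g1 := hG 1 (by norm_num)
  have g2 := hG 2 (by norm_num)
  clear hT hG
  generalize gadp k β us = L at *
  rcases hs with rfl | rfl <;>
  · simp only [List.getElem?_cons_zero, List.getElem?_cons_succ, Option.some.injEq] at hx hy
    subst hx hy
    by_cases hk : k % 2 = 0 <;> cases hβ : β ([a, b], [c, d]) <;>
      cases hβ' : β ([a', b'], [c', d']) <;>
      simp [frow, grow, lt, hk, hβ, hβ'] at t1 t2 t3 g0 g1 g2 <;>
      first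
      | exact ⟨T + 1, _, t2, Or.inl ⟨t1, t3⟩, by simp [labels]⟩
      | exact ⟨T + 1, _, t2, Or.inr ⟨t1, t3⟩, by simp [labels]⟩
      | exact ⟨G, _, g1, Or.inl ⟨g0, g2⟩, by simp [labels]⟩
      | exact ⟨G, _, g1, Or.inr ⟨g0, g2⟩, by simp [labels]⟩

theorem mem_unpair {α : Type} {us : List (α × α)} {O : α} (h : O ∈ unpair us) :
    ∃ u ∈ us, O = u.1 ∨ O = u.2 := by
  unfold unpair at h
  rw [List.mem_flatMap] at h
  obtain ⟨u, hu, h⟩ := h
  refine ⟨u, hu, ?_⟩
  simpa using h

theorem gadp_status (k : ℕ) (hk : 2 ≤ k) (β : Obj → Bool) (us : List (Obj × Obj))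
    (h : GadSize k us) (O : Obj) (hO : O ∈ unpair us) (x y : ℕ)
    (hx : O.1.getLast? = some x) (hy : O.2.head? = some y) :
    ∃ p, ((gadp k β us)[p]? = some x ∧ (gadp k β us)[p + (2 * k - 1)]? = some y) ∨
      ((gadp k β us)[p]? = some y ∧ (gadp k β us)[p + (2 * k - 1)]? = some x) := by
  obtain ⟨u, hu, hOu⟩ := mem_unpair hO
  obtain ⟨T, G, hGT, -, hT, hG⟩ := gad_eight k β us h u hu
  obtain ⟨a, b, c, d, a', b', c', d', rfl⟩ := unit_form (h.2 u hu)
  have t1 := hT 1 (by norm_num)
  have t2 := hT 2 (by norm_num)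
  have t3 := hT 3 (by norm_num)
  have g1 := hG 1 (by norm_num)
  have g2 := hG 2 (by norm_num)
  have g3 := hG 3 (by norm_num)
  clear hT hG
  generalize gadp k β us = L at *
  by_cases hk2 : k % 2 = 0
  · have e1 : T + 2 + (2 * k - 1) = G + 1 := by omega
    have e2 : T + 3 + (2 * k - 1) = G + 2 := by omega
    rcases hOu with rfl | rfl <;>
    · simp at hx hy
      subst hx hy
      cases hβ : β ([a, b], [c, d]) <;> cases hβ' : β ([a', b'], [c', d']) <;>
        simp [frow, grow, lt, hk2, hβ, hβ'] at t1 t2 t3 g1 g2 g3 <;>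
        first
        | exact ⟨T + 2, Or.inl ⟨t2, by rw [e1]; exact g1⟩⟩
        | exact ⟨T + 2, Or.inr ⟨t2, by rw [e1]; exact g1⟩⟩
        | exact ⟨T + 3, Or.inl ⟨t3, by rw [e2]; exact g2⟩⟩
        | exact ⟨T + 3, Or.inr ⟨t3, by rw [e2]; exact g2⟩⟩
  · have e1 : T + 2 + (2 * k - 1) = G + 3 := by omega
    have e2 : T + 1 + (2 * k - 1) = G + 2 := by omega
    rcases hOu with rfl | rfl <;>
    · simp at hx hy
      subst hx hy
      cases hβ : β ([a, b], [c, d]) <;> cases hβ' : β ([a', b'], [c', d']) <;>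
        simp [frow, grow, lt, hk2, hβ, hβ'] at t1 t2 t3 g1 g2 g3 <;>
        first
        | exact ⟨T + 2, Or.inl ⟨t2, by rw [e1]; exact g3⟩⟩
        | exact ⟨T + 2, Or.inr ⟨t2, by rw [e1]; exact g3⟩⟩
        | exact ⟨T + 1, Or.inl ⟨t1, by rw [e2]; exact g2⟩⟩
        | exact ⟨T + 1, Or.inr ⟨t1, by rw [e2]; exact g2⟩⟩

end Pool.Agent.Lib_helper4.Asy
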