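import Pool.Agent.Lib_helper4.AsyF.IL

set_option autoImplicit false

namespace Pool.Agent.Lib_helper4.Asy

theorem top_length (β : Obj → Bool) (O : Obj) (h : O.1.length = O.2.length) :
    (top β O).length = O.1.length := by
  unfold top
  split <;> simp [h]

theorem bot_length (β : Obj → Bool) (O : Obj) (h : O.1.length = O.2.length) :
    (bot β O).length = O.1.length := by
  unfold bot
  split <;> simp [h]

theorem tops_length (β : Obj → Bool) (As : List Obj) (h : ∀ O ∈ As, O.1.length = O.2.length) :
    (As.flatMap (top β)).length = (As.map fun O => O.1.length).sum := by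
  induction As with
  | nil => simp
  | cons O As ih =>
    rw [List.flatMap_cons, List.length_append, List.map_cons, List.sum_cons,
      top_length β O (h O (by simp)), ih (fun O' hO' => h O' (by simp [hO']))]

theorem bots_length (β : Obj → Bool) (As : List Obj) (h : ∀ O ∈ As, O.1.length = O.2.length) :
    (As.flatMap (bot β)).length = (As.map fun O => O.1.length).sum := by
  induction As with
  | nil => simp
  | cons O As ih =>
    rw [List.flatMap_cons, List.length_append, List.map_cons, List.sum_cons,
      bot_length β O (h O (by simp)), ih (fun O' hO' => h O' (by simp [hO']))]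

/-- position of an object inside the rows: `top` and `bot` of `O` sit at the same offset -/
theorem rows_split (β : Obj → Bool) (As : List Obj) (h : ∀ O ∈ As, O.1.length = O.2.length)
    (O : Obj) (hO : O ∈ As) :
    ∃ t, t + O.1.length ≤ (As.map fun O => O.1.length).sum ∧
      (∀ i < O.1.length, (As.flatMap (top β))[t + i]? = (top β O)[i]?) ∧
      (∀ i < O.1.length, (As.flatMap (bot β))[t + i]? = (bot β O)[i]?) := by
  obtain ⟨s, t, rfl⟩ := List.append_of_mem hO
  have hs : ∀ O' ∈ s, O'.1.length = O'.2.length := fun O' h' => h O' (by simp [h'])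
  have h1 := tops_length β s hs
  have h2 := bots_length β s hs
  have hOl := h O hO
  refine ⟨(s.map fun O => O.1.length).sum, ?_, ?_, ?_⟩
  · simp only [List.map_append, List.map_cons, List.sum_append, List.sum_cons]
    omega
  · intro i hi
    rw [List.flatMap_append, List.flatMap_cons, List.getElem?_append_right (by omega),
      h1, Nat.add_sub_cancel_left, List.getElem?_append_left (by rw [top_length β O hOl]; exact hi)]
  · intro i hi
    rw [List.flatMap_append, List.flatMap_cons, List.getElem?_append_right (by omega),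
      h2, Nat.add_sub_cancel_left, List.getElem?_append_left (by rw [bot_length β O hOl]; exact hi)]

theorem top_bot_perm (β : Obj → Bool) (O : Obj) : (top β O ++ bot β O).Perm (labels O) := by
  unfold top bot labels
  by_cases h : β O = true
  · rw [if_pos h, if_pos h]
    exact List.Perm.append_left _ (List.reverse_perm _)
  · rw [if_neg h, if_neg h]
    exact (List.Perm.append_right _ (List.reverse_perm _)).trans List.perm_append_comm

theorem tops_bots_perm (β : Obj → Bool) (As : List Obj) :
    (As.flatMap (top β) ++ As.flatMap (bot β)).Perm (As.flatMap labels) := by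
  induction As with
  | nil => simp
  | cons O As ih =>
    simp only [List.flatMap_cons]
    have h1 := top_bot_perm β O
    refine List.Perm.trans ?_ (List.Perm.append h1 ih)
    rw [List.append_assoc, List.append_assoc]
    apply List.Perm.append_left
    rw [← List.append_assoc, ← List.append_assoc]
    exact List.Perm.append_right _ List.perm_append_comm

theorem obp_perm (_k : ℕ) (β : Obj → Bool) (As Bs : List Obj) :
    (obp β As Bs).Perm ((As ++ Bs).flatMap labels) := by
  unfold obp
  rw [List.flatMap_append]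
  refine ((il_perm _ _).append (il_perm _ _)).trans ?_
  refine List.Perm.trans ?_ ((tops_bots_perm β As).append (tops_bots_perm β Bs))
  rw [List.append_assoc, List.append_assoc]
  apply List.Perm.append_left
  rw [← List.append_assoc, ← List.append_assoc]
  exact List.Perm.append_right _ List.perm_append_comm

/-- the cells of the columns of `As` -/
theorem obp_cells_A (k : ℕ) (hk : 1 ≤ k) (β : Obj → Bool) (As Bs : List Obj)
    (h : ObSize k As Bs) (i : ℕ) (hi : i < k) :
    (obp β As Bs)[2 * i]? = (As.flatMap (top β))[i]? ∧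
      (obp β As Bs)[2 * k - 1 + 2 * i]? = (As.flatMap (bot β))[i]? := by
  obtain ⟨h1, h2, h3, h4⟩ := h
  have hA : ∀ O ∈ As, O.1.length = O.2.length := fun O hO => h1 O (by simp [hO])
  have hB : ∀ O ∈ Bs, O.1.length = O.2.length := fun O hO => h1 O (by simp [hO])
  have e1 := tops_length β As hA
  have e2 := tops_length β Bs hB
  have e3 := bots_length β As hA
  have e4 := bots_length β Bs hB
  have hrow : (il (As.flatMap (top β)) (Bs.flatMap (top β))).length = 2 * k - 1 := by
    rw [il_length]; omega
  unfold obp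
  constructor
  · rw [List.getElem?_append_left (by omega)]
    exact il_even _ _ (by omega) i
  · rw [List.getElem?_append_right (by omega), hrow, Nat.add_sub_cancel_left]
    exact il_even _ _ (by omega) i

theorem obp_cells_B (k : ℕ) (hk : 1 ≤ k) (β : Obj → Bool) (As Bs : List Obj)
    (h : ObSize k As Bs) (i : ℕ) (hi : i < k - 1) :
    (obp β As Bs)[2 * i + 1]? = (Bs.flatMap (top β))[i]? ∧
      (obp β As Bs)[2 * k - 1 + (2 * i + 1)]? = (Bs.flatMap (bot β))[i]? := by
  obtain ⟨h1, h2, h3, h4⟩ := h
  have hA : ∀ O ∈ As, O.1.length = O.2.length := fun O hO => h1 O (by simp [hO])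
  have hB : ∀ O ∈ Bs, O.1.length = O.2.length := fun O hO => h1 O (by simp [hO])
  have e1 := tops_length β As hA
  have e2 := tops_length β Bs hB
  have e3 := bots_length β As hA
  have e4 := bots_length β Bs hB
  have hrow : (il (As.flatMap (top β)) (Bs.flatMap (top β))).length = 2 * k - 1 := by
    rw [il_length]; omega
  unfold obp
  constructor
  · rw [List.getElem?_append_left (by omega)]
    exact il_odd _ _ (by omega) i
  · rw [List.getElem?_append_right (by omega), hrow, Nat.add_sub_cancel_left]
    exact il_odd _ _ (by omega) i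

theorem mem_top_labels {β : Obj → Bool} {O : Obj} {z : ℕ} (h : z ∈ top β O) : z ∈ labels O := by
  unfold top at h
  unfold labels
  split at h <;> simp_all

theorem mem_bot_labels {β : Obj → Bool} {O : Obj} {z : ℕ} (h : z ∈ bot β O) : z ∈ labels O := by
  unfold bot at h
  unfold labels
  split at h <;> simp_all

/-- consecutive letters of a side are consecutive letters in `top` or in `bot`, in some order -/
theorem side_in_row (β : Obj → Bool) (O : Obj) (h : O.1.length = O.2.length) (side : List ℕ)
    (hs : side = O.1 ∨ side = O.2) (i x y : ℕ) (hx : side[i]? = some x)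
    (hy : side[i + 1]? = some y) :
    ∃ r, (r = top β O ∨ r = bot β O) ∧ ∃ i' , i' + 1 < O.1.length ∧
      ((r[i']? = some x ∧ r[i' + 1]? = some y) ∨ (r[i']? = some y ∧ r[i' + 1]? = some x)) := by
  have hlen : i + 1 < side.length := (List.getElem?_eq_some_iff.1 hy).1
  have hsl : side.length = O.1.length := by rcases hs with rfl | rfl <;> simp [h]
  have hrev : ∀ (l : List ℕ), i + 1 < l.length → l[i]? = some x → l[i + 1]? = some y →
      (l.reverse[l.length - 1 - (i + 1)]? = some y ∧
        l.reverse[l.length - 1 - (i + 1) + 1]? = some x) := by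
    intro l hl h1 h2
    constructor
    · rw [List.getElem?_reverse (by omega), show l.length - 1 - (l.length - 1 - (i + 1)) = i + 1 by omega]
      exact h2
    · rw [List.getElem?_reverse (by omega),
        show l.length - 1 - (l.length - 1 - (i + 1) + 1) = i by omega]
      exact h1
  by_cases hβ : β O = true
  · rcases hs with rfl | rfl
    · refine ⟨O.1, Or.inl ?_, i, by omega, Or.inl ⟨hx, hy⟩⟩
      unfold top; rw [if_pos hβ]
    · refine ⟨O.2.reverse, Or.inr ?_, O.2.length - 1 - (i + 1), by omega,
        Or.inr (hrev _ hlen hx hy)⟩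
      unfold bot; rw [if_pos hβ]
  · rcases hs with rfl | rfl
    · refine ⟨O.1, Or.inr ?_, i, by omega, Or.inl ⟨hx, hy⟩⟩
      unfold bot; rw [if_neg hβ]
    · refine ⟨O.2.reverse, Or.inl ?_, O.2.length - 1 - (i + 1), by omega,
        Or.inr (hrev _ hlen hx hy)⟩
      unfold top; rw [if_neg hβ]

theorem mem_flatMap_labels {β : Obj → Bool} {Bs : List Obj} {r : List ℕ} {z : ℕ} {i : ℕ}
    (hr : r = Bs.flatMap (top β) ∨ r = Bs.flatMap (bot β)) (h : r[i]? = some z) :
    ∃ O' ∈ Bs, z ∈ labels O' := by
  have hz := List.mem_of_getElem? h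
  rcases hr with rfl | rfl
  · rw [List.mem_flatMap] at hz
    obtain ⟨O', h1, h2⟩ := hz
    exact ⟨O', h1, mem_top_labels h2⟩
  · rw [List.mem_flatMap] at hz
    obtain ⟨O', h1, h2⟩ := hz
    exact ⟨O', h1, mem_bot_labels h2⟩

theorem obp_junction_A (k : ℕ) (hk : 1 ≤ k) (β : Obj → Bool) (As Bs : List Obj)
    (h : ObSize k As Bs) (O : Obj) (hO : O ∈ As) (side : List ℕ) (hs : side = O.1 ∨ side = O.2)
    (i x y : ℕ) (hx : side[i]? = some x) (hy : side[i + 1]? = some y) :
    ∃ p z, (obp β As Bs)[p + 1]? = some z ∧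
      (((obp β As Bs)[p]? = some x ∧ (obp β As Bs)[p + 2]? = some y) ∨
       ((obp β As Bs)[p]? = some y ∧ (obp β As Bs)[p + 2]? = some x)) ∧
      ∃ O' ∈ Bs, z ∈ labels O' := by
  have hA : ∀ O ∈ As, O.1.length = O.2.length := fun O hO => h.1 O (by simp [hO])
  have hB : ∀ O ∈ Bs, O.1.length = O.2.length := fun O hO => h.1 O (by simp [hO])
  obtain ⟨t, ht, htop, hbot⟩ := rows_split β As hA O hO
  rw [h.2.2.1] at ht
  obtain ⟨r, hr, i', hi', hxy⟩ := side_in_row β O (hA O hO) side hs i x y hx hy
  have hBl := tops_length β Bs hB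
  have hBl' := bots_length β Bs hB
  rw [h.2.2.2] at hBl hBl'
  rcases hr with rfl | rfl
  · have c1 := (obp_cells_A k hk β As Bs h (t + i') (by omega)).1
    have c2 := (obp_cells_A k hk β As Bs h (t + i' + 1) (by omega)).1
    have c3 := (obp_cells_B k hk β As Bs h (t + i') (by omega)).1
    rw [htop i' (by omega)] at c1
    rw [add_assoc, htop (i' + 1) (by omega)] at c2
    refine ⟨2 * (t + i'), (Bs.flatMap (top β))[t + i']'(by omega), ?_, ?_, ?_⟩
    · rw [c3, List.getElem?_eq_getElem]
    · rw [c1, show 2 * (t + i') + 2 = 2 * (t + (i' + 1)) by ring, c2]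
      exact hxy
    · exact mem_flatMap_labels (Or.inl rfl) (List.getElem?_eq_getElem (by omega))
  · have c1 := (obp_cells_A k hk β As Bs h (t + i') (by omega)).2
    have c2 := (obp_cells_A k hk β As Bs h (t + i' + 1) (by omega)).2
    have c3 := (obp_cells_B k hk β As Bs h (t + i') (by omega)).2
    rw [hbot i' (by omega)] at c1
    rw [add_assoc t, hbot (i' + 1) (by omega)] at c2
    refine ⟨2 * k - 1 + 2 * (t + i'), (Bs.flatMap (bot β))[t + i']'(by omega), ?_, ?_, ?_⟩
    · rw [add_assoc, c3, List.getElem?_eq_getElem]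
    · rw [c1, show 2 * k - 1 + 2 * (t + i') + 2 = 2 * k - 1 + 2 * (t + (i' + 1)) by ring, c2]
      exact hxy
    · exact mem_flatMap_labels (Or.inr rfl) (List.getElem?_eq_getElem (by omega))

theorem obp_junction_B (k : ℕ) (hk : 1 ≤ k) (β : Obj → Bool) (As Bs : List Obj)
    (h : ObSize k As Bs) (O : Obj) (hO : O ∈ Bs) (side : List ℕ) (hs : side = O.1 ∨ side = O.2)
    (i x y : ℕ) (hx : side[i]? = some x) (hy : side[i + 1]? = some y) :
    ∃ p z, (obp β As Bs)[p + 1]? = some z ∧
      (((obp β As Bs)[p]? = some x ∧ (obp β As Bs)[p + 2]? = some y) ∨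
       ((obp β As Bs)[p]? = some y ∧ (obp β As Bs)[p + 2]? = some x)) ∧
      ∃ O' ∈ As, z ∈ labels O' := by
  have hA : ∀ O ∈ As, O.1.length = O.2.length := fun O hO => h.1 O (by simp [hO])
  have hB : ∀ O ∈ Bs, O.1.length = O.2.length := fun O hO => h.1 O (by simp [hO])
  obtain ⟨t, ht, htop, hbot⟩ := rows_split β Bs hB O hO
  rw [h.2.2.2] at ht
  obtain ⟨r, hr, i', hi', hxy⟩ := side_in_row β O (hB O hO) side hs i x y hx hy
  have hAl := tops_length β As hA
  have hAl' := bots_length β As hA
  rw [h.2.2.1] at hAl hAl'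
  rcases hr with rfl | rfl
  · have c1 := (obp_cells_B k hk β As Bs h (t + i') (by omega)).1
    have c2 := (obp_cells_B k hk β As Bs h (t + i' + 1) (by omega)).1
    have c3 := (obp_cells_A k hk β As Bs h (t + i' + 1) (by omega)).1
    rw [htop i' (by omega)] at c1
    rw [add_assoc t, htop (i' + 1) (by omega)] at c2
    refine ⟨2 * (t + i') + 1, (As.flatMap (top β))[t + i' + 1]'(by omega), ?_, ?_, ?_⟩
    · rw [show 2 * (t + i') + 1 + 1 = 2 * (t + i' + 1) by ring, c3, List.getElem?_eq_getElem]
    · rw [c1, show 2 * (t + i') + 1 + 2 = 2 * (t + (i' + 1)) + 1 by ring, c2]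
      exact hxy
    · exact mem_flatMap_labels (Or.inl rfl) (List.getElem?_eq_getElem (by omega))
  · have c1 := (obp_cells_B k hk β As Bs h (t + i') (by omega)).2
    have c2 := (obp_cells_B k hk β As Bs h (t + i' + 1) (by omega)).2
    have c3 := (obp_cells_A k hk β As Bs h (t + i' + 1) (by omega)).2
    rw [hbot i' (by omega)] at c1
    rw [add_assoc t, hbot (i' + 1) (by omega)] at c2
    refine ⟨2 * k - 1 + (2 * (t + i') + 1), (As.flatMap (bot β))[t + i' + 1]'(by omega),
      ?_, ?_, ?_⟩
    · rw [show 2 * k - 1 + (2 * (t + i') + 1) + 1 = 2 * k - 1 + 2 * (t + i' + 1) by ring, c3,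
        List.getElem?_eq_getElem]
    · rw [c1, show 2 * k - 1 + (2 * (t + i') + 1) + 2 = 2 * k - 1 + (2 * (t + (i' + 1)) + 1) by
        ring, c2]
      exact hxy
    · exact mem_flatMap_labels (Or.inr rfl) (List.getElem?_eq_getElem (by omega))

/-- the last letter of `l` and the first letter of `r` are in the last column of the object -/
theorem status_in_rows (β : Obj → Bool) (O : Obj) (h : O.1.length = O.2.length) (x y : ℕ)
    (hx : O.1.getLast? = some x) (hy : O.2.head? = some y) :
    1 ≤ O.1.length ∧
    (((top β O)[O.1.length - 1]? = some x ∧ (bot β O)[O.1.length - 1]? = some y) ∨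
      ((top β O)[O.1.length - 1]? = some y ∧ (bot β O)[O.1.length - 1]? = some x)) := by
  rw [List.getLast?_eq_getElem?] at hx
  have hl : 1 ≤ O.1.length := by
    have := (List.getElem?_eq_some_iff.1 hx).1
    omega
  have hy' : O.2.reverse[O.1.length - 1]? = some y := by
    rw [h, List.getElem?_reverse (by omega), show O.2.length - 1 - (O.2.length - 1) = 0 by omega,
      ← List.head?_eq_getElem?]
    exact hy
  refine ⟨hl, ?_⟩
  unfold top bot
  by_cases hβ : β O = true
  · rw [if_pos hβ, if_pos hβ]
    exact Or.inl ⟨hx, hy'⟩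
  · rw [if_neg hβ, if_neg hβ]
    exact Or.inr ⟨hy', hx⟩

theorem obp_status (k : ℕ) (hk : 1 ≤ k) (β : Obj → Bool) (As Bs : List Obj)
    (h : ObSize k As Bs) (O : Obj) (hO : O ∈ As ++ Bs) (x y : ℕ)
    (hx : O.1.getLast? = some x) (hy : O.2.head? = some y) :
    ∃ p, ((obp β As Bs)[p]? = some x ∧ (obp β As Bs)[p + (2 * k - 1)]? = some y) ∨
      ((obp β As Bs)[p]? = some y ∧ (obp β As Bs)[p + (2 * k - 1)]? = some x) := by
  have hA : ∀ O ∈ As, O.1.length = O.2.length := fun O hO => h.1 O (by simp [hO])
  have hB : ∀ O ∈ Bs, O.1.length = O.2.length := fun O hO => h.1 O (by simp [hO])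
  obtain ⟨hl, hst⟩ := status_in_rows β O (h.1 O hO) x y hx hy
  rcases List.mem_append.1 hO with hO | hO
  · obtain ⟨t, ht, htop, hbot⟩ := rows_split β As hA O hO
    rw [h.2.2.1] at ht
    have c := obp_cells_A k hk β As Bs h (t + (O.1.length - 1)) (by omega)
    rw [htop _ (by omega), hbot _ (by omega)] at c
    refine ⟨2 * (t + (O.1.length - 1)), ?_⟩
    rw [add_comm (2 * (t + (O.1.length - 1))) (2 * k - 1), c.1, c.2]
    exact hst
  · obtain ⟨t, ht, htop, hbot⟩ := rows_split β Bs hB O hO
    rw [h.2.2.2] at ht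
    have c := obp_cells_B k hk β As Bs h (t + (O.1.length - 1)) (by omega)
    rw [htop _ (by omega), hbot _ (by omega)] at c
    refine ⟨2 * (t + (O.1.length - 1)) + 1, ?_⟩
    rw [add_comm (2 * (t + (O.1.length - 1)) + 1) (2 * k - 1), c.1, c.2]
    exact hst

end Pool.Agent.Lib_helper4.Asy
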