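import Pool.Agent.Lib_helper4.AsyF.OBO

set_option autoImplicit false

namespace Pool.Agent.Lib_helper4.Asy

theorem solp_perm (β : Obj → Bool) (O : Obj) : (solp β O).Perm (labels O) := by
  unfold solp
  exact (il_perm _ _).trans (top_bot_perm β O)

theorem solp_top (β : Obj → Bool) (O : Obj) (h : O.1.length = O.2.length) (i : ℕ) :
    (solp β O)[2 * i]? = (top β O)[i]? ∧ (solp β O)[2 * i + 1]? = (bot β O)[i]? := by
  have h1 := top_length β O h
  have h2 := bot_length β O h
  unfold solp
  exact ⟨il_even _ _ (Or.inl (by omega)) i, il_odd _ _ (Or.inl (by omega)) i⟩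

theorem rev_get {l : List ℕ} {i : ℕ} (hi : i < l.length) :
    l.reverse[i]? = l[l.length - 1 - i]? := List.getElem?_reverse hi

theorem solp_junction_1 (β : Obj → Bool) (O : Obj) (h : O.1.length = O.2.length)
    (i x y : ℕ) (hx : O.1[i]? = some x) (hy : O.1[i + 1]? = some y) :
    ∃ p z, (solp β O)[p + 1]? = some z ∧
      (((solp β O)[p]? = some x ∧ (solp β O)[p + 2]? = some y) ∨
       ((solp β O)[p]? = some y ∧ (solp β O)[p + 2]? = some x)) ∧
      (O.2.reverse[i]? = some z ∨ O.2.reverse[i + 1]? = some z) := by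
  have hl : i + 1 < O.1.length := (List.getElem?_eq_some_iff.1 hy).1
  have c1 := solp_top β O h i
  have c2 := solp_top β O h (i + 1)
  have hr1 : O.2.reverse[i]? = some (O.2.reverse[i]'(by simp; omega)) :=
    List.getElem?_eq_getElem _
  have hr2 : O.2.reverse[i + 1]? = some (O.2.reverse[i + 1]'(by simp; omega)) :=
    List.getElem?_eq_getElem _
  by_cases hβ : β O = true
  · have ht : top β O = O.1 := by unfold top; rw [if_pos hβ]
    have hb : bot β O = O.2.reverse := by unfold bot; rw [if_pos hβ]
    rw [ht, hb] at c1 c2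
    refine ⟨2 * i, _, by rw [c1.2]; exact hr1, Or.inl ⟨by rw [c1.1]; exact hx, ?_⟩, Or.inl hr1⟩
    rw [show 2 * i + 2 = 2 * (i + 1) by ring, c2.1]; exact hy
  · have ht : top β O = O.2.reverse := by unfold top; rw [if_neg hβ]
    have hb : bot β O = O.1 := by unfold bot; rw [if_neg hβ]
    rw [ht, hb] at c1 c2
    refine ⟨2 * i + 1, _, by rw [show 2 * i + 1 + 1 = 2 * (i + 1) by ring, c2.1]; exact hr2,
      Or.inl ⟨by rw [c1.2]; exact hx, ?_⟩, Or.inr hr2⟩
    rw [show 2 * i + 1 + 2 = 2 * (i + 1) + 1 by ring, c2.2]; exact hy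

theorem solp_junction_2 (β : Obj → Bool) (O : Obj) (h : O.1.length = O.2.length)
    (i x y : ℕ) (hx : O.2[i]? = some x) (hy : O.2[i + 1]? = some y) :
    ∃ p z, (solp β O)[p + 1]? = some z ∧
      (((solp β O)[p]? = some x ∧ (solp β O)[p + 2]? = some y) ∨
       ((solp β O)[p]? = some y ∧ (solp β O)[p + 2]? = some x)) ∧
      (O.1.reverse[i]? = some z ∨ O.1.reverse[i + 1]? = some z) := by
  have hl : i + 1 < O.2.length := (List.getElem?_eq_some_iff.1 hy).1
  obtain ⟨t, ht⟩ : ∃ t, t + (i + 1) + 1 = O.2.length := ⟨O.2.length - 1 - (i + 1), by omega⟩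
  have c1 := solp_top β O h t
  have c2 := solp_top β O h (t + 1)
  have e1 : O.2.reverse[t]? = some y := by
    rw [rev_get (by omega), show O.2.length - 1 - t = i + 1 by omega]; exact hy
  have e2 : O.2.reverse[t + 1]? = some x := by
    rw [rev_get (by omega), show O.2.length - 1 - (t + 1) = i by omega]; exact hx
  have f1 : O.1.reverse[i]? = O.1[t + 1]? := by
    rw [rev_get (by omega), show O.1.length - 1 - i = t + 1 by omega]
  have f2 : O.1.reverse[i + 1]? = O.1[t]? := by
    rw [rev_get (by omega), show O.1.length - 1 - (i + 1) = t by omega]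
  have hr1 : O.1[t + 1]? = some (O.1[t + 1]'(by omega)) := List.getElem?_eq_getElem _
  have hr2 : O.1[t]? = some (O.1[t]'(by omega)) := List.getElem?_eq_getElem _
  by_cases hβ : β O = true
  · have ht : top β O = O.1 := by unfold top; rw [if_pos hβ]
    have hb : bot β O = O.2.reverse := by unfold bot; rw [if_pos hβ]
    rw [ht, hb] at c1 c2
    refine ⟨2 * t + 1, _, by rw [show 2 * t + 1 + 1 = 2 * (t + 1) by ring, c2.1]; exact hr1,
      Or.inr ⟨by rw [c1.2]; exact e1, ?_⟩, Or.inl (by rw [f1]; exact hr1)⟩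
    rw [show 2 * t + 1 + 2 = 2 * (t + 1) + 1 by ring, c2.2]; exact e2
  · have ht : top β O = O.2.reverse := by unfold top; rw [if_neg hβ]
    have hb : bot β O = O.1 := by unfold bot; rw [if_neg hβ]
    rw [ht, hb] at c1 c2
    refine ⟨2 * t, _, by rw [c1.2]; exact hr2, Or.inr ⟨by rw [c1.1]; exact e1, ?_⟩,
      Or.inr (by rw [f2]; exact hr2)⟩
    rw [show 2 * t + 2 = 2 * (t + 1) by ring, c2.1]; exact e2

theorem solp_dense (k : ℕ) (β : Obj → Bool) (O : Obj) (h : O.1.length = O.2.length)
    (side : List ℕ) (hs : side = O.1 ∨ side = O.2) (i x y : ℕ) (hx : side[i]? = some x)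
    (hy : side[i + k]? = some y) :
    ∃ p, ((solp β O)[p]? = some x ∧ (solp β O)[p + 2 * k]? = some y) ∨
      ((solp β O)[p]? = some y ∧ (solp β O)[p + 2 * k]? = some x) := by
  -- either `top` or `bot`, either in order or reversed
  have key : ∀ r : List ℕ, (r = top β O ∨ r = bot β O) → ∀ t a b : ℕ, r[t]? = some a →
      r[t + k]? = some b → ∃ p, (solp β O)[p]? = some a ∧ (solp β O)[p + 2 * k]? = some b := by
    intro r hr t a b ha hb
    have c1 := solp_top β O h t
    have c2 := solp_top β O h (t + k)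
    rcases hr with rfl | rfl
    · exact ⟨2 * t, by rw [c1.1]; exact ha, by
        rw [show 2 * t + 2 * k = 2 * (t + k) by ring, c2.1]; exact hb⟩
    · exact ⟨2 * t + 1, by rw [c1.2]; exact ha, by
        rw [show 2 * t + 1 + 2 * k = 2 * (t + k) + 1 by ring, c2.2]; exact hb⟩
  have hlen : i + k < side.length := (List.getElem?_eq_some_iff.1 hy).1
  rcases hs with rfl | rfl
  · have hr : O.1 = top β O ∨ O.1 = bot β O := by
      unfold top bot
      cases β O <;> simp
    obtain ⟨p, hp⟩ := key O.1 hr i x y hx hy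
    exact ⟨p, Or.inl hp⟩
  · have hr : O.2.reverse = top β O ∨ O.2.reverse = bot β O := by
      unfold top bot
      cases β O <;> simp
    obtain ⟨t, ht⟩ : ∃ t, t + (i + k) + 1 = O.2.length := ⟨O.2.length - 1 - (i + k), by omega⟩
    obtain ⟨p, hp⟩ := key O.2.reverse hr t y x
      (by rw [rev_get (by omega), show O.2.length - 1 - t = i + k by omega]; exact hy)
      (by rw [rev_get (by omega), show O.2.length - 1 - (t + k) = i by omega]; exact hx)
    exact ⟨p, Or.inr hp⟩

theorem solp_adj (k : ℕ) (hk : 1 ≤ k) (β : Obj → Bool) (O : Obj)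
    (h : O.1.length = O.2.length) (hm : k ≤ O.1.length) :
    ∃ u v x y, u + v = k - 1 ∧ u < O.1.length ∧ v < O.2.length ∧
      O.1[O.1.length - 1 - u]? = some x ∧ O.2[v]? = some y ∧ AdjL (solp β O) x y := by
  have get1 : ∀ i, (hi : i < O.1.length) → O.1[i]? = some (O.1[i]'hi) :=
    fun i hi => List.getElem?_eq_getElem _
  have get2 : ∀ i, (hi : i < O.2.length) → O.2[i]? = some (O.2[i]'hi) :=
    fun i hi => List.getElem?_eq_getElem _
  have rev2 : ∀ v, v < O.2.length → O.2.reverse[O.2.length - 1 - v]? = O.2[v]? := by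
    intro v hv
    rw [rev_get (by omega), show O.2.length - 1 - (O.2.length - 1 - v) = v by omega]
  rcases Nat.even_or_odd' k with ⟨u, hu | hu⟩
  · -- k = 2u
    by_cases hβ : β O = true
    · have ht : top β O = O.1 := by unfold top; rw [if_pos hβ]
      have hb : bot β O = O.2.reverse := by unfold bot; rw [if_pos hβ]
      refine ⟨u - 1, u, _, _, by omega, by omega, by omega, get1 _ (by omega),
        get2 _ (by omega), ?_⟩
      -- O.1 index i = m - u ; O.2.reverse index m-1-u = i - 1
      have c1 := solp_top β O h (O.2.length - 1 - u)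
      have c2 := solp_top β O h (O.2.length - 1 - u + 1)
      rw [ht, hb] at c1 c2
      refine ⟨2 * (O.2.length - 1 - u) + 1, Or.inr ⟨?_, ?_⟩⟩
      · rw [c1.2, rev2 u (by omega)]; exact get2 _ _
      · rw [show 2 * (O.2.length - 1 - u) + 1 + 1 = 2 * (O.2.length - 1 - u + 1) by ring, c2.1,
          show O.2.length - 1 - u + 1 = O.1.length - 1 - (u - 1) by omega]
        exact get1 _ _
    · have ht : top β O = O.2.reverse := by unfold top; rw [if_neg hβ]
      have hb : bot β O = O.1 := by unfold bot; rw [if_neg hβ]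
      refine ⟨u, u - 1, _, _, by omega, by omega, by omega, get1 _ (by omega),
        get2 _ (by omega), ?_⟩
      have c1 := solp_top β O h (O.1.length - 1 - u)
      have c2 := solp_top β O h (O.1.length - 1 - u + 1)
      rw [ht, hb] at c1 c2
      refine ⟨2 * (O.1.length - 1 - u) + 1, Or.inl ⟨?_, ?_⟩⟩
      · rw [c1.2]; exact get1 _ _
      · rw [show 2 * (O.1.length - 1 - u) + 1 + 1 = 2 * (O.1.length - 1 - u + 1) by ring, c2.1,
          show O.1.length - 1 - u + 1 = O.2.length - 1 - (u - 1) by omega, rev2 _ (by omega)]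
        exact get2 _ _
  · -- k = 2u + 1
    refine ⟨u, u, _, _, by omega, by omega, by omega, get1 _ (by omega), get2 _ (by omega), ?_⟩
    have c1 := solp_top β O h (O.1.length - 1 - u)
    by_cases hβ : β O = true
    · have ht : top β O = O.1 := by unfold top; rw [if_pos hβ]
      have hb : bot β O = O.2.reverse := by unfold bot; rw [if_pos hβ]
      rw [ht, hb] at c1
      refine ⟨2 * (O.1.length - 1 - u), Or.inl ⟨by rw [c1.1]; exact get1 _ _, ?_⟩⟩
      rw [c1.2, h, rev2 u (by omega)]; exact get2 _ _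
    · have ht : top β O = O.2.reverse := by unfold top; rw [if_neg hβ]
      have hb : bot β O = O.1 := by unfold bot; rw [if_neg hβ]
      rw [ht, hb] at c1
      refine ⟨2 * (O.1.length - 1 - u), Or.inr ⟨?_, by rw [c1.2]; exact get1 _ _⟩⟩
      rw [c1.1, h, rev2 u (by omega)]; exact get2 _ _

/-- ladder cycle: `a`, `b` the two rows of the first path; the second path has the rows swapped.
Rails: `e, a 0, b 1, a 2, …` and `e, b 0, a 1, b 2, …`. -/
theorem ladder (k : ℕ) (hk : 1 ≤ k) (P P' : List ℕ) (hP : P.Nodup) (e : ℕ) (a b : ℕ → ℕ)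
    (h0 : P[0]? = some e) (h0' : P'[0]? = some e)
    (ha : ∀ i < k, P[2 * i + 1]? = some (a i)) (hb : ∀ i < k, P[2 * i + 2]? = some (b i))
    (ha' : ∀ i < k, P'[2 * i + 2]? = some (a i)) (hb' : ∀ i < k, P'[2 * i + 1]? = some (b i)) :
    ∃ c, CycIn k P P' c := by
  -- `q t` for `t < k` : rail 1, `r t` : rail 2
  let q : ℕ → ℕ := fun t => if t % 2 = 0 then a t else b t
  let r : ℕ → ℕ := fun t => if t % 2 = 0 then b t else a t
  let g : ℕ → ℕ := fun i => if i = 0 then e else if i ≤ k then q (i - 1) else r (2 * k - i)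
  -- positions on `P`
  let pos : ℕ → ℕ := fun i => if i = 0 then 0 else if i ≤ k then
      (if (i - 1) % 2 = 0 then 2 * (i - 1) + 1 else 2 * (i - 1) + 2) else
      (if (2 * k - i) % 2 = 0 then 2 * (2 * k - i) + 2 else 2 * (2 * k - i) + 1)
  have hpos : ∀ i < 2 * k + 1, P[pos i]? = some (g i) := by
    intro i hi
    simp only [pos, g, q, r]
    by_cases h1 : i = 0
    · rw [if_pos h1, if_pos h1]; exact h0
    rw [if_neg h1, if_neg h1]
    by_cases h2 : i ≤ k
    · rw [if_pos h2, if_pos h2]
      by_cases h3 : (i - 1) % 2 = 0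
      · rw [if_pos h3, if_pos h3]; exact ha _ (by omega)
      · rw [if_neg h3, if_neg h3]; exact hb _ (by omega)
    · rw [if_neg h2, if_neg h2]
      by_cases h3 : (2 * k - i) % 2 = 0
      · rw [if_pos h3, if_pos h3]; exact hb _ (by omega)
      · rw [if_neg h3, if_neg h3]; exact ha _ (by omega)
  have hposinj : ∀ i < 2 * k + 1, ∀ j < 2 * k + 1, pos i = pos j → i = j := by
    intro i hi j hj hij
    simp only [pos] at hij
    split_ifs at hij <;> omega
  refine ⟨_, cyc_of_fun k P P' g ?_ ?_⟩
  · intro i hi j hj hij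
    have h1 := hpos i hi
    have h2 := hpos j hj
    rw [hij] at h1
    exact hposinj i hi j hj (getElem?_inj' hP h1 h2)
  · -- steps along the rails
    have hq : ∀ t, t + 1 < k → AdjL P (q t) (q (t + 1)) ∨ AdjL P' (q t) (q (t + 1)) := by
      intro t ht
      simp only [q]
      by_cases h3 : t % 2 = 0
      · right
        rw [if_pos h3, if_neg (by omega)]
        exact ⟨2 * t + 2, Or.inl ⟨ha' t (by omega), by
          have := hb' (t + 1) ht
          rw [show 2 * (t + 1) + 1 = 2 * t + 2 + 1 by ring] at this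
          exact this⟩⟩
      · left
        rw [if_neg h3, if_pos (by omega)]
        exact ⟨2 * t + 2, Or.inl ⟨hb t (by omega), by
          have := ha (t + 1) ht
          rw [show 2 * (t + 1) + 1 = 2 * t + 2 + 1 by ring] at this
          exact this⟩⟩
    have hr : ∀ t, t + 1 < k → AdjL P (r t) (r (t + 1)) ∨ AdjL P' (r t) (r (t + 1)) := by
      intro t ht
      simp only [r]
      by_cases h3 : t % 2 = 0
      · left
        rw [if_pos h3, if_neg (by omega)]
        exact ⟨2 * t + 2, Or.inl ⟨hb t (by omega), by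
          have := ha (t + 1) ht
          rw [show 2 * (t + 1) + 1 = 2 * t + 2 + 1 by ring] at this
          exact this⟩⟩
      · right
        rw [if_neg h3, if_pos (by omega)]
        exact ⟨2 * t + 2, Or.inl ⟨ha' t (by omega), by
          have := hb' (t + 1) ht
          rw [show 2 * (t + 1) + 1 = 2 * t + 2 + 1 by ring] at this
          exact this⟩⟩
    have g0 : g 0 = e := if_pos rfl
    have gle : ∀ i, 1 ≤ i → i ≤ k → g i = q (i - 1) := by
      intro i hi1 hi2
      simp only [g]
      rw [if_neg (by omega), if_pos hi2]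
    have ggt : ∀ i, k < i → g i = r (2 * k - i) := by
      intro i hi1
      simp only [g]
      rw [if_neg (by omega), if_neg (by omega)]
    have q0 : q 0 = a 0 := if_pos rfl
    have r0 : r 0 = b 0 := if_pos rfl
    intro i hi
    by_cases h1 : i = 0
    · left
      subst h1
      rw [Nat.mod_eq_of_lt (by omega), g0, gle (0 + 1) (by omega) (by omega),
        show 0 + 1 - 1 = 0 by omega, q0]
      exact ⟨0, Or.inl ⟨h0, by simpa using ha 0 (by omega)⟩⟩
    by_cases h2 : i < k
    · rw [Nat.mod_eq_of_lt (by omega), gle i (by omega) (by omega), gle (i + 1) (by omega) (by omega)]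
      have := hq (i - 1) (by omega)
      rw [show i - 1 + 1 = i + 1 - 1 by omega] at this
      exact this
    by_cases h3 : i = k
    · left
      rw [Nat.mod_eq_of_lt (by omega), gle i (by omega) (by omega), ggt (i + 1) (by omega),
        show 2 * k - (i + 1) = i - 1 by omega]
      simp only [q, r]
      by_cases h4 : (i - 1) % 2 = 0
      · rw [if_pos h4, if_pos h4]
        exact ⟨2 * (i - 1) + 1, Or.inl ⟨ha _ (by omega), hb _ (by omega)⟩⟩
      · rw [if_neg h4, if_neg h4]
        exact ⟨2 * (i - 1) + 1, Or.inr ⟨ha _ (by omega), hb _ (by omega)⟩⟩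
    by_cases h4 : i = 2 * k
    · right
      rw [h4, Nat.mod_self, g0, ggt (2 * k) (by omega), Nat.sub_self, r0]
      exact ⟨0, Or.inr ⟨h0', by simpa using hb' 0 (by omega)⟩⟩
    · rw [Nat.mod_eq_of_lt (by omega), ggt i (by omega), ggt (i + 1) (by omega)]
      have := hr (2 * k - (i + 1)) (by omega)
      rw [show 2 * k - (i + 1) + 1 = 2 * k - i by omega] at this
      rcases this with h | h
      · exact Or.inl (adjL_symm h)
      · exact Or.inr (adjL_symm h)

theorem sol_orient (k : ℕ) (hk : 2 ≤ k) (O : Obj) (h : O.1.length = O.2.length)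
    (hm : k ≤ O.1.length) (β β' : Obj → Bool) (e : ℕ) (hnd : (e :: labels O).Nodup)
    (hne : β O ≠ β' O) :
    ∃ c, CycIn k (e :: solp β O) (e :: solp β' O) c := by
  have hn1 : (e :: solp β O).Nodup := ((solp_perm β O).cons e).nodup_iff.2 hnd
  have h1 := top_length β O h
  have h2 := bot_length β O h
  have e1 : top β' O = bot β O := by
    unfold top bot
    cases hb : β O <;> cases hb' : β' O <;> simp_all
  have e2 : bot β' O = top β O := by
    unfold top bot
    cases hb : β O <;> cases hb' : β' O <;> simp_all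
  have ga : ∀ i < k, (top β O)[i]? = some ((top β O).getD i 0) := by
    intro i hi
    rw [List.getD_eq_getElem _ _ (by omega), List.getElem?_eq_getElem (by omega)]
  have gb : ∀ i < k, (bot β O)[i]? = some ((bot β O).getD i 0) := by
    intro i hi
    rw [List.getD_eq_getElem _ _ (by omega), List.getElem?_eq_getElem (by omega)]
  refine ladder k (by omega) _ _ hn1 e (fun i => (top β O).getD i 0)
    (fun i => (bot β O).getD i 0) rfl rfl ?_ ?_ ?_ ?_
  · intro i hi
    rw [List.getElem?_cons_succ, (solp_top β O h i).1]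
    exact ga i hi
  · intro i hi
    rw [show 2 * i + 2 = (2 * i + 1) + 1 by ring, List.getElem?_cons_succ,
      (solp_top β O h i).2]
    exact gb i hi
  · intro i hi
    rw [show 2 * i + 2 = (2 * i + 1) + 1 by ring, List.getElem?_cons_succ,
      (solp_top β' O h i).2, e2]
    exact ga i hi
  · intro i hi
    rw [List.getElem?_cons_succ, (solp_top β' O h i).1, e1]
    exact gb i hi

end Pool.Agent.Lib_helper4.Asy
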