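import Pool.Agent.Lib_helper4.AsyF.SKEL
import Pool.Agent.Lib_helper4.AsyF.OBF
import Pool.Agent.Lib_helper4.AsyF.GAD
import Pool.Agent.Lib_helper4.AsyF.SOL

set_option autoImplicit false

namespace Pool.Agent.Lib_helper4.Asy

/-! ### common facts for the assembly -/

theorem skOf_spec (k N D : ℕ) (hk : 2 ≤ k) (hD : 4 ^ (lvJ k + 1) ≤ D)
    (hbig : KK k * (D + 1) ≤ N) (σ : ℕ → Bool) (h : Ok k N D σ) :
    IsSkel k N (prs σ (lvJ k) N) (word σ (lvJ k) N)
      (skOf k N (prs σ (lvJ k) N) (word σ (lvJ k) N)) := by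
  have hex := skel_exists k N D hk σ h.bal h.typ hD hbig
  unfold skOf
  rw [dif_pos hex]
  exact hex.choose_spec

theorem clsOf_mem_DD {σ : ℕ → Bool} {J N j s Q : ℕ} {O : Obj}
    (h : O ∈ clsOf N Q j s (prs σ J N j) (word σ J N j)) : O ∈ DD σ J N j := by
  rw [dd_eq]
  unfold clsOf at h
  rw [List.mem_map] at h ⊢
  obtain ⟨q, hq, rfl⟩ := h
  refine ⟨q, ?_, rfl⟩
  rw [List.mem_filter] at hq ⊢
  exact ⟨List.mem_of_mem_drop (List.mem_of_mem_take hq.1), hq.2⟩

theorem DD_mem_prs {σ : ℕ → Bool} {J N j : ℕ} {O : Obj} (h : O ∈ DD σ J N j) :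
    O ∈ prs σ J N j := (List.mem_filter.1 h).1

theorem DD_len {σ : ℕ → Bool} {J N j : ℕ} {O : Obj} (h : O ∈ DD σ J N j) :
    O.1.length = 2 ^ j ∧ O.2.length = 2 ^ j := prs_len σ J N j O (DD_mem_prs h)

/-- the raw tags of the good blocks -/
theorem small_tag {k N : ℕ} {σ : ℕ → Bool} {sk : List (Blk (Tg Obj))}
    (hs : IsSkel k N (prs σ (lvJ k) N) (word σ (lvJ k) N) sk) {b : Blk (Tg Obj)} (hb : b ∈ sk)
    (hns : ∀ o, b ≠ Blk.sol o) : GoodBlk k (lvJ k) b ∧ ∀ a ∈ b.objs,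
      a.lev < lvJ k ∧ a.seg < QQ (lvJ k) ∧ a.o ∈ cls σ (lvJ k) N a.lev a.seg ∧
        a.o ∈ DD σ (lvJ k) N a.lev ∧ a.o.1.length = 2 ^ a.lev ∧ a.o.2.length = 2 ^ a.lev := by
  rcases hs.small b hb with ⟨o, ho⟩ | ⟨h1, h2⟩
  · exact absurd ho (hns o)
  · refine ⟨h1, fun a ha => ?_⟩
    obtain ⟨h3, h4, h5⟩ := h2 a ha
    have h6 := clsOf_mem_DD h5
    exact ⟨h3, h4, h5, h6, (DD_len h6).1, (DD_len h6).2⟩

theorem obSize_of {k N : ℕ} {σ : ℕ → Bool} {sk : List (Blk (Tg Obj))}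
    (hs : IsSkel k N (prs σ (lvJ k) N) (word σ (lvJ k) N) sk) {As Bs : List (Tg Obj)}
    (hb : Blk.ob As Bs ∈ sk) : ObSize k (As.map Tg.o) (Bs.map Tg.o) := by
  obtain ⟨h1, h2⟩ := small_tag hs hb (by intro o h; cases h)
  have h1' : GoodOb k (lvJ k) As Bs := h1
  obtain ⟨hA, hB, -, -⟩ := h1'
  have h2' : ∀ a ∈ As ++ Bs, a.o.1.length = 2 ^ a.lev ∧ a.o.2.length = 2 ^ a.lev := fun a ha =>
    ⟨(h2 a ha).2.2.2.2.1, (h2 a ha).2.2.2.2.2⟩
  refine ⟨?_, ?_, ?_, ?_⟩
  · intro O hO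
    rw [← List.map_append, List.mem_map] at hO
    obtain ⟨a, ha, rfl⟩ := hO
    rw [(h2' a ha).1, (h2' a ha).2]
  · intro O hO
    rw [← List.map_append, List.mem_map] at hO
    obtain ⟨a, ha, rfl⟩ := hO
    intro h0
    have := (h2' a ha).1
    rw [h0] at this
    have h3 : 0 < 2 ^ a.lev := by positivity
    rw [List.length_nil] at this
    omega
  · rw [List.map_map, ← hA]
    congr 1
    apply List.map_congr_left
    intro a ha
    simp only [Function.comp]
    exact (h2' a (List.mem_append_left _ ha)).1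
  · rw [List.map_map, ← hB]
    congr 1
    apply List.map_congr_left
    intro a ha
    simp only [Function.comp]
    exact (h2' a (List.mem_append_right _ ha)).1

theorem mem_unpair_iff {α : Type} {L : List (α × α)} {a : α} :
    a ∈ unpair L ↔ ∃ p ∈ L, a = p.1 ∨ a = p.2 := by
  unfold unpair
  simp [List.mem_flatMap]

theorem unpair_map_o (us : List (Tg Obj × Tg Obj)) :
    unpair (us.map fun p => (p.1.o, p.2.o)) = (unpair us).map Tg.o := by
  unfold unpair
  rw [List.flatMap_map, List.map_flatMap]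
  rfl

theorem gadSize_of {k N : ℕ} {σ : ℕ → Bool} {sk : List (Blk (Tg Obj))}
    (hs : IsSkel k N (prs σ (lvJ k) N) (word σ (lvJ k) N) sk) {us : List (Tg Obj × Tg Obj)}
    (hb : Blk.gad us ∈ sk) : GadSize k (us.map fun p => (p.1.o, p.2.o)) := by
  obtain ⟨h1, h2⟩ := small_tag hs hb (by intro o h; cases h)
  have h1' : GoodGad k (lvJ k) us := h1
  obtain ⟨hA, hB, -⟩ := h1'
  refine ⟨by rw [List.length_map]; exact hA, ?_⟩
  intro u hu
  rw [List.mem_map] at hu
  obtain ⟨p, hp, rfl⟩ := hu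
  obtain ⟨hl1, hl2, -, -⟩ := hB p hp
  have e1 := h2 p.1 (mem_unpair_iff.2 ⟨p, hp, Or.inl rfl⟩)
  have e2 := h2 p.2 (mem_unpair_iff.2 ⟨p, hp, Or.inr rfl⟩)
  rw [hl1] at e1
  rw [hl2] at e2
  exact ⟨e1.2.2.2.2.1, e1.2.2.2.2.2, e2.2.2.2.2.1, e2.2.2.2.2.2⟩

/-- a block is a permutation of the labels of its objects -/
theorem bp_perm {k N : ℕ} {σ : ℕ → Bool} {sk : List (Blk (Tg Obj))}
    (hs : IsSkel k N (prs σ (lvJ k) N) (word σ (lvJ k) N) sk) (β : Obj → Bool)
    {b : Blk (Tg Obj)} (hb : b ∈ sk) : (bp k β b).Perm ((b.objs.map Tg.o).flatMap labels) := by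
  cases b with
  | ob As Bs =>
    show (obp β (As.map Tg.o) (Bs.map Tg.o)).Perm (((As ++ Bs).map Tg.o).flatMap labels)
    rw [List.map_append]
    exact obp_perm k β _ _
  | gad us =>
    show (gadp k β (us.map fun p => (p.1.o, p.2.o))).Perm (((unpair us).map Tg.o).flatMap labels)
    rw [← unpair_map_o]
    exact gadp_perm k β _ (gadSize_of hs hb)
  | sol o =>
    show (solp β o.o).Perm (([o].map Tg.o).flatMap labels)
    simpa using solp_perm β o.o

theorem flatMap_perm_congr {α β : Type} (L : List α) (f g : α → List β)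
    (h : ∀ a ∈ L, (f a).Perm (g a)) : (L.flatMap f).Perm (L.flatMap g) := by
  induction L with
  | nil => simp
  | cons a t ih =>
    rw [List.flatMap_cons, List.flatMap_cons]
    exact (h a (by simp)).append (ih fun b hb => h b (by simp [hb]))

theorem sk_perm {k N D : ℕ} {σ : ℕ → Bool} (h : Ok k N D σ) {sk : List (Blk (Tg Obj))}
    (hs : IsSkel k N (prs σ (lvJ k) N) (word σ (lvJ k) N) sk) (β : Obj → Bool) :
    (sk.flatMap (bp k β)).Perm (List.range N) := by
  have h1 := flatMap_perm_congr sk (bp k β) (fun b => (b.objs.map Tg.o).flatMap labels)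
    (fun b hb => bp_perm hs β hb)
  refine h1.trans ?_
  have h2 : (sk.flatMap fun b => (b.objs.map Tg.o).flatMap labels) =
      ((sk.flatMap Blk.objs).map Tg.o).flatMap labels := by
    rw [List.map_flatMap, List.flatMap_assoc]
  rw [h2]
  refine (List.Perm.flatMap_right labels hs.perm).trans ?_
  rw [List.flatMap_assoc]
  have h3 := dd_perm σ (lvJ k) N h.bal
  simp only [dd_eq] at h3
  exact h3

theorem il_head {α : Type} (x : α) (xs ys : List α) : (il (x :: xs) ys).head? = some x := by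
  rw [il]; rfl

theorem bp_head {k : ℕ} {β : Obj → Bool} {b : Blk (Tg Obj)}
    (hb : (∃ o, b = Blk.sol o ∧ o.o.1.head? = some 0 ∧ β o.o = true) ∨
      (∃ O As Bs, b = Blk.ob (O :: As) Bs ∧ O.o.1.head? = some 0 ∧ β O.o = true)) :
    (bp k β b).head? = some 0 := by
  rcases hb with ⟨o, rfl, h1, h2⟩ | ⟨O, As, Bs, rfl, h1, h2⟩
  · show (il (top β o.o) (bot β o.o)).head? = some 0
    unfold top
    rw [h2]
    simp only [if_true]
    cases ho : o.o.1 with
    | nil => rw [ho] at h1; simp at h1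
    | cons x t => rw [ho] at h1; simp at h1; rw [il_head, h1]
  · show (il (((O :: As).map Tg.o).flatMap (top β)) ((Bs.map Tg.o).flatMap (top β)) ++ _).head? =
      some 0
    rw [List.map_cons, List.flatMap_cons]
    have h3 : top β O.o = O.o.1 := by unfold top; rw [h2]; simp
    rw [h3]
    cases ho : O.o.1 with
    | nil => rw [ho] at h1; simp at h1
    | cons x t =>
      rw [ho] at h1; simp at h1
      rw [List.cons_append, il]
      simp [h1]

theorem bet_zero {σ : ℕ → Bool} {O : Obj} (h : O.1.head? = some 0) (h0 : σ 0 = true) :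
    bet σ O = true := by
  unfold bet
  cases ho : O.1 with
  | nil => rw [ho] at h; simp at h
  | cons x t => rw [ho] at h; simp at h; simp [h, h0]

theorem path_perm (k N D : ℕ) (hk : 2 ≤ k) (hD : 4 ^ (lvJ k + 1) ≤ D)
    (hbig : KK k * (D + 1) ≤ N) (σ : ℕ → Bool) (h : Ok k N D σ) :
    (pathOf k N σ).Perm (List.range N) ∧ (pathOf k N σ).head? = some 0 := by
  have hs := skOf_spec k N D hk hD hbig σ h
  refine ⟨sk_perm h hs (bet σ), ?_⟩
  obtain ⟨b, rest, hb, hc⟩ := hs.first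
  unfold pathOf
  rw [hb, List.flatMap_cons]
  have h1 : (bp k (bet σ) b).head? = some 0 := by
    apply bp_head
    rcases hc with ⟨o, h2, h3⟩ | ⟨O, As, Bs, h2, h3, -⟩
    · exact Or.inl ⟨o, h2, h3, bet_zero h3 h.zero⟩
    · exact Or.inr ⟨O, As, Bs, h2, h3, bet_zero h3 h.zero⟩
  rw [List.head?_append, h1]
  rfl

end Pool.Agent.Lib_helper4.Asy
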