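import Pool.Agent.Lib_helper4.AsyF.LOC

set_option autoImplicit false

namespace Pool.Agent.Lib_helper4.Asy

/-- location class `q < 4`, in units of `N / 64` -/
def Cl (N q v : ℕ) : Prop :=
  (q = 0 ∧ (64 * v ≤ 17 * N ∨ (54 * N ≤ 64 * v ∧ 64 * v ≤ 58 * N))) ∨
  (q = 1 ∧ ((15 * N ≤ 64 * v ∧ 64 * v ≤ 33 * N) ∨ (38 * N ≤ 64 * v ∧ 64 * v ≤ 42 * N))) ∨
  (q = 2 ∧ ((47 * N ≤ 64 * v ∧ 64 * v ≤ 65 * N) ∨ (6 * N ≤ 64 * v ∧ 64 * v ≤ 10 * N))) ∨
  (q = 3 ∧ ((31 * N ≤ 64 * v ∧ 64 * v ≤ 49 * N) ∨ (22 * N ≤ 64 * v ∧ 64 * v ≤ 26 * N)))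

theorem cl_far (N q u v : ℕ) (h1 : Cl N q u) (h2 : Cl N (3 - q) v) : FarL N u v := by
  unfold Cl at h1 h2
  unfold FarL
  omega

theorem filter_get {α : Type} (f : α → Bool) (L : List α) (a : ℕ) (y : α)
    (h : (L.filter f)[a]? = some y) :
    ∃ p, L[p]? = some y ∧ (L.take p).countP f = a ∧ f y = true := by
  induction L generalizing a with
  | nil => simp at h
  | cons x L ih =>
    by_cases hx : f x = true
    · rw [List.filter_cons_of_pos hx] at h
      cases a with
      | zero =>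
        simp only [List.getElem?_cons_zero, Option.some.injEq] at h
        subst h
        exact ⟨0, by simp, by simp, hx⟩
      | succ a =>
        rw [List.getElem?_cons_succ] at h
        obtain ⟨p, h1, h2, h3⟩ := ih a h
        refine ⟨p + 1, by rw [List.getElem?_cons_succ]; exact h1, ?_, h3⟩
        rw [List.take_succ_cons, List.countP_cons_of_pos hx, h2]
    · rw [List.filter_cons_of_neg hx] at h
      obtain ⟨p, h1, h2, h3⟩ := ih a h
      refine ⟨p + 1, by rw [List.getElem?_cons_succ]; exact h1, ?_, h3⟩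
      rw [List.take_succ_cons, List.countP_cons_of_neg hx, h2]

theorem midLast_get {α : Type} (A : List α) (p : ℕ) (y : α) (h : (midLast A)[p]? = some y) :
    (∃ i, i < A.length ∧ A[i]? = some y) ∧
    (A.length ≤ p + (9 * A.length / 16 - 7 * A.length / 16) →
      ∃ i, 7 * A.length / 16 ≤ i ∧ i < 9 * A.length / 16 ∧ A[i]? = some y) := by
  unfold midLast at h
  constructor
  · have hy : y ∈ A := by
      have := List.mem_of_getElem? h
      rw [List.mem_append, List.mem_append] at this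
      rcases this with (h | h) | h
      · exact List.mem_of_mem_take h
      · exact List.mem_of_mem_drop h
      · exact List.mem_of_mem_drop (List.mem_of_mem_take h)
    obtain ⟨i, hi, rfl⟩ := List.getElem_of_mem hy
    exact ⟨i, hi, List.getElem?_eq_getElem hi⟩
  · intro hp
    rw [List.getElem?_append_right (by
      simp only [List.length_append, List.length_take, List.length_drop]; omega)] at h
    rw [List.getElem?_take] at h
    split_ifs at h with h2
    rw [List.getElem?_drop] at h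
    exact ⟨_, by omega, by omega, h⟩

theorem midFirst_get {α : Type} (A : List α) (p : ℕ) (y : α) (h : (midFirst A)[p]? = some y) :
    (∃ i, i < A.length ∧ A[i]? = some y) ∧
    (p < (9 * A.length / 16 - 7 * A.length / 16) →
      ∃ i, 7 * A.length / 16 ≤ i ∧ i < 9 * A.length / 16 ∧ A[i]? = some y) := by
  unfold midFirst at h
  constructor
  · have hy : y ∈ A := by
      have := List.mem_of_getElem? h
      rw [List.mem_append, List.mem_append] at this
      rcases this with (h | h) | h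
      · exact List.mem_of_mem_drop (List.mem_of_mem_take h)
      · exact List.mem_of_mem_take h
      · exact List.mem_of_mem_drop h
    obtain ⟨i, hi, rfl⟩ := List.getElem_of_mem hy
    exact ⟨i, hi, List.getElem?_eq_getElem hi⟩
  · intro hp
    rw [List.append_assoc, List.getElem?_append_left (by
      simp only [List.length_take, List.length_drop]; omega)] at h
    rw [List.getElem?_take] at h
    split_ifs at h with h2
    rw [List.getElem?_drop] at h
    exact ⟨_, by omega, by omega, h⟩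

theorem midLast_length {α : Type} (A : List α) : (midLast A).length = A.length := by
  unfold midLast
  simp only [List.length_append, List.length_take, List.length_drop]
  omega

theorem midFirst_length {α : Type} (A : List α) : (midFirst A).length = A.length := by
  unfold midFirst
  simp only [List.length_append, List.length_take, List.length_drop]
  omega

theorem alphaP_length {α : Type} (F : List α) : (alphaP F).length = F.length / 4 := by
  unfold alphaP
  rw [List.length_zip, List.length_take, List.length_drop]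
  omega

theorem betaP_length {α : Type} (F : List α) (h : Even F.length) :
    (betaP F).length = F.length / 2 - F.length / 4 := by
  obtain ⟨m, hm⟩ := h
  unfold betaP
  rw [List.length_zip, List.length_take, List.length_drop, List.length_drop]
  omega

theorem zip_get {α : Type} (A B : List α) (i : ℕ) (y : α × α) (h : (A.zip B)[i]? = some y) :
    A[i]? = some y.1 ∧ B[i]? = some y.2 := by
  rw [List.getElem?_zip_eq_some] at h
  exact h

theorem alphaP_get {α : Type} (F : List α) (i : ℕ) (y : α × α) (h : (alphaP F)[i]? = some y) :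
    F[i]? = some y.1 ∧ F[F.length / 4 + i]? = some y.2 := by
  obtain ⟨h1, h2⟩ := zip_get _ _ _ _ h
  rw [List.getElem?_take] at h1
  split_ifs at h1 with h3
  rw [List.getElem?_drop] at h2
  exact ⟨h1, h2⟩

theorem betaP_get {α : Type} (F : List α) (i : ℕ) (y : α × α) (h : (betaP F)[i]? = some y) :
    F[2 * (F.length / 4) + (F.length / 2 - F.length / 4) + i]? = some y.1 ∧
      F[2 * (F.length / 4) + i]? = some y.2 := by
  obtain ⟨h1, h2⟩ := zip_get _ _ _ _ h
  rw [List.getElem?_take] at h2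
  split_ifs at h2 with h3
  rw [List.getElem?_drop] at h1 h2
  exact ⟨h1, h2⟩

/-- location hypotheses for a label `v` of base chain `i` -/
structure LH (u N K D : ℕ) : Prop where
  h1 : N ≤ u * K + u * D
  h2 : u * K ≤ N + u * D
  h3 : 10000 * (u * D + u) ≤ N

theorem lh_lo {u N K D : ℕ} (H : LH u N K D) (a i v : ℕ) (ha : a ≤ 64)
    (hv : u * i ≤ v + u * D) (h : a * K ≤ 64 * i + 300) : a * N ≤ 64 * v + N := by
  have e1 := Nat.mul_le_mul_left u h
  have e2 := Nat.mul_le_mul_left a H.h1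
  have e3 : a * (u * D) ≤ 64 * (u * D) := Nat.mul_le_mul_right _ ha
  have := H.h3
  nlinarith

theorem lh_up {u N K D : ℕ} (H : LH u N K D) (a i v : ℕ) (ha : a ≤ 64)
    (hv : v ≤ u * i + u * D) (h : 64 * i ≤ a * K + 300) : 64 * v ≤ a * N + N := by
  have e1 := Nat.mul_le_mul_left u h
  have e2 := Nat.mul_le_mul_left a H.h2
  have e3 : a * (u * D) ≤ 64 * (u * D) := Nat.mul_le_mul_right _ ha
  have := H.h3
  nlinarith

/-- the label of a base chain, in terms of the index -/
theorem cl_of_index {u N K D : ℕ} (H : LH u N K D) (i v : ℕ)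
    (h1 : u * i ≤ v + u * D) (h2 : v ≤ u * i + u * D) :
    (64 * i ≤ 16 * K + 300 → Cl N 0 v) ∧
    (55 * K ≤ 64 * i + 300 → 64 * i ≤ 57 * K + 300 → Cl N 0 v) ∧
    (16 * K ≤ 64 * i + 300 → 64 * i ≤ 32 * K + 300 → Cl N 1 v) ∧
    (39 * K ≤ 64 * i + 300 → 64 * i ≤ 41 * K + 300 → Cl N 1 v) ∧
    (48 * K ≤ 64 * i + 300 → 64 * i ≤ 64 * K + 300 → Cl N 2 v) ∧
    (7 * K ≤ 64 * i + 300 → 64 * i ≤ 9 * K + 300 → Cl N 2 v) ∧
    (32 * K ≤ 64 * i + 300 → 64 * i ≤ 48 * K + 300 → Cl N 3 v) ∧
    (23 * K ≤ 64 * i + 300 → 64 * i ≤ 25 * K + 300 → Cl N 3 v) := by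
  have lo := fun a ha => lh_lo H a i v ha h1
  have up := fun a ha => lh_up H a i v ha h2
  unfold Cl
  refine ⟨fun a => ?_, fun a b => ?_, fun a b => ?_, fun a b => ?_, fun a b => ?_, fun a b => ?_,
    fun a b => ?_, fun a b => ?_⟩
  · have := up 16 (by norm_num) a; omega
  · have := up 57 (by norm_num) b; have := lo 55 (by norm_num) a; omega
  · have := up 32 (by norm_num) b; have := lo 16 (by norm_num) a; omega
  · have := up 41 (by norm_num) b; have := lo 39 (by norm_num) a; omega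
  · have := up 64 (by norm_num) b; have := lo 48 (by norm_num) a; omega
  · have := up 9 (by norm_num) b; have := lo 7 (by norm_num) a; omega
  · have := up 48 (by norm_num) b; have := lo 32 (by norm_num) a; omega
  · have := up 25 (by norm_num) b; have := lo 23 (by norm_num) a; omega

/-- pairs of base chains of the first / second kind -/
def PA (N : ℕ) (q : Obj) : Prop := (∀ v ∈ q.1, Cl N 0 v) ∧ (∀ v ∈ q.2, Cl N 1 v)
def PB (N : ℕ) (q : Obj) : Prop := (∀ v ∈ q.1, Cl N 2 v) ∧ (∀ v ∈ q.2, Cl N 3 v)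

theorem half {u N D : ℕ} (b : List (List ℕ)) (H : LH u N b.length D)
    (hev : Even b.length) (hK : 100 * (D + 1) ≤ b.length)
    (hloc : ∀ i c, b[i]? = some c → ∀ v ∈ c, u * i ≤ v + u * D ∧ v ≤ u * i + u * D)
    (p : ℕ) (q : Obj) (hq : (pairQ b)[p]? = some q) :
    (p < b.length / 4 + 2 * D + 3 → PA N q) ∧ (b.length / 4 ≤ p + 2 * D + 3 → PB N q) := by
  have cl := fun i c (hc : b[i]? = some c) v (hv : v ∈ c) =>
    cl_of_index H i v (hloc i c hc v hv).1 (hloc i c hc v hv).2
  unfold pairQ at hq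
  have hlen1 : (midLast (alphaP b)).length = b.length / 4 := by
    rw [midLast_length, alphaP_length]
  have hla : (alphaP b).length = b.length / 4 := alphaP_length b
  have hlb : (betaP b).length = b.length / 2 - b.length / 4 := betaP_length b hev
  generalize hKK : b.length = K at *
  by_cases hp : p < K / 4
  · rw [List.getElem?_append_left (by rw [hlen1]; exact hp)] at hq
    obtain ⟨⟨i, hi, hi'⟩, hwin⟩ := midLast_get _ _ _ hq
    rw [hla] at hi hwin
    obtain ⟨g1, g2⟩ := alphaP_get _ _ _ hi'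
    rw [hKK] at g2
    constructor
    · intro _
      exact ⟨fun v hv => (cl _ _ g1 v hv).1 (by omega),
        fun v hv => (cl _ _ g2 v hv).2.2.1 (by omega) (by omega)⟩
    · intro h2
      obtain ⟨i, hi1, hi2, hi3⟩ := hwin (by omega)
      obtain ⟨g1, g2⟩ := alphaP_get _ _ _ hi3
      rw [hKK] at g2
      exact ⟨fun v hv => (cl _ _ g1 v hv).2.2.2.2.2.1 (by omega) (by omega),
        fun v hv => (cl _ _ g2 v hv).2.2.2.2.2.2.2 (by omega) (by omega)⟩
  · rw [List.getElem?_append_right (by rw [hlen1]; omega), hlen1] at hq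
    obtain ⟨⟨i, hi, hi'⟩, hwin⟩ := midFirst_get _ _ _ hq
    rw [hlb] at hi hwin
    obtain ⟨g1, g2⟩ := betaP_get _ _ _ hi'
    rw [hKK] at g1 g2
    constructor
    · intro h2
      obtain ⟨i, hi1, hi2, hi3⟩ := hwin (by omega)
      obtain ⟨g1, g2⟩ := betaP_get _ _ _ hi3
      rw [hKK] at g1 g2
      exact ⟨fun v hv => (cl _ _ g1 v hv).2.1 (by omega) (by omega),
        fun v hv => (cl _ _ g2 v hv).2.2.2.1 (by omega) (by omega)⟩
    · intro _
      exact ⟨fun v hv => (cl _ _ g1 v hv).2.2.2.2.1 (by omega) (by omega),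
        fun v hv => (cl _ _ g2 v hv).2.2.2.2.2.2.1 (by omega) (by omega)⟩

theorem far_diff {u N K D : ℕ} (H : LH u N K D) (i e x z : ℕ)
    (h1 : u * i ≤ x + u * D) (h2 : x ≤ u * i + u * D)
    (h3 : u * (i + e) ≤ z + u * D) (h4 : z ≤ u * (i + e) + u * D)
    (h5 : K ≤ 4 * e + 4) (h6 : 4 * e ≤ K + 4) : FarL N x z ∧ FarL N z x := by
  have e1 := Nat.mul_le_mul_left u h5
  have e2 := Nat.mul_le_mul_left u h6
  have a1 := H.h1
  have a2 := H.h2
  have a3 := H.h3
  have b1 : N + 16 * x ≤ 16 * z := by nlinarith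
  have b2 : 16 * z ≤ 15 * N + 16 * x := by nlinarith
  unfold FarL
  omega

/-- the facts on the base chains -/
structure Base (σ : ℕ → Bool) (J N D : ℕ) : Prop where
  lh : LH (4 ^ J) N (FF σ J N J).length D
  ev : Even (FF σ J N J).length
  big : 100 * (D + 1) ≤ (FF σ J N J).length
  loc : ∀ i c, (FF σ J N J)[i]? = some c → ∀ v ∈ c,
    4 ^ J * i ≤ v + 4 ^ J * D ∧ v ≤ 4 ^ J * i + 4 ^ J * D
  typ : Typ σ J N D

theorem prs_J (σ : ℕ → Bool) (J N : ℕ) : prs σ J N J = pairQ (FF σ J N J) := by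
  unfold prs pairing
  rw [if_pos rfl]

theorem prs_J1 (σ : ℕ → Bool) (J N : ℕ) : prs σ J N (J + 1) = pairH (FF σ J N (J + 1)) := by
  unfold prs pairing
  rw [if_neg (by omega), if_pos rfl]

theorem ff_succ' (σ : ℕ → Bool) (J N j : ℕ) :
    FF σ J N (j + 1) = ((prs σ J N j).filter (same σ)).map fun p => p.1 ++ p.2 := rfl

theorem word_take_count (σ : ℕ → Bool) (J N j p : ℕ) :
    ((word σ J N j).take p).count true = ((prs σ J N j).take p).countP (same σ) := by
  unfold word
  rw [← List.map_take, List.count, List.countP_map]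
  congr 1
  funext x
  simp

theorem lev1 (σ : ℕ → Bool) (J N D : ℕ) (B : Base σ J N D) (a : ℕ) (s : List ℕ)
    (hs : (FF σ J N (J + 1))[a]? = some s) :
    ∃ q, s = q.1 ++ q.2 ∧ q ∈ prs σ J N J ∧ (a < (FF σ J N (J + 1)).length / 2 → PA N q) ∧
      ((FF σ J N (J + 1)).length / 2 ≤ a → PB N q) := by
  have hFlen : (FF σ J N (J + 1)).length = (prs σ J N J).countP (same σ) := by
    rw [ff_succ', List.length_map, List.countP_eq_length_filter]
  rw [ff_succ', List.getElem?_map] at hs
  obtain ⟨q, hq, rfl⟩ : ∃ q, ((prs σ J N J).filter (same σ))[a]? = some q ∧ q.1 ++ q.2 = s := by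
    cases hc : ((prs σ J N J).filter (same σ))[a]? with
    | none => rw [hc] at hs; simp at hs
    | some q => rw [hc] at hs; exact ⟨q, rfl, by simpa using hs⟩
  obtain ⟨p, hp1, hp2, -⟩ := filter_get _ _ _ _ hq
  refine ⟨q, rfl, List.mem_of_getElem? hp1, ?_⟩
  have hplt : p < (prs σ J N J).length := (List.getElem?_eq_some_iff.1 hp1).1
  have hwl : (word σ J N J).length = (prs σ J N J).length := by unfold word; rw [List.length_map]
  have t1 := B.typ J le_rfl p (by omega)
  rw [word_take_count, hp2] at t1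
  have t2 := B.typ J le_rfl (word σ J N J).length le_rfl
  rw [word_take_count, hwl, List.take_length, ← hFlen] at t2
  have hpl : (prs σ J N J).length = (FF σ J N J).length / 2 := by
    rw [prs_J]
    unfold pairQ
    rw [List.length_append, midLast_length, midFirst_length, alphaP_length, betaP_length _ B.ev]
    omega
  rw [prs_J] at hp1
  have := half _ B.lh B.ev B.big B.loc p q hp1
  have hev := B.ev
  obtain ⟨m, hm⟩ := hev
  constructor
  · intro h
    exact this.1 (by omega)
  · intro h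
    exact this.2 (by omega)

theorem cl_append (N J a : ℕ) (q : Obj) (h1 : q.1.length = 2 ^ J)
    (h2 : q.2.length = 2 ^ J) (c1 : ∀ v ∈ q.1, Cl N a v) (c2 : ∀ v ∈ q.2, Cl N (a + 1) v)
    (i x : ℕ) (hx : (q.1 ++ q.2)[i]? = some x) : Cl N (i / 2 ^ J + a) x := by
  by_cases hi : i < 2 ^ J
  · rw [List.getElem?_append_left (by omega)] at hx
    rw [Nat.div_eq_of_lt hi, Nat.zero_add]
    exact c1 x (List.mem_of_getElem? hx)
  · rw [List.getElem?_append_right (by omega)] at hx
    have hlt := (List.getElem?_eq_some_iff.1 hx).1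
    have e : i / 2 ^ J = 1 := by
      rw [Nat.div_eq_iff (by positivity)]
      omega
    rw [e, Nat.add_comm]
    exact c2 x (List.mem_of_getElem? hx)

theorem obj1 (σ : ℕ → Bool) (J N D : ℕ) (B : Base σ J N D) (O : Obj)
    (hO : O ∈ prs σ J N (J + 1)) :
    (∀ i x, O.1[i]? = some x → Cl N (i / 2 ^ J) x) ∧
      (∀ i x, O.2[i]? = some x → Cl N (i / 2 ^ J + 2) x) := by
  rw [prs_J1] at hO
  obtain ⟨a, ha, hO'⟩ := List.getElem_of_mem hO
  have hO2 : (pairH (FF σ J N (J + 1)))[a]? = some O := by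
    rw [List.getElem?_eq_getElem ha, hO']
  unfold pairH at hO2
  obtain ⟨g1, g2⟩ := zip_get _ _ _ _ hO2
  rw [List.getElem?_take] at g1
  split_ifs at g1 with h3
  rw [List.getElem?_drop] at g2
  obtain ⟨q, e1, hq, hqA, -⟩ := lev1 σ J N D B _ _ g1
  obtain ⟨r, e2, hr, -, hrB⟩ := lev1 σ J N D B _ _ g2
  have hqA := hqA h3
  have hrB := hrB (by omega)
  constructor
  · intro i x hx
    rw [e1] at hx
    exact cl_append N J 0 q (prs_len σ J N J q hq).1 (prs_len σ J N J q hq).2 hqA.1 hqA.2 i x hx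
  · intro i x hx
    rw [e2] at hx
    exact cl_append N J 2 r (prs_len σ J N J r hr).1 (prs_len σ J N J r hr).2 hrB.1 hrB.2 i x hx

theorem mem_pairUp {α : Type} (F : List α) (p : α × α) (h : p ∈ pairUp F) :
    p.1 ∈ F ∧ p.2 ∈ F := by
  induction F using pairUp.induct with
  | case1 x y t ih =>
    rw [pairUp, List.mem_cons] at h
    rcases h with rfl | h
    · simp
    · have := ih h
      exact ⟨by simp [this.1], by simp [this.2]⟩
  | case2 F hF =>
    rw [pairUp] at h
    · simp at h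
    · exact hF

theorem prs_J2 (σ : ℕ → Bool) (J N t : ℕ) :
    prs σ J N (J + 2 + t) = pairUp (FF σ J N (J + 2 + t)) := by
  unfold prs pairing
  rw [if_neg (by omega), if_neg (by omega)]

theorem chn (σ : ℕ → Bool) (J N D : ℕ) (B : Base σ J N D) (t : ℕ) :
    ∀ w ∈ FF σ J N (J + 2 + t), ∀ i x, w[i]? = some x → Cl N ((i / 2 ^ J) % 4) x := by
  induction t with
  | zero =>
    intro c hc i x hx
    rw [Nat.add_zero, show J + 2 = (J + 1) + 1 by omega, ff_succ', List.mem_map] at hc
    obtain ⟨p, hp, rfl⟩ := hc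
    have hp' := (List.mem_filter.1 hp).1
    have hl := prs_len σ J N (J + 1) p hp'
    obtain ⟨c1, c2⟩ := obj1 σ J N D B p hp'
    by_cases hi : i < 2 ^ (J + 1)
    · rw [List.getElem?_append_left (by omega)] at hx
      have e : i / 2 ^ J < 2 := by
        rw [Nat.div_lt_iff_lt_mul (by positivity)]
        rw [pow_succ] at hi
        omega
      rw [Nat.mod_eq_of_lt (by omega)]
      exact c1 i x hx
    · rw [List.getElem?_append_right (by omega)] at hx
      have hlt := (List.getElem?_eq_some_iff.1 hx).1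
      obtain ⟨r, rfl⟩ : ∃ r, i = 2 * 2 ^ J + r := ⟨i - 2 * 2 ^ J, by rw [pow_succ] at hi; omega⟩
      rw [hl.1, pow_succ, show 2 * 2 ^ J + r - 2 ^ J * 2 = r by omega] at hx hlt
      have e : (2 * 2 ^ J + r) / 2 ^ J = r / 2 ^ J + 2 := by
        rw [Nat.add_comm, Nat.add_mul_div_right _ _ (by positivity)]
      have e2 : r / 2 ^ J < 2 := by
        rw [Nat.div_lt_iff_lt_mul (by positivity)]
        rw [hl.2, pow_succ] at hlt
        omega
      rw [e, Nat.mod_eq_of_lt (by omega)]
      exact c2 r x hx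
  | succ t ih =>
    intro c hc i x hx
    rw [show J + 2 + (t + 1) = (J + 2 + t) + 1 by omega, ff_succ', List.mem_map] at hc
    obtain ⟨p, hp, rfl⟩ := hc
    have hp' := (List.mem_filter.1 hp).1
    have hl := prs_len σ J N (J + 2 + t) p hp'
    rw [prs_J2] at hp'
    have hm := mem_pairUp _ _ hp'
    by_cases hi : i < 2 ^ (J + 2 + t)
    · rw [List.getElem?_append_left (by omega)] at hx
      exact ih _ hm.1 i x hx
    · rw [List.getElem?_append_right (by omega), hl.1] at hx
      have hh := ih _ hm.2 _ x hx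
      have e : 2 ^ (J + 2 + t) = 2 ^ J * (4 * 2 ^ t) := by ring
      obtain ⟨r, rfl⟩ : ∃ r, i = r + (4 * 2 ^ t) * 2 ^ J :=
        ⟨i - (4 * 2 ^ t) * 2 ^ J, by rw [e, Nat.mul_comm] at hi; omega⟩
      rw [e, Nat.mul_comm, Nat.add_sub_cancel] at hh
      rw [Nat.add_mul_div_right _ _ (by positivity)]
      rw [show (r / 2 ^ J + 4 * 2 ^ t) % 4 = (r / 2 ^ J) % 4 by omega]
      exact hh

theorem base_of (k N D : ℕ) (σ : ℕ → Bool) (hB : Bal σ N)
    (hT : Typ σ (lvJ k) N D) (hD : 4 ^ (lvJ k + 1) ≤ D) (hk : 2 ≤ k)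
    (hbig : KK k * (D + 1) ≤ N) : Base σ (lvJ k) N D := by
  have hD1 : 1 ≤ D := le_trans (Nat.one_le_pow _ _ (by norm_num)) hD
  obtain ⟨c1, c2⟩ := ff_count σ (lvJ k) N D hB hT (lvJ k) le_rfl
  have h3 : 10000 * (4 ^ lvJ k * D + 4 ^ lvJ k) ≤ N := by
    refine le_trans ?_ hbig
    have e : KK k * (D + 1) =
        (10 * k ^ 4 * 4 * QQ (lvJ k)) * (10000 * (4 ^ lvJ k * D + 4 ^ lvJ k)) := by
      unfold KK
      ring
    rw [e]
    apply Nat.le_mul_of_pos_left
    have : 0 < QQ (lvJ k) := by unfold QQ; positivity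
    positivity
  refine ⟨⟨c1, c2, h3⟩, ff_even σ (lvJ k) N hB (lvJ k), ?_, ?_, hT⟩
  · have h4 : 4 ^ lvJ k * (10000 * (D + 1)) ≤
        4 ^ lvJ k * ((FF σ (lvJ k) N (lvJ k)).length + D) := by
      rw [Nat.mul_add (4 ^ lvJ k) _ D]
      refine le_trans (le_of_eq ?_) (le_trans h3 c1)
      ring
    have := Nat.le_of_mul_le_mul_left h4 (by positivity)
    omega
  · intro i c hc v hv
    exact loc σ (lvJ k) N D hB hT hD1 (lvJ k) le_rfl i c hc v hv

theorem face (k N D : ℕ) (hk : 2 ≤ k) (σ : ℕ → Bool) (hB : Bal σ N)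
    (hT : Typ σ (lvJ k) N D) (hD : 4 ^ (lvJ k + 1) ≤ D) (hbig : KK k * (D + 1) ≤ N)
    (j : ℕ) (hj : lvJ k ≤ j) (O : Obj) (hO : O ∈ DD σ (lvJ k) N j) (i i' x z : ℕ)
    (hx : O.1[i]? = some x) (hz : O.2.reverse[i']? = some z)
    (hi : i / 2 ^ lvJ k = i' / 2 ^ lvJ k) : FarL N x z := by
  have B := base_of k N D σ hB hT hD hk hbig
  have hOp : O ∈ prs σ (lvJ k) N j := (List.mem_filter.1 hO).1
  have hl := prs_len σ (lvJ k) N j O hOp
  generalize lvJ k = J at *
  have hzl := (List.getElem?_eq_some_iff.1 hz).1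
  rw [List.length_reverse, hl.2] at hzl
  have hxl := (List.getElem?_eq_some_iff.1 hx).1
  rw [hl.1] at hxl
  rw [List.getElem?_reverse (by rw [hl.2]; exact hzl), hl.2] at hz
  by_cases h0 : j = J
  · subst h0
    have hxm := List.mem_of_getElem? hx
    have hzm := List.mem_of_getElem? hz
    rw [prs_J] at hOp
    unfold pairQ at hOp
    rcases List.mem_append.1 hOp with h | h
    · obtain ⟨p, hp, hp'⟩ := List.getElem_of_mem h
      obtain ⟨⟨i, hi, hi'⟩, -⟩ := midLast_get _ p O (by rw [List.getElem?_eq_getElem hp, hp'])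
      obtain ⟨g1, g2⟩ := alphaP_get _ _ _ hi'
      have l1 := B.loc _ _ g1 x hxm
      have l2 := B.loc _ _ g2 z hzm
      rw [Nat.add_comm _ i] at l2
      exact (far_diff B.lh i _ x z l1.1 l1.2 l2.1 l2.2 (by omega) (by omega)).1
    · obtain ⟨p, hp, hp'⟩ := List.getElem_of_mem h
      obtain ⟨⟨i, hi, hi'⟩, -⟩ := midFirst_get _ p O (by rw [List.getElem?_eq_getElem hp, hp'])
      obtain ⟨g1, g2⟩ := betaP_get _ _ _ hi'
      have l1 := B.loc _ _ g1 x hxm
      have l2 := B.loc _ _ g2 z hzm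
      have hev := B.ev
      obtain ⟨m, hm⟩ := hev
      rw [show ∀ a b : ℕ, 2 * a + b + i = (2 * a + i) + b by intros; omega] at l1
      exact (far_diff B.lh _ _ z x l2.1 l2.2 l1.1 l1.2 (by omega) (by omega)).2
  by_cases h1 : j = J + 1
  · subst h1
    obtain ⟨c1, c2⟩ := obj1 σ J N D B O hOp
    have cx := c1 i x hx
    have cz := c2 _ z hz
    rw [hi] at cx
    have hq : i' / 2 ^ J < 2 := by
      rw [Nat.div_lt_iff_lt_mul (by positivity)]
      rw [pow_succ] at hzl
      omega
    have e : (2 ^ (J + 1) - 1 - i') / 2 ^ J + 2 = 3 - i' / 2 ^ J := by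
      have e1 : 2 ^ (J + 1) - 1 - i' = 2 ^ J * 2 - (i' + 1) := by rw [pow_succ]; omega
      rw [e1, Nat.mul_sub_div i' (2 ^ J) 2 (by rw [pow_succ] at hzl; omega)]
      omega
    rw [e] at cz
    exact cl_far N _ x z cx cz
  · obtain ⟨t, rfl⟩ : ∃ t, j = J + 2 + t := ⟨j - (J + 2), by omega⟩
    rw [prs_J2] at hOp
    have hm := mem_pairUp _ _ hOp
    have cx := chn σ J N D B t _ hm.1 i x hx
    have cz := chn σ J N D B t _ hm.2 _ z hz
    rw [hi] at cx
    have e0 : 2 ^ (J + 2 + t) = 2 ^ J * (4 * 2 ^ t) := by ring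
    rw [e0] at hzl
    have e : ((2 ^ (J + 2 + t) - 1 - i') / 2 ^ J) % 4 = 3 - (i' / 2 ^ J) % 4 := by
      have e1 : 2 ^ (J + 2 + t) - 1 - i' = 2 ^ J * (4 * 2 ^ t) - (i' + 1) := by rw [e0]; omega
      rw [e1, Nat.mul_sub_div i' (2 ^ J) (4 * 2 ^ t) hzl]
      have : i' / 2 ^ J < 4 * 2 ^ t := by
        rw [Nat.div_lt_iff_lt_mul (by positivity), Nat.mul_comm]
        exact hzl
      omega
    rw [e] at cz
    exact cl_far N _ x z cx cz

end Pool.Agent.Lib_helper4.Asy
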