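import Pool.Agent.Lib_helper4.AsyF.Defs

set_option autoImplicit false

namespace Pool.Agent.Lib_helper4.Asy

theorem adjL_symm {P : List ℕ} {u v : ℕ} (h : AdjL P u v) : AdjL P v u := by
  obtain ⟨i, h | h⟩ := h
  · exact ⟨i, Or.inr h⟩
  · exact ⟨i, Or.inl h⟩

theorem adjL_infix {L P : List ℕ} (h : L <:+: P) {u v : ℕ} (ha : AdjL L u v) :
    AdjL P u v := by
  obtain ⟨s, t, rfl⟩ := h
  obtain ⟨i, ha⟩ := ha
  refine ⟨s.length + i, ?_⟩
  have key : ∀ (j w : ℕ), L[j]? = some w → (s ++ L ++ t)[s.length + j]? = some w := by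
    intro j w hj
    have hlt : j < L.length := (List.getElem?_eq_some_iff.1 hj).1
    rw [List.append_assoc, List.getElem?_append_right (by omega), Nat.add_sub_cancel_left,
      List.getElem?_append_left hlt]
    exact hj
  rcases ha with ⟨h1, h2⟩ | ⟨h1, h2⟩
  · exact Or.inl ⟨key _ _ h1, key (i + 1) _ h2⟩
  · exact Or.inr ⟨key _ _ h1, key (i + 1) _ h2⟩

theorem cycIn_infix {k : ℕ} {L L' P P' c : List ℕ} (h : L <:+: P) (h' : L' <:+: P')
    (hc : CycIn k L L' c) : CycIn k P P' c := by
  obtain ⟨h1, h2, h3⟩ := hc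
  refine ⟨h1, h2, fun i hi => ?_⟩
  rcases h3 i hi with h4 | h4
  · exact Or.inl (adjL_infix h h4)
  · exact Or.inr (adjL_infix h' h4)

theorem cycIn_symm {k : ℕ} {P P' c : List ℕ} (hc : CycIn k P P' c) : CycIn k P' P c :=
  ⟨hc.1, hc.2.1, fun i hi => (hc.2.2 i hi).symm⟩

theorem adjL_mem {P : List ℕ} {u v : ℕ} (h : AdjL P u v) : u ∈ P := by
  obtain ⟨i, ⟨h1, h2⟩ | ⟨h1, h2⟩⟩ := h
  · exact List.mem_of_getElem? h1
  · exact List.mem_of_getElem? h2

theorem cycIn_mem {k : ℕ} {P P' c : List ℕ} (hc : CycIn k P P' c) :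
    ∀ x ∈ c, x ∈ P ∨ x ∈ P' := by
  intro x hx
  obtain ⟨i, hi, rfl⟩ := List.getElem_of_mem hx
  have := hc.2.2 i (by rw [← hc.1]; exact hi)
  rw [List.getD_eq_getElem _ _ hi] at this
  rcases this with h | h
  · exact Or.inl (adjL_mem h)
  · exact Or.inr (adjL_mem h)

theorem getElem?_inj' {P : List ℕ} (hP : P.Nodup) {i j x : ℕ} (hi : P[i]? = some x)
    (hj : P[j]? = some x) : i = j := by
  have h1 := (List.getElem?_eq_some_iff.1 hi)
  have h2 := (List.getElem?_eq_some_iff.1 hj)
  obtain ⟨h1a, h1b⟩ := h1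
  obtain ⟨h2a, h2b⟩ := h2
  exact (List.Nodup.getElem_inj_iff hP).1 (h1b.trans h2b.symm)

/-- the cycle in function form -/
theorem cyc_of_fun (k : ℕ) (P P' : List ℕ) (g : ℕ → ℕ)
    (hinj : ∀ i < 2 * k + 1, ∀ j < 2 * k + 1, g i = g j → i = j)
    (hadj : ∀ i < 2 * k + 1, AdjL P (g i) (g ((i + 1) % (2 * k + 1))) ∨
      AdjL P' (g i) (g ((i + 1) % (2 * k + 1)))) :
    CycIn k P P' ((List.range (2 * k + 1)).map g) := by
  refine ⟨by simp, ?_, ?_⟩
  · apply List.Nodup.map_on _ List.nodup_range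
    intro x hx y hy hxy
    exact hinj x (List.mem_range.1 hx) y (List.mem_range.1 hy) hxy
  · intro i hi
    have h1 : ∀ j < 2 * k + 1, ((List.range (2 * k + 1)).map g).getD j 0 = g j := by
      intro j hj
      rw [List.getD_eq_getElem _ _ (by simpa using hj)]
      simp
    rw [h1 i hi, h1 _ (Nat.mod_lt _ (by omega))]
    exact hadj i hi

/-- Two arcs, the second one traversed from `v` to `u` by the function `q`, `q 0 = v`,
`q D₂ = u`. -/
theorem hc_aux (k : ℕ) (P P' : List ℕ) (D₁ D₂ : ℕ) (p q : ℕ → ℕ)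
    (hD1 : 1 ≤ D₁) (hD2 : 1 ≤ D₂) (hs : D₁ + D₂ = 2 * k + 1)
    (h0 : q 0 = p D₁) (h1 : q D₂ = p 0)
    (hp : ∀ i < D₁, AdjL P (p i) (p (i + 1))) (hq : ∀ i < D₂, AdjL P' (q i) (q (i + 1)))
    (hpi : ∀ i ≤ D₁, ∀ j ≤ D₁, p i = p j → i = j)
    (hqi : ∀ i ≤ D₂, ∀ j ≤ D₂, q i = q j → i = j)
    (hint : ∀ i, 0 < i → i < D₁ → ∀ j, 0 < j → j < D₂ → p i ≠ q j) :
    CycIn k P P' ((List.range (2 * k + 1)).map fun i => if i ≤ D₁ then p i else q (i - D₁)) := by
  apply cyc_of_fun
  · intro i hi j hj hij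
    by_cases hi' : i ≤ D₁ <;> by_cases hj' : j ≤ D₁
    · rw [if_pos hi', if_pos hj'] at hij
      exact hpi i hi' j hj' hij
    · rw [if_pos hi', if_neg hj'] at hij
      exfalso
      by_cases e1 : i = 0
      · subst e1
        rw [← h1] at hij
        have := hqi _ le_rfl _ (by omega) hij
        omega
      by_cases e2 : i = D₁
      · subst e2
        rw [← h0] at hij
        have := hqi _ (by omega) _ (by omega) hij
        omega
      exact hint i (by omega) (by omega) (j - D₁) (by omega) (by omega) hij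
    · rw [if_neg hi', if_pos hj'] at hij
      exfalso
      by_cases e1 : j = 0
      · subst e1
        rw [← h1] at hij
        have := hqi _ (by omega) _ (by omega) hij
        omega
      by_cases e2 : j = D₁
      · subst e2
        rw [← h0] at hij
        have := hqi _ (by omega) _ (by omega) hij
        omega
      exact hint j (by omega) (by omega) (i - D₁) (by omega) (by omega) hij.symm
    · rw [if_neg hi', if_neg hj'] at hij
      have := hqi _ (by omega) _ (by omega) hij
      omega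
  · intro i hi
    by_cases hi1 : i < D₁
    · left
      have e : (i + 1) % (2 * k + 1) = i + 1 := Nat.mod_eq_of_lt (by omega)
      rw [e, if_pos (by omega), if_pos (by omega)]
      exact hp i hi1
    · right
      have e0 : (if i ≤ D₁ then p i else q (i - D₁)) = q (i - D₁) := by
        by_cases e : i = D₁
        · subst e
          rw [if_pos le_rfl, Nat.sub_self, h0]
        · rw [if_neg (by omega)]
      rw [e0]
      by_cases e2 : i + 1 = 2 * k + 1
      · rw [e2, Nat.mod_self, if_pos (by omega), ← h1]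
        have := hq (i - D₁) (by omega)
        rw [show i - D₁ + 1 = D₂ by omega] at this
        exact this
      · rw [Nat.mod_eq_of_lt (by omega), if_neg (by omega), show i + 1 - D₁ = i - D₁ + 1 by omega]
        exact hq (i - D₁) (by omega)

theorem getD_some {P : List ℕ} {i x : ℕ} (h : P[i]? = some x) : P.getD i 0 = x := by
  rw [List.getD_eq_getElem?_getD, h]
  rfl

theorem adjL_succ {P : List ℕ} {i : ℕ} (h : i + 1 < P.length) :
    AdjL P (P.getD i 0) (P.getD (i + 1) 0) := by
  refine ⟨i, Or.inl ⟨?_, ?_⟩⟩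
  · rw [List.getD_eq_getElem _ _ (by omega), List.getElem?_eq_getElem (by omega)]
  · rw [List.getD_eq_getElem _ _ (by omega), List.getElem?_eq_getElem (by omega)]

theorem getD_inj' {P : List ℕ} (hP : P.Nodup) {i j : ℕ} (hi : i < P.length) (hj : j < P.length)
    (h : P.getD i 0 = P.getD j 0) : i = j := by
  rw [List.getD_eq_getElem _ _ hi, List.getD_eq_getElem _ _ hj] at h
  exact (List.Nodup.getElem_inj_iff hP).1 h

theorem hc_two (k : ℕ) (_hk : 1 ≤ k) (P P' : List ℕ) (hP : P.Nodup) (hP' : P'.Nodup)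
    (a b D₁ D₂ u v : ℕ) (h1 : P[a]? = some u) (h2 : P[a + D₁]? = some v)
    (h3 : (P'[b]? = some u ∧ P'[b + D₂]? = some v) ∨ (P'[b]? = some v ∧ P'[b + D₂]? = some u))
    (hD1 : 1 ≤ D₁) (hD2 : 1 ≤ D₂) (hs : D₁ + D₂ = 2 * k + 1)
    (hint : ∀ i x, a < i → i < a + D₁ → P[i]? = some x →
      ∀ i', b < i' → i' < b + D₂ → P'[i']? ≠ some x) :
    ∃ c, CycIn k P P' c ∧ ∀ x ∈ c, (∃ i, a ≤ i ∧ i ≤ a + D₁ ∧ P[i]? = some x) ∨
      (∃ i, b ≤ i ∧ i ≤ b + D₂ ∧ P'[i]? = some x) := by
  have hlP : a + D₁ < P.length := (List.getElem?_eq_some_iff.1 h2).1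
  have hlP' : b + D₂ < P'.length := by
    rcases h3 with h | h
    · exact (List.getElem?_eq_some_iff.1 h.2).1
    · exact (List.getElem?_eq_some_iff.1 h.2).1
  have get : ∀ i < P.length, P[i]? = some (P.getD i 0) := by
    intro i hi
    rw [List.getD_eq_getElem _ _ hi, List.getElem?_eq_getElem hi]
  have get' : ∀ i < P'.length, P'[i]? = some (P'.getD i 0) := by
    intro i hi
    rw [List.getD_eq_getElem _ _ hi, List.getElem?_eq_getElem hi]
  rcases h3 with ⟨h3, h4⟩ | ⟨h3, h4⟩
  · -- second arc read backwards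
    refine ⟨_, hc_aux k P P' D₁ D₂ (fun i => P.getD (a + i) 0) (fun i => P'.getD (b + D₂ - i) 0)
      hD1 hD2 hs ?_ ?_ ?_ ?_ ?_ ?_ ?_, ?_⟩
    · simp only [Nat.sub_zero]
      rw [getD_some h4, getD_some h2]
    · simp only [Nat.add_sub_cancel, Nat.add_zero]
      rw [getD_some h3, getD_some h1]
    · intro i hi
      exact adjL_succ (by omega)
    · intro i hi
      have := adjL_succ (P := P') (i := b + D₂ - (i + 1)) (by omega)
      rw [show b + D₂ - (i + 1) + 1 = b + D₂ - i by omega] at this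
      exact adjL_symm this
    · intro i hi j hj hij
      have := getD_inj' hP (by omega) (by omega) hij
      omega
    · intro i hi j hj hij
      have := getD_inj' hP' (by omega) (by omega) hij
      omega
    · intro i hi hi' j hj hj' hij
      refine hint (a + i) _ (by omega) (by omega) (get (a + i) (by omega)) (b + D₂ - j)
        (by omega) (by omega) ?_
      rw [get' _ (by omega)]
      exact congrArg some hij.symm
    · intro x hx
      rw [List.mem_map] at hx
      obtain ⟨i, hi, rfl⟩ := hx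
      rw [List.mem_range] at hi
      by_cases h : i ≤ D₁
      · rw [if_pos h]
        exact Or.inl ⟨a + i, by omega, by omega, get _ (by omega)⟩
      · rw [if_neg h]
        exact Or.inr ⟨b + D₂ - (i - D₁), by omega, by omega, get' _ (by omega)⟩
  · refine ⟨_, hc_aux k P P' D₁ D₂ (fun i => P.getD (a + i) 0) (fun i => P'.getD (b + i) 0)
      hD1 hD2 hs ?_ ?_ ?_ ?_ ?_ ?_ ?_, ?_⟩
    · simp only [Nat.add_zero]
      rw [getD_some h3, getD_some h2]
    · simp only [Nat.add_zero]
      rw [getD_some h4, getD_some h1]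
    · intro i hi
      exact adjL_succ (by omega)
    · intro i hi
      exact adjL_succ (by omega)
    · intro i hi j hj hij
      have := getD_inj' hP (by omega) (by omega) hij
      omega
    · intro i hi j hj hij
      have := getD_inj' hP' (by omega) (by omega) hij
      omega
    · intro i hi hi' j hj hj' hij
      refine hint (a + i) _ (by omega) (by omega) (get (a + i) (by omega)) (b + j)
        (by omega) (by omega) ?_
      rw [get' _ (by omega)]
      exact congrArg some hij.symm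
    · intro x hx
      rw [List.mem_map] at hx
      obtain ⟨i, hi, rfl⟩ := hx
      rw [List.mem_range] at hi
      by_cases h : i ≤ D₁
      · rw [if_pos h]
        exact Or.inl ⟨a + i, by omega, by omega, get _ (by omega)⟩
      · rw [if_neg h]
        exact Or.inr ⟨b + (i - D₁), by omega, by omega, get' _ (by omega)⟩

end Pool.Agent.Lib_helper4.Asy
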