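import Pool.Agent.Lib_helper4.AsyF.Defs

set_option autoImplicit false

namespace Pool.Agent.Lib_helper4.Asy

theorem sep_seg {N Q s s' v : ℕ} (hN : 1 ≤ N) (h : InSeg N Q s v) (h' : InSeg N Q s' v) :
    s ≤ s' + 1 := by
  obtain ⟨h1, -⟩ := h
  obtain ⟨-, h2⟩ := h'
  have h3 : s * N ≤ (s' + 1) * N + 2 * (N / 10) := by omega
  have h4 : 2 * (N / 10) < N := by omega
  have h5 : s * N < (s' + 2) * N := by nlinarith
  have := Nat.lt_of_mul_lt_mul_right h5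
  omega

/-- the possible values of a facing difference -/
theorem sep_fset {j : ℕ} {e : ℤ} (h : Fset j e) :
    e = (64 : ℤ) ^ (2 * j) ∨ e = -(64 : ℤ) ^ (2 * j) ∨ e = 64 * (64 : ℤ) ^ (2 * j) ∨
      e = 65 * (64 : ℤ) ^ (2 * j) ∨ e = 63 * (64 : ℤ) ^ (2 * j) := by
  unfold Fset dl ep at h
  have h1 : (64 : ℤ) ^ (2 * j + 1) = 64 * (64 : ℤ) ^ (2 * j) := by rw [pow_succ]; ring
  rw [h1] at h
  rcases h with h | h | h | h | h
  · exact Or.inl h
  · exact Or.inr (Or.inl h)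
  · exact Or.inr (Or.inr (Or.inl h))
  · exact Or.inr (Or.inr (Or.inr (Or.inl (by rw [h]; ring))))
  · exact Or.inr (Or.inr (Or.inr (Or.inr (by rw [h]; ring))))

theorem sep_pow_lt {i j : ℕ} (h : i < j) :
    4096 * (64 : ℤ) ^ (2 * i) ≤ (64 : ℤ) ^ (2 * j) := by
  have h1 : (4096 : ℤ) * (64 : ℤ) ^ (2 * i) = (64 : ℤ) ^ (2 * i + 2) := by
    rw [pow_add]; ring
  rw [h1]
  exact pow_le_pow_right₀ (by norm_num) (by omega)

theorem sep_pow_pos {i : ℕ} : 1 ≤ (64 : ℤ) ^ (2 * i) := one_le_pow₀ (by norm_num)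

theorem sep_q {i J : ℕ} (h : i < J) : 4096 * (64 : ℤ) ^ (2 * i) ≤ (QQ J : ℤ) := by
  unfold QQ
  have h1 : (4096 : ℤ) * (64 : ℤ) ^ (2 * i) = (64 : ℤ) ^ (2 * i + 2) := by
    rw [pow_add]; ring
  rw [h1]
  push_cast
  exact pow_le_pow_right₀ (by norm_num) (by omega)

/-- the sizes of the differences within a block -/
theorem sep_wset {J j : ℕ} {e : ℤ} (hj : j < J) (h : Wset J j e) :
    e = 0 ∨ e = 1 ∨ e = -1 ∨ (∃ i, 1 ≤ i ∧ i ≤ j ∧ Fset i e) ∨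
    (∃ i, 1 ≤ i ∧ i < J ∧ (e = -(64 * (64 : ℤ) ^ (2 * i)) ∨ e = -(65 * (64 : ℤ) ^ (2 * i)) ∨
      e = -(63 * (64 : ℤ) ^ (2 * i)))) := by
  unfold Wset at h
  rcases h with h | ⟨h1, h⟩ | ⟨h1, h⟩
  · exact Or.inl h
  · exact Or.inr (Or.inr (Or.inr (Or.inl ⟨j, h1, le_rfl, h⟩)))
  · rcases h with h | h | ⟨i, hi1, hi2, h⟩
    · exact Or.inr (Or.inl h)
    · exact Or.inr (Or.inr (Or.inl h))
    · refine Or.inr (Or.inr (Or.inr (Or.inr ⟨i, hi1, hi2, ?_⟩)))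
      unfold dl ep at h
      have h1 : (64 : ℤ) ^ (2 * i + 1) = 64 * (64 : ℤ) ^ (2 * i) := by rw [pow_succ]; ring
      rw [h1] at h
      rcases h with h | h | h
      · exact Or.inl h
      · exact Or.inr (Or.inl (by rw [h]; ring))
      · exact Or.inr (Or.inr (by rw [h]; ring))

theorem sep_dvd {Q X : ℤ} (h : Q ∣ X) (h1 : X < Q) (h2 : -Q < X) : X = 0 := by
  refine Int.eq_zero_of_abs_lt_dvd h ?_
  rw [abs_lt]
  exact ⟨h2, h1⟩

theorem sep_small (J N j j₁ s₁ s₂ s₃ s₄ a z : ℕ) (hN : 1 ≤ N)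
    (h1 : InSeg N (QQ J) s₁ a) (h3 : InSeg N (QQ J) s₃ a)
    (h2 : InSeg N (QQ J) s₂ z) (h4 : InSeg N (QQ J) s₄ z)
    (hF : Fr J j₁ s₁ s₂) (hW : Wr J j s₃ s₄) (hj : j < j₁) (hj1 : j₁ < J) : False := by
  obtain ⟨f, hf, hf'⟩ := hF
  obtain ⟨w, hw, hw'⟩ := hW
  have a1 := sep_seg hN h1 h3
  have a2 := sep_seg hN h3 h1
  have a3 := sep_seg hN h2 h4
  have a4 := sep_seg hN h4 h2
  have hd : (QQ J : ℤ) ∣ (f - w) - (((s₂ : ℤ) - s₁) - ((s₄ : ℤ) - s₃)) := by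
    have e1 := hf'.dvd
    have e2 := hw'.dvd
    have := dvd_sub e1 e2
    have e3 : f - ((s₂ : ℤ) - s₁) - (w - ((s₄ : ℤ) - s₃)) =
        (f - w) - (((s₂ : ℤ) - s₁) - ((s₄ : ℤ) - s₃)) := by ring
    rwa [e3] at this
  have hA := sep_pow_pos (i := j₁)
  have hA' : 4096 ≤ (64 : ℤ) ^ (2 * j₁) := by
    have := sep_pow_lt (i := 0) (j := j₁) (by omega)
    simpa using this
  have hQA := sep_q hj1
  have hf5 := sep_fset hf
  rcases sep_wset (by omega) hw with hw5 | hw5 | hw5 | ⟨i, hi1, hi2, hw5⟩ | ⟨i, hi1, hi2, hw5⟩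
  · have := sep_dvd hd (by omega) (by omega)
    omega
  · have := sep_dvd hd (by omega) (by omega)
    omega
  · have := sep_dvd hd (by omega) (by omega)
    omega
  · have hB := sep_pow_lt (i := i) (j := j₁) (by omega)
    have hB0 := sep_pow_pos (i := i)
    have hw6 := sep_fset hw5
    have := sep_dvd hd (by omega) (by omega)
    omega
  · have hB0 := sep_pow_pos (i := i)
    have hB' : 4096 ≤ (64 : ℤ) ^ (2 * i) := by
      have := sep_pow_lt (i := 0) (j := i) (by omega)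
      simpa using this
    have hQB := sep_q hi2
    rcases lt_trichotomy i j₁ with h | h | h
    · have hB := sep_pow_lt h
      have := sep_dvd hd (by omega) (by omega)
      omega
    · subst h
      have := sep_dvd hd (by omega) (by omega)
      omega
    · have hB := sep_pow_lt h
      have := sep_dvd hd (by omega) (by omega)
      omega

theorem sep_bound {J j : ℕ} {e : ℤ} (hj : j < J) (hJ : 1 ≤ J) (h : Wset J j e) :
    e ≤ 65 * (64 : ℤ) ^ (2 * (J - 1)) ∧ -(65 * (64 : ℤ) ^ (2 * (J - 1))) ≤ e := by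
  have h0 := sep_pow_pos (i := J - 1)
  have hm : ∀ i, i < J → (64 : ℤ) ^ (2 * i) ≤ (64 : ℤ) ^ (2 * (J - 1)) := fun i hi =>
    pow_le_pow_right₀ (by norm_num) (by omega)
  rcases sep_wset hj h with hw5 | hw5 | hw5 | ⟨i, hi1, hi2, hw5⟩ | ⟨i, hi1, hi2, hw5⟩
  · omega
  · omega
  · omega
  · have hw6 := sep_fset hw5
    have := hm i (by omega)
    have := sep_pow_pos (i := i)
    omega
  · have := hm i (by omega)
    have := sep_pow_pos (i := i)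
    omega

theorem sep_large (J N j s₃ s₄ a z : ℕ) (hJ : 2 ≤ J) (hN : 1 ≤ N) (hF : FarL N a z)
    (h3 : InSeg N (QQ J) s₃ a) (h4 : InSeg N (QQ J) s₄ z) (hs3 : s₃ < QQ J) (hs4 : s₄ < QQ J)
    (hW : Wr J j s₃ s₄) (hj : j < J) : False := by
  obtain ⟨w, hw, hw'⟩ := hW
  obtain ⟨hb1, hb2⟩ := sep_bound hj (by omega) hw
  have hq := sep_q (i := J - 1) (J := J) (by omega)
  have h0 := sep_pow_pos (i := J - 1)
  have hA : 4096 ≤ (64 : ℤ) ^ (2 * (J - 1)) := by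
    have := sep_pow_lt (i := 0) (j := J - 1) (by omega)
    simpa using this
  obtain ⟨h3a, h3b⟩ := h3
  obtain ⟨h4a, h4b⟩ := h4
  obtain ⟨hF1, hF2, hF3⟩ := hF
  generalize hQ : QQ J = Q at *
  generalize hR : (64 : ℤ) ^ (2 * (J - 1)) = R at *
  have hNZ : (0 : ℤ) < N := by exact_mod_cast hN
  -- integer versions
  have i3a : (s₃ : ℤ) * N ≤ Q * a + N / 10 := by exact_mod_cast h3a
  have i3b : (Q : ℤ) * a ≤ (s₃ + 1) * N + N / 10 := by exact_mod_cast h3b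
  have i4a : (s₄ : ℤ) * N ≤ Q * z + N / 10 := by exact_mod_cast h4a
  have i4b : (Q : ℤ) * z ≤ (s₄ + 1) * N + N / 10 := by exact_mod_cast h4b
  have hN10 : 10 * ((N : ℤ) / 10) ≤ N := by omega
  have hQ0 : (0 : ℤ) ≤ Q := by positivity
  have key : ∀ x y : ℤ, ∀ s t : ℤ, s * N ≤ Q * x + N / 10 → (Q : ℤ) * x ≤ (s + 1) * N + N / 10 →
      t * N ≤ Q * y + N / 10 → (Q : ℤ) * y ≤ (t + 1) * N + N / 10 →
      (N : ℤ) ≤ 16 * (x - y) → 16 * (x - y) ≤ 15 * N →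
      (Q : ℤ) - 20 ≤ 16 * (s - t) ∧ 16 * (s - t) ≤ 15 * Q + 20 := by
    intro x y s t e1 e2 e3 e4 e5 e6
    have f1 : (Q : ℤ) * N ≤ 16 * (Q * x - Q * y) := by
      have := mul_le_mul_of_nonneg_left e5 hQ0
      linarith
    have f2 : 16 * ((Q : ℤ) * x - Q * y) ≤ 15 * (Q * N) := by
      have := mul_le_mul_of_nonneg_left e6 hQ0
      linarith
    constructor
    · refine le_of_mul_le_mul_right ?_ hNZ
      nlinarith
    · refine le_of_mul_le_mul_right ?_ hNZ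
      nlinarith
  have hfar : (Q : ℤ) - 20 ≤ 16 * |(s₄ : ℤ) - s₃| ∧ 16 * |(s₄ : ℤ) - s₃| ≤ 15 * Q + 20 := by
    rcases hF1 with hF1 | hF1
    · obtain ⟨g1, g2⟩ := key a z s₃ s₄ i3a i3b i4a i4b (by omega) (by omega)
      have : |(s₄ : ℤ) - s₃| = s₃ - s₄ := by
        rw [abs_sub_comm, abs_of_nonneg]
        omega
      rw [this]
      exact ⟨g1, g2⟩
    · obtain ⟨g1, g2⟩ := key z a s₄ s₃ i4a i4b i3a i3b (by omega) (by omega)
      have : |(s₄ : ℤ) - s₃| = s₄ - s₃ := by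
        rw [abs_of_nonneg]
        omega
      rw [this]
      exact ⟨g1, g2⟩
  have hd := hw'.dvd
  obtain ⟨t, ht⟩ := hd
  have hs3' : (s₃ : ℤ) < Q := by exact_mod_cast hs3
  have hs4' : (s₄ : ℤ) < Q := by exact_mod_cast hs4
  have hQ1 : (0 : ℤ) < Q := by omega
  have ht1 : t < 2 := by
    by_contra hcon
    have : (Q : ℤ) * 2 ≤ Q * t := mul_le_mul_of_nonneg_left (by omega) hQ0
    omega
  have ht2 : -2 < t := by
    by_contra hcon
    have : (Q : ℤ) * t ≤ Q * (-2) := mul_le_mul_of_nonneg_left (by omega) hQ0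
    omega
  have ht3 : t = -1 ∨ t = 0 ∨ t = 1 := by omega
  rcases abs_cases ((s₄ : ℤ) - s₃) with ⟨e, _⟩ | ⟨e, _⟩ <;> rw [e] at hfar <;>
    rcases ht3 with rfl | rfl | rfl <;> omega

end Pool.Agent.Lib_helper4.Asy
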