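import Pool.Agent.Lib_helper4.AsyF.ASM1
import Pool.Agent.Lib_helper4.AsyF.SEP
import Pool.Agent.Lib_helper4.AsyF.FACE
import Pool.Agent.Lib_helper4.AsyF.HC

set_option autoImplicit false

namespace Pool.Agent.Lib_helper4.Asy

theorem prs_of_lt {σ : ℕ → Bool} {J N j : ℕ} {O : Obj} (hO : O ∈ prs σ J N j) : 2 ^ j ≤ N := by
  by_contra hc
  have h1 := ff_end σ J N j (not_le.1 hc)
  have h2 : (prs σ J N j).length = (FF σ J N j).length / 2 := pairing_length J j _
  rw [h1] at h2
  have h3 : prs σ J N j = [] := List.eq_nil_of_length_eq_zero (by simpa using h2)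
  rw [h3] at hO
  simp at hO

theorem obj_in_block {k N : ℕ} {σ : ℕ → Bool} {sk : List (Blk (Tg Obj))}
    (hs : IsSkel k N (prs σ (lvJ k) N) (word σ (lvJ k) N) sk) {j : ℕ} {O : Obj}
    (hO : O ∈ DD σ (lvJ k) N j) : ∃ b ∈ sk, ∃ a ∈ b.objs, a.o = O := by
  have h1 : 2 ^ j ≤ N := prs_of_lt (DD_mem_prs hO)
  have h2 : j < N := lt_of_lt_of_le Nat.lt_two_pow_self h1
  have h3 : O ∈ (sk.flatMap Blk.objs).map Tg.o := by
    rw [hs.perm.mem_iff, List.mem_flatMap]
    refine ⟨j, List.mem_range.2 h2, ?_⟩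
    rw [dd_eq] at hO
    exact hO
  rw [List.mem_map] at h3
  obtain ⟨a, ha, rfl⟩ := h3
  rw [List.mem_flatMap] at ha
  obtain ⟨b, hb, hab⟩ := ha
  exact ⟨b, hb, a, hab, rfl⟩

theorem path_at {k : ℕ} (β : Obj → Bool) {sk : List (Blk (Tg Obj))} {b : Blk (Tg Obj)}
    (hb : b ∈ sk) : ∃ A C, sk.flatMap (bp k β) = A ++ bp k β b ++ C := by
  obtain ⟨s, t, rfl⟩ := List.append_of_mem hb
  exact ⟨s.flatMap (bp k β), t.flatMap (bp k β), by simp⟩

theorem getElem?_mid {A B C : List ℕ} {p x : ℕ} (h : B[p]? = some x) :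
    (A ++ B ++ C)[A.length + p]? = some x := by
  have hp : p < B.length := by
    by_contra hc
    rw [List.getElem?_eq_none (not_lt.1 hc)] at h
    simp at h
  rw [List.append_assoc, List.getElem?_append_right (by omega)]
  rw [Nat.add_sub_cancel_left, List.getElem?_append_left hp, h]

theorem mid_getElem? {A B C : List ℕ} {i x : ℕ} (h : (A ++ B ++ C)[i]? = some x)
    (h1 : A.length ≤ i) (h2 : i < A.length + B.length) : B[i - A.length]? = some x := by
  rw [List.append_assoc, List.getElem?_append_right h1] at h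
  rwa [List.getElem?_append_left (by omega)] at h

theorem lt_of_getElem? {B : List ℕ} {p x : ℕ} (h : B[p]? = some x) : p < B.length := by
  by_contra hc
  rw [List.getElem?_eq_none (not_lt.1 hc)] at h
  simp at h

theorem ne_zero_of_idx {P : List ℕ} (hP : P.Nodup) (h0 : P.head? = some 0) {i x : ℕ}
    (hi : 1 ≤ i) (hx : P[i]? = some x) : x ≠ 0 := by
  rintro rfl
  have h1 : P[0]? = some 0 := by rw [← List.head?_eq_getElem?]; exact h0
  have hl := lt_of_getElem? hx
  have h2 : P[0] = 0 := by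
    rw [List.getElem?_eq_getElem (by omega)] at h1
    simpa using h1
  have h3 : P[i] = 0 := by
    rw [List.getElem?_eq_getElem hl] at hx
    simpa using hx
  have := (List.Nodup.getElem_inj_iff hP (hi := by omega) (hj := hl)).1 (h2.trans h3.symm)
  omega

theorem farL_symm {N u v : ℕ} (h : FarL N u v) : FarL N v u := ⟨h.1.symm, h.2.2, h.2.1⟩

theorem lev_eq {k N : ℕ} {σ : ℕ → Bool} {a : Tg Obj} {j : ℕ}
    (h1 : a.o ∈ DD σ (lvJ k) N j) (h2 : a.o.1.length = 2 ^ a.lev) : a.lev = j := by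
  rw [(DD_len h1).1] at h2
  exact (Nat.pow_right_injective (le_refl 2) h2).symm

/-- the junction of a matched pair -/
theorem junction_of (k N D : ℕ) (hk : 2 ≤ k) (hD : 4 ^ (lvJ k + 1) ≤ D)
    (hbig : KK k * (D + 1) ≤ N) (σ : ℕ → Bool) (h : Ok k N D σ)
    (j : ℕ) (hj : j < lvJ k) (t : Obj) (ht : t ∈ prs σ (lvJ k) N j) (hst : same σ t = true) :
    ∃ q z a₁ a₂, t.1.getLast? = some a₁ ∧ t.2.head? = some a₂ ∧
      (pathOf k N σ)[q + 1]? = some z ∧
      (((pathOf k N σ)[q]? = some a₁ ∧ (pathOf k N σ)[q + 2]? = some a₂) ∨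
        ((pathOf k N σ)[q]? = some a₂ ∧ (pathOf k N σ)[q + 2]? = some a₁)) ∧
      (FarL N a₁ z ∨ ∃ j₁ s₁ s₂, j < j₁ ∧ j₁ < lvJ k ∧ InSeg N (QQ (lvJ k)) s₁ a₁ ∧
        InSeg N (QQ (lvJ k)) s₂ z ∧ Fr (lvJ k) j₁ s₁ s₂) := by
  have hs := skOf_spec k N D hk hD hbig σ h
  have hlen := prs_len σ (lvJ k) N j t ht
  have hpos : 0 < 2 ^ j := by positivity
  have hmem : t.1 ++ t.2 ∈ FF σ (lvJ k) N (j + 1) := by
    show t.1 ++ t.2 ∈ ((pairing (lvJ k) j (FF σ (lvJ k) N j)).filter (same σ)).map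
      fun p => p.1 ++ p.2
    rw [List.mem_map]
    exact ⟨t, List.mem_filter.2 ⟨ht, hst⟩, rfl⟩
  obtain ⟨j₁, hj₁, O, hO, side, hside, pre, post, hsd, hdvd⟩ := ff_embed σ (lvJ k) N h.bal (j + 1)
    _ hmem
  obtain ⟨a₁, ha₁⟩ : ∃ a₁, t.1[2 ^ j - 1]? = some a₁ :=
    ⟨t.1[2 ^ j - 1]'(by omega), List.getElem?_eq_getElem (by omega)⟩
  obtain ⟨a₂, ha₂⟩ : ∃ a₂, t.2[0]? = some a₂ :=
    ⟨t.2[0]'(by omega), List.getElem?_eq_getElem (by omega)⟩
  have hlast : t.1.getLast? = some a₁ := by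
    rw [List.getLast?_eq_getElem?, hlen.1]; exact ha₁
  have hhead : t.2.head? = some a₂ := by
    rw [List.head?_eq_getElem?]; exact ha₂
  set i := pre.length + (2 ^ j - 1) with hi
  have hx : side[i]? = some a₁ := by
    rw [hsd]
    apply getElem?_mid
    rw [List.getElem?_append_left (by omega)]
    exact ha₁
  have hy : side[i + 1]? = some a₂ := by
    rw [hsd, show i + 1 = pre.length + 2 ^ j by omega]
    apply getElem?_mid
    rw [List.getElem?_append_right (by omega), hlen.1, Nat.sub_self]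
    exact ha₂
  obtain ⟨b, hb, a, hab, haO⟩ := obj_in_block hs hO
  obtain ⟨A, C, hAC⟩ := path_at (k := k) (bet σ) hb
  have hPath : pathOf k N σ = A ++ bp k (bet σ) b ++ C := hAC
  -- transport of a junction from the block to the path
  have key : ∀ p z, (bp k (bet σ) b)[p + 1]? = some z →
      (((bp k (bet σ) b)[p]? = some a₁ ∧ (bp k (bet σ) b)[p + 2]? = some a₂) ∨
        ((bp k (bet σ) b)[p]? = some a₂ ∧ (bp k (bet σ) b)[p + 2]? = some a₁)) →
      (FarL N a₁ z ∨ ∃ j₁ s₁ s₂, j < j₁ ∧ j₁ < lvJ k ∧ InSeg N (QQ (lvJ k)) s₁ a₁ ∧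
        InSeg N (QQ (lvJ k)) s₂ z ∧ Fr (lvJ k) j₁ s₁ s₂) →
      ∃ q z a₁ a₂, t.1.getLast? = some a₁ ∧ t.2.head? = some a₂ ∧
      (pathOf k N σ)[q + 1]? = some z ∧
      (((pathOf k N σ)[q]? = some a₁ ∧ (pathOf k N σ)[q + 2]? = some a₂) ∨
        ((pathOf k N σ)[q]? = some a₂ ∧ (pathOf k N σ)[q + 2]? = some a₁)) ∧
      (FarL N a₁ z ∨ ∃ j₁ s₁ s₂, j < j₁ ∧ j₁ < lvJ k ∧ InSeg N (QQ (lvJ k)) s₁ a₁ ∧
        InSeg N (QQ (lvJ k)) s₂ z ∧ Fr (lvJ k) j₁ s₁ s₂) := by
    intro p z h1 h2 h3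
    refine ⟨A.length + p, z, a₁, a₂, hlast, hhead, ?_, ?_, h3⟩
    · rw [hPath, show A.length + p + 1 = A.length + (p + 1) by omega]
      exact getElem?_mid h1
    · rw [hPath, show A.length + p + 2 = A.length + (p + 2) by omega]
      rcases h2 with ⟨h2, h4⟩ | ⟨h2, h4⟩
      · exact Or.inl ⟨getElem?_mid h2, getElem?_mid h4⟩
      · exact Or.inr ⟨getElem?_mid h2, getElem?_mid h4⟩
  have hmemside : a₁ ∈ labels O := by
    have h1 : a₁ ∈ side := List.mem_of_getElem? hx
    unfold labels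
    rcases hside with rfl | rfl
    · exact List.mem_append_left _ h1
    · exact List.mem_append_right _ h1
  have hj1' : j < j₁ := hj₁
  cases b with
  | ob As Bs =>
    obtain ⟨hg, htag⟩ := small_tag hs hb (by intro o h; cases h)
    have hg' : GoodOb k (lvJ k) As Bs := hg
    obtain ⟨-, -, hFr, -⟩ := hg'
    have hab' : a ∈ As ++ Bs := hab
    have hta := htag a hab
    have hlev : a.lev = j₁ := lev_eq (by rw [haO]; exact hO) hta.2.2.2.2.1
    have hin1 : InSeg N (QQ (lvJ k)) a.seg a₁ :=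
      cls_loc k N D hk σ h.bal h.typ hD hbig a.lev hta.1 a.seg hta.2.1 a.o hta.2.2.1 a₁
        (by rw [haO]; exact hmemside)
    rcases List.mem_append.1 hab' with hA | hB
    · obtain ⟨p, z, h1, h2, O', hO', hz⟩ := obp_junction_A k (by omega) (bet σ) (As.map Tg.o)
        (Bs.map Tg.o) (obSize_of hs hb) O (List.mem_map.2 ⟨a, hA, haO⟩) side hside i a₁ a₂ hx hy
      rw [List.mem_map] at hO'
      obtain ⟨c, hc, rfl⟩ := hO'
      have htc := htag c (List.mem_append_right As hc)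
      refine key p z h1 h2 (Or.inr ⟨j₁, a.seg, c.seg, hj1', by rw [← hlev]; exact hta.1, hin1,
        cls_loc k N D hk σ h.bal h.typ hD hbig c.lev htc.1 c.seg htc.2.1 c.o htc.2.2.1 z hz, ?_⟩)
      have := (hFr a hA c hc).1 (by omega)
      rwa [hlev] at this
    · obtain ⟨p, z, h1, h2, O', hO', hz⟩ := obp_junction_B k (by omega) (bet σ) (As.map Tg.o)
        (Bs.map Tg.o) (obSize_of hs hb) O (List.mem_map.2 ⟨a, hB, haO⟩) side hside i a₁ a₂ hx hy
      rw [List.mem_map] at hO'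
      obtain ⟨c, hc, rfl⟩ := hO'
      have htc := htag c (List.mem_append_left Bs hc)
      refine key p z h1 h2 (Or.inr ⟨j₁, a.seg, c.seg, hj1', by rw [← hlev]; exact hta.1, hin1,
        cls_loc k N D hk σ h.bal h.typ hD hbig c.lev htc.1 c.seg htc.2.1 c.o htc.2.2.1 z hz, ?_⟩)
      have := (hFr c hc a hB).2 (by omega)
      rwa [hlev] at this
  | gad us =>
    obtain ⟨hg, htag⟩ := small_tag hs hb (by intro o h; cases h)
    have hg' : GoodGad k (lvJ k) us := hg
    obtain ⟨-, hFr, -⟩ := hg'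
    have hab' : a ∈ unpair us := hab
    have hta := htag a hab
    have hlev : a.lev = j₁ := lev_eq (by rw [haO]; exact hO) hta.2.2.2.2.1
    have hin1 : InSeg N (QQ (lvJ k)) a.seg a₁ :=
      cls_loc k N D hk σ h.bal h.typ hD hbig a.lev hta.1 a.seg hta.2.1 a.o hta.2.2.1 a₁
        (by rw [haO]; exact hmemside)
    obtain ⟨p, hp, hap⟩ := mem_unpair_iff.1 hab'
    have hl1 : a.lev = 1 := by
      rcases hap with rfl | rfl
      · exact (hFr p hp).1
      · exact (hFr p hp).2.1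
    have hj0 : j = 0 := by omega
    have hi0 : i = 0 := by
      have h1 := lt_of_getElem? hy
      have h2 : side.length = 2 ^ j₁ := by
        rcases hside with rfl | rfl
        · exact (DD_len hO).1
        · exact (DD_len hO).2
      rw [h2, ← hlev, hl1] at h1
      omega
    rw [hi0] at hx hy
    have hu : ((p.1.o, p.2.o) : Obj × Obj) ∈ us.map fun p => (p.1.o, p.2.o) :=
      List.mem_map.2 ⟨p, hp, rfl⟩
    rcases hap with hap | hap
    · obtain ⟨q, z, h1, h2, hz⟩ := gadp_junction_A k hk (bet σ) _ (gadSize_of hs hb) _ hu side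
        (by rw [← haO, hap] at hside; exact hside) a₁ a₂ hx hy
      have htc := htag p.2 (mem_unpair_iff.2 ⟨p, hp, Or.inr rfl⟩)
      refine key q z h1 h2 (Or.inr ⟨j₁, a.seg, p.2.seg, hj1', by rw [← hlev]; exact hta.1, hin1,
        cls_loc k N D hk σ h.bal h.typ hD hbig p.2.lev htc.1 p.2.seg htc.2.1 p.2.o htc.2.2.1 z hz,
        ?_⟩)
      have := (hFr p hp).2.2.1
      rw [← hap] at this
      rwa [← hlev, hl1]
    · obtain ⟨q, z, h1, h2, hz⟩ := gadp_junction_B k hk (bet σ) _ (gadSize_of hs hb) _ hu side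
        (by rw [← haO, hap] at hside; exact hside) a₁ a₂ hx hy
      have htc := htag p.1 (mem_unpair_iff.2 ⟨p, hp, Or.inl rfl⟩)
      refine key q z h1 h2 (Or.inr ⟨j₁, a.seg, p.1.seg, hj1', by rw [← hlev]; exact hta.1, hin1,
        cls_loc k N D hk σ h.bal h.typ hD hbig p.1.lev htc.1 p.1.seg htc.2.1 p.1.o htc.2.2.1 z hz,
        ?_⟩)
      have := (hFr p hp).2.2.2
      rw [← hap] at this
      rwa [← hlev, hl1]
  | sol o =>
    have hao : a = o := by
      have : a ∈ [o] := hab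
      simpa using this
    have hoO : o.o = O := by rw [← hao]; exact haO
    rcases hs.solid o hb with ⟨j₂, hj₂, ho⟩ | ⟨h1, -⟩
    · rw [← dd_eq, hoO] at ho
      have hL1 := (DD_len ho).1
      have hL2 := (DD_len ho).2
      -- the index block
      have hdvdJ : 2 ^ (j + 1) ∣ 2 ^ lvJ k := pow_dvd_pow 2 (by omega)
      have hp1 : 0 < 2 ^ (j + 1) := by positivity
      have hpow : 2 ^ (j + 1) = 2 * 2 ^ j := by rw [pow_succ]; ring
      have hdiv : ∀ e, pre.length ≤ e → e < pre.length + 2 ^ (j + 1) →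
          e / 2 ^ lvJ k = pre.length / 2 ^ lvJ k := by
        intro e he1 he2
        obtain ⟨c, hc⟩ := hdvdJ
        rw [hc, ← Nat.div_div_eq_div_mul, ← Nat.div_div_eq_div_mul]
        congr 1
        obtain ⟨d, hd⟩ := hdvd
        rw [hd, Nat.mul_div_cancel_left _ hp1]
        apply Nat.div_eq_of_lt_le
        · rw [Nat.mul_comm, ← hd]; exact he1
        · rw [hd] at he2
          calc e < 2 ^ (j + 1) * d + 2 ^ (j + 1) := he2
            _ = (d + 1) * 2 ^ (j + 1) := by ring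
      have hb1 : bp k (bet σ) (Blk.sol o) = solp (bet σ) O := by
        show solp (bet σ) o.o = _
        rw [hoO]
      have hJdvd : 2 ^ lvJ k ∣ 2 ^ j₂ := pow_dvd_pow 2 hj₂
      have hJp : 0 < 2 ^ lvJ k := by positivity
      rcases hside with hs1 | hs2
      · rw [hs1] at hx hy
        obtain ⟨p, z, h1, h2, h3⟩ := solp_junction_1 (bet σ) O (by rw [hL1, hL2]) i a₁ a₂ hx hy
        refine key p z (by rw [hb1]; exact h1) (by rw [hb1]; exact h2) (Or.inl ?_)
        rcases h3 with h3 | h3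
        · exact face k N D hk σ h.bal h.typ hD hbig j₂ hj₂ O ho i i a₁ z hx h3 rfl
        · refine face k N D hk σ h.bal h.typ hD hbig j₂ hj₂ O ho i (i + 1) a₁ z hx h3 ?_
          rw [hdiv i (by omega) (by omega), hdiv (i + 1) (by omega) (by omega)]
      · rw [hs2] at hx hy
        obtain ⟨p, z, h1, h2, h3⟩ := solp_junction_2 (bet σ) O (by rw [hL1, hL2]) i a₁ a₂ hx hy
        refine key p z (by rw [hb1]; exact h1) (by rw [hb1]; exact h2) (Or.inl ?_)
        have hil := lt_of_getElem? hx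
        have hx' : O.2.reverse[2 ^ j₂ - 1 - i]? = some a₁ := by
          rw [List.getElem?_reverse (by omega), hL2]
          rw [hL2] at hil
          rw [show 2 ^ j₂ - 1 - (2 ^ j₂ - 1 - i) = i by omega]
          exact hx
        have hflip : ∀ e, e < 2 ^ j₂ → (2 ^ j₂ - 1 - e) / 2 ^ lvJ k =
            2 ^ j₂ / 2 ^ lvJ k - 1 - e / 2 ^ lvJ k := by
          intro e he
          obtain ⟨c, hc⟩ := hJdvd
          rw [hc, Nat.mul_div_cancel_left _ hJp]
          rw [hc] at he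
          set M := 2 ^ lvJ k with hM
          have hq := Nat.div_add_mod e M
          have hr := Nat.mod_lt e hJp
          set qq := e / M with hqq
          set rr := e % M with hrr
          have hqc : qq < c := by
            by_contra hcon
            have : M * c ≤ M * qq := Nat.mul_le_mul_left _ (not_lt.1 hcon)
            omega
          obtain ⟨w, hw⟩ : ∃ w, c = qq + 1 + w := ⟨c - (qq + 1), by omega⟩
          rw [hw, show qq + 1 + w - 1 - qq = w by omega]
          apply Nat.div_eq_of_lt_le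
          · have : M * (qq + 1 + w) = M * qq + M + w * M := by ring
            omega
          · have h1 : M * (qq + 1 + w) = M * qq + M + w * M := by ring
            have h2 : (w + 1) * M = w * M + M := by ring
            omega
        have hcomb : ∀ e, O.1.reverse[e]? = some z → e / 2 ^ lvJ k = i / 2 ^ lvJ k →
            FarL N a₁ z := by
          intro e he hee
          have hel : e < 2 ^ j₂ := by
            have := lt_of_getElem? he
            rwa [List.length_reverse, hL1] at this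
          have he' : O.1[2 ^ j₂ - 1 - e]? = some z := by
            rw [List.getElem?_reverse (by omega), hL1] at he
            exact he
          apply farL_symm
          refine face k N D hk σ h.bal h.typ hD hbig j₂ hj₂ O ho _ _ z a₁ he' hx' ?_
          rw [hflip e hel, hflip i (by rw [hL2] at hil; exact hil), hee]
        rcases h3 with h3 | h3
        · exact hcomb i h3 rfl
        · refine hcomb (i + 1) h3 ?_
          rw [hdiv i (by omega) (by omega), hdiv (i + 1) (by omega) (by omega)]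
    · exfalso
      rw [hoO] at h1
      have h2 := (DD_len hO).1
      rw [h1] at h2
      simp at h2
      have h3 : 2 ^ 1 ≤ 2 ^ j₁ := Nat.pow_le_pow_right (by norm_num) (by omega)
      omega

/-- the two inner letters of an unmatched pair of a small level -/
theorem status_of (k N D : ℕ) (hk : 2 ≤ k) (hD : 4 ^ (lvJ k + 1) ≤ D)
    (hbig : KK k * (D + 1) ≤ N) (σ : ℕ → Bool) (h : Ok k N D σ)
    (j : ℕ) (hj : j < lvJ k) (t : Obj) (ht : t ∈ DD σ (lvJ k) N j) (h0 : 0 ∉ labels t)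
    (a₁ a₂ : ℕ) (ha₁ : t.1.getLast? = some a₁) (ha₂ : t.2.head? = some a₂) :
    ∃ q, (((pathOf k N σ)[q]? = some a₁ ∧ (pathOf k N σ)[q + (2 * k - 1)]? = some a₂) ∨
        ((pathOf k N σ)[q]? = some a₂ ∧ (pathOf k N σ)[q + (2 * k - 1)]? = some a₁)) ∧
      ∀ i z, q ≤ i → i ≤ q + (2 * k - 1) → (pathOf k N σ)[i]? = some z →
        ∃ s₃ s₄, InSeg N (QQ (lvJ k)) s₃ a₁ ∧ InSeg N (QQ (lvJ k)) s₄ z ∧ s₃ < QQ (lvJ k) ∧
          s₄ < QQ (lvJ k) ∧ Wr (lvJ k) j s₃ s₄ := by
  have hs := skOf_spec k N D hk hD hbig σ h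
  obtain ⟨b, hb, a, hab, haO⟩ := obj_in_block hs ht
  obtain ⟨A, C, hAC⟩ := path_at (k := k) (bet σ) hb
  have hPath : pathOf k N σ = A ++ bp k (bet σ) b ++ C := hAC
  have hns : ∀ o, b ≠ Blk.sol o := by
    rintro o rfl
    have hao : a = o := by
      have : a ∈ [o] := hab
      simpa using this
    have hoO : o.o = t := by rw [← hao]; exact haO
    rcases hs.solid o hb with ⟨j₂, hj₂, ho⟩ | ⟨h1, -⟩
    · rw [← dd_eq, hoO] at ho
      have h1 := (DD_len ho).1
      rw [(DD_len ht).1] at h1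
      have := Nat.pow_right_injective (le_refl 2) h1
      omega
    · apply h0
      rw [hoO] at h1
      unfold labels
      rw [h1]
      simp
  obtain ⟨hg, htag⟩ := small_tag hs hb hns
  have hta := htag a hab
  have hlev : a.lev = j := lev_eq (by rw [haO]; exact ht) hta.2.2.2.2.1
  have ha₁t : a₁ ∈ labels t := List.mem_append_left _ (List.mem_of_getLast? ha₁)
  have hin : ∀ c ∈ b.objs, ∀ z ∈ labels c.o, InSeg N (QQ (lvJ k)) c.seg z := by
    intro c hc z hz
    have htc := htag c hc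
    exact cls_loc k N D hk σ h.bal h.typ hD hbig c.lev htc.1 c.seg htc.2.1 c.o htc.2.2.1 z hz
  have hWr : ∀ c ∈ b.objs, Wr (lvJ k) j a.seg c.seg := by
    intro c hc
    cases b with
    | ob As Bs =>
      have hg' : GoodOb k (lvJ k) As Bs := hg
      have := hg'.2.2.2 a hab c hc
      rwa [hlev] at this
    | gad us =>
      have hg' : GoodGad k (lvJ k) us := hg
      have h1 := hg'.2.2 a hab c hc
      have hl1 : a.lev = 1 := by
        obtain ⟨p, hp, hap⟩ := mem_unpair_iff.1 (show a ∈ unpair us from hab)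
        rcases hap with rfl | rfl
        · exact (hg'.2.1 p hp).1
        · exact (hg'.2.1 p hp).2.1
      rwa [← hlev, hl1]
    | sol o => exact absurd rfl (hns o)
  obtain ⟨p, hp⟩ : ∃ p, ((bp k (bet σ) b)[p]? = some a₁ ∧
      (bp k (bet σ) b)[p + (2 * k - 1)]? = some a₂) ∨
      ((bp k (bet σ) b)[p]? = some a₂ ∧ (bp k (bet σ) b)[p + (2 * k - 1)]? = some a₁) := by
    cases b with
    | ob As Bs =>
      exact obp_status k (by omega) (bet σ) (As.map Tg.o) (Bs.map Tg.o) (obSize_of hs hb) t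
        (by rw [← List.map_append, List.mem_map]; exact ⟨a, hab, haO⟩) a₁ a₂ ha₁ ha₂
    | gad us =>
      exact gadp_status k hk (bet σ) _ (gadSize_of hs hb) t
        (by rw [unpair_map_o, List.mem_map]; exact ⟨a, hab, haO⟩) a₁ a₂ ha₁ ha₂
    | sol o => exact absurd rfl (hns o)
  have hplen : p + (2 * k - 1) < (bp k (bet σ) b).length := by
    rcases hp with ⟨-, h2⟩ | ⟨-, h2⟩
    · exact lt_of_getElem? h2
    · exact lt_of_getElem? h2
  refine ⟨A.length + p, ?_, ?_⟩
  · rw [hPath, show A.length + p + (2 * k - 1) = A.length + (p + (2 * k - 1)) by omega]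
    rcases hp with ⟨h1, h2⟩ | ⟨h1, h2⟩
    · exact Or.inl ⟨getElem?_mid h1, getElem?_mid h2⟩
    · exact Or.inr ⟨getElem?_mid h1, getElem?_mid h2⟩
  · intro i z hi1 hi2 hz
    rw [hPath] at hz
    have h1 := mid_getElem? hz (by omega) (by omega)
    have h2 : z ∈ (b.objs.map Tg.o).flatMap labels :=
      (bp_perm hs (bet σ) hb).mem_iff.1 (List.mem_of_getElem? h1)
    rw [List.mem_flatMap] at h2
    obtain ⟨O', hO', hz'⟩ := h2
    rw [List.mem_map] at hO'
    obtain ⟨c, hc, rfl⟩ := hO'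
    exact ⟨a.seg, c.seg, hin a hab a₁ (by rw [haO]; exact ha₁t), hin c hc z hz', hta.2.1,
      (htag c hc).2.1, hWr c hc⟩

theorem prs_congr {σ σ' : ℕ → Bool} {J N j : ℕ} (hF : FF σ J N j = FF σ' J N j) :
    prs σ J N j = prs σ' J N j := by
  unfold prs; rw [hF]

theorem word_get {σ : ℕ → Bool} {J N j p : ℕ} {b : Bool} (h : (word σ J N j)[p]? = some b) :
    ∃ t, (prs σ J N j)[p]? = some t ∧ same σ t = b := by
  unfold word at h
  rw [List.getElem?_map] at h
  cases hq : (prs σ J N j)[p]? with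
  | none => rw [hq] at h; simp at h
  | some t => rw [hq] at h; exact ⟨t, rfl, by simpa using h⟩

theorem DD_of_word {σ : ℕ → Bool} {J N j p : ℕ} {t : Obj} (ht : (prs σ J N j)[p]? = some t)
    (hw : (word σ J N j)[p]? = some false) : t ∈ DD σ J N j := by
  obtain ⟨t', ht', hs⟩ := word_get hw
  rw [ht] at ht'
  obtain rfl : t = t' := by simpa using ht'
  exact List.mem_filter.2 ⟨List.mem_of_getElem? ht, by rw [hs]; rfl⟩

theorem path_nodup {k N D : ℕ} (hk : 2 ≤ k) (hD : 4 ^ (lvJ k + 1) ≤ D)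
    (hbig : KK k * (D + 1) ≤ N) {σ : ℕ → Bool} (h : Ok k N D σ) :
    (pathOf k N σ).Nodup ∧ (pathOf k N σ).head? = some 0 := by
  have := path_perm k N D hk hD hbig σ h
  exact ⟨this.1.nodup_iff.2 List.nodup_range, this.2⟩

theorem cert_small (k N D : ℕ) (hk : 2 ≤ k) (hD : 4 ^ (lvJ k + 1) ≤ D)
    (hbig : KK k * (D + 1) ≤ N) (σ σ' : ℕ → Bool) (h : Ok k N D σ) (h' : Ok k N D σ')
    (j : ℕ) (hj : j < lvJ k) (hF : FF σ (lvJ k) N j = FF σ' (lvJ k) N j) (p : ℕ) (hp : 1 ≤ p)
    (hw : (word σ (lvJ k) N j)[p]? = some true) (hw' : (word σ' (lvJ k) N j)[p]? = some false) :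
    HasCyc k (pathOf k N σ) (pathOf k N σ') := by
  obtain ⟨t, ht, hst⟩ := word_get hw
  have ht' : (prs σ' (lvJ k) N j)[p]? = some t := by rw [← prs_congr hF]; exact ht
  have htD : t ∈ DD σ' (lvJ k) N j := DD_of_word ht' hw'
  have h0 : 0 ∉ labels t := zero_not_mem k N D hk σ h.bal h.typ hD hbig j p hp t ht
  obtain ⟨q, z, a₁, a₂, ha₁, ha₂, hz, hq, hsep⟩ := junction_of k N D hk hD hbig σ h j hj t
    (List.mem_of_getElem? ht) hst
  obtain ⟨q', hq', hwin⟩ := status_of k N D hk hD hbig σ' h' j hj t htD h0 a₁ a₂ ha₁ ha₂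
  obtain ⟨hN1, hN2⟩ := path_nodup hk hD hbig h
  obtain ⟨hN1', hN2'⟩ := path_nodup hk hD hbig h'
  have hNpos : 1 ≤ N := by
    have : 1 ≤ KK k * (D + 1) := by
      have hQ : 0 < QQ (lvJ k) := by unfold QQ; positivity
      have : 0 < KK k := by unfold KK; positivity
      exact Nat.succ_le_of_lt (Nat.mul_pos this (by omega))
    omega
  -- the letter `z` is not in the window
  have hznot : ∀ i', q' ≤ i' → i' ≤ q' + (2 * k - 1) → (pathOf k N σ')[i']? ≠ some z := by
    intro i' h1 h2 h3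
    obtain ⟨s₃, s₄, e1, e2, e3, e4, e5⟩ := hwin i' z h1 h2 h3
    rcases hsep with hfar | ⟨j₁, s₁, s₂, g1, g2, g3, g4, g5⟩
    · refine sep_large (lvJ k) N j s₃ s₄ a₁ z ?_ hNpos hfar e1 e2 e3 e4 e5 hj
      unfold lvJ; exact le_max_left _ _
    · exact sep_small (lvJ k) N j j₁ s₁ s₂ s₃ s₄ a₁ z hNpos g3 e1 g4 e2 g5 e5 g1 g2
  have ha₁0 : a₁ ≠ 0 := by
    rintro rfl
    exact h0 (List.mem_append_left _ (List.mem_of_getLast? ha₁))
  have ha₂0 : a₂ ≠ 0 := by
    rintro rfl
    exact h0 (List.mem_append_right _ (List.mem_of_head? ha₂))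
  have main : ∀ u v : ℕ, u ≠ 0 → v ≠ 0 → (pathOf k N σ)[q]? = some u →
      (pathOf k N σ)[q + 2]? = some v →
      (((pathOf k N σ')[q']? = some u ∧ (pathOf k N σ')[q' + (2 * k - 1)]? = some v) ∨
        ((pathOf k N σ')[q']? = some v ∧ (pathOf k N σ')[q' + (2 * k - 1)]? = some u)) →
      HasCyc k (pathOf k N σ) (pathOf k N σ') := by
    intro u v hu0 hv0 hu hv huv
    obtain ⟨c, hc, hcm⟩ := hc_two k (by omega) (pathOf k N σ) (pathOf k N σ') hN1 hN1' q q' 2
      (2 * k - 1) u v hu hv huv (by norm_num) (by omega) (by omega) (by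
        intro i x hi1 hi2 hx i' hi1' hi2'
        obtain rfl : i = q + 1 := by omega
        rw [hz] at hx
        obtain rfl : z = x := by simpa using hx
        exact hznot i' (by omega) (by omega))
    refine ⟨c, hc, fun hc0 => ?_⟩
    rcases hcm 0 hc0 with ⟨i, hi1, hi2, hi3⟩ | ⟨i, hi1, hi2, hi3⟩
    · rcases Nat.eq_or_lt_of_le hi1 with rfl | hlt
      · rw [hu] at hi3; exact hu0 (by simpa using hi3)
      · exact ne_zero_of_idx hN1 hN2 (by omega) hi3 rfl
    · rcases Nat.eq_or_lt_of_le hi1 with rfl | hlt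
      · rcases huv with ⟨e, -⟩ | ⟨e, -⟩
        · rw [e] at hi3; exact hu0 (by simpa using hi3)
        · rw [e] at hi3; exact hv0 (by simpa using hi3)
      · exact ne_zero_of_idx hN1' hN2' (by omega) hi3 rfl
  rcases hq with ⟨e1, e2⟩ | ⟨e1, e2⟩
  · exact main a₁ a₂ ha₁0 ha₂0 e1 e2 hq'
  · exact main a₂ a₁ ha₂0 ha₁0 e1 e2 hq'.symm

end Pool.Agent.Lib_helper4.Asy
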