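import Pool.Agent.Lib_helper4.AsyF.ASM2

set_option autoImplicit false

namespace Pool.Agent.Lib_helper4.Asy

/-- an object of a large level is solid -/
theorem large_in_sol {k N : ℕ} {σ : ℕ → Bool} {sk : List (Blk (Tg Obj))}
    (hs : IsSkel k N (prs σ (lvJ k) N) (word σ (lvJ k) N) sk) {j : ℕ} (hj : lvJ k ≤ j) {O : Obj}
    (hO : O ∈ DD σ (lvJ k) N j) : ∃ o, Blk.sol o ∈ sk ∧ o.o = O := by
  obtain ⟨b, hb, a, hab, haO⟩ := obj_in_block hs hO
  by_cases hns : ∀ o, b ≠ Blk.sol o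
  · obtain ⟨-, htag⟩ := small_tag hs hb hns
    have hta := htag a hab
    have hlev : a.lev = j := lev_eq (by rw [haO]; exact hO) hta.2.2.2.2.1
    have := hta.1
    omega
  · push Not at hns
    obtain ⟨o, rfl⟩ := hns
    have hao : a = o := by
      have : a ∈ [o] := hab
      simpa using this
    exact ⟨o, hb, by rw [← hao]; exact haO⟩

theorem sol_path {k N : ℕ} {σ : ℕ → Bool} {o : Tg Obj}
    (hb : Blk.sol o ∈ skOf k N (prs σ (lvJ k) N) (word σ (lvJ k) N)) :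
    ∃ A C, pathOf k N σ = A ++ solp (bet σ) o.o ++ C := by
  obtain ⟨A, C, hAC⟩ := path_at (k := k) (bet σ) hb
  exact ⟨A, C, hAC⟩

theorem adjL_mid {A B C : List ℕ} {u v : ℕ} (h : AdjL B u v) : AdjL (A ++ B ++ C) u v := by
  obtain ⟨i, hi⟩ := h
  refine ⟨A.length + i, ?_⟩
  rcases hi with ⟨h1, h2⟩ | ⟨h1, h2⟩
  · exact Or.inl ⟨getElem?_mid h1, by rw [Nat.add_assoc]; exact getElem?_mid h2⟩
  · exact Or.inr ⟨getElem?_mid h1, by rw [Nat.add_assoc]; exact getElem?_mid h2⟩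

theorem le_two_pow_lvJ (k : ℕ) : k ≤ 2 ^ lvJ k := by
  unfold lvJ
  calc k ≤ 2 ^ Nat.clog 2 k := Nat.le_pow_clog (by norm_num) k
    _ ≤ 2 ^ max 2 (Nat.clog 2 k) := Nat.pow_le_pow_right (by norm_num) (le_max_right _ _)

theorem cert_large (k N D : ℕ) (hk : 2 ≤ k) (hD : 4 ^ (lvJ k + 1) ≤ D)
    (hbig : KK k * (D + 1) ≤ N) (σ σ' : ℕ → Bool) (h : Ok k N D σ) (h' : Ok k N D σ')
    (j : ℕ) (hj : lvJ k ≤ j) (hF : FF σ (lvJ k) N j = FF σ' (lvJ k) N j) (p : ℕ) (hp : 1 ≤ p)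
    (hw : (word σ (lvJ k) N j)[p]? = some true) (hw' : (word σ' (lvJ k) N j)[p]? = some false) :
    HasCyc k (pathOf k N σ) (pathOf k N σ') := by
  obtain ⟨t, ht, hst⟩ := word_get hw
  have ht' : (prs σ' (lvJ k) N j)[p]? = some t := by rw [← prs_congr hF]; exact ht
  have htD : t ∈ DD σ' (lvJ k) N j := DD_of_word ht' hw'
  have h0 : 0 ∉ labels t := zero_not_mem k N D hk σ h.bal h.typ hD hbig j p hp t ht
  have hlen := prs_len σ (lvJ k) N j t (List.mem_of_getElem? ht)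
  obtain ⟨hN1, hN2⟩ := path_nodup hk hD hbig h
  obtain ⟨hN1', hN2'⟩ := path_nodup hk hD hbig h'
  have hs := skOf_spec k N D hk hD hbig σ h
  have hs' := skOf_spec k N D hk hD hbig σ' h'
  have hkj : k ≤ 2 ^ j := (le_two_pow_lvJ k).trans (Nat.pow_le_pow_right (by norm_num) hj)
  -- in `σ'`
  obtain ⟨o', hb', ho'⟩ := large_in_sol hs' hj htD
  obtain ⟨A', C', hP'⟩ := sol_path hb'
  rw [ho'] at hP'
  obtain ⟨u, v, x, y, huv, hu, hv, hx, hy, hadj⟩ := solp_adj k (by omega) (bet σ') t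
    (by rw [hlen.1, hlen.2]) (by rw [hlen.1]; exact hkj)
  have hadj' : AdjL (pathOf k N σ') x y := by rw [hP']; exact adjL_mid hadj
  -- in `σ`
  have hmem : t.1 ++ t.2 ∈ FF σ (lvJ k) N (j + 1) := by
    show t.1 ++ t.2 ∈ ((pairing (lvJ k) j (FF σ (lvJ k) N j)).filter (same σ)).map
      fun p => p.1 ++ p.2
    rw [List.mem_map]
    exact ⟨t, List.mem_filter.2 ⟨List.mem_of_getElem? ht, hst⟩, rfl⟩
  obtain ⟨j₁, hj₁, O, hO, side, hside, pre, post, hsd, hdvd⟩ := ff_embed σ (lvJ k) N h.bal (j + 1)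
    _ hmem
  obtain ⟨o, hb, ho⟩ := large_in_sol hs (by omega) hO
  obtain ⟨A, C, hP⟩ := sol_path hb
  rw [ho] at hP
  have hx1 : side[pre.length + (t.1.length - 1 - u)]? = some x := by
    rw [hsd]
    apply getElem?_mid
    rw [List.getElem?_append_left (by omega)]
    exact hx
  have hy1 : side[pre.length + (t.1.length - 1 - u) + k]? = some y := by
    rw [hsd, show pre.length + (t.1.length - 1 - u) + k = pre.length + (t.1.length + v) by omega]
    apply getElem?_mid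
    rw [List.getElem?_append_right (by omega), Nat.add_sub_cancel_left]
    exact hy
  obtain ⟨q, hq⟩ := solp_dense k (bet σ) O (by rw [(DD_len hO).1, (DD_len hO).2]) side hside
    _ x y hx1 hy1
  have hx0 : x ≠ 0 := by
    rintro rfl
    exact h0 (List.mem_append_left _ (List.mem_of_getElem? hx))
  have hy0 : y ≠ 0 := by
    rintro rfl
    exact h0 (List.mem_append_right _ (List.mem_of_getElem? hy))
  obtain ⟨q', hq'⟩ := hadj'
  have main : ∀ u v : ℕ, u ≠ 0 → v ≠ 0 → (pathOf k N σ)[A.length + q]? = some u →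
      (pathOf k N σ)[A.length + q + 2 * k]? = some v →
      (((pathOf k N σ')[q']? = some u ∧ (pathOf k N σ')[q' + 1]? = some v) ∨
        ((pathOf k N σ')[q']? = some v ∧ (pathOf k N σ')[q' + 1]? = some u)) →
      HasCyc k (pathOf k N σ) (pathOf k N σ') := by
    intro u v hu0 hv0 hu hv huv
    obtain ⟨c, hc, hcm⟩ := hc_two k (by omega) (pathOf k N σ) (pathOf k N σ') hN1 hN1'
      (A.length + q) q' (2 * k) 1 u v hu hv huv (by omega) (by omega) (by omega) (by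
        intro i x hi1 hi2 hx i' hi1' hi2'
        omega)
    refine ⟨c, hc, fun hc0 => ?_⟩
    rcases hcm 0 hc0 with ⟨i, hi1, hi2, hi3⟩ | ⟨i, hi1, hi2, hi3⟩
    · rcases Nat.eq_or_lt_of_le hi1 with rfl | hlt
      · rw [hu] at hi3; exact hu0 (by simpa using hi3)
      · exact ne_zero_of_idx hN1 hN2 (by omega) hi3 rfl
    · rcases Nat.eq_or_lt_of_le hi1 with rfl | hlt
      · rcases huv with ⟨e, -⟩ | ⟨e, -⟩
        · rw [e] at hi3; exact hu0 (by simpa using hi3)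
        · rw [e] at hi3; exact hv0 (by simpa using hi3)
      · exact ne_zero_of_idx hN1' hN2' (by omega) hi3 rfl
  rcases hq with ⟨e1, e2⟩ | ⟨e1, e2⟩
  · refine main x y hx0 hy0 ?_ ?_ hq'
    · rw [hP]; exact getElem?_mid e1
    · rw [hP, Nat.add_assoc]; exact getElem?_mid e2
  · refine main y x hy0 hx0 ?_ ?_ hq'.symm
    · rw [hP]; exact getElem?_mid e1
    · rw [hP, Nat.add_assoc]; exact getElem?_mid e2

end Pool.Agent.Lib_helper4.Asy
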