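import Pool.Agent.Lib_helper4.AsyF.GAD

set_option autoImplicit false

namespace Pool.Agent.Lib_helper4.Asy

theorem frow_congr (k : ℕ) (β β' : Obj → Bool) (u : Obj × Obj) (h1 : β u.1 = β' u.1)
    (h2 : β u.2 = β' u.2) : frow k β u = frow k β' u := by
  unfold frow; rw [h1, h2]

theorem grow_congr (k : ℕ) (β β' : Obj → Bool) (u : Obj × Obj) (h1 : β u.1 = β' u.1)
    (h2 : β u.2 = β' u.2) : grow k β u = grow k β' u := by
  unfold grow; rw [h1, h2]

/-- the first unit whose bits differ -/
theorem first_unit (β β' : Obj → Bool) (us : List (Obj × Obj))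
    (h : ¬ ∀ u ∈ us, β u.1 = β' u.1 ∧ β u.2 = β' u.2) :
    ∃ s u r, us = s ++ u :: r ∧ (∀ v ∈ s, β v.1 = β' v.1 ∧ β v.2 = β' v.2) ∧
      ¬ (β u.1 = β' u.1 ∧ β u.2 = β' u.2) := by
  induction us with
  | nil => exact absurd (by simp) h
  | cons v us ih =>
    by_cases hv : β v.1 = β' v.1 ∧ β v.2 = β' v.2
    · have : ¬ ∀ u ∈ us, β u.1 = β' u.1 ∧ β u.2 = β' u.2 := by
        intro hcon
        apply h
        intro u hu
        rcases List.mem_cons.1 hu with rfl | hu
        · exact hv
        · exact hcon u hu
      obtain ⟨s, u, r, rfl, h1, h2⟩ := ih this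
      refine ⟨v :: s, u, r, rfl, ?_, h2⟩
      intro w hw
      rcases List.mem_cons.1 hw with rfl | hw
      · exact hv
      · exact h1 w hw
    · exact ⟨[], v, us, rfl, by simp, hv⟩

theorem gadp_congr (k : ℕ) (β β' : Obj → Bool) (us : List (Obj × Obj))
    (h : ∀ u ∈ us, β u.1 = β' u.1 ∧ β u.2 = β' u.2) : gadp k β us = gadp k β' us := by
  unfold gadp
  congr 1
  · apply List.flatMap_congr
    intro u hu
    exact frow_congr k β β' u (h u hu).1 (h u hu).2
  · apply List.flatMap_congr
    intro u hu
    exact grow_congr k β β' u (h u hu).1 (h u hu).2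

/-- the data at the first unit whose bits differ: position `T`, common predecessor `f` -/
theorem gad_first (k : ℕ) (β β' : Obj → Bool) (us : List (Obj × Obj)) (h : GadSize k us)
    (e : ℕ) (hne : gadp k β us ≠ gadp k β' us) :
    ∃ T G u f, u ∈ us ∧ ¬ (β u.1 = β' u.1 ∧ β u.2 = β' u.2) ∧
      G = 4 * (k / 2) + T ∧ T + 4 ≤ 4 * (k / 2) ∧
      (e :: gadp k β us)[T]? = some f ∧ (e :: gadp k β' us)[T]? = some f ∧
      (∀ i < 4, (gadp k β us)[T + i]? = (frow k β u)[i]?) ∧
      (∀ i < 4, (gadp k β us)[G + i]? = (grow k β u)[i]?) ∧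
      (∀ i < 4, (gadp k β' us)[T + i]? = (frow k β' u)[i]?) ∧
      (∀ i < 4, (gadp k β' us)[G + i]? = (grow k β' u)[i]?) := by
  obtain ⟨s, u, r, rfl, h1, h2⟩ := first_unit β β' us (fun hcon => hne (gadp_congr k β β' us hcon))
  have hl := h.1
  have hls : s.length + 1 ≤ k / 2 := by
    rw [← hl, List.length_append, List.length_cons]; omega
  have hA : s.flatMap (frow k β) = s.flatMap (frow k β') := by
    apply List.flatMap_congr
    intro v hv
    exact frow_congr k β β' v (h1 v hv).1 (h1 v hv).2
  have hAl := flat4_length (frow k β) (frow_length k β) s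
  have hsplit : ∀ β : Obj → Bool, e :: gadp k β (s ++ u :: r) =
      (e :: s.flatMap (frow k β)) ++ ((u :: r).flatMap (frow k β) ++
        (s ++ u :: r).flatMap (grow k β)) := by
    intro β
    unfold gadp
    rw [List.flatMap_append, List.cons_append, List.append_assoc]
  refine ⟨4 * s.length, 4 * (k / 2) + 4 * s.length, u,
    (e :: s.flatMap (frow k β))[4 * s.length]'(by rw [List.length_cons, hAl]; omega), by simp, h2,
    rfl, by omega, ?_, ?_, ?_, ?_, ?_, ?_⟩
  · rw [hsplit, List.getElem?_append_left (by rw [List.length_cons, hAl]; omega),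
      List.getElem?_eq_getElem]
  · rw [hsplit, ← hA, List.getElem?_append_left (by rw [List.length_cons, hAl]; omega),
      List.getElem?_eq_getElem]
  · intro i hi
    exact (gad_cells k β s u r i hi).1
  · intro i hi
    rw [← hl]
    exact (gad_cells k β s u r i hi).2
  · intro i hi
    exact (gad_cells k β' s u r i hi).1
  · intro i hi
    rw [← hl]
    exact (gad_cells k β' s u r i hi).2

theorem gad_nodup (k : ℕ) (β : Obj → Bool) (us : List (Obj × Obj)) (h : GadSize k us) (e : ℕ)
    (hnd : (e :: (unpair us).flatMap labels).Nodup) : (e :: gadp k β us).Nodup :=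
  ((gadp_perm k β us h).cons e).nodup_iff.2 hnd

theorem gad_orient_odd (k : ℕ) (hk : 2 ≤ k) (hodd : k % 2 = 1) (us : List (Obj × Obj))
    (h : GadSize k us) (β β' : Obj → Bool) (e : ℕ)
    (hnd : (e :: (unpair us).flatMap labels).Nodup) (hne : gadp k β us ≠ gadp k β' us) :
    ∃ c, CycIn k (e :: gadp k β us) (e :: gadp k β' us) c := by
  have hk1 : 1 ≤ k := by omega
  obtain ⟨T, G, u, f, hu, hdiff, hG, hT4, hf, hf', t, g, t', g'⟩ := gad_first k β β' us h e hne
  have hn1 := gad_nodup k β us h e hnd
  have hn2 := gad_nodup k β' us h e hnd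
  obtain ⟨a, b, c, d, a', b', c', d', rfl⟩ := unit_form (h.2 u hu)
  have hk2 : ¬ (k % 2 = 0) := by omega
  by_cases h1 : β ([a, b], [c, d]) = β' ([a, b], [c, d])
  · -- the second object flips
    have h2 : β ([a', b'], [c', d']) ≠ β' ([a', b'], [c', d']) := fun hcon => hdiff ⟨h1, hcon⟩
    obtain ⟨x, hx, hx'⟩ : ∃ x, (gadp k β us)[T + 1]? = some x ∧
        (gadp k β' us)[G + 2]? = some x := by
      rw [t 1 (by norm_num), g' 2 (by norm_num)]
      unfold frow grow lt
      rw [if_neg hk2, if_neg hk2]
      cases hb : β ([a', b'], [c', d']) <;> cases hc : β' ([a', b'], [c', d'])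
      · exact absurd (hb.trans hc.symm) h2
      · simp
      · simp
      · exact absurd (hb.trans hc.symm) h2
    obtain ⟨y, hy, hy'⟩ : ∃ y, (gadp k β us)[T + 0]? = some y ∧
        (gadp k β' us)[T + 0]? = some y := by
      rw [t 0 (by norm_num), t' 0 (by norm_num)]
      unfold frow lt
      rw [if_neg hk2, if_neg hk2, ← h1]
      simp
    have eqG : T + 1 + 1 + (2 * k - 1) = (G + 2) + 1 := by omega
    exact simple_principle k hk1 _ _ hn1 hn2 (T + 1) y x
      (by rw [List.getElem?_cons_succ]; exact hy)
      (by rw [List.getElem?_cons_succ]; exact hy')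
      (by rw [List.getElem?_cons_succ]; exact hx)
      (by rw [eqG, List.getElem?_cons_succ]; exact hx')
  · obtain ⟨x, hx, hx'⟩ : ∃ x, (gadp k β us)[T + 0]? = some x ∧
        (gadp k β' us)[G + 1]? = some x := by
      rw [t 0 (by norm_num), g' 1 (by norm_num)]
      unfold frow grow lt
      rw [if_neg hk2, if_neg hk2]
      cases hb : β ([a, b], [c, d]) <;> cases hc : β' ([a, b], [c, d])
      · exact absurd (hb.trans hc.symm) h1
      · simp
      · simp
      · exact absurd (hb.trans hc.symm) h1
    have eqG : T + 1 + (2 * k - 1) = (G + 1) + 1 := by omega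
    exact simple_principle k hk1 _ _ hn1 hn2 T f x hf hf'
      (by rw [List.getElem?_cons_succ]; exact hx)
      (by rw [eqG, List.getElem?_cons_succ]; exact hx')

/-- both objects of the unit flip: a cycle through four arcs -/
theorem gad_both (k : ℕ) (hk : 2 ≤ k) (L L' : List ℕ) (hL : L.Nodup) (T G f x x' s v : ℕ)
    (hG : G = 2 * k + T) (h0 : L[T]? = some f) (h0' : L'[T]? = some f)
    (h1 : L[T + 1]? = some x) (h1' : L'[T + 1]? = some x')
    (h2 : L[G + 4]? = some x') (h2' : L'[G + 4]? = some x)
    (h3 : L[G + 1]? = some s) (h3' : L'[T + 2]? = some s)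
    (h4 : L[T + 4]? = some v) (h4' : L'[G + 3]? = some v) : ∃ c, CycIn k L L' c := by
  have hlen : G + 4 < L.length := (List.getElem?_eq_some_iff.1 h2).1
  let pos : ℕ → ℕ := fun i => if i = 0 then T else if i = 1 then G + 4 else
    if i = 2 * k then T + 1 else G + 3 - i
  have hpos : ∀ i < 2 * k + 1, pos i < L.length := by
    intro i hi
    simp only [pos]
    split_ifs <;> omega
  have e0 : L.getD (pos 0) 0 = f := by
    simp only [pos, if_true]
    exact getD_some h0
  have e1 : L.getD (pos 1) 0 = x' := by
    simp only [pos, if_true, if_neg (show ¬ (1 = 0) by omega)]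
    exact getD_some h2
  have e2k : L.getD (pos (2 * k)) 0 = x := by
    simp only [pos, if_true, if_neg (show ¬ (2 * k = 0) by omega),
      if_neg (show ¬ (2 * k = 1) by omega)]
    exact getD_some h1
  have e2 : L.getD (pos 2) 0 = s := by
    simp only [pos, if_neg (show ¬ (2 = 0) by omega), if_neg (show ¬ (2 = 1) by omega),
      if_neg (show ¬ (2 = 2 * k) by omega)]
    exact getD_some (by rw [show G + 3 - 2 = G + 1 by omega]; exact h3)
  have el : L.getD (pos (2 * k - 1)) 0 = v := by
    simp only [pos, if_neg (show ¬ (2 * k - 1 = 0) by omega),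
      if_neg (show ¬ (2 * k - 1 = 1) by omega), if_neg (show ¬ (2 * k - 1 = 2 * k) by omega)]
    exact getD_some (by rw [show G + 3 - (2 * k - 1) = T + 4 by omega]; exact h4)
  refine ⟨_, cyc_of_fun k L L' (fun i => L.getD (pos i) 0) ?_ ?_⟩
  · intro i hi j hj hij
    have := getD_inj' hL (hpos i hi) (hpos j hj) hij
    simp only [pos] at this
    split_ifs at this <;> omega
  · intro i hi
    by_cases c0 : i = 0
    · subst c0
      right
      rw [Nat.mod_eq_of_lt (by omega), e0, e1]
      exact ⟨T, Or.inl ⟨h0', h1'⟩⟩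
    by_cases c1 : i = 1
    · subst c1
      right
      rw [Nat.mod_eq_of_lt (by omega), e1, e2]
      exact ⟨T + 1, Or.inl ⟨h1', h3'⟩⟩
    by_cases c2 : i = 2 * k
    · subst c2
      left
      rw [Nat.mod_self, e0, e2k]
      exact ⟨T, Or.inr ⟨h0, h1⟩⟩
    by_cases c3 : i = 2 * k - 1
    · subst c3
      right
      rw [Nat.mod_eq_of_lt (by omega), el, show 2 * k - 1 + 1 = 2 * k by omega, e2k]
      exact ⟨G + 3, Or.inl ⟨h4', h2'⟩⟩
    · left
      rw [Nat.mod_eq_of_lt (by omega)]
      have hp : pos i = pos (i + 1) + 1 := by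
        simp only [pos]
        rw [if_neg c0, if_neg c1, if_neg c2, if_neg (by omega), if_neg (by omega),
          if_neg (by omega)]
        omega
      rw [hp]
      apply adjL_symm
      apply adjL_succ
      rw [← hp]
      exact hpos i hi

theorem gad_orient_even (k : ℕ) (hk : 2 ≤ k) (heven : k % 2 = 0) (us : List (Obj × Obj))
    (h : GadSize k us) (β β' : Obj → Bool) (e : ℕ)
    (hnd : (e :: (unpair us).flatMap labels).Nodup) (hne : gadp k β us ≠ gadp k β' us) :
    ∃ c, CycIn k (e :: gadp k β us) (e :: gadp k β' us) c := by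
  have hk1 : 1 ≤ k := by omega
  obtain ⟨T, G, u, f, hu, hdiff, hG, hT4, hf, hf', t, g, t', g'⟩ := gad_first k β β' us h e hne
  have hn1 := gad_nodup k β us h e hnd
  have hn2 := gad_nodup k β' us h e hnd
  obtain ⟨a, b, c, d, a', b', c', d', rfl⟩ := unit_form (h.2 u hu)
  by_cases h1 : β ([a, b], [c, d]) = β' ([a, b], [c, d])
  · -- the second object flips
    have h2 : β ([a', b'], [c', d']) ≠ β' ([a', b'], [c', d']) := fun hcon => hdiff ⟨h1, hcon⟩
    obtain ⟨x, hx, hx'⟩ : ∃ x, (gadp k β us)[T + 1]? = some x ∧
        (gadp k β' us)[G + 0]? = some x := by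
      rw [t 1 (by norm_num), g' 0 (by norm_num)]
      unfold frow grow lt
      rw [if_pos heven, if_pos heven]
      cases hb : β ([a', b'], [c', d']) <;> cases hc : β' ([a', b'], [c', d'])
      · exact absurd (hb.trans hc.symm) h2
      · simp
      · simp
      · exact absurd (hb.trans hc.symm) h2
    obtain ⟨y, hy, hy'⟩ : ∃ y, (gadp k β us)[T + 0]? = some y ∧
        (gadp k β' us)[T + 0]? = some y := by
      rw [t 0 (by norm_num), t' 0 (by norm_num)]
      unfold frow lt
      rw [if_pos heven, if_pos heven, ← h1]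
      simp
    have eqG : T + 1 + 1 + (2 * k - 1) = (G + 0) + 1 := by omega
    exact simple_principle k hk1 _ _ hn1 hn2 (T + 1) y x
      (by rw [List.getElem?_cons_succ]; exact hy)
      (by rw [List.getElem?_cons_succ]; exact hy')
      (by rw [List.getElem?_cons_succ]; exact hx)
      (by rw [eqG, List.getElem?_cons_succ]; exact hx')
  · by_cases h2 : β ([a', b'], [c', d']) = β' ([a', b'], [c', d'])
    · obtain ⟨x, hx, hx'⟩ : ∃ x, (gadp k β us)[T + 2]? = some x ∧
          (gadp k β' us)[G + 1]? = some x := by
        rw [t 2 (by norm_num), g' 1 (by norm_num)]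
        unfold frow grow lt
        rw [if_pos heven, if_pos heven]
        cases hb : β ([a, b], [c, d]) <;> cases hc : β' ([a, b], [c, d])
        · exact absurd (hb.trans hc.symm) h1
        · simp
        · simp
        · exact absurd (hb.trans hc.symm) h1
      obtain ⟨y, hy, hy'⟩ : ∃ y, (gadp k β us)[T + 1]? = some y ∧
          (gadp k β' us)[T + 1]? = some y := by
        rw [t 1 (by norm_num), t' 1 (by norm_num)]
        unfold frow lt
        rw [if_pos heven, if_pos heven, ← h2]
        simp
      have eqG : T + 2 + 1 + (2 * k - 1) = (G + 1) + 1 := by omega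
      exact simple_principle k hk1 _ _ hn1 hn2 (T + 2) y x
        (by rw [List.getElem?_cons_succ]; exact hy)
        (by rw [List.getElem?_cons_succ]; exact hy')
        (by rw [List.getElem?_cons_succ]; exact hx)
        (by rw [eqG, List.getElem?_cons_succ]; exact hx')
    · -- both flip
      obtain ⟨x, hx, hx'⟩ : ∃ x, (gadp k β us)[T + 0]? = some x ∧
          (gadp k β' us)[G + 3]? = some x := by
        rw [t 0 (by norm_num), g' 3 (by norm_num)]
        unfold frow grow lt
        rw [if_pos heven, if_pos heven]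
        cases hb : β ([a, b], [c, d]) <;> cases hc : β' ([a, b], [c, d])
        · exact absurd (hb.trans hc.symm) h1
        · simp
        · simp
        · exact absurd (hb.trans hc.symm) h1
      obtain ⟨y, hy, hy'⟩ : ∃ y, (gadp k β us)[G + 3]? = some y ∧
          (gadp k β' us)[T + 0]? = some y := by
        rw [t' 0 (by norm_num), g 3 (by norm_num)]
        unfold frow grow lt
        rw [if_pos heven, if_pos heven]
        cases hb : β ([a, b], [c, d]) <;> cases hc : β' ([a, b], [c, d])
        · exact absurd (hb.trans hc.symm) h1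
        · simp
        · simp
        · exact absurd (hb.trans hc.symm) h1
      obtain ⟨s, hs, hs'⟩ : ∃ s, (gadp k β us)[G + 0]? = some s ∧
          (gadp k β' us)[T + 1]? = some s := by
        rw [t' 1 (by norm_num), g 0 (by norm_num)]
        unfold frow grow lt
        rw [if_pos heven, if_pos heven]
        cases hb : β ([a', b'], [c', d']) <;> cases hc : β' ([a', b'], [c', d'])
        · exact absurd (hb.trans hc.symm) h2
        · simp
        · simp
        · exact absurd (hb.trans hc.symm) h2
      obtain ⟨v, hv, hv'⟩ : ∃ v, (gadp k β us)[T + 3]? = some v ∧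
          (gadp k β' us)[G + 2]? = some v := by
        rw [t 3 (by norm_num), g' 2 (by norm_num)]
        unfold frow grow lt
        rw [if_pos heven, if_pos heven]
        cases hb : β ([a', b'], [c', d']) <;> cases hc : β' ([a', b'], [c', d'])
        · exact absurd (hb.trans hc.symm) h2
        · simp
        · simp
        · exact absurd (hb.trans hc.symm) h2
      exact gad_both k hk _ _ hn1 T G f x y s v (by omega) hf hf'
        (by rw [List.getElem?_cons_succ]; exact hx)
        (by rw [List.getElem?_cons_succ]; exact hy')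
        (by rw [List.getElem?_cons_succ]; exact hy)
        (by rw [List.getElem?_cons_succ]; exact hx')
        (by rw [List.getElem?_cons_succ]; exact hs)
        (by rw [List.getElem?_cons_succ]; exact hs')
        (by rw [List.getElem?_cons_succ]; exact hv)
        (by rw [List.getElem?_cons_succ]; exact hv')

end Pool.Agent.Lib_helper4.Asy
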