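import Pool.Agent.Lib_helper4.AsyF.HC
import Pool.Agent.Lib_helper4.AsyF.OBF

set_option autoImplicit false

namespace Pool.Agent.Lib_helper4.Asy

/-- `x` at cell `c+1` of `L` and at cell `c+1+(2k-1)` of `L'`, cell `c` common -/
theorem simple_principle (k : ℕ) (hk : 1 ≤ k) (L L' : List ℕ) (hL : L.Nodup) (hL' : L'.Nodup)
    (c e x : ℕ) (h1 : L[c]? = some e) (h1' : L'[c]? = some e) (h2 : L[c + 1]? = some x)
    (h3 : L'[c + 1 + (2 * k - 1)]? = some x) : ∃ c', CycIn k L L' c' := by
  obtain ⟨c', hc', -⟩ := hc_two k hk L L' hL hL' c c 1 (2 * k) e x h1 h2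
    (Or.inl ⟨h1', by rw [← h3]; congr 1; omega⟩) le_rfl (by omega) (by omega)
    (fun i y hi hi' => by omega)
  exact ⟨c', hc'⟩

/-- flipping bits swaps the two letters of some columns -/
theorem cols (β β' : Obj → Bool) (As : List Obj) (h : ∀ O ∈ As, O.1.length = O.2.length) (i : ℕ) :
    ((As.flatMap (top β'))[i]? = (As.flatMap (top β))[i]? ∧
      (As.flatMap (bot β'))[i]? = (As.flatMap (bot β))[i]?) ∨
    ((As.flatMap (top β'))[i]? = (As.flatMap (bot β))[i]? ∧
      (As.flatMap (bot β'))[i]? = (As.flatMap (top β))[i]?) := by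
  induction As generalizing i with
  | nil => simp
  | cons O As ih =>
    have hO := h O (by simp)
    have hl1 := top_length β O hO
    have hl2 := bot_length β O hO
    have hl3 := top_length β' O hO
    have hl4 := bot_length β' O hO
    simp only [List.flatMap_cons]
    by_cases hi : i < O.1.length
    · rw [List.getElem?_append_left (by omega), List.getElem?_append_left (by omega),
        List.getElem?_append_left (by omega), List.getElem?_append_left (by omega)]
      unfold top bot
      cases β O <;> cases β' O <;> simp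
    · rw [List.getElem?_append_right (by omega), List.getElem?_append_right (by omega),
        List.getElem?_append_right (by omega), List.getElem?_append_right (by omega),
        hl1, hl2, hl3, hl4]
      exact ih (fun O' hO' => h O' (by simp [hO'])) (i - O.1.length)

theorem obp_length (k : ℕ) (hk : 1 ≤ k) (β : Obj → Bool) (As Bs : List Obj)
    (h : ObSize k As Bs) : (obp β As Bs).length = 2 * (2 * k - 1) := by
  have hA : ∀ O ∈ As, O.1.length = O.2.length := fun O hO => h.1 O (by simp [hO])
  have hB : ∀ O ∈ Bs, O.1.length = O.2.length := fun O hO => h.1 O (by simp [hO])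
  have e1 := tops_length β As hA
  have e2 := tops_length β Bs hB
  have e3 := bots_length β As hA
  have e4 := bots_length β Bs hB
  have h3 := h.2.2.1
  have h4 := h.2.2.2
  unfold obp
  rw [List.length_append, il_length, il_length]
  omega

theorem ob_cols (k : ℕ) (hk : 1 ≤ k) (β β' : Obj → Bool) (As Bs : List Obj)
    (h : ObSize k As Bs) (c : ℕ) (hc : c < 2 * k - 1) :
    ((obp β' As Bs)[c]? = (obp β As Bs)[c]? ∧
      (obp β' As Bs)[2 * k - 1 + c]? = (obp β As Bs)[2 * k - 1 + c]?) ∨
    ((obp β' As Bs)[c]? = (obp β As Bs)[2 * k - 1 + c]? ∧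
      (obp β' As Bs)[2 * k - 1 + c]? = (obp β As Bs)[c]?) := by
  have hA : ∀ O ∈ As, O.1.length = O.2.length := fun O hO => h.1 O (by simp [hO])
  have hB : ∀ O ∈ Bs, O.1.length = O.2.length := fun O hO => h.1 O (by simp [hO])
  rcases Nat.even_or_odd' c with ⟨i, rfl | rfl⟩
  · obtain ⟨a1, a2⟩ := obp_cells_A k hk β As Bs h i (by omega)
    obtain ⟨b1, b2⟩ := obp_cells_A k hk β' As Bs h i (by omega)
    rw [a1, a2, b1, b2]
    exact cols β β' As hA i
  · obtain ⟨a1, a2⟩ := obp_cells_B k hk β As Bs h i (by omega)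
    obtain ⟨b1, b2⟩ := obp_cells_B k hk β' As Bs h i (by omega)
    rw [a1, a2, b1, b2]
    exact cols β β' Bs hB i

/-- the first difference of two versions of an O-block -/
theorem ob_first_diff (k : ℕ) (hk : 1 ≤ k) (β β' : Obj → Bool) (As Bs : List Obj)
    (h : ObSize k As Bs) (hnd : ((As ++ Bs).flatMap labels).Nodup)
    (hne : obp β As Bs ≠ obp β' As Bs) :
    ∃ c x y, c < 2 * k - 1 ∧ (∀ i < c, (obp β As Bs)[i]? = (obp β' As Bs)[i]?) ∧
      (obp β As Bs)[c]? = some x ∧ (obp β' As Bs)[2 * k - 1 + c]? = some x ∧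
      (obp β' As Bs)[c]? = some y ∧ (obp β As Bs)[2 * k - 1 + c]? = some y := by
  classical
  have hlen := obp_length k hk β As Bs h
  have hlen' := obp_length k hk β' As Bs h
  have hn : (obp β As Bs).Nodup := (obp_perm k β As Bs).nodup_iff.2 hnd
  have hex : ∃ i : ℕ, (obp β As Bs)[i]? ≠ (obp β' As Bs)[i]? := by
    by_contra hcon
    push Not at hcon
    exact hne (List.ext_getElem? hcon)
  have hfind := Nat.find_spec hex
  have hmin : ∀ i < Nat.find hex, (obp β As Bs)[i]? = (obp β' As Bs)[i]? := by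
    intro i hi
    by_contra hcon
    exact Nat.find_min hex hi hcon
  set c := Nat.find hex
  have hc2 : c < 2 * (2 * k - 1) := by
    by_contra hcon
    apply hfind
    rw [List.getElem?_eq_none (by omega), List.getElem?_eq_none (by omega)]
  have hc : c < 2 * k - 1 := by
    by_contra hcon
    obtain ⟨d, hd⟩ : ∃ d, c = 2 * k - 1 + d := ⟨c - (2 * k - 1), by omega⟩
    have hd2 : d < 2 * k - 1 := by omega
    have h1 := hmin d (by omega)
    rcases ob_cols k hk β β' As Bs h d hd2 with ⟨h2, h3⟩ | ⟨h2, h3⟩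
    · apply hfind
      rw [hd, h3]
    · rw [h2] at h1
      have e : d = 2 * k - 1 + d := by
        have g1 : (obp β As Bs)[d]? = some ((obp β As Bs)[d]'(by omega)) :=
          List.getElem?_eq_getElem _
        have g2 := g1
        rw [h1] at g2
        exact getElem?_inj' hn g1 g2
      omega
  rcases ob_cols k hk β β' As Bs h c hc with ⟨h2, h3⟩ | ⟨h2, h3⟩
  · exact absurd h2.symm hfind
  · refine ⟨c, (obp β As Bs)[c]'(by omega), (obp β' As Bs)[c]'(by omega), hc, hmin,
      List.getElem?_eq_getElem _, ?_, List.getElem?_eq_getElem _, ?_⟩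
    · rw [h3, List.getElem?_eq_getElem]
    · rw [← h2, List.getElem?_eq_getElem]

theorem ob_orient (k : ℕ) (hk : 2 ≤ k) (As Bs : List Obj) (h : ObSize k As Bs)
    (β β' : Obj → Bool) (e : ℕ) (hnd : (e :: (As ++ Bs).flatMap labels).Nodup)
    (hne : obp β As Bs ≠ obp β' As Bs) :
    ∃ c, CycIn k (e :: obp β As Bs) (e :: obp β' As Bs) c := by
  have hnd' : ((As ++ Bs).flatMap labels).Nodup := (List.nodup_cons.1 hnd).2
  obtain ⟨c, x, y, hc, hmin, hx, hx', hy, hy'⟩ :=
    ob_first_diff k (by omega) β β' As Bs h hnd' hne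
  have hn1 : (e :: obp β As Bs).Nodup :=
    ((obp_perm k β As Bs).cons e).nodup_iff.2 hnd
  have hn2 : (e :: obp β' As Bs).Nodup :=
    ((obp_perm k β' As Bs).cons e).nodup_iff.2 hnd
  obtain ⟨f, hf1, hf2⟩ : ∃ f, (e :: obp β As Bs)[c]? = some f ∧
      (e :: obp β' As Bs)[c]? = some f := by
    cases c with
    | zero => exact ⟨e, rfl, rfl⟩
    | succ c =>
      have hlen := obp_length k (by omega) β As Bs h
      refine ⟨(obp β As Bs)[c]'(by omega), ?_, ?_⟩
      · rw [List.getElem?_cons_succ, List.getElem?_eq_getElem]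
      · rw [List.getElem?_cons_succ, ← hmin c (by omega), List.getElem?_eq_getElem]
  exact simple_principle k (by omega) _ _ hn1 hn2 c f x hf1 hf2
    (by rw [List.getElem?_cons_succ]; exact hx)
    (by rw [show c + 1 + (2 * k - 1) = (2 * k - 1 + c) + 1 by omega, List.getElem?_cons_succ]
        exact hx')

theorem getElem?_tail' (L : List ℕ) (i : ℕ) : L.tail[i]? = L[i + 1]? := by
  cases L <;> simp

theorem ob_orient_first (k : ℕ) (hk : 2 ≤ k) (O : Obj) (As Bs : List Obj)
    (h : ObSize k (O :: As) Bs) (h2 : 2 ≤ O.1.length)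
    (β β' : Obj → Bool) (hβ : β O = true) (hβ' : β' O = true)
    (hnd : (((O :: As) ++ Bs).flatMap labels).Nodup)
    (hne : obp β (O :: As) Bs ≠ obp β' (O :: As) Bs) :
    ∃ c, CycIn k (obp β (O :: As) Bs).tail (obp β' (O :: As) Bs).tail c := by
  have hk1 : 1 ≤ k := by omega
  have hOl : O.1.length = O.2.length := h.1 O (by simp)
  obtain ⟨c, x, y, hc, hmin, hx, hx', hy, hy'⟩ :=
    ob_first_diff k hk1 β β' (O :: As) Bs h hnd hne
  have hlen := obp_length k hk1 β (O :: As) Bs h
  have hn1 : (obp β (O :: As) Bs).Nodup := (obp_perm k β (O :: As) Bs).nodup_iff.2 hnd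
  have hn2 : (obp β' (O :: As) Bs).Nodup := (obp_perm k β' (O :: As) Bs).nodup_iff.2 hnd
  have ht1 : (obp β (O :: As) Bs).tail.Nodup := hn1.sublist (List.tail_sublist _)
  have ht2 : (obp β' (O :: As) Bs).tail.Nodup := hn2.sublist (List.tail_sublist _)
  have htopO : ∀ i < 2, ((O :: As).flatMap (top β))[i]? = ((O :: As).flatMap (top β'))[i]? := by
    intro i hi
    rw [List.flatMap_cons, List.flatMap_cons,
      List.getElem?_append_left (by rw [top_length β O hOl]; omega),
      List.getElem?_append_left (by rw [top_length β' O hOl]; omega)]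
    unfold top
    rw [hβ, hβ']
  have hbotO : ∀ i < 2, ((O :: As).flatMap (bot β))[i]? = ((O :: As).flatMap (bot β'))[i]? := by
    intro i hi
    rw [List.flatMap_cons, List.flatMap_cons,
      List.getElem?_append_left (by rw [bot_length β O hOl]; omega),
      List.getElem?_append_left (by rw [bot_length β' O hOl]; omega)]
    unfold bot
    rw [hβ, hβ']
  have a0 := obp_cells_A k hk1 β (O :: As) Bs h 0 (by omega)
  have b0 := obp_cells_A k hk1 β' (O :: As) Bs h 0 (by omega)
  have a1 := obp_cells_A k hk1 β (O :: As) Bs h 1 (by omega)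
  have b1 := obp_cells_A k hk1 β' (O :: As) Bs h 1 (by omega)
  have hc0 : c ≠ 0 := by
    rintro rfl
    have e1 : (obp β (O :: As) Bs)[0]? = (obp β' (O :: As) Bs)[0]? := by
      have := a0.1
      have h' := b0.1
      simp only [Nat.mul_zero] at this h'
      rw [this, h', htopO 0 (by omega)]
    have hxy : x = y := by
      rw [hx, hy] at e1
      simpa using e1
    subst hxy
    have := getElem?_inj' hn1 hx hy'
    omega
  by_cases hc1 : c = 1
  · subst hc1
    -- `y` is at cell `w+1` of `P` and at cell `1` of `P'`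
    have hg : (obp β (O :: As) Bs)[2 * k - 1 + 2]? = (obp β' (O :: As) Bs)[2 * k - 1 + 2]? := by
      have e1 := a1.2
      have e2 := b1.2
      simp only [Nat.mul_one] at e1 e2
      rw [e1, e2, hbotO 1 (by omega)]
    have hgs : (obp β (O :: As) Bs)[2 * k - 1 + 2]? =
        some ((obp β (O :: As) Bs)[2 * k - 1 + 2]'(by omega)) := List.getElem?_eq_getElem _
    obtain ⟨c', hc', -⟩ := hc_two k hk1 (obp β (O :: As) Bs).tail
      (obp β' (O :: As) Bs).tail ht1 ht2 (2 * k - 1) 0 1 (2 * k) y
      ((obp β (O :: As) Bs)[2 * k - 1 + 2]'(by omega))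
      (by rw [getElem?_tail']; exact hy')
      (by rw [getElem?_tail']; exact hgs)
      (Or.inl ⟨by rw [getElem?_tail']; exact hy, by
        rw [getElem?_tail', show 0 + 2 * k + 1 = 2 * k - 1 + 2 by omega, ← hg]; exact hgs⟩)
      le_rfl (by omega) (by omega) (fun i y hi hi' => by omega)
    exact ⟨c', hc'⟩
  · obtain ⟨d, rfl⟩ : ∃ d, c = d + 2 := ⟨c - 2, by omega⟩
    have hgs : (obp β (O :: As) Bs)[d + 1]? =
        some ((obp β (O :: As) Bs)[d + 1]'(by omega)) := List.getElem?_eq_getElem _
    exact simple_principle k hk1 _ _ ht1 ht2 d _ x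
      (by rw [getElem?_tail']; exact hgs)
      (by rw [getElem?_tail', ← hmin (d + 1) (by omega)]; exact hgs)
      (by rw [getElem?_tail']; exact hx)
      (by rw [getElem?_tail', show d + 1 + (2 * k - 1) + 1 = 2 * k - 1 + (d + 2) by omega]
          exact hx')

end Pool.Agent.Lib_helper4.Asy
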