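import Pool.Agent.Lib_helper4.AsyF.ASM3
import Pool.Agent.Lib_helper4.AsyF.GADO
import Pool.Agent.Lib_helper4.AsyF.OBO

set_option autoImplicit false

namespace Pool.Agent.Lib_helper4.Asy

theorem first_diff {α : Type} (P : α → Prop) (L : List α) (h : ∃ a ∈ L, P a) :
    ∃ A b C, L = A ++ b :: C ∧ (∀ a ∈ A, ¬ P a) ∧ P b := by
  induction L with
  | nil => simp at h
  | cons a t ih =>
    by_cases ha : P a
    · exact ⟨[], a, t, rfl, by simp, ha⟩
    · obtain ⟨b, hb, hPb⟩ := h
      have hbt : b ∈ t := by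
        rcases List.mem_cons.1 hb with rfl | hb
        · exact absurd hPb ha
        · exact hb
      obtain ⟨A, b', C, h1, h2, h3⟩ := ih ⟨b, hbt, hPb⟩
      refine ⟨a :: A, b', C, by rw [h1]; rfl, ?_, h3⟩
      intro x hx
      rcases List.mem_cons.1 hx with rfl | hx
      · exact ha
      · exact h2 x hx

theorem labels_inj {L : List Obj} (hnd : (L.flatMap labels).Nodup) {O O' : Obj} (hO : O ∈ L)
    (hO' : O' ∈ L) {x : ℕ} (hx : x ∈ labels O) (hx' : x ∈ labels O') : O = O' := by
  by_contra hne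
  rw [List.nodup_flatMap] at hnd
  have hsymm : ∀ a b : Obj, List.Disjoint (labels a) (labels b) →
      List.Disjoint (labels b) (labels a) := fun a b h => h.symm
  have h1 := hnd.2
  have h2 : ∀ a ∈ L, ∀ b ∈ L, a ≠ b → List.Disjoint (labels a) (labels b) := by
    intro a ha b hb hab
    haveI : Std.Symm (fun a b : Obj => List.Disjoint (labels a) (labels b)) := ⟨hsymm⟩
    exact List.Pairwise.forall (R := fun a b => List.Disjoint (labels a) (labels b)) h1 ha hb hab
  exact h2 O hO O' hO' hne hx hx'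

theorem inj_top_aux {L : List Obj} (hnd : (L.flatMap labels).Nodup)
    (hne : ∀ O ∈ L, O.1 ≠ []) (β β' : Obj → Bool)
    (h : ∀ x, x ∈ L.flatMap (top β) → x ∈ L.flatMap (top β')) (O : Obj) (hO : O ∈ L)
    (h1 : β O = true) (h2 : β' O = false) : False := by
  obtain ⟨x, hx⟩ := List.exists_mem_of_ne_nil _ (hne O hO)
  have hxt : x ∈ L.flatMap (top β) := by
    rw [List.mem_flatMap]
    exact ⟨O, hO, by unfold top; rw [h1]; exact hx⟩
  have hx' := h x hxt
  rw [List.mem_flatMap] at hx'
  obtain ⟨O', hO', hxO'⟩ := hx'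
  have hxl : x ∈ labels O := List.mem_append_left _ hx
  have hxl' : x ∈ labels O' := by
    unfold top at hxO'
    unfold labels
    split at hxO'
    · exact List.mem_append_left _ hxO'
    · exact List.mem_append_right _ (List.mem_reverse.1 hxO')
  obtain rfl := labels_inj hnd hO hO' hxl hxl'
  unfold top at hxO'
  rw [h2] at hxO'
  have hx2 : x ∈ O.2 := by simpa using hxO'
  have hnO : (labels O).Nodup := (List.nodup_flatMap.1 hnd).1 O hO
  unfold labels at hnO
  exact (List.disjoint_of_nodup_append hnO) hx hx2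

theorem inj_top {L : List Obj} (hnd : (L.flatMap labels).Nodup)
    (hne : ∀ O ∈ L, O.1 ≠ []) (β β' : Obj → Bool)
    (h : ∀ x, x ∈ L.flatMap (top β) ↔ x ∈ L.flatMap (top β')) (O : Obj) (hO : O ∈ L) :
    β O = β' O := by
  cases h1 : β O <;> cases h2 : β' O
  · rfl
  · exact (inj_top_aux hnd hne β' β (fun x => (h x).2) O hO h2 h1).elim
  · exact (inj_top_aux hnd hne β β' (fun x => (h x).1) O hO h1 h2).elim
  · rfl

theorem top_length_b {β : Obj → Bool} {O : Obj} (h : O.1.length = O.2.length) :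
    (top β O).length = O.1.length := by
  unfold top
  split
  · rfl
  · rw [List.length_reverse, h]

theorem tops_length_b {β : Obj → Bool} {L : List Obj} (h : ∀ O ∈ L, O.1.length = O.2.length) :
    (L.flatMap (top β)).length = (L.map fun O => O.1.length).sum := by
  rw [List.length_flatMap]
  congr 1
  apply List.map_congr_left
  intro O hO
  exact top_length_b (h O hO)

theorem obp_inj {k : ℕ} {As Bs : List Obj} (hsz : ObSize k As Bs)
    (hnd : ((As ++ Bs).flatMap labels).Nodup) {β β' : Obj → Bool}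
    (h : obp β As Bs = obp β' As Bs) : ∀ O ∈ As ++ Bs, β O = β' O := by
  obtain ⟨h1, h2, -, -⟩ := hsz
  have hA : ∀ O ∈ As, O.1.length = O.2.length := fun O hO => h1 O (List.mem_append_left _ hO)
  have hB : ∀ O ∈ Bs, O.1.length = O.2.length := fun O hO => h1 O (List.mem_append_right _ hO)
  unfold obp at h
  have h3 := (List.append_inj h (by
    rw [il_length, il_length, tops_length_b hA, tops_length_b hB, tops_length_b hA, tops_length_b hB])).1
  apply inj_top hnd h2
  intro x
  rw [List.flatMap_append, List.flatMap_append, ← (il_perm _ _).mem_iff, h3,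
    (il_perm _ _).mem_iff]

theorem len2_b {l : List ℕ} (h : l.length = 2) : ∃ a b, l = [a, b] := by
  match l, h with
  | [a, b], _ => exact ⟨a, b, rfl⟩

theorem frow_mem {k : ℕ} {β : Obj → Bool} {u : Obj × Obj} (h1 : u.1.1.length = 2)
    (h2 : u.1.2.length = 2) (h3 : u.2.1.length = 2) (h4 : u.2.2.length = 2) (x : ℕ) :
    x ∈ frow k β u ↔ x ∈ top β u.1 ∨ x ∈ top β u.2 := by
  obtain ⟨⟨a, b⟩, ⟨c, d⟩⟩ := u
  obtain ⟨a1, a2, rfl⟩ := len2_b h1
  obtain ⟨b1, b2, rfl⟩ := len2_b h2
  obtain ⟨c1, c2, rfl⟩ := len2_b h3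
  obtain ⟨d1, d2, rfl⟩ := len2_b h4
  unfold frow top lt
  by_cases hk : k % 2 = 0
  · rw [if_pos hk]
    cases β ([a1, a2], [b1, b2]) <;> cases β ([c1, c2], [d1, d2]) <;> simp <;> tauto
  · rw [if_neg hk]
    cases β ([a1, a2], [b1, b2]) <;> cases β ([c1, c2], [d1, d2]) <;> simp <;> tauto

theorem frow_length_b {k : ℕ} {β : Obj → Bool} {u : Obj × Obj} : (frow k β u).length = 4 := by
  unfold frow
  split <;> rfl

theorem gadp_inj {k : ℕ} {us : List (Obj × Obj)} (hsz : GadSize k us)
    (hnd : ((unpair us).flatMap labels).Nodup) {β β' : Obj → Bool}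
    (h : gadp k β us = gadp k β' us) : ∀ O ∈ unpair us, β O = β' O := by
  unfold gadp at h
  have h3 := (List.append_inj h (by
    rw [List.length_flatMap, List.length_flatMap]
    congr 1
    apply List.map_congr_left
    intro u hu
    rw [frow_length_b, frow_length_b])).1
  have hmem : ∀ (γ : Obj → Bool) (x : ℕ), x ∈ (unpair us).flatMap (top γ) ↔
      x ∈ us.flatMap (frow k γ) := by
    intro γ x
    rw [List.mem_flatMap, List.mem_flatMap]
    constructor
    · rintro ⟨O, hO, hx⟩
      obtain ⟨p, hp, hpO⟩ := mem_unpair_iff.1 hO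
      obtain ⟨e1, e2, e3, e4⟩ := hsz.2 p hp
      refine ⟨p, hp, (frow_mem e1 e2 e3 e4 x).2 ?_⟩
      rcases hpO with rfl | rfl
      · exact Or.inl hx
      · exact Or.inr hx
    · rintro ⟨p, hp, hx⟩
      obtain ⟨e1, e2, e3, e4⟩ := hsz.2 p hp
      rcases (frow_mem e1 e2 e3 e4 x).1 hx with hx | hx
      · exact ⟨p.1, mem_unpair_iff.2 ⟨p, hp, Or.inl rfl⟩, hx⟩
      · exact ⟨p.2, mem_unpair_iff.2 ⟨p, hp, Or.inr rfl⟩, hx⟩
  apply inj_top hnd
  · intro O hO h0
    obtain ⟨p, hp, hpO⟩ := mem_unpair_iff.1 hO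
    obtain ⟨e1, e2, e3, e4⟩ := hsz.2 p hp
    rcases hpO with rfl | rfl
    · rw [h0] at e1; simp at e1
    · rw [h0] at e3; simp at e3
  · intro x
    rw [hmem, hmem, h3]

theorem solp_true {β : Obj → Bool} {O : Obj} (h : β O = true) :
    solp β O = il O.1 O.2.reverse := by unfold solp top bot; rw [h]; rfl

theorem solp_false {β : Obj → Bool} {O : Obj} (h : β O = false) :
    solp β O = il O.2.reverse O.1 := by unfold solp top bot; rw [h]; rfl

theorem il_ne {O : Obj} (hnd : (labels O).Nodup) (h1 : O.1 ≠ []) (h2 : O.2 ≠ []) :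
    il O.1 O.2.reverse ≠ il O.2.reverse O.1 := by
  intro h
  obtain ⟨x, t, hx⟩ := List.exists_cons_of_ne_nil h1
  have h2' : O.2.reverse ≠ [] := by simpa using h2
  obtain ⟨y, s, hy⟩ := List.exists_cons_of_ne_nil h2'
  have e1 := il_head x t O.2.reverse
  have e2 := il_head y s O.1
  rw [← hx] at e1
  rw [← hy] at e2
  rw [h, e2] at e1
  have hxy : y = x := by simpa using e1
  have hm1 : x ∈ O.1 := by rw [hx]; simp
  have hm2 : x ∈ O.2 := by
    rw [← List.mem_reverse, hy, hxy]; simp
  exact (List.disjoint_of_nodup_append hnd) hm1 hm2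

theorem solp_inj {O : Obj} (hnd : (labels O).Nodup) (h1 : O.1 ≠ []) (h2 : O.2 ≠ [])
    {β β' : Obj → Bool} (h : solp β O = solp β' O) : β O = β' O := by
  cases e1 : β O <;> cases e2 : β' O
  · rfl
  · rw [solp_false e1, solp_true e2] at h
    exact (il_ne hnd h1 h2 h.symm).elim
  · rw [solp_true e1, solp_false e2] at h
    exact (il_ne hnd h1 h2 h).elim
  · rfl

theorem solid_len {k N : ℕ} {σ : ℕ → Bool} {sk : List (Blk (Tg Obj))}
    (hs : IsSkel k N (prs σ (lvJ k) N) (word σ (lvJ k) N) sk) {o : Tg Obj}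
    (hb : Blk.sol o ∈ sk) : o.o.1.length = o.o.2.length ∧ o.o.1 ≠ [] ∧ o.o.2 ≠ [] ∧
      ((k ≤ o.o.1.length) ∨ o.o.1 = [0]) := by
  rcases hs.solid o hb with ⟨j, hj, ho⟩ | ⟨h1, h2⟩
  · rw [← dd_eq] at ho
    have hl := DD_len ho
    have hp : 0 < 2 ^ j := by positivity
    have hkj : k ≤ 2 ^ j := (le_two_pow_lvJ k).trans (Nat.pow_le_pow_right (by norm_num) hj)
    refine ⟨by rw [hl.1, hl.2], ?_, ?_, Or.inl (by rw [hl.1]; exact hkj)⟩
    · intro h0; rw [h0] at hl; simp at hl; omega
    · intro h0; rw [h0] at hl; simp at hl; omega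
  · refine ⟨by rw [h1, h2]; rfl, by rw [h1]; simp, ?_, Or.inr h1⟩
    intro h0; rw [h0] at h2; simp at h2

theorem bp_inj {k N : ℕ} {σ : ℕ → Bool} {sk : List (Blk (Tg Obj))}
    (hs : IsSkel k N (prs σ (lvJ k) N) (word σ (lvJ k) N) sk) {b : Blk (Tg Obj)} (hb : b ∈ sk)
    (hnd : ((b.objs.map Tg.o).flatMap labels).Nodup) {β β' : Obj → Bool}
    (h : bp k β b = bp k β' b) : ∀ a ∈ b.objs, β a.o = β' a.o := by
  cases b with
  | ob As Bs =>
    intro a ha
    have h1 := obSize_of hs hb
    refine obp_inj h1 ?_ h a.o ?_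
    · rw [← List.map_append]; exact hnd
    · rw [← List.map_append, List.mem_map]; exact ⟨a, ha, rfl⟩
  | gad us =>
    intro a ha
    have h1 := gadSize_of hs hb
    refine gadp_inj h1 ?_ h a.o ?_
    · rw [unpair_map_o]; exact hnd
    · rw [unpair_map_o, List.mem_map]; exact ⟨a, ha, rfl⟩
  | sol o =>
    intro a ha
    have hao : a = o := by
      have : a ∈ [o] := ha
      simpa using this
    subst hao
    obtain ⟨-, h1, h2, -⟩ := solid_len hs hb
    refine solp_inj ?_ h1 h2 h
    have h3 : (([a].map Tg.o).flatMap labels).Nodup := hnd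
    simpa using h3

theorem bp_len_two {k N : ℕ} {σ : ℕ → Bool} {sk : List (Blk (Tg Obj))}
    (hs : IsSkel k N (prs σ (lvJ k) N) (word σ (lvJ k) N) sk) (β : Obj → Bool)
    {b : Blk (Tg Obj)} {rest : List (Blk (Tg Obj))} (hb : sk = b :: rest) :
    2 ≤ (bp k β b).length := by
  have hbm : b ∈ sk := by rw [hb]; simp
  obtain ⟨b', rest', hb', hc⟩ := hs.first
  rw [hb] at hb'
  obtain ⟨rfl, rfl⟩ := List.cons.inj hb'
  rw [(bp_perm hs β hbm).length_eq]
  rcases hc with ⟨o, rfl, h1⟩ | ⟨O, As, Bs, rfl, h1, h2⟩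
  · obtain ⟨-, h3, h4, -⟩ := solid_len hs hbm
    show 2 ≤ (([o].map Tg.o).flatMap labels).length
    have h5 : 0 < o.o.1.length := List.length_pos_iff.2 h3
    have h6 : 0 < o.o.2.length := List.length_pos_iff.2 h4
    simp only [List.map_cons, List.map_nil, List.flatMap_cons, List.flatMap_nil,
      List.append_nil, labels, List.length_append]
    omega
  · show 2 ≤ ((((O :: As) ++ Bs).map Tg.o).flatMap labels).length
    rw [List.cons_append, List.map_cons, List.flatMap_cons, List.length_append]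
    unfold labels
    rw [List.length_append]
    omega

theorem cert_orient (k N D : ℕ) (hk : 2 ≤ k) (hD : 4 ^ (lvJ k + 1) ≤ D)
    (hbig : KK k * (D + 1) ≤ N) (σ σ' : ℕ → Bool) (h : Ok k N D σ) (h' : Ok k N D σ')
    (hw : ∀ j, word σ (lvJ k) N j = word σ' (lvJ k) N j) (hne : ∃ v < N, σ v ≠ σ' v) :
    HasCyc k (pathOf k N σ) (pathOf k N σ') := by
  have hFF : ∀ j, FF σ (lvJ k) N j = FF σ' (lvJ k) N j := fun j =>
    ff_cong σ σ' (lvJ k) N j fun i _ => hw i
  have hprs : prs σ (lvJ k) N = prs σ' (lvJ k) N := by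
    funext j; exact prs_congr (hFF j)
  have hword : word σ (lvJ k) N = word σ' (lvJ k) N := by funext j; exact hw j
  have hs := skOf_spec k N D hk hD hbig σ h
  have hs' := skOf_spec k N D hk hD hbig σ' h'
  have hP : pathOf k N σ = (skOf k N (prs σ (lvJ k) N) (word σ (lvJ k) N)).flatMap
      (bp k (bet σ)) := rfl
  have hP' : pathOf k N σ' = (skOf k N (prs σ (lvJ k) N) (word σ (lvJ k) N)).flatMap
      (bp k (bet σ')) := by unfold pathOf; rw [hprs, hword]
  rw [← hprs, ← hword] at hs'
  obtain ⟨hN1, hN2⟩ := path_nodup hk hD hbig h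
  obtain ⟨hN1', hN2'⟩ := path_nodup hk hD hbig h'
  set sk := skOf k N (prs σ (lvJ k) N) (word σ (lvJ k) N) with hsk
  -- a block which changes
  have hdiff : ∃ b ∈ sk, bp k (bet σ) b ≠ bp k (bet σ') b := by
    by_contra hcon
    push Not at hcon
    obtain ⟨v, hv, hvne⟩ := hne
    apply hvne
    refine col_inj σ σ' (lvJ k) N h.bal h'.bal hw ?_ v hv
    intro j O hO
    obtain ⟨b, hb, a, hab, haO⟩ := obj_in_block hs hO
    have hnd : ((b.objs.map Tg.o).flatMap labels).Nodup := by
      rw [← (bp_perm hs (bet σ) hb).nodup_iff]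
      obtain ⟨A, C, hAC⟩ := path_at (k := k) (bet σ) hb
      rw [hP, hAC] at hN1
      exact (List.nodup_append.1 (List.nodup_append.1 hN1).1).2.1
    have := bp_inj hs hb hnd (hcon b hb) a hab
    rw [haO] at this
    exact this
  obtain ⟨A, b, C, hskeq, hA, hbne⟩ := first_diff _ sk hdiff
  have hA' : A.flatMap (bp k (bet σ)) = A.flatMap (bp k (bet σ')) := by
    have hA2 : ∀ a ∈ A, bp k (bet σ) a = bp k (bet σ') a := fun a ha => by
      have := hA a ha
      push Not at this
      exact this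
    clear hskeq hA
    induction A with
    | nil => rfl
    | cons a t ih =>
      rw [List.flatMap_cons, List.flatMap_cons, hA2 a (by simp),
        ih (fun x hx => hA2 x (by simp [hx]))]
  have hbm : b ∈ sk := by rw [hskeq]; simp
  rw [hP] at hN1 hN2 ⊢
  rw [hP'] at hN1' hN2' ⊢
  have hns_nd : ((b.objs.map Tg.o).flatMap labels).Nodup := by
    rw [← (bp_perm hs (bet σ) hbm).nodup_iff]
    have h1 := hN1
    rw [hskeq, List.flatMap_append, List.flatMap_cons] at h1
    exact (List.nodup_append.1 (List.nodup_append.1 h1).2.1).1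
  cases A with
  | nil =>
    have hskeq' : sk = b :: C := hskeq
    obtain ⟨b', rest', hb', hc⟩ := hs.first
    rw [hskeq'] at hb'
    obtain ⟨rfl, rfl⟩ := List.cons.inj hb'
    rcases hc with ⟨o, rfl, h1⟩ | ⟨O, As, Bs, rfl, h1, h2⟩
    · exfalso
      apply hbne
      show solp (bet σ) o.o = solp (bet σ') o.o
      rw [solp_true (bet_zero h1 h.zero), solp_true (bet_zero h1 h'.zero)]
    · have hsz := obSize_of hs hbm
      rw [List.map_cons] at hsz
      obtain ⟨c, hc⟩ := ob_orient_first k hk O.o (As.map Tg.o) (Bs.map Tg.o) hsz h2 (bet σ)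
        (bet σ') (bet_zero h1 h.zero) (bet_zero h1 h'.zero)
        (by
          have : (((O :: As) ++ Bs).map Tg.o).flatMap labels =
            ((O.o :: As.map Tg.o) ++ Bs.map Tg.o).flatMap labels := by simp
          rw [← this]; exact hns_nd)
        (by
          have : bp k (bet σ) (Blk.ob (O :: As) Bs) ≠ bp k (bet σ') (Blk.ob (O :: As) Bs) := hbne
          exact this)
      rw [hskeq', List.flatMap_cons] at hN1 hN2 hN1' hN2'
      rw [hskeq', List.flatMap_cons, List.flatMap_cons]
      have key : ∀ (γ : Obj → Bool) (R : List ℕ),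
          (bp k γ (Blk.ob (O :: As) Bs) ++ R).Nodup → γ O.o = true →
          0 ∉ (obp γ (O.o :: As.map Tg.o) (Bs.map Tg.o)).tail ∧
          (obp γ (O.o :: As.map Tg.o) (Bs.map Tg.o)).tail <:+:
            (bp k γ (Blk.ob (O :: As) Bs) ++ R) := by
        intro γ R hnd hγ
        have h3 : (bp k γ (Blk.ob (O :: As) Bs)).head? = some 0 :=
          bp_head (Or.inr ⟨O, As, Bs, rfl, h1, hγ⟩)
        have h4 : bp k γ (Blk.ob (O :: As) Bs) = obp γ (O.o :: As.map Tg.o) (Bs.map Tg.o) := rfl
        rw [h4] at h3 hnd ⊢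
        cases hob : obp γ (O.o :: As.map Tg.o) (Bs.map Tg.o) with
        | nil => rw [hob] at h3; simp at h3
        | cons x l =>
          rw [hob] at h3 hnd
          have hx : x = 0 := by simpa using h3
          subst hx
          refine ⟨?_, ⟨[0], R, by simp⟩⟩
          rw [List.tail_cons]
          have := (List.nodup_append.1 hnd).1
          exact (List.nodup_cons.1 this).1
      have k1 := key (bet σ) _ hN1 (bet_zero h1 h.zero)
      have k2 := key (bet σ') _ hN1' (bet_zero h1 h'.zero)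
      refine ⟨c, cycIn_infix k1.2 k2.2 hc, fun h0 => ?_⟩
      rcases cycIn_mem hc 0 h0 with h3 | h3
      · exact k1.1 h3
      · exact k2.1 h3
  | cons b0 A1 =>
    have hlen2 : 2 ≤ (bp k (bet σ) b0).length :=
      bp_len_two hs (bet σ) (rest := A1 ++ b :: C) (by rw [hskeq]; rfl)
    set A' := (b0 :: A1).flatMap (bp k (bet σ)) with hA'def
    have hlenA : 2 ≤ A'.length := by
      rw [hA'def, List.flatMap_cons, List.length_append]; omega
    have hA'ne : A' ≠ [] := by
      intro h0; rw [h0] at hlenA; simp at hlenA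
    obtain ⟨A0, e, hA0⟩ : ∃ A0 e, A' = A0 ++ [e] :=
      ⟨A'.dropLast, A'.getLast hA'ne, (List.dropLast_append_getLast hA'ne).symm⟩
    have hA0ne : A0 ≠ [] := by
      intro h0; rw [h0] at hA0; rw [hA0] at hlenA; simp at hlenA
    have e1 : sk.flatMap (bp k (bet σ)) = A0 ++ (e :: bp k (bet σ) b) ++
        C.flatMap (bp k (bet σ)) := by
      rw [hskeq, List.flatMap_append, ← hA'def, hA0, List.flatMap_cons]
      simp
    have e2 : sk.flatMap (bp k (bet σ')) = A0 ++ (e :: bp k (bet σ') b) ++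
        C.flatMap (bp k (bet σ')) := by
      rw [hskeq, List.flatMap_append, ← hA', hA0, List.flatMap_cons]
      simp
    rw [e1] at hN1 hN2 ⊢
    rw [e2] at hN1' hN2' ⊢
    have key : ∀ (B R : List ℕ), (A0 ++ B ++ R).Nodup → (A0 ++ B ++ R).head? = some 0 →
        0 ∉ B ∧ B.Nodup := by
      intro B R hnd hhd
      obtain ⟨x, l, hxl⟩ := List.exists_cons_of_ne_nil hA0ne
      rw [hxl] at hnd hhd
      have hx : x = 0 := by simpa using hhd
      subst hx
      constructor
      · intro h0
        rw [List.cons_append, List.cons_append, List.nodup_cons] at hnd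
        exact hnd.1 (by simp [h0])
      · exact (List.nodup_append.1 (List.nodup_append.1 hnd).1).2.1
    have k1 := key _ _ hN1 hN2
    have k2 := key _ _ hN1' hN2'
    have hnd_e : (e :: (b.objs.map Tg.o).flatMap labels).Nodup := by
      rw [← ((bp_perm hs (bet σ) hbm).cons e).nodup_iff]
      exact k1.2
    have hcyc : ∃ c, CycIn k (e :: bp k (bet σ) b) (e :: bp k (bet σ') b) c := by
      cases b with
      | ob As Bs =>
        refine ob_orient k hk (As.map Tg.o) (Bs.map Tg.o) (obSize_of hs hbm) (bet σ) (bet σ') e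
          ?_ hbne
        rw [← List.map_append]; exact hnd_e
      | gad us =>
        have hsz := gadSize_of hs hbm
        have hnd' : (e :: (unpair (us.map fun p => (p.1.o, p.2.o))).flatMap labels).Nodup := by
          rw [unpair_map_o]; exact hnd_e
        rcases Nat.mod_two_eq_zero_or_one k with hk0 | hk1
        · exact gad_orient_even k hk hk0 _ hsz (bet σ) (bet σ') e hnd' hbne
        · exact gad_orient_odd k hk hk1 _ hsz (bet σ) (bet σ') e hnd' hbne
      | sol o =>
        obtain ⟨h1, h2, h3, h4⟩ := solid_len hs hbm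
        have hnd' : (e :: labels o.o).Nodup := by
          have : (e :: ([o].map Tg.o).flatMap labels).Nodup := hnd_e
          simpa using this
        have hβ : bet σ o.o ≠ bet σ' o.o := by
          intro hβ
          apply hbne
          show solp (bet σ) o.o = solp (bet σ') o.o
          cases hb1 : bet σ o.o
          · rw [solp_false hb1, solp_false (hβ ▸ hb1)]
          · rw [solp_true hb1, solp_true (hβ ▸ hb1)]
        rcases h4 with h4 | h4
        · exact sol_orient k hk o.o h1 h4 (bet σ) (bet σ') e hnd' hβ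
        · exfalso
          apply hβ
          rw [bet_zero (by rw [h4]; rfl) h.zero, bet_zero (by rw [h4]; rfl) h'.zero]
    obtain ⟨c, hc⟩ := hcyc
    refine ⟨c, cycIn_infix ⟨A0, _, rfl⟩ ⟨A0, _, rfl⟩ hc, fun h0 => ?_⟩
    rcases cycIn_mem hc 0 h0 with h3 | h3
    · exact k1.1 h3
    · exact k2.1 h3

end Pool.Agent.Lib_helper4.Asy
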