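import Pool.Agent.Lib_helper4.AsyF.Defs

/-! Block BALC of MP_969d96_co: balanced colourings and numerics. -/

set_option autoImplicit false

namespace Pool.Agent.Lib_helper4.Asy

theorem choose_odd (n : ℕ) (h : ¬ Even n) :
    n.choose (n / 2) = (n + 1).choose ((n + 1) / 2) / 2 := by
  rw [Nat.not_even_iff_odd] at h
  obtain ⟨m, rfl⟩ := h
  have h1 : (2 * m + 1) / 2 = m := by omega
  have h2 : (2 * m + 1 + 1) / 2 = m + 1 := by omega
  rw [h1, h2, Nat.choose_succ_succ (2 * m + 1) m, Nat.choose_symm_half m]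
  omega

theorem balc_count (N : ℕ) (f : Fin N → Bool) :
    (List.range N).countP (ext f) = (Finset.univ.filter fun i => f i = true).card := by
  have h1 : List.range N = (List.finRange N).map Fin.val := by simp
  rw [h1, List.countP_map]
  have h2 : (ext f ∘ Fin.val) = fun i : Fin N => f i := by
    funext i
    simp [ext]
  rw [h2, List.countP_eq_length_filter, Fin.univ_def]
  simp only [Finset.filter, Finset.card]
  simp

open Classical in
theorem balc_all (N : ℕ) (hN : Even N) :
    ((Finset.univ : Finset (Fin N → Bool)).filter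
      (fun f => Bal (ext f) N)).card = N.choose (N / 2) := by
  have h1 : N.choose (N / 2) = (Finset.powersetCard (N / 2) (Finset.univ : Finset (Fin N))).card := by
    rw [Finset.card_powersetCard, Finset.card_univ, Fintype.card_fin]
  rw [h1]
  refine Finset.card_bij (fun f _ => Finset.univ.filter fun i => f i = true) ?_ ?_ ?_
  · intro f hf
    rw [Finset.mem_filter] at hf
    rw [Finset.mem_powersetCard_univ]
    have := hf.2
    unfold Bal at this
    rw [balc_count] at this
    omega
  · intro f _ g _ h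
    funext i
    have := congrArg (fun s : Finset (Fin N) => i ∈ s) h
    simp only [Finset.mem_filter, Finset.mem_univ, true_and, eq_iff_iff] at this
    exact Bool.eq_iff_iff.2 this
  · intro s hs
    rw [Finset.mem_powersetCard_univ] at hs
    refine ⟨fun i => decide (i ∈ s), ?_, ?_⟩
    · rw [Finset.mem_filter]
      refine ⟨Finset.mem_univ _, ?_⟩
      unfold Bal
      rw [balc_count]
      have : (Finset.univ.filter fun i : Fin N => decide (i ∈ s) = true) = s := by
        ext i; simp
      rw [this, hs]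
      obtain ⟨m, rfl⟩ := hN
      omega
    · ext i; simp

theorem balc_ext_not (N : ℕ) (f : Fin N → Bool) (v : ℕ) (hv : v < N) :
    ext (fun i => !f i) v = !ext f v := by
  unfold ext
  rw [dif_pos hv, dif_pos hv]

theorem balc_not (N : ℕ) (f : Fin N → Bool) (h : Bal (ext f) N) :
    Bal (ext fun i => !f i) N := by
  unfold Bal at h ⊢
  rw [balc_count] at h ⊢
  have h1 : (Finset.univ.filter fun i : Fin N => (!f i) = true) =
      Finset.univ \ (Finset.univ.filter fun i => f i = true) := by
    ext i
    simp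
  rw [h1, Finset.card_sdiff_of_subset (Finset.filter_subset _ _), Finset.card_univ,
    Fintype.card_fin]
  omega

open Classical in
theorem card_bal (N : ℕ) (hN : Even N) (h2 : 2 ≤ N) :
    ((Finset.univ : Finset (Fin N → Bool)).filter
      (fun f => Bal (ext f) N ∧ ext f 0 = true)).card = N.choose (N / 2) / 2 := by
  have h0 := balc_all N hN
  set A := (Finset.univ : Finset (Fin N → Bool)).filter
      (fun f => Bal (ext f) N ∧ ext f 0 = true) with hA
  set B := (Finset.univ : Finset (Fin N → Bool)).filter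
      (fun f => Bal (ext f) N ∧ ext f 0 = false) with hB
  have hAB : A.card = B.card := by
    refine Finset.card_bij (fun f _ => fun i => !f i) ?_ ?_ ?_
    · intro f hf
      rw [hA, Finset.mem_filter] at hf
      rw [hB, Finset.mem_filter]
      refine ⟨Finset.mem_univ _, balc_not N f hf.2.1, ?_⟩
      rw [balc_ext_not N f 0 (by omega), hf.2.2]
      rfl
    · intro f _ g _ h
      funext i
      have := congrFun h i
      simpa using this
    · intro g hg
      rw [hB, Finset.mem_filter] at hg
      refine ⟨fun i => !g i, ?_, ?_⟩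
      · rw [hA, Finset.mem_filter]
        refine ⟨Finset.mem_univ _, balc_not N g hg.2.1, ?_⟩
        rw [balc_ext_not N g 0 (by omega), hg.2.2]
        rfl
      · funext i
        simp
  have hsum : A.card + B.card = N.choose (N / 2) := by
    rw [← h0, ← Finset.card_union_of_disjoint]
    · congr 1
      ext f
      simp only [hA, hB, Finset.mem_union, Finset.mem_filter, Finset.mem_univ, true_and]
      constructor
      · rintro (h | h) <;> exact h.1
      · intro h
        rcases hb : ext f 0 with _ | _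
        · exact Or.inr ⟨h, rfl⟩
        · exact Or.inl ⟨h, rfl⟩
    · rw [Finset.disjoint_left]
      intro f hf hf'
      rw [hA, Finset.mem_filter] at hf
      rw [hB, Finset.mem_filter] at hf'
      rw [hf.2.2] at hf'
      exact absurd hf'.2.2 (by simp)
  omega

theorem numerics (J T : ℕ) (hT : 1 ≤ T) : ∃ c : ℝ, 0 < c ∧ ∃ N₀ : ℕ, ∀ N ≥ N₀, Even N →
    (J + 1) * (N + 1) * 2 * Real.exp (-(((N / T : ℕ) : ℝ) ^ 2) / N) * 2 ^ N ≤
      Real.exp (-c * N) * ((N.choose (N / 2) / 2 : ℕ) : ℝ) := by
  have hT0 : (0 : ℝ) < T := by exact_mod_cast hT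
  set c : ℝ := 1 / (8 * T ^ 2) with hc
  have hc0 : 0 < c := by positivity
  -- growth
  have hlim : Filter.Tendsto (fun N : ℕ => (8 * ((J : ℝ) + 1)) * ((N : ℝ) + 1) ^ 2 *
      Real.exp (-c * N)) Filter.atTop (nhds 0) := by
    have h1 : Filter.Tendsto (fun x : ℝ => x ^ 2 * Real.exp (-c * x)) Filter.atTop (nhds 0) := by
      have := Real.tendsto_pow_mul_exp_neg_atTop_nhds_zero 2
      have h2 := (this.comp (Filter.tendsto_id.const_mul_atTop hc0)).const_mul ((c ^ 2)⁻¹)
      rw [mul_zero] at h2
      refine h2.congr fun x => ?_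
      simp only [Function.comp, id]
      rw [mul_pow]
      have : -(c * x) = -c * x := by ring
      rw [this]
      field_simp
    have h3 : Filter.Tendsto (fun N : ℕ => ((N : ℝ) + 1)) Filter.atTop Filter.atTop :=
      Filter.tendsto_atTop_add_const_right _ _ tendsto_natCast_atTop_atTop
    have h4 := (h1.comp h3).const_mul (8 * ((J : ℝ) + 1) * Real.exp c)
    rw [mul_zero] at h4
    refine h4.congr fun N => ?_
    simp only [Function.comp]
    have h5 : Real.exp (-c * (N : ℝ)) = Real.exp c * Real.exp (-c * ((N : ℝ) + 1)) := by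
      rw [← Real.exp_add]; congr 1; ring
    rw [h5]; ring
  obtain ⟨N₁, hN₁⟩ := (hlim.eventually (gt_mem_nhds one_pos)).exists_forall_of_atTop
  refine ⟨c, hc0, max N₁ (max (2 * T) 2), fun N hN hev => ?_⟩
  have hN1 : N₁ ≤ N := (le_max_left _ _).trans hN
  have hN2 : 2 * T ≤ N := (le_max_left _ _).trans ((le_max_right _ _).trans hN)
  have hN3 : 2 ≤ N := (le_max_right _ _).trans ((le_max_right _ _).trans hN)
  have hN0 : (0 : ℝ) < N := by positivity
  have key := (hN₁ N hN1).le
  -- the exponential
  have hdiv : (N : ℝ) / (2 * T) ≤ ((N / T : ℕ) : ℝ) := by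
    have h1 : N < T * (N / T + 1) := Nat.lt_mul_div_succ N hT
    have h2 : 2 ≤ N / T := by rw [Nat.le_div_iff_mul_le hT]; exact hN2
    have h3 : (N : ℝ) ≤ T * (((N / T : ℕ) : ℝ) + 1) := by exact_mod_cast h1.le
    have h4 : (2 : ℝ) ≤ ((N / T : ℕ) : ℝ) := by exact_mod_cast h2
    rw [div_le_iff₀ (by positivity)]
    nlinarith
  have hexp : Real.exp (-(((N / T : ℕ) : ℝ) ^ 2) / N) ≤ Real.exp (-c * N) * Real.exp (-c * N) := by
    rw [← Real.exp_add]
    apply Real.exp_le_exp.2
    rw [div_le_iff₀ hN0]
    have h1 : ((N : ℝ) / (2 * T)) ^ 2 ≤ ((N / T : ℕ) : ℝ) ^ 2 := by gcongr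
    have h2 : (-c * N + -c * N) * N = -(((N : ℝ) / (2 * T)) ^ 2) := by
      rw [hc]; field_simp; ring
    rw [h2]; linarith
  -- the binomial coefficient
  obtain ⟨m, rfl⟩ := hev
  have hm : (m + m) / 2 = m := by omega
  have hcb : (m + m).choose ((m + m) / 2) = m.centralBinom := by
    rw [hm, Nat.centralBinom_eq_two_mul_choose, two_mul]
  have h4 := Nat.four_pow_le_two_mul_add_one_mul_central_binom m
  have hev2 : 2 ∣ m.centralBinom := Nat.two_dvd_centralBinom_of_one_le (by omega)
  rw [hcb]
  have hdiv2 : ((m.centralBinom / 2 : ℕ) : ℝ) = (m.centralBinom : ℝ) / 2 := by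
    rw [Nat.cast_div hev2 (by norm_num)]; norm_num
  rw [hdiv2]
  have h5 : (2 : ℝ) ^ (m + m) ≤ (2 * m + 1) * m.centralBinom := by
    have : (4 : ℝ) ^ m ≤ (2 * m + 1) * m.centralBinom := by exact_mod_cast h4
    calc (2 : ℝ) ^ (m + m) = 4 ^ m := by rw [← two_mul, pow_mul]; norm_num
      _ ≤ _ := this
  push_cast at key ⊢
  set E := Real.exp (-c * ((m : ℝ) + m)) with hE
  push_cast at hexp
  have hE0 : 0 < E := Real.exp_pos _
  have hcb0 : (0 : ℝ) ≤ m.centralBinom := by positivity
  have hm0 : (0 : ℝ) ≤ m := by positivity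
  calc ((J : ℝ) + 1) * ((m : ℝ) + m + 1) * 2 *
        Real.exp (-((((m + m) / T : ℕ) : ℝ) ^ 2) / ((m : ℝ) + m)) * 2 ^ (m + m)
      ≤ ((J : ℝ) + 1) * ((m : ℝ) + m + 1) * 2 * (E * E) * ((2 * m + 1) * m.centralBinom) := by
        gcongr
    _ = (8 * ((J : ℝ) + 1) * ((m : ℝ) + m + 1) ^ 2 * E) * (E * (m.centralBinom / 4)) := by ring
    _ ≤ 1 * (E * (m.centralBinom / 4)) := by gcongr
    _ ≤ E * (m.centralBinom / 2) := by
        rw [one_mul]
        gcongr
        norm_num

end Pool.Agent.Lib_helper4.Asy
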