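import Pool.Agent.Lib_helper4.AsyF.TRN1

/-! Block CNT of MP_969d96_co: counting atypical colourings. -/

set_option autoImplicit false

namespace Pool.Agent.Lib_helper4.Asy

/-! ### averages over lists of Booleans -/

/-- average of `g` over the lists of `n` Booleans -/
noncomputable def cntA : ℕ → (List Bool → ℝ) → ℝ
  | 0, g => g []
  | n + 1, g => (cntA n (fun d => g (true :: d)) + cntA n (fun d => g (false :: d))) / 2

theorem cntA_mono (n : ℕ) : ∀ g h : List Bool → ℝ, (∀ d, d.length = n → g d ≤ h d) →
    cntA n g ≤ cntA n h := by
  induction n with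
  | zero => intro g h H; exact H [] rfl
  | succ n ih =>
    intro g h H
    have h1 := ih (fun d => g (true :: d)) (fun d => h (true :: d)) fun d hd => H _ (by simp [hd])
    have h2 := ih (fun d => g (false :: d)) (fun d => h (false :: d)) fun d hd => H _ (by simp [hd])
    show (_ + _) / 2 ≤ (_ + _) / 2
    linarith

theorem cntA_congr (n : ℕ) (g h : List Bool → ℝ) (H : ∀ d, d.length = n → g d = h d) :
    cntA n g = cntA n h :=
  le_antisymm (cntA_mono n g h fun d hd => (H d hd).le) (cntA_mono n h g fun d hd => (H d hd).ge)

theorem cntA_lin (n : ℕ) : ∀ (g h : List Bool → ℝ) (a b : ℝ),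
    cntA n (fun d => a * g d + b * h d) = a * cntA n g + b * cntA n h := by
  induction n with
  | zero => intro g h a b; rfl
  | succ n ih =>
    intro g h a b
    show (cntA n _ + cntA n _) / 2 = a * ((_ + _) / 2) + b * ((_ + _) / 2)
    rw [ih (fun d => g (true :: d)) (fun d => h (true :: d)) a b,
      ih (fun d => g (false :: d)) (fun d => h (false :: d)) a b]
    ring

theorem cntA_sum (n : ℕ) (g : List Bool → ℝ) :
    ∑ f : Fin n → Bool, g (List.ofFn f) = 2 ^ n * cntA n g := by
  induction n generalizing g with
  | zero => simp [cntA]
  | succ n ih =>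
    rw [← (Fin.consEquiv fun _ : Fin (n + 1) => Bool).sum_comp, Fintype.sum_prod_type]
    simp only [Fintype.sum_bool]
    have e : ∀ (b : Bool) (f : Fin n → Bool),
        g (List.ofFn ((Fin.consEquiv fun _ : Fin (n + 1) => Bool) (b, f))) =
          g (b :: List.ofFn f) := by
      intro b f
      congr 1
      rw [List.ofFn_succ]
      simp [Fin.consEquiv]
    simp only [e]
    rw [ih (fun d => g (true :: d)), ih (fun d => g (false :: d))]
    show _ = 2 ^ (n + 1) * ((_ + _) / 2)
    ring

/-- average over lists of `m` pairs -/
noncomputable def cntP : ℕ → (List (Bool × Bool) → ℝ) → ℝ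
  | 0, g => g []
  | n + 1, g => (cntP n (fun d => g ((true, true) :: d)) + cntP n (fun d => g ((true, false) :: d)) +
      cntP n (fun d => g ((false, true) :: d)) + cntP n (fun d => g ((false, false) :: d))) / 4

theorem cntP_lin (n : ℕ) : ∀ (g h : List (Bool × Bool) → ℝ) (a b : ℝ),
    cntP n (fun d => a * g d + b * h d) = a * cntP n g + b * cntP n h := by
  induction n with
  | zero => intro g h a b; rfl
  | succ n ih =>
    intro g h a b
    show (cntP n _ + cntP n _ + cntP n _ + cntP n _) / 4 =
      a * ((_ + _ + _ + _) / 4) + b * ((_ + _ + _ + _) / 4)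
    rw [ih (fun d => g ((true, true) :: d)) (fun d => h ((true, true) :: d)) a b,
      ih (fun d => g ((true, false) :: d)) (fun d => h ((true, false) :: d)) a b,
      ih (fun d => g ((false, true) :: d)) (fun d => h ((false, true) :: d)) a b,
      ih (fun d => g ((false, false) :: d)) (fun d => h ((false, false) :: d)) a b]
    ring

/-- consecutive pairs of a uniform list are uniform -/
theorem cntA_pairUp (m : ℕ) : ∀ g : List (Bool × Bool) → ℝ,
    cntA (2 * m) (fun d => g (pairUp d)) = cntP m g := by
  induction m with
  | zero => intro g; rfl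
  | succ m ih =>
    intro g
    show cntA (2 * m + 1 + 1) _ = _
    have h1 : ∀ b b' : Bool, cntA (2 * m) (fun d => g (pairUp (b :: b' :: d))) =
        cntP m (fun d => g ((b, b') :: d)) := by
      intro b b'
      rw [← ih (fun d => g ((b, b') :: d))]
      rfl
    show ((cntA (2 * m) (fun d => g (pairUp (true :: true :: d))) +
        cntA (2 * m) (fun d => g (pairUp (true :: false :: d)))) / 2 +
      (cntA (2 * m) (fun d => g (pairUp (false :: true :: d))) +
        cntA (2 * m) (fun d => g (pairUp (false :: false :: d)))) / 2) / 2 = _
    rw [h1, h1, h1, h1]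
    show _ = (_ + _ + _ + _) / 4
    ring

/-- statuses -/
def cntSt (L : List (Bool × Bool)) : List Bool := L.map fun p => p.1 == p.2

/-- colours of the pairs with equal entries -/
def cntSc (L : List (Bool × Bool)) : List Bool := (L.filter fun p => p.1 == p.2).map Prod.fst

theorem cntP_st (m : ℕ) : ∀ g : List Bool → ℝ, cntP m (fun L => g (cntSt L)) = cntA m g := by
  induction m with
  | zero => intro g; rfl
  | succ m ih =>
    intro g
    have h1 : ∀ b : Bool, cntP m (fun L => g (b :: cntSt L)) = cntA m (fun d => g (b :: d)) :=
      fun b => ih (fun d => g (b :: d))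
    show (cntP m (fun L => g (true :: cntSt L)) + cntP m (fun L => g (false :: cntSt L)) +
      cntP m (fun L => g (false :: cntSt L)) + cntP m (fun L => g (true :: cntSt L))) / 4 =
      (cntA m (fun d => g (true :: d)) + cntA m (fun d => g (false :: d))) / 2
    rw [h1, h1]; ring

theorem cntP_sc (m : ℕ) : ∀ (g : List Bool → ℝ) (δ : ℝ), (∀ s ≤ m, cntA s g ≤ δ) →
    cntP m (fun L => g (cntSc L)) ≤ δ := by
  induction m with
  | zero => intro g δ h; exact h 0 le_rfl
  | succ m ih =>
    intro g δ h
    have h1 : cntP m (fun L => g (cntSc L)) ≤ δ := ih g δ fun s hs => h s (by omega)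
    have h2 : cntP m (fun L => 1 / 2 * g (true :: cntSc L) + 1 / 2 * g (false :: cntSc L)) ≤ δ := by
      refine ih (fun d => 1 / 2 * g (true :: d) + 1 / 2 * g (false :: d)) δ fun s hs => ?_
      rw [cntA_lin s (fun d => g (true :: d)) (fun d => g (false :: d))]
      have := h (s + 1) (by omega)
      have e : cntA (s + 1) g =
        (cntA s (fun d => g (true :: d)) + cntA s (fun d => g (false :: d))) / 2 := rfl
      rw [e] at this
      linarith
    rw [cntP_lin m (fun L => g (true :: cntSc L)) (fun L => g (false :: cntSc L))] at h2
    show (cntP m (fun L => g (true :: cntSc L)) + cntP m (fun L => g (cntSc L)) +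
      cntP m (fun L => g (cntSc L)) + cntP m (fun L => g (false :: cntSc L))) / 4 ≤ δ
    linarith

/-! ### marginals -/

/-- marginals of the uniform distribution at distinct places -/
theorem cntA_marg (n : ℕ) (ρ : List ℕ) (hnd : ρ.Nodup) (hlt : ∀ i ∈ ρ, i < n)
    (g : List Bool → ℝ) :
    cntA n (fun c => g (ρ.map fun i => c.getD i false)) = cntA ρ.length g := by
  classical
  set k := ρ.length with hk
  let e : Fin k → Fin n := fun i => ⟨ρ[i], hlt _ (List.getElem_mem _)⟩
  have he : Function.Injective e := by
    intro i j hij
    have h1 : ρ[i] = ρ[j] := congrArg Fin.val hij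
    exact Fin.ext ((List.Nodup.getElem_inj_iff hnd).1 h1)
  have h2n : (2 : ℝ) ^ n ≠ 0 := by positivity
  have h2k : (2 : ℝ) ^ k ≠ 0 := by positivity
  have key : ∑ f : Fin n → Bool, g (ρ.map fun i => (List.ofFn f).getD i false) =
      ∑ f : Fin n → Bool, g (List.ofFn (f ∘ e)) := by
    refine Finset.sum_congr rfl fun f _ => ?_
    congr 1
    apply List.ext_getElem
    · simp [hk]
    · intro i h1 h2
      simp only [List.length_map] at h1
      simp only [List.getElem_map, List.getElem_ofFn, Function.comp, e]
      rw [List.getD_eq_getElem _ _ (by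
        rw [List.length_ofFn]; exact hlt _ (List.getElem_mem _))]
      simp
  have h3 : ∑ f : Fin n → Bool, g (List.ofFn (f ∘ e)) =
      2 ^ (n - k) * ∑ f : Fin k → Bool, g (List.ofFn f) := by
    have e1 : ∑ f : Fin n → Bool, g (List.ofFn (f ∘ e)) =
        ∑ p : ({x // x ∈ Set.range e} → Bool) × ({x // ¬ x ∈ Set.range e} → Bool),
          g (List.ofFn fun i => p.1 ⟨e i, i, rfl⟩) := by
      rw [← (Equiv.piEquivPiSubtypeProd (fun x : Fin n => x ∈ Set.range e)
        fun _ => Bool).sum_comp]
      rfl
    rw [e1, Fintype.sum_prod_type]
    simp only [Finset.sum_const, Finset.card_univ, nsmul_eq_mul]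
    rw [← Finset.mul_sum]
    have hcard : Fintype.card ({x // ¬ x ∈ Set.range e} → Bool) = 2 ^ (n - k) := by
      rw [Fintype.card_fun, Fintype.card_bool, Fintype.card_subtype_compl, Fintype.card_fin]
      congr 2
      have : Fintype.card {x // x ∈ Set.range e} = Fintype.card (Fin k) :=
        Fintype.card_congr (Equiv.ofInjective e he).symm
      rw [this, Fintype.card_fin]
    rw [hcard]
    push_cast
    congr 1
    rw [← (Equiv.arrowCongr (Equiv.ofInjective e he) (Equiv.refl Bool)).sum_comp]
    refine Finset.sum_congr rfl fun f _ => ?_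
    congr 1
    apply List.ext_getElem
    · simp
    · intro i h1 h2
      simp only [List.getElem_ofFn, Equiv.arrowCongr_apply, Equiv.coe_refl, Function.comp, id]
      congr 1
      rw [Equiv.symm_apply_eq]
      rfl
  have hkn : k ≤ n := by
    have := Fintype.card_le_of_injective e he
    simpa using this
  have h4 := cntA_sum n (fun c => g (ρ.map fun i => c.getD i false))
  have h5 := cntA_sum k g
  rw [key, h3, h5, ← mul_assoc, ← pow_add, Nat.sub_add_cancel hkn] at h4
  exact (mul_left_cancel₀ h2n h4).symm

/-! ### the pairings -/

theorem cnt_map_fst_zip {α β : Type} (A : List α) (B : List β) :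
    (A.zip B).map Prod.fst = A.take B.length := by
  induction A generalizing B with
  | nil => simp
  | cons a A ih =>
    cases B with
    | nil => simp
    | cons b B => simp [ih]

theorem cnt_map_snd_zip {α β : Type} (A : List α) (B : List β) :
    (A.zip B).map Prod.snd = B.take A.length := by
  induction A generalizing B with
  | nil => simp
  | cons a A ih =>
    cases B with
    | nil => simp
    | cons b B => simp [ih]

theorem cnt_unpair_perm {α : Type} (L : List (α × α)) :
    (unpair L).Perm (L.map Prod.fst ++ L.map Prod.snd) := by
  induction L with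
  | nil => simp [unpair]
  | cons p L ih =>
    have h1 : unpair (p :: L) = p.1 :: p.2 :: unpair L := by simp [unpair]
    rw [h1]
    simp only [List.map_cons, List.cons_append]
    refine List.Perm.cons _ ?_
    exact (List.Perm.cons _ ih).trans List.perm_middle.symm

theorem cnt_unpair_length {α : Type} (L : List (α × α)) : (unpair L).length = 2 * L.length := by
  rw [(cnt_unpair_perm L).length_eq]
  simp; ring

theorem cnt_pairUp_unpair {α : Type} (L : List (α × α)) : pairUp (unpair L) = L := by
  induction L with
  | nil => rfl
  | cons p L ih =>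
    have h1 : unpair (p :: L) = p.1 :: p.2 :: unpair L := by simp [unpair]
    rw [h1]
    show (p.1, p.2) :: pairUp (unpair L) = _
    rw [ih]

theorem cnt_unpair_map {α β : Type} (g : α → β) (L : List (α × α)) :
    unpair (L.map (Prod.map g g)) = (unpair L).map g := by
  induction L with
  | nil => rfl
  | cons p L ih =>
    have h1 : ∀ {γ : Type} (p : γ × γ) (L : List (γ × γ)),
        unpair (p :: L) = p.1 :: p.2 :: unpair L := by intros; simp [unpair]
    rw [List.map_cons, h1, h1, ih]
    rfl

theorem cnt_unpair_perm_of {α : Type} {L L' : List (α × α)} (h : L.Perm L') :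
    (unpair L).Perm (unpair L') := h.flatMap_right _

theorem cnt_midLast_perm {α : Type} (A : List α) : (midLast A).Perm A := by
  unfold midLast
  set a := 7 * A.length / 16
  set b := 9 * A.length / 16
  have hab : a ≤ b := by simp only [a, b]; omega
  have h1 : (A.drop a).drop (b - a) = A.drop b := by rw [List.drop_drop]; congr 1; omega
  have h2 : A.drop a = (A.drop a).take (b - a) ++ A.drop b := by
    rw [← h1, List.take_append_drop]
  have h3 : A = A.take a ++ ((A.drop a).take (b - a) ++ A.drop b) := by
    rw [← h2, List.take_append_drop]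
  rw [List.append_assoc]
  conv_rhs => rw [h3]
  exact List.Perm.append_left _ List.perm_append_comm

theorem cnt_midFirst_perm {α : Type} (A : List α) : (midFirst A).Perm A := by
  refine List.Perm.trans ?_ (cnt_midLast_perm A)
  unfold midFirst midLast
  set a := 7 * A.length / 16
  set b := 9 * A.length / 16
  rw [List.append_assoc]
  exact List.perm_append_comm

theorem cnt_pairUp_prefix {α : Type} : ∀ F : List α, unpair (pairUp F) <+: F
  | [] => by simp [pairUp, unpair]
  | [x] => by simp [pairUp, unpair]
  | x :: y :: t => by
    have h1 : unpair (pairUp (x :: y :: t)) = x :: y :: unpair (pairUp t) := by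
      simp [pairUp, unpair]
    rw [h1]
    exact (List.prefix_cons_inj x).2 ((List.prefix_cons_inj y).2 (cnt_pairUp_prefix t))

theorem cnt_pairUp_length {α : Type} : ∀ F : List α, (pairUp F).length = F.length / 2
  | [] => by simp [pairUp]
  | [x] => by simp [pairUp]
  | x :: y :: t => by
    have := cnt_pairUp_length t
    simp only [pairUp, List.length_cons, this]
    omega

theorem cnt_zip_subperm {α : Type} (A B : List α) :
    (unpair (A.zip B)).Subperm (A ++ B.take A.length) := by
  refine (cnt_unpair_perm _).subperm.trans ?_
  rw [cnt_map_fst_zip, cnt_map_snd_zip]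
  exact (List.Sublist.append (List.take_sublist _ _) (List.Sublist.refl _)).subperm

theorem cnt_pairing_subperm (J j : ℕ) {α : Type} (F : List α) :
    (unpair (pairing J j F)).Subperm F := by
  unfold pairing
  split_ifs
  · -- pairQ
    unfold pairQ
    set c := F.length / 4 with hc
    set c' := F.length / 2 - c with hc'
    have h1 : (unpair (midLast (alphaP F) ++ midFirst (betaP F))).Perm
        (unpair (alphaP F) ++ unpair (betaP F)) := by
      have : unpair (alphaP F) ++ unpair (betaP F) = unpair (alphaP F ++ betaP F) := by
        simp [unpair]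
      rw [this]
      exact cnt_unpair_perm_of ((cnt_midLast_perm _).append (cnt_midFirst_perm _))
    refine h1.subperm.trans ?_
    have hα : (unpair (alphaP F)).Subperm (F.take c ++ (F.drop c).take c) := by
      refine (cnt_zip_subperm (F.take c) (F.drop c)).trans ?_
      refine (List.Sublist.append (List.Sublist.refl _) ?_).subperm
      exact List.take_sublist_take_left (by rw [List.length_take]; omega)
    have hβ : (unpair (betaP F)).Subperm
        (F.drop (2 * c + c') ++ (F.drop (2 * c)).take c') := by
      refine (cnt_zip_subperm (F.drop (2 * c + c')) ((F.drop (2 * c)).take c')).trans ?_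
      exact (List.Sublist.append (List.Sublist.refl _) (List.take_sublist _ _)).subperm
    refine (List.Subperm.append hα hβ).trans (List.Perm.subperm ?_)
    have e1 : (F.drop c).drop c = F.drop (2 * c) := by rw [List.drop_drop]; congr 1; omega
    have e2 : (F.drop (2 * c)).drop c' = F.drop (2 * c + c') := by rw [List.drop_drop]
    have e3 : F.drop (2 * c) = (F.drop (2 * c)).take c' ++ F.drop (2 * c + c') := by
      rw [← e2, List.take_append_drop]
    have e4 : F.drop c = (F.drop c).take c ++ F.drop (2 * c) := by
      rw [← e1, List.take_append_drop]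
    have e5 : F = F.take c ++ ((F.drop c).take c ++ F.drop (2 * c)) := by
      rw [← e4, List.take_append_drop]
    have e6 : (F.drop (2 * c + c') ++ (F.drop (2 * c)).take c').Perm (F.drop (2 * c)) := by
      conv_rhs => rw [e3]
      exact List.perm_append_comm
    refine (List.Perm.append_left _ e6).trans ?_
    rw [List.append_assoc]
    conv_rhs => rw [e5]
  · -- pairH
    unfold pairH
    refine (cnt_zip_subperm _ _).trans ?_
    have : (F.take (F.length / 2) ++ (F.drop (F.length / 2)).take
        (F.take (F.length / 2)).length).Sublist (F.take (F.length / 2) ++ F.drop (F.length / 2)) :=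
      List.Sublist.append (List.Sublist.refl _) (List.take_sublist _ _)
    rw [List.take_append_drop] at this
    exact this.subperm
  · exact (cnt_pairUp_prefix F).sublist.subperm

theorem cnt_pairing_length (J j : ℕ) {α : Type} (F : List α) :
    (pairing J j F).length = F.length / 2 := by
  unfold pairing
  split_ifs
  · unfold pairQ
    rw [List.length_append, (cnt_midLast_perm _).length_eq, (cnt_midFirst_perm _).length_eq]
    unfold alphaP betaP
    simp only [List.length_zip, List.length_take, List.length_drop]
    omega
  · unfold pairH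
    simp only [List.length_zip, List.length_take, List.length_drop]
    omega
  · exact cnt_pairUp_length F

theorem cnt_pairUp_map {α β : Type} (g : α → β) : ∀ F : List α,
    pairUp (F.map g) = (pairUp F).map (Prod.map g g)
  | [] => rfl
  | [x] => rfl
  | x :: y :: t => by
    have := cnt_pairUp_map g t
    simp only [List.map_cons, pairUp, this]
    rfl

theorem cnt_midLast_map {α β : Type} (g : α → β) (A : List α) :
    midLast (A.map g) = (midLast A).map g := by
  unfold midLast
  simp only [List.length_map, List.map_append, List.map_take, List.map_drop]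

theorem cnt_midFirst_map {α β : Type} (g : α → β) (A : List α) :
    midFirst (A.map g) = (midFirst A).map g := by
  unfold midFirst
  simp only [List.length_map, List.map_append, List.map_take, List.map_drop]

theorem cnt_pairing_map (J j : ℕ) {α β : Type} (g : α → β) (F : List α) :
    pairing J j (F.map g) = (pairing J j F).map (Prod.map g g) := by
  unfold pairing
  split_ifs
  · unfold pairQ
    have h1 : alphaP (F.map g) = (alphaP F).map (Prod.map g g) := by
      unfold alphaP
      rw [← List.zip_map, List.map_take, List.map_drop, List.length_map]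
    have h2 : betaP (F.map g) = (betaP F).map (Prod.map g g) := by
      unfold betaP
      rw [← List.zip_map, List.map_take, List.map_drop, List.map_drop, List.length_map]
    rw [h1, h2, cnt_midLast_map, cnt_midFirst_map, List.map_append]
  · unfold pairH
    rw [← List.zip_map, List.map_take, List.map_drop, List.length_map]
  · exact cnt_pairUp_map g F

theorem cntA_pairing (J j n : ℕ) (G : List (Bool × Bool) → ℝ) :
    cntA n (fun c => G (pairing J j c)) = cntP (n / 2) G := by
  set ρ := unpair (pairing J j (List.range n)) with hρ
  have hsub : ρ.Subperm (List.range n) := cnt_pairing_subperm J j _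
  have hnd : ρ.Nodup := by
    obtain ⟨l, hl1, hl2⟩ := hsub
    exact hl1.nodup_iff.1 (List.nodup_range.sublist hl2)
  have hlt : ∀ i ∈ ρ, i < n := fun i hi => List.mem_range.1 (hsub.subset hi)
  have hlen : ρ.length = 2 * (n / 2) := by
    rw [hρ, cnt_unpair_length, cnt_pairing_length, List.length_range]
  have h1 : ∀ c : List Bool, c.length = n → G (pairing J j c) =
      (fun d => G (pairUp d)) (ρ.map fun i => c.getD i false) := by
    intro c hc
    have h2 : c = (List.range n).map (fun i => c.getD i false) := by
      apply List.ext_getElem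
      · simp [hc]
      · intro i h3 h4
        simp only [List.getElem_map, List.getElem_range]
        rw [List.getD_eq_getElem _ _ h3]
    show G (pairing J j c) = G (pairUp _)
    congr 1
    rw [hρ, ← cnt_unpair_map, cnt_pairUp_unpair, ← cnt_pairing_map, ← h2]
  rw [cntA_congr n _ _ h1, cntA_marg n ρ hnd hlt (fun d => G (pairUp d)), hlen, cntA_pairUp]

/-! ### iteration -/

/-- the colours of the next level -/
def cntCl (J : ℕ) : ℕ → List Bool → List Bool
  | 0, c => c
  | j + 1, c => cntSc (pairing J j (cntCl J j c))

theorem cnt_iter (J N : ℕ) (j : ℕ) : ∀ (G : List Bool → ℝ) (δ : ℝ),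
    (∀ n ≤ N, cntA n G ≤ δ) → cntA N (fun c => G (cntCl J j c)) ≤ δ := by
  induction j with
  | zero => intro G δ h; exact h N le_rfl
  | succ j ih =>
    intro G δ h
    refine ih (fun c => G (cntSc (pairing J j c))) δ fun n hn => ?_
    rw [cntA_pairing J j n fun L => G (cntSc L)]
    exact cntP_sc (n / 2) G δ fun s hs => h s (by omega)

theorem cnt_ff_ne (σ : ℕ → Bool) (J N : ℕ) (j : ℕ) : ∀ c ∈ FF σ J N j, c ≠ [] := by
  induction j with
  | zero =>
    intro c hc
    simp only [FF, List.mem_map] at hc
    obtain ⟨v, _, rfl⟩ := hc
    simp
  | succ j ih =>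
    intro c hc
    simp only [FF, List.mem_map, List.mem_filter] at hc
    obtain ⟨p, ⟨hp, _⟩, rfl⟩ := hc
    have h1 : p.1 ∈ FF σ J N j := by
      refine (cnt_pairing_subperm J j (FF σ J N j)).subset ?_
      unfold unpair
      rw [List.mem_flatMap]
      exact ⟨p, hp, by simp⟩
    intro h2
    exact ih _ h1 (List.append_eq_nil_iff.1 h2).1

/-- colour of a chain -/
def cntH (σ : ℕ → Bool) (c : List ℕ) : Bool := σ (c.headD 0)

theorem cnt_ff_col (σ : ℕ → Bool) (J N : ℕ) (j : ℕ) :
    (FF σ J N j).map (cntH σ) = cntCl J j ((List.range N).map σ) := by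
  induction j with
  | zero =>
    simp only [FF, cntCl, List.map_map]
    rfl
  | succ j ih =>
    show _ = cntSc (pairing J j (cntCl J j ((List.range N).map σ)))
    rw [← ih, cnt_pairing_map]
    unfold cntSc
    rw [List.filter_map, List.map_map, FF, List.map_map]
    refine List.map_congr_left fun p hp => ?_
    rw [List.mem_filter] at hp
    have h1 : p.1 ∈ FF σ J N j := by
      refine (cnt_pairing_subperm J j (FF σ J N j)).subset ?_
      unfold unpair
      rw [List.mem_flatMap]
      exact ⟨p, hp.1, by simp⟩
    have h2 := cnt_ff_ne σ J N j _ h1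
    simp only [Function.comp, Prod.map, cntH]
    rcases h3 : p.1 with _ | ⟨a, t⟩
    · exact absurd h3 h2
    · rfl

theorem cnt_word (σ : ℕ → Bool) (J N j : ℕ) :
    word σ J N j = cntSt (pairing J j (cntCl J j ((List.range N).map σ))) := by
  rw [← cnt_ff_col, cnt_pairing_map]
  unfold word prs cntSt
  rw [List.map_map]
  rfl

/-! ### the tail bound -/

theorem cnt_exp (lam : ℝ) (m : ℕ) : ∀ i ≤ m,
    cntA m (fun w => Real.exp (lam * (2 * ((w.take i).count true : ℝ) - i))) =
      Real.cosh lam ^ i := by
  induction m with
  | zero =>
    intro i hi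
    obtain rfl : i = 0 := by omega
    simp [cntA]
  | succ m ih =>
    intro i hi
    rcases i with _ | i
    · have h1 : ∀ n : ℕ, cntA n (fun _ => (1 : ℝ)) = 1 := by
        intro n
        induction n with
        | zero => rfl
        | succ n ih => show (_ + _) / 2 = (1 : ℝ); rw [ih]; norm_num
      simp only [List.take_zero, List.count_nil, Nat.cast_zero, mul_zero, sub_zero, Real.exp_zero,
        pow_zero]
      exact h1 _
    · have h1 := ih i (by omega)
      show (cntA m _ + cntA m _) / 2 = _
      have e1 : cntA m (fun d => Real.exp (lam * (2 * (((true :: d).take (i + 1)).count true : ℝ) -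
          ((i + 1 : ℕ) : ℝ)))) = Real.exp lam * Real.cosh lam ^ i := by
        rw [← h1]
        have := cntA_lin m (fun w => Real.exp (lam * (2 * ((w.take i).count true : ℝ) - i)))
          (fun _ => 0) (Real.exp lam) 0
        simp only [zero_mul, add_zero] at this
        rw [← this]
        refine cntA_congr m _ _ fun d _ => ?_
        rw [List.take_succ_cons, List.count_cons_self, ← Real.exp_add]
        congr 1
        push_cast
        ring
      have e2 : cntA m (fun d => Real.exp (lam * (2 * (((false :: d).take (i + 1)).count true : ℝ) -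
          ((i + 1 : ℕ) : ℝ)))) = Real.exp (-lam) * Real.cosh lam ^ i := by
        rw [← h1]
        have := cntA_lin m (fun w => Real.exp (lam * (2 * ((w.take i).count true : ℝ) - i)))
          (fun _ => 0) (Real.exp (-lam)) 0
        simp only [zero_mul, add_zero] at this
        rw [← this]
        refine cntA_congr m _ _ fun d _ => ?_
        have h3 : (false :: d.take i).count true = (d.take i).count true := by
          rw [List.count_cons]; simp
        rw [List.take_succ_cons, h3, ← Real.exp_add]
        congr 1
        push_cast
        ring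
      rw [e1, e2, pow_succ, Real.cosh_eq]
      ring

open Classical in
/-- bad at `i` -/
noncomputable def cntBad (D i : ℕ) (w : List Bool) : ℝ :=
  if i ≤ w.length ∧ ¬ (2 * (w.take i).count true ≤ i + D ∧ i ≤ 2 * (w.take i).count true + D)
    then 1 else 0

theorem cntBad_nonneg (D i : ℕ) (w : List Bool) : 0 ≤ cntBad D i w := by
  unfold cntBad
  split_ifs
  · exact zero_le_one
  · exact le_rfl

theorem cnt_tail (N D m i : ℕ) (hN : 1 ≤ N) (hm : 2 * m ≤ N) :
    cntA m (cntBad D i) ≤ 2 * Real.exp (-((D : ℝ) ^ 2) / N) := by
  have hN0 : (0 : ℝ) < N := by exact_mod_cast hN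
  by_cases him : i ≤ m
  · set lam : ℝ := 2 * D / N with hlam
    have hlam0 : 0 ≤ lam := by positivity
    have h1 : cntA m (cntBad D i) ≤
        cntA m (fun w => Real.exp (-lam * D) *
          Real.exp (lam * (2 * ((w.take i).count true : ℝ) - i)) +
          Real.exp (-lam * D) * Real.exp (-lam * (2 * ((w.take i).count true : ℝ) - i))) := by
      refine cntA_mono m _ _ fun w _ => ?_
      unfold cntBad
      split_ifs with h
      · obtain ⟨-, h⟩ := h
        rw [not_and_or, not_le, not_le] at h
        rcases h with h | h
        · have h2 : ((i : ℝ) + D) < 2 * ((w.take i).count true : ℝ) := by exact_mod_cast h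
          have h3 : 1 ≤ Real.exp (-lam * D) *
              Real.exp (lam * (2 * ((w.take i).count true : ℝ) - i)) := by
            rw [← Real.exp_add]
            apply Real.one_le_exp
            nlinarith
          have h4 : 0 ≤ Real.exp (-lam * D) *
            Real.exp (-lam * (2 * ((w.take i).count true : ℝ) - i)) := by positivity
          linarith
        · have h2 : 2 * ((w.take i).count true : ℝ) + D < i := by exact_mod_cast h
          have h3 : 1 ≤ Real.exp (-lam * D) *
              Real.exp (-lam * (2 * ((w.take i).count true : ℝ) - i)) := by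
            rw [← Real.exp_add]
            apply Real.one_le_exp
            nlinarith
          have h4 : 0 ≤ Real.exp (-lam * D) *
            Real.exp (lam * (2 * ((w.take i).count true : ℝ) - i)) := by positivity
          linarith
      · positivity
    refine h1.trans ?_
    rw [cntA_lin m, cnt_exp lam m i him, cnt_exp (-lam) m i him, Real.cosh_neg]
    have h5 : Real.cosh lam ^ i ≤ Real.exp (D ^ 2 / N) := by
      have h6 : Real.cosh lam ^ i ≤ Real.exp (lam ^ 2 / 2) ^ i :=
        pow_le_pow_left₀ (Real.cosh_pos _).le (Real.cosh_le_exp_half_sq lam) i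
      refine h6.trans ?_
      rw [← Real.exp_nat_mul]
      apply Real.exp_le_exp.2
      have h7 : (i : ℝ) ≤ N / 2 := by
        have : 2 * i ≤ N := by omega
        have : 2 * (i : ℝ) ≤ N := by exact_mod_cast this
        linarith
      calc (i : ℝ) * (lam ^ 2 / 2) ≤ (N / 2) * (lam ^ 2 / 2) := by gcongr
        _ = (D : ℝ) ^ 2 / N := by rw [hlam]; field_simp
    have h8 : Real.exp (-lam * D) * Real.cosh lam ^ i + Real.exp (-lam * D) * Real.cosh lam ^ i ≤
        2 * (Real.exp (-lam * D) * Real.exp (D ^ 2 / N)) := by
      have : Real.exp (-lam * D) * Real.cosh lam ^ i ≤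
        Real.exp (-lam * D) * Real.exp (D ^ 2 / N) := by gcongr
      linarith
    refine h8.trans (le_of_eq ?_)
    rw [← Real.exp_add]
    congr 2
    rw [hlam]
    field_simp
    ring
  · have h1 : cntA m (cntBad D i) ≤ cntA m (fun _ => 0) := by
      refine cntA_mono m _ _ fun w hw => ?_
      unfold cntBad
      rw [if_neg]
      rintro ⟨h, -⟩
      omega
    have h2 : ∀ n : ℕ, cntA n (fun _ => (0 : ℝ)) = 0 := by
      intro n
      induction n with
      | zero => rfl
      | succ n ih => show (_ + _) / 2 = (0 : ℝ); rw [ih]; norm_num
    rw [h2] at h1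
    exact h1.trans (by positivity)

open Classical in
theorem count_atyp (J N D : ℕ) (hN : 1 ≤ N) :
    (((Finset.univ : Finset (Fin N → Bool)).filter
      (fun f => ¬ Typ (ext f) J N D)).card : ℝ) ≤
      (J + 1) * (N + 1) * 2 * Real.exp (-((D : ℝ) ^ 2) / N) * 2 ^ N := by
  have hcol : ∀ f : Fin N → Bool, (List.range N).map (ext f) = List.ofFn f := by
    intro f
    apply List.ext_getElem
    · simp
    · intro i h1 h2
      simp only [List.length_map, List.length_range] at h1
      simp [ext, h1]
  have hword : ∀ (f : Fin N → Bool) (j : ℕ),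
      word (ext f) J N j = cntSt (pairing J j (cntCl J j (List.ofFn f))) := by
    intro f j
    rw [cnt_word, hcol]
  have h1 : (((Finset.univ : Finset (Fin N → Bool)).filter
      (fun f => ¬ Typ (ext f) J N D)).card : ℝ) ≤
      ∑ f : Fin N → Bool, ∑ j ∈ Finset.range (J + 1), ∑ i ∈ Finset.range (N + 1),
        cntBad D i (cntSt (pairing J j (cntCl J j (List.ofFn f)))) := by
    rw [Finset.card_filter]
    push_cast
    refine Finset.sum_le_sum fun f _ => ?_
    have hnn : ∀ j ∈ Finset.range (J + 1), 0 ≤ ∑ i ∈ Finset.range (N + 1),
        cntBad D i (cntSt (pairing J j (cntCl J j (List.ofFn f)))) := fun j _ =>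
      Finset.sum_nonneg fun i _ => cntBad_nonneg _ _ _
    split_ifs with h
    · exact Finset.sum_nonneg hnn
    · unfold Typ at h
      push Not at h
      obtain ⟨j, hj, i, hi, hbad⟩ := h
      have hlen : (word (ext f) J N j).length ≤ N := by
        have h2 : ∀ j : ℕ, (FF (ext f) J N j).length ≤ N := by
          intro j
          induction j with
          | zero => simp [FF]
          | succ j ih =>
            have h3 : (FF (ext f) J N (j + 1)).length ≤ (pairing J j (FF (ext f) J N j)).length := by
              simp only [FF, List.length_map]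
              exact List.length_filter_le _ _
            rw [cnt_pairing_length] at h3
            omega
        unfold word prs
        rw [List.length_map, cnt_pairing_length]
        have := h2 j
        omega
      have h4 : (1 : ℝ) = cntBad D i (cntSt (pairing J j (cntCl J j (List.ofFn f)))) := by
        rw [← hword]
        unfold cntBad
        rw [if_pos]
        refine ⟨hi, fun h5 => ?_⟩
        have := hbad h5.1
        omega
      rw [h4]
      refine le_trans ?_ (Finset.single_le_sum hnn (Finset.mem_range.2 (by omega : j < J + 1)))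
      exact Finset.single_le_sum (f := fun i =>
        cntBad D i (cntSt (pairing J j (cntCl J j (List.ofFn f)))))
        (fun i _ => cntBad_nonneg _ _ _) (Finset.mem_range.2 (by omega : i < N + 1))
  refine h1.trans ?_
  rw [Finset.sum_comm]
  have h2 : ∀ j ∈ Finset.range (J + 1), ∑ f : Fin N → Bool, ∑ i ∈ Finset.range (N + 1),
      cntBad D i (cntSt (pairing J j (cntCl J j (List.ofFn f)))) ≤
        (N + 1) * (2 ^ N * (2 * Real.exp (-((D : ℝ) ^ 2) / N))) := by
    intro j _
    rw [Finset.sum_comm]
    calc ∑ i ∈ Finset.range (N + 1), ∑ f : Fin N → Bool,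
          cntBad D i (cntSt (pairing J j (cntCl J j (List.ofFn f))))
        ≤ ∑ i ∈ Finset.range (N + 1), 2 ^ N * (2 * Real.exp (-((D : ℝ) ^ 2) / N)) := by
          refine Finset.sum_le_sum fun i _ => ?_
          rw [cntA_sum N fun c => cntBad D i (cntSt (pairing J j (cntCl J j c)))]
          refine mul_le_mul_of_nonneg_left ?_ (by positivity)
          refine cnt_iter J N j (fun c => cntBad D i (cntSt (pairing J j c))) _ fun n hn => ?_
          rw [cntA_pairing J j n fun L => cntBad D i (cntSt L), cntP_st]
          exact cnt_tail N D (n / 2) i hN (by omega)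
      _ = (N + 1) * (2 ^ N * (2 * Real.exp (-((D : ℝ) ^ 2) / N))) := by
          rw [Finset.sum_const, Finset.card_range, nsmul_eq_mul]
          push_cast
          ring
  refine (Finset.sum_le_sum h2).trans (le_of_eq ?_)
  rw [Finset.sum_const, Finset.card_range, nsmul_eq_mul]
  push_cast
  ring

end Pool.Agent.Lib_helper4.Asy
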