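import Pool.Agent.Lib_helper4.AsyF.HC
import Pool.Agent.Lib_helper23.OddCyc.Cycle

set_option autoImplicit false

namespace Pool.Agent.Lib_helper4.Asy

open SimpleGraph Pool.Agent.Lib_helper23.OddCyc

theorem gr_walk {V : Type} (G : SimpleGraph V) (x : ℕ → V) (n : ℕ)
    (h : ∀ i < n, G.Adj (x i) (x (i + 1))) :
    ∃ w : G.Walk (x 0) (x n), w.support = (List.range (n + 1)).map x := by
  induction n with
  | zero => exact ⟨Walk.nil, by simp⟩
  | succ n ih =>
    obtain ⟨w, hw⟩ := ih fun i hi => h i (by omega)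
    refine ⟨w.concat (h n (by omega)), ?_⟩
    rw [Walk.support_concat, hw, List.range_succ (n := n + 1), List.map_append]
    simp

theorem gr_cycle {V : Type} (G : SimpleGraph V) (x : ℕ → V) (n : ℕ) (hn : 2 ≤ n)
    (h : ∀ i < n, G.Adj (x i) (x (i + 1))) (h' : G.Adj (x n) (x 0))
    (hinj : ∀ i ≤ n, ∀ j ≤ n, x i = x j → i = j) :
    ∃ v : V, ∃ w : G.Walk v v, w.IsCycle ∧ w.length = n + 1 := by
  obtain ⟨w, hw⟩ := gr_walk G x n h
  have hnd : w.support.Nodup := by
    rw [hw]
    refine List.Nodup.map_on ?_ List.nodup_range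
    intro a ha b hb hab
    rw [List.mem_range] at ha hb
    exact hinj a (by omega) b (by omega) hab
  have hp : w.IsPath := (Walk.isPath_def w).2 hnd
  have hlen : w.length = n := by
    have := congrArg List.length hw
    rw [Walk.length_support, List.length_map, List.length_range] at this
    omega
  have hne : x n ≠ x 0 := fun e => by
    have := hinj n le_rfl 0 (by omega) e
    omega
  have hq : (Walk.cons h' Walk.nil : G.Walk (x n) (x 0)).IsPath := by
    rw [Walk.cons_isPath_iff]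
    simp [hne]
  refine ⟨x 0, w.append (Walk.cons h' Walk.nil), hp.isCycle_append hq ?_ (Or.inl (by omega)), ?_⟩
  · intro y hy hy'
    simp only [Walk.support_cons, Walk.support_nil, List.tail_cons, List.mem_singleton] at hy'
    subst hy'
    have := hp.support_nodup
    rw [← Walk.cons_tail_support] at this
    exact (List.nodup_cons.1 this).1 hy
  · rw [Walk.length_append, Walk.length_cons, Walk.length_nil, hlen]

/-- the positions of the labels -/
theorem gr_perm (N : ℕ) (P : List ℕ) (hP : P.Perm (List.range N)) :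
    ∃ f : Equiv.Perm (Fin N), ∀ (i : ℕ) (v : Fin N), P[i]? = some (v : ℕ) → (f v : ℕ) = i := by
  have hnd : P.Nodup := hP.nodup_iff.2 List.nodup_range
  have hlen : P.length = N := by rw [hP.length_eq, List.length_range]
  have hmem : ∀ v : Fin N, (v : ℕ) ∈ P := fun v => hP.mem_iff.2 (List.mem_range.2 v.2)
  let f : Fin N → Fin N := fun v => ⟨P.idxOf (v : ℕ), by
    have := List.idxOf_lt_length_iff.2 (hmem v)
    omega⟩
  have hf : Function.Injective f := by
    intro a b hab
    have h1 : P.idxOf (a : ℕ) = P.idxOf (b : ℕ) := congrArg Fin.val hab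
    exact Fin.ext ((List.idxOf_inj (hmem a)).1 h1)
  refine ⟨Equiv.ofBijective f (Finite.injective_iff_bijective.1 hf), ?_⟩
  intro i v hi
  change P.idxOf (v : ℕ) = i
  obtain ⟨hi', hiv⟩ := List.getElem?_eq_some_iff.1 hi
  rw [← hiv]
  exact hnd.idxOf_getElem i hi'

theorem gr_adj {N : ℕ} {P : List ℕ} {f : Equiv.Perm (Fin N)}
    (hf : ∀ (i : ℕ) (v : Fin N), P[i]? = some (v : ℕ) → (f v : ℕ) = i) (u v : Fin N)
    (h : AdjL P u v) : (pg f).Adj u v := by
  rw [pg_adj]
  obtain ⟨i, ⟨h1, h2⟩ | ⟨h1, h2⟩⟩ := h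
  · left
    rw [hf _ _ h1, hf _ _ h2]
  · right
    rw [hf _ _ h1, hf _ _ h2]

theorem gr_mem {P : List ℕ} {u v : ℕ} (h : AdjL P u v) : u ∈ P ∧ v ∈ P := by
  obtain ⟨i, ⟨h1, h2⟩ | ⟨h1, h2⟩⟩ := h
  · exact ⟨List.mem_of_getElem? h1, List.mem_of_getElem? h2⟩
  · exact ⟨List.mem_of_getElem? h2, List.mem_of_getElem? h1⟩

theorem gr_cyc {k N : ℕ} (hk : 1 ≤ k) {P P' : List ℕ} (hP : P.Perm (List.range N))
    (hP' : P'.Perm (List.range N)) {f f' : Equiv.Perm (Fin N)}
    (hf : ∀ (i : ℕ) (v : Fin N), P[i]? = some (v : ℕ) → (f v : ℕ) = i)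
    (hf' : ∀ (i : ℕ) (v : Fin N), P'[i]? = some (v : ℕ) → (f' v : ℕ) = i)
    {c : List ℕ} (hc : CycIn k P P' c) :
    ∃ v : Fin N, ∃ w : (pg f ⊔ pg f').Walk v v, w.IsCycle ∧ w.length = 2 * k + 1 := by
  obtain ⟨hlen, hnd, hadj⟩ := hc
  have hlt : ∀ i < 2 * k + 1, c.getD i 0 < N := by
    intro i hi
    rcases hadj i hi with h | h
    · exact List.mem_range.1 (hP.mem_iff.1 (gr_mem h).1)
    · exact List.mem_range.1 (hP'.mem_iff.1 (gr_mem h).1)
  have hN : 0 < N := lt_of_le_of_lt (Nat.zero_le _) (hlt 0 (by omega))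
  let x : ℕ → Fin N := fun i => if h : i < 2 * k + 1 then ⟨c.getD i 0, hlt i h⟩ else ⟨0, hN⟩
  have hx : ∀ i < 2 * k + 1, (x i : ℕ) = c.getD i 0 := by
    intro i hi
    simp only [x, hi, dif_pos]
  have hA : ∀ i < 2 * k + 1, ∀ j < 2 * k + 1, j = (i + 1) % (2 * k + 1) →
      (pg f ⊔ pg f').Adj (x i) (x j) := by
    intro i hi j hj hij
    have := hadj i hi
    rw [← hij, ← hx i hi, ← hx j hj] at this
    rw [sup_adj]
    exact this.imp (gr_adj hf _ _) (gr_adj hf' _ _)
  obtain ⟨v, w, hw, hl⟩ := gr_cycle (pg f ⊔ pg f') x (2 * k) (by omega)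
    (fun i hi => hA i (by omega) (i + 1) (by omega) (by
      rw [Nat.mod_eq_of_lt (by omega)]))
    (hA (2 * k) (by omega) 0 (by omega) (by simp))
    (by
      intro i hi j hj hij
      have h1 : c.getD i 0 = c.getD j 0 := by
        rw [← hx i (by omega), ← hx j (by omega), hij]
      have hi' : i < c.length := by omega
      have hj' : j < c.length := by omega
      rw [List.getD_eq_getElem _ _ hi', List.getD_eq_getElem _ _ hj'] at h1
      exact (hnd.getElem_inj_iff).1 h1)
  exact ⟨v, w, hw, hl⟩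

theorem graphs_all (k N : ℕ) (hk : 1 ≤ k) (Fam : Finset (List ℕ))
    (h1 : ∀ P ∈ Fam, P.Perm (List.range N))
    (h2 : ∀ P ∈ Fam, ∀ P' ∈ Fam, P ≠ P' → ∃ c, CycIn k P P' c) :
    ∃ F : Finset (SimpleGraph (Fin N)), F.card = Fam.card ∧
      (∀ G ∈ F, Nonempty (SimpleGraph.pathGraph N ≃g G)) ∧
      (F : Set (SimpleGraph (Fin N))).Pairwise
        (fun P Q => ∃ v : Fin N, ∃ w : (P ⊔ Q).Walk v v, w.IsCycle ∧ w.length = 2 * k + 1) := by
  classical
  have hch : ∀ P : List ℕ, ∃ f : Equiv.Perm (Fin N), P ∈ Fam →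
      ∀ (i : ℕ) (v : Fin N), P[i]? = some (v : ℕ) → (f v : ℕ) = i := by
    intro P
    by_cases hP : P ∈ Fam
    · obtain ⟨f, hf⟩ := gr_perm N P (h1 P hP)
      exact ⟨f, fun _ => hf⟩
    · exact ⟨1, fun h => absurd h hP⟩
  choose f hf using hch
  have hcyc : ∀ P ∈ Fam, ∀ P' ∈ Fam, P ≠ P' →
      ∃ v : Fin N, ∃ w : (pg (f P) ⊔ pg (f P')).Walk v v, w.IsCycle ∧ w.length = 2 * k + 1 := by
    intro P hP P' hP' hne
    obtain ⟨c, hc⟩ := h2 P hP P' hP' hne
    exact gr_cyc hk (h1 P hP) (h1 P' hP') (hf P hP) (hf P' hP') hc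
  have hinj : Set.InjOn (fun P => pg (f P)) (Fam : Set (List ℕ)) := by
    intro P hP P' hP' hPP
    by_contra hne
    obtain ⟨v, w, hw1, hw2⟩ := hcyc P hP P' hP' hne
    have e : pg (f P) ⊔ pg (f P') = pg (f P) := by
      have : pg (f P) = pg (f P') := hPP
      rw [← this, sup_idem]
    exact pg_no_odd (f P) _ e v w hw2
  refine ⟨Fam.image (fun P => pg (f P)), Finset.card_image_of_injOn hinj, ?_, ?_⟩
  · intro G hG
    rw [Finset.mem_image] at hG
    obtain ⟨P, -, rfl⟩ := hG
    exact pg_iso _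
  · intro G hG G' hG' hne
    rw [Finset.mem_coe, Finset.mem_image] at hG hG'
    obtain ⟨P, hP, rfl⟩ := hG
    obtain ⟨P', hP', rfl⟩ := hG'
    refine hcyc P hP P' hP' ?_
    rintro rfl
    exact hne rfl

theorem gr_adj_del {t : List ℕ} {u v : ℕ} (hu : u ≠ 0) (hv : v ≠ 0) (h : AdjL (0 :: t) u v) :
    AdjL (t.map (· - 1)) (u - 1) (v - 1) := by
  have key : ∀ i x, x ≠ 0 → (0 :: t)[i]? = some x → i ≠ 0 ∧ (t.map (· - 1))[i - 1]? = some (x - 1) := by
    intro i x hx hi
    rcases i with _ | i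
    · simp only [List.getElem?_cons_zero, Option.some.injEq] at hi
      exact absurd hi.symm hx
    · rw [List.getElem?_cons_succ] at hi
      refine ⟨by omega, ?_⟩
      rw [Nat.add_sub_cancel, List.getElem?_map, hi]
      rfl
  obtain ⟨i, ⟨h1, h2⟩ | ⟨h1, h2⟩⟩ := h
  · obtain ⟨hi, h1'⟩ := key _ _ hu h1
    obtain ⟨-, h2'⟩ := key _ _ hv h2
    refine ⟨i - 1, Or.inl ⟨h1', ?_⟩⟩
    rw [Nat.sub_add_cancel (by omega)]
    simpa using h2'
  · obtain ⟨hi, h1'⟩ := key _ _ hv h1
    obtain ⟨-, h2'⟩ := key _ _ hu h2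
    refine ⟨i - 1, Or.inr ⟨h1', ?_⟩⟩
    rw [Nat.sub_add_cancel (by omega)]
    simpa using h2'

theorem gr_del {N : ℕ} {P : List ℕ} (h : P.Perm (List.range (N + 1))) (h0 : P.head? = some 0) :
    ∃ t, P = 0 :: t ∧ (t.map (· - 1)).Perm (List.range N) ∧ t = (t.map (· - 1)).map (· + 1) := by
  rcases P with _ | ⟨a, t⟩
  · simp at h0
  · simp only [List.head?_cons, Option.some.injEq] at h0
    subst h0
    have h1 : t.Perm ((List.range N).map (· + 1)) := by
      have h2 : List.range (N + 1) = 0 :: (List.range N).map (· + 1) := by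
        rw [List.range_succ_eq_map]
      rw [h2] at h
      exact (List.perm_cons 0).1 h
    refine ⟨t, rfl, ?_, ?_⟩
    · have := h1.map (· - 1)
      rw [List.map_map] at this
      have e : ((fun x => x - 1) ∘ fun x => x + 1 : ℕ → ℕ) = id := by
        funext x
        simp
      rw [e, List.map_id] at this
      exact this
    · rw [List.map_map]
      conv_lhs => rw [← List.map_id t]
      refine List.map_congr_left fun x hx => ?_
      have := h1.mem_iff.1 hx
      rw [List.mem_map] at this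
      obtain ⟨y, -, rfl⟩ := this
      simp

/-- all paths start at `0` and the cycles avoid `0` : delete `0` -/
theorem graphs_del (k N : ℕ) (hk : 1 ≤ k) (Fam : Finset (List ℕ))
    (h1 : ∀ P ∈ Fam, P.Perm (List.range (N + 1)) ∧ P.head? = some 0)
    (h2 : ∀ P ∈ Fam, ∀ P' ∈ Fam, P ≠ P' → HasCyc k P P') :
    ∃ F : Finset (SimpleGraph (Fin N)), F.card = Fam.card ∧
      (∀ G ∈ F, Nonempty (SimpleGraph.pathGraph N ≃g G)) ∧
      (F : Set (SimpleGraph (Fin N))).Pairwise
        (fun P Q => ∃ v : Fin N, ∃ w : (P ⊔ Q).Walk v v, w.IsCycle ∧ w.length = 2 * k + 1) := by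
  classical
  let g : List ℕ → List ℕ := fun P => P.tail.map (· - 1)
  have hg : ∀ P ∈ Fam, P = 0 :: (g P).map (· + 1) ∧ (g P).Perm (List.range N) := by
    intro P hP
    obtain ⟨t, rfl, h3, h4⟩ := gr_del (h1 P hP).1 (h1 P hP).2
    exact ⟨congrArg (List.cons 0) h4, h3⟩
  have hinj : Set.InjOn g (Fam : Set (List ℕ)) := by
    intro P hP P' hP' e
    rw [(hg P hP).1, (hg P' hP').1, e]
  obtain ⟨F, hF1, hF2, hF3⟩ := graphs_all k N hk (Fam.image g) (by
      intro Q hQ
      rw [Finset.mem_image] at hQ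
      obtain ⟨P, hP, rfl⟩ := hQ
      exact (hg P hP).2) (by
      intro Q hQ Q' hQ' hne
      rw [Finset.mem_image] at hQ hQ'
      obtain ⟨P, hP, rfl⟩ := hQ
      obtain ⟨P', hP', rfl⟩ := hQ'
      have hPP : P ≠ P' := by
        rintro rfl
        exact hne rfl
      obtain ⟨c, ⟨hl, hnd, hadj⟩, h0⟩ := h2 P hP P' hP' hPP
      have hc0 : ∀ i < 2 * k + 1, c.getD i 0 ≠ 0 := by
        intro i hi e
        have hi' : i < c.length := by omega
        rw [List.getD_eq_getElem _ _ hi'] at e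
        exact h0 (e ▸ List.getElem_mem hi')
      have hget : ∀ i < 2 * k + 1, (c.map (· - 1)).getD i 0 = c.getD i 0 - 1 := by
        intro i hi
        have hi' : i < c.length := by omega
        have hi'' : i < (c.map (· - 1)).length := by
          rw [List.length_map]
          exact hi'
        rw [List.getD_eq_getElem _ _ hi', List.getD_eq_getElem _ _ hi'', List.getElem_map]
      refine ⟨c.map (· - 1), ?_, ?_, ?_⟩
      · rw [List.length_map, hl]
      · refine List.Nodup.map_on ?_ hnd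
        intro a ha b hb hab
        have ha0 : a ≠ 0 := fun e => h0 (e ▸ ha)
        have hb0 : b ≠ 0 := fun e => h0 (e ▸ hb)
        omega
      · intro i hi
        have hj : (i + 1) % (2 * k + 1) < 2 * k + 1 := Nat.mod_lt _ (by omega)
        rw [hget i hi, hget _ hj]
        rcases hadj i hi with h | h
        · left
          obtain ⟨t, ht, h3, h4⟩ := gr_del (h1 P hP).1 (h1 P hP).2
          have hgt : g P = t.map (· - 1) := by
            simp only [g, ht, List.tail_cons]
          rw [hgt]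
          rw [ht] at h
          exact gr_adj_del (hc0 i hi) (hc0 _ hj) h
        · right
          obtain ⟨t, ht, h3, h4⟩ := gr_del (h1 P' hP').1 (h1 P' hP').2
          have hgt : g P' = t.map (· - 1) := by
            simp only [g, ht, List.tail_cons]
          rw [hgt]
          rw [ht] at h
          exact gr_adj_del (hc0 i hi) (hc0 _ hj) h)
  exact ⟨F, by rw [hF1, Finset.card_image_of_injOn hinj], hF2, hF3⟩

end Pool.Agent.Lib_helper4.Asy
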