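import Pool.Agent.Lib_helper4.AsyF.ASM3
import Pool.Agent.Lib_helper4.AsyF.ASM4
import Pool.Agent.Lib_helper4.AsyF.GR
import Pool.Agent.Lib_helper4.AsyF.CNT
import Pool.Agent.Lib_helper4.AsyF.BALC

set_option autoImplicit false

namespace Pool.Agent.Lib_helper4.Asy

/-- two lists of Booleans of the same length, with even numbers of `true`, which differ,
differ at a position `≥ 1` -/
theorem exists_diff (w w' : List Bool) (hl : w.length = w'.length) (hne : w ≠ w')
    (h : Even (w.count true)) (h' : Even (w'.count true)) :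
    ∃ p, 1 ≤ p ∧ ((w[p]? = some true ∧ w'[p]? = some false) ∨
      (w[p]? = some false ∧ w'[p]? = some true)) := by
  cases w with
  | nil =>
    cases w' with
    | nil => exact absurd rfl hne
    | cons b t' => simp at hl
  | cons a t =>
    cases w' with
    | nil => simp at hl
    | cons b t' =>
      have hl' : t.length = t'.length := by simpa using hl
      by_cases ht : t = t'
      · exfalso
        subst ht
        have hab : a ≠ b := by
          rintro rfl
          exact hne rfl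
        rw [List.count_cons] at h h'
        rw [Nat.even_iff] at h h'
        cases a <;> cases b <;> simp at h h' hab <;> omega
      · have : ∃ i : ℕ, t[i]? ≠ t'[i]? := by
          by_contra hcon
          push Not at hcon
          exact ht (List.ext_getElem? hcon)
        obtain ⟨i, hi⟩ := this
        refine ⟨i + 1, by omega, ?_⟩
        rw [List.getElem?_cons_succ, List.getElem?_cons_succ]
        by_cases hlt : i < t.length
        · rw [List.getElem?_eq_getElem hlt] at hi ⊢
          rw [List.getElem?_eq_getElem (hl' ▸ hlt)] at hi ⊢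
          simp only [ne_eq, Option.some.injEq] at hi ⊢
          generalize t[i] = x at *
          generalize t'[i] = y at *
          cases x <;> cases y <;> simp_all
        · exfalso
          apply hi
          rw [List.getElem?_eq_none (by omega), List.getElem?_eq_none (by omega)]

theorem hasCyc_symm {k : ℕ} {P P' : List ℕ} (h : HasCyc k P P') : HasCyc k P' P := by
  obtain ⟨c, hc, h0⟩ := h
  exact ⟨c, cycIn_symm hc, h0⟩

theorem cert_all (k N D : ℕ) (hk : 2 ≤ k) (hD : 4 ^ (lvJ k + 1) ≤ D)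
    (hbig : KK k * (D + 1) ≤ N) (σ σ' : ℕ → Bool) (h : Ok k N D σ) (h' : Ok k N D σ')
    (hne : ∃ v < N, σ v ≠ σ' v) :
    HasCyc k (pathOf k N σ) (pathOf k N σ') := by
  classical
  by_cases hall : ∀ j, word σ (lvJ k) N j = word σ' (lvJ k) N j
  · exact cert_orient k N D hk hD hbig σ σ' h h' hall hne
  · push Not at hall
    have hfind := Nat.find_spec hall
    have hmin : ∀ i < Nat.find hall, word σ (lvJ k) N i = word σ' (lvJ k) N i := by
      intro i hi
      by_contra hcon
      exact Nat.find_min hall hi hcon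
    set j := Nat.find hall with hj
    have hF : FF σ (lvJ k) N j = FF σ' (lvJ k) N j := ff_cong σ σ' (lvJ k) N j hmin
    have hl : (word σ (lvJ k) N j).length = (word σ' (lvJ k) N j).length := by
      unfold word prs
      rw [List.length_map, List.length_map, hF]
    obtain ⟨p, hp, hpp⟩ := exists_diff _ _ hl hfind (word_parity σ _ N h.bal j)
      (word_parity σ' _ N h'.bal j)
    rcases lt_or_ge j (lvJ k) with hjJ | hjJ
    · rcases hpp with ⟨e1, e2⟩ | ⟨e1, e2⟩
      · exact cert_small k N D hk hD hbig σ σ' h h' j hjJ hF p hp e1 e2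
      · exact hasCyc_symm (cert_small k N D hk hD hbig σ' σ h' h j hjJ hF.symm p hp e2 e1)
    · rcases hpp with ⟨e1, e2⟩ | ⟨e1, e2⟩
      · exact cert_large k N D hk hD hbig σ σ' h h' j hjJ hF p hp e1 e2
      · exact hasCyc_symm (cert_large k N D hk hD hbig σ' σ h' h j hjJ hF.symm p hp e2 e1)

theorem adjL_parity {P : List ℕ} (hP : P.Nodup) {u v : ℕ} (h : AdjL P u v) :
    (P.idxOf u + P.idxOf v) % 2 = 1 := by
  obtain ⟨i, ⟨h1, h2⟩ | ⟨h1, h2⟩⟩ := h
  · have e1 : P.idxOf u = i := by
      obtain ⟨hi, rfl⟩ := List.getElem?_eq_some_iff.1 h1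
      exact hP.idxOf_getElem i hi
    have e2 : P.idxOf v = i + 1 := by
      obtain ⟨hi, rfl⟩ := List.getElem?_eq_some_iff.1 h2
      exact hP.idxOf_getElem (i + 1) hi
    omega
  · have e1 : P.idxOf v = i := by
      obtain ⟨hi, rfl⟩ := List.getElem?_eq_some_iff.1 h1
      exact hP.idxOf_getElem i hi
    have e2 : P.idxOf u = i + 1 := by
      obtain ⟨hi, rfl⟩ := List.getElem?_eq_some_iff.1 h2
      exact hP.idxOf_getElem (i + 1) hi
    omega

theorem no_cyc_self {k : ℕ} {P c : List ℕ} (hP : P.Nodup) : ¬ CycIn k P P c := by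
  rintro ⟨hl, hnd, hadj⟩
  have hadj' : ∀ i < 2 * k + 1, AdjL P (c.getD i 0) (c.getD ((i + 1) % (2 * k + 1)) 0) := by
    intro i hi
    rcases hadj i hi with h | h <;> exact h
  let g : ℕ → ℕ := fun i => P.idxOf (c.getD i 0)
  have hpar : ∀ i < 2 * k + 1, (g i + g ((i + 1) % (2 * k + 1))) % 2 = 1 :=
    fun i hi => adjL_parity hP (hadj' i hi)
  -- along the path the parity alternates
  have key : ∀ i ≤ 2 * k, (g i + g 0 + i) % 2 = 0 := by
    intro i
    induction i with
    | zero => intro _; omega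
    | succ i ih =>
      intro hi
      have h1 := ih (by omega)
      have h2 := hpar i (by omega)
      rw [Nat.mod_eq_of_lt (by omega : i + 1 < 2 * k + 1)] at h2
      omega
  have h1 := key (2 * k) le_rfl
  have h2 := hpar (2 * k) (by omega)
  rw [Nat.mod_self] at h2
  omega

theorem ok_card (k N : ℕ) (hk : 2 ≤ k) (c : ℝ) (T : ℕ) (hN : Even N) (h2 : 2 ≤ N)
    (hnum : ((lvJ k : ℕ) + 1 : ℝ) * (N + 1) * 2 *
      Real.exp (-(((N / T : ℕ) : ℝ) ^ 2) / N) * 2 ^ N ≤
        Real.exp (-c * N) * ((N.choose (N / 2) / 2 : ℕ) : ℝ)) :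
    ∃ A : Finset (Fin N → Bool), (∀ f ∈ A, Ok k N (N / T) (ext f)) ∧
      (1 - Real.exp (-c * N)) * ((N.choose (N / 2) / 2 : ℕ) : ℝ) ≤ A.card := by
  classical
  let B := (Finset.univ : Finset (Fin N → Bool)).filter
      (fun f => Bal (ext f) N ∧ ext f 0 = true)
  let C := (Finset.univ : Finset (Fin N → Bool)).filter
      (fun f => ¬ Typ (ext f) (lvJ k) N (N / T))
  have hB : B.card = N.choose (N / 2) / 2 := card_bal N hN h2
  have hC : (C.card : ℝ) ≤ Real.exp (-c * N) * ((N.choose (N / 2) / 2 : ℕ) : ℝ) :=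
    le_trans (count_atyp (lvJ k) N (N / T) (by omega)) hnum
  refine ⟨B \ C, ?_, ?_⟩
  · intro f hf
    rw [Finset.mem_sdiff] at hf
    have h1 := (Finset.mem_filter.1 hf.1).2
    have h3 : Typ (ext f) (lvJ k) N (N / T) := by
      by_contra hcon
      exact hf.2 (Finset.mem_filter.2 ⟨Finset.mem_univ _, hcon⟩)
    exact ⟨h1.1, h3, h1.2⟩
  · have h1 : B.card ≤ (B \ C).card + C.card := by
      have := Finset.le_card_sdiff C B
      omega
    have h3 : (B.card : ℝ) ≤ (B \ C).card + C.card := by exact_mod_cast h1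
    rw [hB] at h3
    linarith

theorem fam_exists (k N : ℕ) (hk : 2 ≤ k) (T : ℕ) (hD : 4 ^ (lvJ k + 1) ≤ N / T)
    (hbig : KK k * (N / T + 1) ≤ N) (A : Finset (Fin N → Bool))
    (hA : ∀ f ∈ A, Ok k N (N / T) (ext f)) :
    ∃ Fam : Finset (List ℕ), Fam.card = A.card ∧
      (∀ P ∈ Fam, P.Perm (List.range N) ∧ P.head? = some 0) ∧
      (∀ P ∈ Fam, ∀ P' ∈ Fam, P ≠ P' → HasCyc k P P') := by
  classical
  have hcert : ∀ f ∈ A, ∀ g ∈ A, f ≠ g →
      HasCyc k (pathOf k N (ext f)) (pathOf k N (ext g)) := by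
    intro f hf g hg hfg
    apply cert_all k N (N / T) hk hD hbig _ _ (hA f hf) (hA g hg)
    by_contra hcon
    push Not at hcon
    apply hfg
    funext v
    have := hcon v v.2
    unfold ext at this
    simpa using this
  have hinj : Set.InjOn (fun f : Fin N → Bool => pathOf k N (ext f)) A := by
    intro f hf g hg hfg
    by_contra hne
    obtain ⟨c, hc, -⟩ := hcert f hf g hg hne
    simp only at hfg
    rw [← hfg] at hc
    have hp := (path_perm k N (N / T) hk hD hbig _ (hA f hf)).1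
    exact no_cyc_self (hp.nodup_iff.2 List.nodup_range) hc
  refine ⟨A.image (fun f => pathOf k N (ext f)), Finset.card_image_of_injOn hinj, ?_, ?_⟩
  · intro P hP
    obtain ⟨f, hf, rfl⟩ := Finset.mem_image.1 hP
    exact path_perm k N (N / T) hk hD hbig _ (hA f hf)
  · intro P hP P' hP' hne
    obtain ⟨f, hf, rfl⟩ := Finset.mem_image.1 hP
    obtain ⟨g, hg, rfl⟩ := Finset.mem_image.1 hP'
    apply hcert f hf g hg
    rintro rfl
    exact hne rfl

theorem KK_pos (k : ℕ) (hk : 2 ≤ k) : 1 ≤ KK k := by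
  unfold KK QQ
  have : 0 < k := by omega
  have h2 : 0 < 100000 * k ^ 4 * 4 ^ (lvJ k + 1) * 64 ^ (3 * lvJ k + 3) := by positivity
  omega

theorem main (k : ℕ) (hk : 2 ≤ k) : ∃ c : ℝ, 0 < c ∧ ∃ n₀ : ℕ, ∀ n ≥ n₀,
    ∃ F : Finset (SimpleGraph (Fin n)),
      (1 - Real.exp (-c * n)) *
        ((if Even n then n.choose (n / 2) / 2 else n.choose (n / 2) : ℕ) : ℝ) ≤ F.card ∧
      (∀ P ∈ F, Nonempty (SimpleGraph.pathGraph n ≃g P)) ∧
      (F : Set (SimpleGraph (Fin n))).Pairwise
        (fun P Q => ∃ v : Fin n, ∃ w : (P ⊔ Q).Walk v v, w.IsCycle ∧ w.length = 2 * k + 1) := by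
  have hKK := KK_pos k hk
  set T : ℕ := 2 * KK k with hT
  obtain ⟨c, hc, N₀, hN₀⟩ := numerics (lvJ k) T (by omega)
  refine ⟨c, hc, max N₀ (T * 4 ^ (lvJ k + 1) + T + 2), ?_⟩
  intro n hn
  have hn1 : N₀ ≤ n := le_trans (le_max_left _ _) hn
  have hn2 : T * 4 ^ (lvJ k + 1) + T + 2 ≤ n := le_trans (le_max_right _ _) hn
  have hTpos : 0 < T := by omega
  -- for every even `N ≥ n` the family exists
  have hfam : ∀ N, n ≤ N → Even N → ∃ Fam : Finset (List ℕ),
      (1 - Real.exp (-c * N)) * ((N.choose (N / 2) / 2 : ℕ) : ℝ) ≤ Fam.card ∧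
      (∀ P ∈ Fam, P.Perm (List.range N) ∧ P.head? = some 0) ∧
      (∀ P ∈ Fam, ∀ P' ∈ Fam, P ≠ P' → HasCyc k P P') := by
    intro N hnN hev
    have hD : 4 ^ (lvJ k + 1) ≤ N / T := by
      rw [Nat.le_div_iff_mul_le hTpos]
      nlinarith
    have hbig : KK k * (N / T + 1) ≤ N := by
      have h1 : N / T * T ≤ N := Nat.div_mul_le_self N T
      have h2 : KK k * (N / T + 1) = KK k * (N / T) + KK k := by ring
      have h3 : 2 * (KK k * (N / T)) ≤ N := by
        calc 2 * (KK k * (N / T)) = N / T * T := by rw [hT]; ring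
          _ ≤ N := h1
      omega
    obtain ⟨A, hA1, hA2⟩ := ok_card k N hk c T hev (by omega) (hN₀ N (by omega) hev)
    obtain ⟨Fam, h1, h2, h3⟩ := fam_exists k N hk T hD hbig A hA1
    exact ⟨Fam, by rw [h1]; exact hA2, h2, h3⟩
  by_cases hev : Even n
  · obtain ⟨Fam, h1, h2, h3⟩ := hfam n le_rfl hev
    obtain ⟨F, hF1, hF2, hF3⟩ := graphs_all k n (by omega) Fam (fun P hP => (h2 P hP).1)
      (fun P hP P' hP' hne => by
        obtain ⟨c, hc, -⟩ := h3 P hP P' hP' hne
        exact ⟨c, hc⟩)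
    refine ⟨F, ?_, hF2, hF3⟩
    rw [if_pos hev, hF1]
    exact h1
  · have hodd : Even (n + 1) := by
      rw [Nat.even_add_one]; exact hev
    obtain ⟨Fam, h1, h2, h3⟩ := hfam (n + 1) (by omega) hodd
    obtain ⟨F, hF1, hF2, hF3⟩ := graphs_del k n (by omega) Fam h2 h3
    refine ⟨F, ?_, hF2, hF3⟩
    rw [if_neg hev, hF1, choose_odd n hev]
    refine le_trans ?_ h1
    apply mul_le_mul_of_nonneg_right _ (Nat.cast_nonneg _)
    have : Real.exp (-c * ((n + 1 : ℕ) : ℝ)) ≤ Real.exp (-c * (n : ℝ)) := by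
      apply Real.exp_le_exp.2
      push_cast
      nlinarith
    linarith

end Pool.Agent.Lib_helper4.Asy
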