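import Pool.Agent.Lib_helper4.AsyF.TRN1

set_option autoImplicit false

namespace Pool.Agent.Lib_helper4.Asy

/-! ## Block TRN2 : the tournament, continued -/

theorem trn_flatten_zero (σ : ℕ → Bool) (J N : ℕ) : (FF σ J N 0).flatten = List.range N := by
  simp only [FF]
  induction N with
  | zero => simp
  | succ N ih =>
    rw [List.range_succ, List.map_append, List.flatten_append, ih]
    simp

theorem trn_range_flatMap_succ {α : Type} (f : ℕ → List α) (m : ℕ) :
    (List.range (m + 1)).flatMap f = (List.range m).flatMap f ++ f m := by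
  rw [List.range_succ, List.flatMap_append]
  simp

theorem trn_dd_perm_aux (σ : ℕ → Bool) (J N : ℕ) (hB : Bal σ N) (m : ℕ) :
    (((List.range m).flatMap fun j => (DD σ J N j).flatMap labels) ++
      (FF σ J N m).flatten).Perm (List.range N) := by
  induction m with
  | zero =>
    rw [trn_flatten_zero]
    simp
  | succ m ih =>
    rw [trn_range_flatMap_succ, List.append_assoc]
    refine (List.Perm.append_left _ ?_).trans ih
    exact List.perm_append_comm.trans (ff_step σ J N hB m).symm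

theorem dd_perm (σ : ℕ → Bool) (J N : ℕ) (hB : Bal σ N) :
    ((List.range N).flatMap fun j => (DD σ J N j).flatMap labels).Perm (List.range N) := by
  have h := trn_dd_perm_aux σ J N hB N
  rw [ff_end σ J N N Nat.lt_two_pow_self] at h
  simpa using h

theorem trn_zip_map {α β : Type} (f : α → β) (L : List α) :
    L.zip (L.map f) = L.map fun x => (x, f x) := by
  induction L with
  | nil => simp
  | cons a L ih => simp [ih]

theorem trn_filter_zip {α : Type} (f : α → Bool) (g : Bool → Bool) (L : List α) :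
    ((L.zip (L.map f)).filter fun q => g q.2).map Prod.fst = L.filter fun x => g (f x) := by
  rw [trn_zip_map]
  induction L with
  | nil => simp
  | cons a L ih =>
    rw [List.map_cons, List.filter_cons, List.filter_cons]
    simp only
    split_ifs
    · rw [List.map_cons, ih]
    · exact ih

theorem dd_eq (σ : ℕ → Bool) (J N j : ℕ) :
    DD σ J N j = (((prs σ J N j).zip (word σ J N j)).filter fun q => !q.2).map Prod.fst := by
  unfold DD word
  exact (trn_filter_zip (same σ) (fun b => !b) (prs σ J N j)).symm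

theorem trn_ff_succ (σ : ℕ → Bool) (J N j : ℕ) :
    FF σ J N (j + 1) = ((((pairing J j (FF σ J N j)).zip (word σ J N j)).filter
      fun q => q.2).map Prod.fst).map fun p => p.1 ++ p.2 := by
  have h := trn_filter_zip (same σ) (fun b => b) (prs σ J N j)
  simp only [FF]
  congr 1
  exact h.symm

theorem ff_cong (σ σ' : ℕ → Bool) (J N j : ℕ)
    (h : ∀ i < j, word σ J N i = word σ' J N i) :
    FF σ J N j = FF σ' J N j := by
  induction j with
  | zero => simp [FF]
  | succ j ih =>
    have ih' := ih (fun i hi => h i (by omega))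
    rw [trn_ff_succ σ, trn_ff_succ σ', ih', h j (by omega)]

theorem trn_prs_cong (σ σ' : ℕ → Bool) (J N : ℕ)
    (h : ∀ j, word σ J N j = word σ' J N j) (j : ℕ) :
    prs σ J N j = prs σ' J N j := by
  unfold prs
  rw [ff_cong σ σ' J N j (fun i _ => h i)]

theorem trn_dd_cong (σ σ' : ℕ → Bool) (J N : ℕ)
    (h : ∀ j, word σ J N j = word σ' J N j) (j : ℕ) :
    DD σ J N j = DD σ' J N j := by
  rw [dd_eq σ, dd_eq σ', h j, trn_prs_cong σ σ' J N h j]

theorem trn_dd_sub (σ : ℕ → Bool) (J N j : ℕ) :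
    ∀ O ∈ DD σ J N j, O ∈ prs σ J N j ∧ σ (O.2.headD 0) = !σ (O.1.headD 0) := by
  intro O hO
  unfold DD at hO
  rw [List.mem_filter] at hO
  refine ⟨hO.1, ?_⟩
  have h : σ (O.1.headD 0) ≠ σ (O.2.headD 0) := by simpa [same] using hO.2
  revert h
  cases σ (O.1.headD 0) <;> cases σ (O.2.headD 0) <;> simp

theorem col_inj (σ σ' : ℕ → Bool) (J N : ℕ) (hB : Bal σ N) (_hB' : Bal σ' N)
    (h : ∀ j, word σ J N j = word σ' J N j)
    (h' : ∀ j, ∀ O ∈ DD σ J N j, σ (O.1.headD 0) = σ' (O.1.headD 0)) :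
    ∀ v < N, σ v = σ' v := by
  intro v hv
  have hm : v ∈ (List.range N).flatMap fun j => (DD σ J N j).flatMap labels := by
    rw [(dd_perm σ J N hB).mem_iff]
    exact List.mem_range.2 hv
  rw [List.mem_flatMap] at hm
  obtain ⟨j, _, hm⟩ := hm
  rw [List.mem_flatMap] at hm
  obtain ⟨O, hO, hvO⟩ := hm
  have hO' : O ∈ DD σ' J N j := by rw [← trn_dd_cong σ σ' J N h j]; exact hO
  have e := h' j O hO
  obtain ⟨hp, hc⟩ := trn_dd_sub σ J N j O hO
  obtain ⟨hp', hc'⟩ := trn_dd_sub σ' J N j O hO'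
  have m := trn_prs_mem σ J N j O hp
  have m' := trn_prs_mem σ' J N j O hp'
  unfold labels at hvO
  rcases List.mem_append.1 hvO with hv1 | hv2
  · rw [ff_mono σ J N j _ m.1 v hv1, ff_mono σ' J N j _ m'.1 v hv1, e]
  · rw [ff_mono σ J N j _ m.2 v hv2, ff_mono σ' J N j _ m'.2 v hv2, hc, hc', e]

theorem trn_mem_unpair {α : Type} {L : List (α × α)} {c : α} (h : c ∈ unpair L) :
    ∃ p ∈ L, c = p.1 ∨ c = p.2 := by
  unfold unpair at h
  rw [List.mem_flatMap] at h
  obtain ⟨p, hp, hc⟩ := h
  exact ⟨p, hp, by simpa using hc⟩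

/-- every chain of level `j` lies in a chain of an object, at a position divisible by `2^j` -/
theorem ff_embed (σ : ℕ → Bool) (J N : ℕ) (hB : Bal σ N) (j : ℕ) :
    ∀ c ∈ FF σ J N j, ∃ j₁ ≥ j, ∃ O ∈ DD σ J N j₁, ∃ side, (side = O.1 ∨ side = O.2) ∧
      ∃ pre post, side = pre ++ c ++ post ∧ 2 ^ j ∣ pre.length := by
  suffices H : ∀ m j, N ≤ j + m → ∀ c ∈ FF σ J N j, ∃ j₁ ≥ j, ∃ O ∈ DD σ J N j₁, ∃ side,
      (side = O.1 ∨ side = O.2) ∧
      ∃ pre post, side = pre ++ c ++ post ∧ 2 ^ j ∣ pre.length from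
    H N j (by omega)
  intro m
  induction m with
  | zero =>
    intro j hj c hc
    rw [ff_end σ J N j (lt_of_le_of_lt hj Nat.lt_two_pow_self)] at hc
    simp at hc
  | succ m ih =>
    intro j hj c hc
    have hc' : c ∈ unpair (prs σ J N j) :=
      (pairing_perm J j _ (ff_even σ J N hB j)).mem_iff.2 hc
    obtain ⟨p, hp, hcp⟩ := trn_mem_unpair hc'
    by_cases hs : same σ p
    · have hF : p.1 ++ p.2 ∈ FF σ J N (j + 1) := by
        simp only [FF, List.mem_map, List.mem_filter]
        exact ⟨p, ⟨hp, hs⟩, rfl⟩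
      obtain ⟨j₁, hj₁, O, hO, side, hside, pre, post, he, hd⟩ := ih (j + 1) (by omega) _ hF
      have hd' : 2 ^ j ∣ pre.length := (pow_dvd_pow 2 (Nat.le_succ j)).trans hd
      refine ⟨j₁, by omega, O, hO, side, hside, ?_⟩
      rcases hcp with rfl | rfl
      · exact ⟨pre, p.2 ++ post, by rw [he]; simp, hd'⟩
      · refine ⟨pre ++ p.1, post, by rw [he]; simp, ?_⟩
        rw [List.length_append, (prs_len σ J N j p hp).1]
        exact dvd_add hd' dvd_rfl
    · refine ⟨j, le_rfl, p, ?_, c, hcp, [], [], by simp, by simp⟩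
      unfold DD
      rw [List.mem_filter]
      exact ⟨hp, by simpa using hs⟩

end Pool.Agent.Lib_helper4.Asy
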