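import Pool.Agent.Lib_helper4.AsyF.LOC
import Pool.Agent.Lib_helper4.AsyF.TRN2

set_option autoImplicit false

namespace Pool.Agent.Lib_helper4.Asy

theorem cls_pairUp {α : Type} : ∀ (F : List α) (p : ℕ) (q : α × α), (pairUp F)[p]? = some q →
    F[2 * p]? = some q.1 ∧ F[2 * p + 1]? = some q.2
  | [], p, q, h => by simp [pairUp] at h
  | [x], p, q, h => by simp [pairUp] at h
  | x :: y :: t, 0, q, h => by
    simp only [pairUp, List.getElem?_cons_zero, Option.some.injEq] at h
    subst h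
    simp
  | x :: y :: t, p + 1, q, h => by
    simp only [pairUp, List.getElem?_cons_succ] at h
    have := cls_pairUp t p q h
    rw [show 2 * (p + 1) + 1 = (2 * p + 1) + 1 + 1 by ring, show 2 * (p + 1) = (2 * p) + 1 + 1 by ring]
    simpa using this

theorem cls_pairing {J j : ℕ} (hj : j < J) {α : Type} (F : List α) : pairing J j F = pairUp F := by
  unfold pairing
  rw [if_neg (by omega), if_neg (by omega)]

theorem cls_QQ (J : ℕ) : 1 < QQ J := by
  unfold QQ
  exact Nat.one_lt_pow (by omega) (by norm_num)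

theorem cls_lvJ (k : ℕ) : 2 ≤ lvJ k := le_max_left _ _

/-- an element of a slice -/
theorem cls_slice {α : Type} (l : List α) (a m : ℕ) (x : α) (hx : x ∈ (l.drop a).take m) :
    ∃ p, a ≤ p ∧ p < a + m ∧ l[p]? = some x := by
  obtain ⟨i, hi⟩ := List.mem_iff_getElem?.1 hx
  rw [List.getElem?_take] at hi
  split_ifs at hi with h
  rw [List.getElem?_drop] at hi
  exact ⟨a + i, by omega, by omega, hi⟩

theorem cls_len (ps : List Obj) (w : List Bool) (hl : ps.length = w.length) (a m : ℕ) :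
    (((((ps.zip w).drop a).take m).filter fun q => !q.2).map Prod.fst).length =
      ((w.drop a).take m).count false := by
  rw [List.length_map, ← List.countP_eq_length_filter, List.count]
  have h1 : w = (ps.zip w).map Prod.snd := by
    rw [List.map_snd_zip (by omega)]
  conv_rhs => rw [h1]
  rw [← List.map_drop, ← List.map_take, List.countP_map]
  refine List.countP_congr fun q _ => ?_
  rcases q with ⟨O, b⟩
  cases b <;> simp

theorem cls_slice_count (w : List Bool) (D : ℕ)
    (hT : ∀ i ≤ w.length, 2 * (w.take i).count true ≤ i + D ∧ i ≤ 2 * (w.take i).count true + D)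
    (a b : ℕ) (hab : a ≤ b) (hb : b ≤ w.length) :
    2 * ((w.drop a).take (b - a)).count false ≤ (b - a) + 2 * D ∧
      (b - a) ≤ 2 * ((w.drop a).take (b - a)).count false + 2 * D := by
  have h1 : w.take b = w.take a ++ (w.drop a).take (b - a) := by
    have := List.take_add (l := w) (i := a) (j := b - a)
    rw [Nat.add_sub_cancel' hab] at this
    exact this
  have h2 : (w.take b).count true = (w.take a).count true + ((w.drop a).take (b - a)).count true := by
    rw [h1, List.count_append]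
  have h3 : ((w.drop a).take (b - a)).count true + ((w.drop a).take (b - a)).count false = b - a := by
    rw [List.count_true_add_count_false, List.length_take, List.length_drop]
    omega
  have ha := hT a (by omega)
  have hb' := hT b hb
  omega

theorem cls_word_len (σ : ℕ → Bool) (J N j : ℕ) :
    (prs σ J N j).length = (FF σ J N j).length / 2 ∧
      (word σ J N j).length = (FF σ J N j).length / 2 := by
  have h : (prs σ J N j).length = (FF σ J N j).length / 2 := pairing_length J j _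
  refine ⟨h, ?_⟩
  unfold word
  rw [List.length_map, h]

/-- arithmetic of the constants -/
theorem cls_arith (k N D j : ℕ) (hk : 2 ≤ k) (hD : 4 ^ (lvJ k + 1) ≤ D)
    (hbig : KK k * (D + 1) ≤ N) (hj : j < lvJ k) :
    100 * ((2 * 4 ^ j * QQ (lvJ k)) * (D + 1)) ≤ N ∧ 4 * 4 ^ (lvJ k - j) ≤ D ∧
      (2 * 4 ^ j * QQ (lvJ k)) * (2 * (4 ^ (lvJ k - j) * MM k N)) ≤ N ∧
      N < (2 * 4 ^ j * QQ (lvJ k)) * (2 * (4 ^ (lvJ k - j) * MM k N)) +
        (2 * 4 ^ j * QQ (lvJ k)) * (2 * 4 ^ (lvJ k - j)) := by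
  have hQ : 0 < QQ (lvJ k) := by have := cls_QQ (lvJ k); omega
  have h4 : (4 : ℕ) ^ (lvJ k + 1) = 4 * 4 ^ j * 4 ^ (lvJ k - j) := by
    have : lvJ k + 1 = 1 + j + (lvJ k - j) := by omega
    rw [this, pow_add, pow_add, pow_one]
  have hP : 4 ^ (lvJ k + 1) * QQ (lvJ k) = (2 * 4 ^ j * QQ (lvJ k)) * (2 * 4 ^ (lvJ k - j)) := by
    rw [h4]; ring
  refine ⟨?_, ?_, ?_, ?_⟩
  · refine le_trans ?_ hbig
    unfold KK
    have h1 : 1 ≤ k ^ 4 := Nat.one_le_pow _ _ (by omega)
    have h2 : (4 : ℕ) ^ j ≤ 4 ^ (lvJ k + 1) := Nat.pow_le_pow_right (by norm_num) (by omega)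
    have h3 : 100 * (2 * 4 ^ j * QQ (lvJ k)) ≤ 100000 * k ^ 4 * 4 ^ (lvJ k + 1) * QQ (lvJ k) := by
      calc 100 * (2 * 4 ^ j * QQ (lvJ k)) = 200 * 1 * 4 ^ j * QQ (lvJ k) := by ring
        _ ≤ 100000 * k ^ 4 * 4 ^ (lvJ k + 1) * QQ (lvJ k) := by gcongr; norm_num
    calc 100 * ((2 * 4 ^ j * QQ (lvJ k)) * (D + 1)) = (100 * (2 * 4 ^ j * QQ (lvJ k))) * (D + 1) := by
          ring
      _ ≤ _ := Nat.mul_le_mul_right _ h3
  · refine le_trans ?_ hD
    rw [h4]
    have : 1 ≤ 4 ^ j := Nat.one_le_pow _ _ (by norm_num)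
    nlinarith [Nat.one_le_pow (lvJ k - j) 4 (by norm_num)]
  · have h1 : 4 ^ (lvJ k + 1) * QQ (lvJ k) * MM k N ≤ N := Nat.mul_div_le _ _
    rw [hP] at h1
    calc _ = 2 * 4 ^ j * QQ (lvJ k) * (2 * 4 ^ (lvJ k - j)) * MM k N := by ring
      _ ≤ N := h1
  · have h1 : N < 4 ^ (lvJ k + 1) * QQ (lvJ k) * (MM k N + 1) :=
      Nat.lt_mul_div_succ _ (by positivity)
    rw [hP] at h1
    calc N < 2 * 4 ^ j * QQ (lvJ k) * (2 * 4 ^ (lvJ k - j)) * (MM k N + 1) := h1
      _ = _ := by ring

set_option maxHeartbeats 1000000 in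
theorem cls_count (k N D : ℕ) (hk : 2 ≤ k) (σ : ℕ → Bool) (hB : Bal σ N)
    (hT : Typ σ (lvJ k) N D) (hD : 4 ^ (lvJ k + 1) ≤ D) (hbig : KK k * (D + 1) ≤ N)
    (j : ℕ) (hj : j < lvJ k) (s : ℕ) (hs : s < QQ (lvJ k)) :
    (cls σ (lvJ k) N j s).length ≤ 4 ^ (lvJ k - j) * MM k N + 4 * D ∧
      4 ^ (lvJ k - j) * MM k N ≤ (cls σ (lvJ k) N j s).length + 4 * D := by
  obtain ⟨c1, c2, c3, c4⟩ := cls_arith k N D j hk hD hbig hj
  obtain ⟨hl1, hl2⟩ := cls_word_len σ (lvJ k) N j
  obtain ⟨f1, f2⟩ := ff_count σ (lvJ k) N D hB hT j hj.le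
  have hTj := hT j hj.le
  have hQ := cls_QQ (lvJ k)
  have h4j : 1 ≤ 4 ^ j := Nat.one_le_pow _ _ (by norm_num)
  unfold cls clsOf
  rw [cls_len _ _ (by rw [hl1, hl2])]
  have hPQ : 2 * 4 ^ j * QQ (lvJ k) = 2 * (4 ^ j * QQ (lvJ k)) := by ring
  generalize hG : 4 ^ (lvJ k - j) * MM k N = T at *
  generalize hW : word σ (lvJ k) N j = w at *
  generalize hlen : (FF σ (lvJ k) N j).length = len at *
  have hP0 : 0 < 2 * 4 ^ j * QQ (lvJ k) := by positivity
  have hcs : cut N (QQ (lvJ k)) j s = s * N / (2 * 4 ^ j * QQ (lvJ k)) := by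
    unfold cut
    rw [if_pos hs]
  set P := 2 * 4 ^ j * QQ (lvJ k) with hPdef
  have hfl : 4 ^ j * QQ (lvJ k) * len ≤ QQ (lvJ k) * N + 4 ^ j * QQ (lvJ k) * D := by
    have := Nat.mul_le_mul_left (QQ (lvJ k)) f2
    calc _ = QQ (lvJ k) * (4 ^ j * len) := by ring
      _ ≤ QQ (lvJ k) * (N + 4 ^ j * D) := this
      _ = _ := by ring
  have hfu : QQ (lvJ k) * N ≤ 4 ^ j * QQ (lvJ k) * len + 4 ^ j * QQ (lvJ k) * D := by
    have := Nat.mul_le_mul_left (QQ (lvJ k)) f1
    calc _ ≤ QQ (lvJ k) * (4 ^ j * len + 4 ^ j * D) := this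
      _ = _ := by ring
  set R := 4 ^ j * QQ (lvJ k) with hR
  have hPR : P = 2 * R := by rw [hPdef, hR]; ring
  -- the end points
  have ha1 : P * (s * N / P) ≤ s * N := Nat.mul_div_le _ _
  have ha2 : s * N < P * (s * N / P + 1) := Nat.lt_mul_div_succ _ hP0
  rw [hcs]
  set a := s * N / P with ha
  -- bounds on the length of the slice
  have main : ∀ b, a ≤ b → b ≤ w.length → P * b ≤ (s + 1) * N + P * D →
      (s + 1) * N ≤ P * b + P * (D + 1) →
      ((w.drop a).take (b - a)).count false ≤ T + 4 * D ∧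
        T ≤ ((w.drop a).take (b - a)).count false + 4 * D := by
    intro b hab hb h1 h2
    obtain ⟨g1, g2⟩ := cls_slice_count w D hTj a b hab hb
    set c := ((w.drop a).take (b - a)).count false with hc
    obtain ⟨e, rfl⟩ := Nat.exists_eq_add_of_le hab
    rw [Nat.add_sub_cancel_left] at g1 g2
    have h3 : P * (a + e) = P * a + P * e := by ring
    have h4 : (s + 1) * N = s * N + N := by ring
    have h5 : P * (a + 1) = P * a + P := by ring
    have g1' := Nat.mul_le_mul_left P g1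
    have g2' := Nat.mul_le_mul_left P g2
    constructor
    · have : P * (2 * c) ≤ P * (2 * T + 2 * 4 ^ (lvJ k - j) + 3 * D + 1) := by
        calc P * (2 * c) ≤ P * (e + 2 * D) := g1'
          _ = P * e + P * (2 * D) := by ring
          _ ≤ (N + P * D + P) + P * (2 * D) := by
            have : P * e ≤ N + P * D + P := by
              rw [h3, h4] at h1
              rw [h5] at ha2
              omega
            omega
          _ ≤ (P * (2 * T) + P * (2 * 4 ^ (lvJ k - j)) + P * D + P) + P * (2 * D) := by omega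
          _ = _ := by ring
      have := Nat.le_of_mul_le_mul_left this hP0
      have h1D : 1 ≤ D := le_trans (Nat.one_le_pow _ _ (by norm_num)) hD
      omega
    · have : P * (2 * T) ≤ P * (2 * c + 3 * D + 1) := by
        calc P * (2 * T) ≤ N := c3
          _ ≤ P * e + P * (D + 1) := by
            rw [h3, h4] at h2
            omega
          _ ≤ P * (2 * c + 2 * D) + P * (D + 1) := by omega
          _ = _ := by ring
      have := Nat.le_of_mul_le_mul_left this hP0
      have h1D : 1 ≤ D := le_trans (Nat.one_le_pow _ _ (by norm_num)) hD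
      omega
  by_cases hs1 : s + 1 < QQ (lvJ k)
  · have hcs1 : cut N (QQ (lvJ k)) j (s + 1) = (s + 1) * N / P := by
      unfold cut
      rw [if_pos hs1]
    rw [hcs1]
    have hb1 : P * ((s + 1) * N / P) ≤ (s + 1) * N := Nat.mul_div_le _ _
    have hb2 : (s + 1) * N < P * ((s + 1) * N / P + 1) := Nat.lt_mul_div_succ _ hP0
    refine main _ (Nat.div_le_div_right (Nat.mul_le_mul_right _ (by omega))) ?_ (by omega) ?_
    · -- the slice is within the list
      rw [hl2]
      have h1 : (s + 1) * N + N ≤ QQ (lvJ k) * N := by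
        have : (s + 1 + 1) * N ≤ QQ (lvJ k) * N := Nat.mul_le_mul_right _ hs1
        calc _ = (s + 1 + 1) * N := by ring
          _ ≤ _ := this
      by_contra hcon
      have h2 : len / 2 + 1 ≤ (s + 1) * N / P := by omega
      have h3 : P * (len / 2 + 1) ≤ (s + 1) * N := le_trans (Nat.mul_le_mul_left P h2) hb1
      have h4 : R * len ≤ P * (len / 2 + 1) := by
        rw [hPR]
        have : len ≤ 2 * (len / 2 + 1) := by omega
        calc R * len ≤ R * (2 * (len / 2 + 1)) := Nat.mul_le_mul_left R this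
          _ = _ := by ring
      have h5 : R * D ≤ P * (D + 1) := by
        rw [hPR]
        have : R * D ≤ R * (2 * (D + 1)) := Nat.mul_le_mul_left R (by omega)
        calc _ ≤ R * (2 * (D + 1)) := this
          _ = _ := by ring
      have h6 : 0 < P * (D + 1) := by positivity
      omega
    · have : P * ((s + 1) * N / P + 1) ≤ P * ((s + 1) * N / P) + P * (D + 1) := by
        rw [mul_add, mul_one]
        have : P * 1 ≤ P * (D + 1) := Nat.mul_le_mul_left P (by omega)
        omega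
      omega
  · have hsQ : s + 1 = QQ (lvJ k) := by omega
    have hcs1 : cut N (QQ (lvJ k)) j (s + 1) = N := by
      unfold cut
      rw [if_neg hs1]
    rw [hcs1]
    have hN : w.length ≤ N := by
      rw [hl2]
      have h1 : len ≤ N + 4 ^ j * D := le_trans (Nat.le_mul_of_pos_left _ (by positivity)) f2
      have h2 : 4 ^ j * D ≤ N := by
        refine le_trans ?_ c1
        calc 4 ^ j * D ≤ P * (D + 1) := by
              refine Nat.mul_le_mul ?_ (by omega)
              rw [hPR, hR]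
              nlinarith
          _ ≤ _ := by omega
      omega
    have haw : a ≤ w.length := by
      rw [hl2]
      have h1 : s * N + N = QQ (lvJ k) * N := by rw [← hsQ]; ring
      by_contra hcon
      have h2 : len / 2 + 1 ≤ a := by omega
      have h3 : P * (len / 2 + 1) ≤ s * N := le_trans (Nat.mul_le_mul_left P h2) ha1
      have h4 : R * len ≤ P * (len / 2 + 1) := by
        rw [hPR]
        have : len ≤ 2 * (len / 2 + 1) := by omega
        calc R * len ≤ R * (2 * (len / 2 + 1)) := Nat.mul_le_mul_left R this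
          _ = _ := by ring
      have h5 : R * D ≤ P * (D + 1) := by
        rw [hPR]
        have : R * D ≤ R * (2 * (D + 1)) := Nat.mul_le_mul_left R (by omega)
        calc _ ≤ R * (2 * (D + 1)) := this
          _ = _ := by ring
      have h6 : 0 < P * (D + 1) := by positivity
      omega
    have htake : (w.drop a).take (N - a) = (w.drop a).take (w.length - a) := by
      rw [List.take_of_length_le (by rw [List.length_drop]; omega),
        List.take_of_length_le (by rw [List.length_drop])]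
    rw [htake]
    refine main _ haw le_rfl ?_ ?_
    · rw [hl2, hsQ, hPR]
      have h1 : 2 * R * (len / 2) ≤ R * len := by
        have : 2 * (len / 2) ≤ len := by omega
        calc 2 * R * (len / 2) = R * (2 * (len / 2)) := by ring
          _ ≤ _ := Nat.mul_le_mul_left R this
      have h2 : R * D ≤ 2 * R * D := Nat.mul_le_mul_right D (by omega)
      omega
    · rw [hl2, hsQ, hPR]
      have h1 : R * len ≤ 2 * R * (len / 2) + R := by
        have : len ≤ 2 * (len / 2) + 1 := by omega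
        calc R * len ≤ R * (2 * (len / 2) + 1) := Nat.mul_le_mul_left R this
          _ = _ := by ring
      have h2 : R * D + R ≤ 2 * R * (D + 1) := by
        calc R * D + R = R * (D + 1) := by ring
          _ ≤ 2 * R * (D + 1) := Nat.mul_le_mul_right _ (by omega)
      omega

theorem cls_flat_aux {α : Type} (l : List α) (c : ℕ → ℕ) (hc : ∀ s, c s ≤ c (s + 1)) (n : ℕ) :
    (List.range n).flatMap (fun s => (l.drop (c s)).take (c (s + 1) - c s)) =
      (l.drop (c 0)).take (c n - c 0) := by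
  induction n with
  | zero => simp
  | succ n ih =>
    have hmono : c 0 ≤ c n := (monotone_nat_of_le_succ hc) (Nat.zero_le n)
    rw [List.range_succ, List.flatMap_append, ih]
    simp only [List.flatMap_cons, List.flatMap_nil, List.append_nil]
    have h1 : c (n + 1) - c 0 = (c n - c 0) + (c (n + 1) - c n) := by
      have := hc n
      omega
    rw [h1, List.take_add, List.drop_drop]
    congr 3
    omega

theorem cls_cut_mono (N Q j s : ℕ) (hQ : 0 < Q) : cut N Q j s ≤ cut N Q j (s + 1) := by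
  unfold cut
  split_ifs with h1 h2 h2
  · exact Nat.div_le_div_right (Nat.mul_le_mul_right _ (by omega))
  · have hP : 0 < 2 * 4 ^ j * Q := by positivity
    have : s * N ≤ N * (2 * 4 ^ j * Q) := by
      have h4 : 1 ≤ 4 ^ j := Nat.one_le_pow _ _ (by norm_num)
      have : s ≤ 2 * 4 ^ j * Q := by nlinarith
      calc s * N ≤ (2 * 4 ^ j * Q) * N := Nat.mul_le_mul_right _ this
        _ = _ := by ring
    exact Nat.div_le_of_le_mul (by linarith [this])
  · omega
  · exact le_rfl

theorem cls_flat_aux2 (l : List (Obj × Bool)) (c : ℕ → ℕ) (hc : ∀ s, c s ≤ c (s + 1)) (n : ℕ)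
    (h0 : c 0 = 0) (hn : l.length ≤ c n) :
    (List.range n).flatMap (fun s =>
      (((l.drop (c s)).take (c (s + 1) - c s)).filter fun q => !q.2).map Prod.fst) =
      (l.filter fun q => !q.2).map Prod.fst := by
  have h := cls_flat_aux l c hc n
  rw [h0, List.drop_zero, Nat.sub_zero, List.take_of_length_le hn] at h
  have h2 := congrArg (fun m : List (Obj × Bool) => (m.filter fun q => !q.2).map Prod.fst) h
  simp only [List.filter_flatMap, List.map_flatMap] at h2
  exact h2

theorem cls_flat (k N D : ℕ) (hk : 2 ≤ k) (σ : ℕ → Bool) (hB : Bal σ N)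
    (hT : Typ σ (lvJ k) N D) (hD : 4 ^ (lvJ k + 1) ≤ D) (hbig : KK k * (D + 1) ≤ N)
    (j : ℕ) (hj : j < lvJ k) :
    (List.range (QQ (lvJ k))).flatMap (fun s => cls σ (lvJ k) N j s) = DD σ (lvJ k) N j := by
  obtain ⟨c1, c2, c3, c4⟩ := cls_arith k N D j hk hD hbig hj
  obtain ⟨hl1, hl2⟩ := cls_word_len σ (lvJ k) N j
  obtain ⟨f1, f2⟩ := ff_count σ (lvJ k) N D hB hT j hj.le
  have hQ := cls_QQ (lvJ k)
  have h4j : 1 ≤ 4 ^ j := Nat.one_le_pow _ _ (by norm_num)
  have hc0 : cut N (QQ (lvJ k)) j 0 = 0 := by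
    unfold cut
    rw [if_pos (by omega)]
    simp
  have hcQ : cut N (QQ (lvJ k)) j (QQ (lvJ k)) = N := by
    unfold cut
    rw [if_neg (by omega)]
  have hN : ((prs σ (lvJ k) N j).zip (word σ (lvJ k) N j)).length ≤ N := by
    rw [List.length_zip, hl1, hl2, min_self]
    have h1 : (FF σ (lvJ k) N j).length ≤ N + 4 ^ j * D :=
      le_trans (Nat.le_mul_of_pos_left _ (by positivity)) f2
    have h2 : 4 ^ j * D ≤ N := by
      refine le_trans ?_ c1
      calc 4 ^ j * D ≤ (2 * 4 ^ j * QQ (lvJ k)) * (D + 1) := by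
            refine Nat.mul_le_mul ?_ (by omega)
            nlinarith
        _ ≤ _ := by omega
    omega
  rw [dd_eq]
  exact cls_flat_aux2 _ (cut N (QQ (lvJ k)) j) (fun s => cls_cut_mono _ _ _ _ (by omega)) _ hc0
    (by rw [hcQ]; exact hN)

theorem cls_mem (σ : ℕ → Bool) (J N j s : ℕ) (O : Obj) (hO : O ∈ cls σ J N j s) :
    ∃ p, cut N (QQ J) j s ≤ p ∧ p < cut N (QQ J) j (s + 1) ∧ (prs σ J N j)[p]? = some O := by
  unfold cls clsOf at hO
  rw [List.mem_map] at hO
  obtain ⟨⟨O', b⟩, hq, rfl⟩ := hO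
  have h1 := (List.mem_filter.1 hq).1
  obtain ⟨p, hp1, hp2, hp3⟩ := cls_slice _ _ _ _ h1
  refine ⟨p, hp1, ?_, ?_⟩
  · have := cls_cut_mono N (QQ J) j s (by have := cls_QQ J; omega)
    omega
  · rw [List.getElem?_zip_eq_some] at hp3
    exact hp3.1

theorem cls_loc (k N D : ℕ) (hk : 2 ≤ k) (σ : ℕ → Bool) (hB : Bal σ N)
    (hT : Typ σ (lvJ k) N D) (hD : 4 ^ (lvJ k + 1) ≤ D) (hbig : KK k * (D + 1) ≤ N)
    (j : ℕ) (hj : j < lvJ k) (s : ℕ) (hs : s < QQ (lvJ k)) (O : Obj)
    (hO : O ∈ cls σ (lvJ k) N j s) (v : ℕ) (hv : v ∈ labels O) :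
    InSeg N (QQ (lvJ k)) s v := by
  obtain ⟨c1, c2, c3, c4⟩ := cls_arith k N D j hk hD hbig hj
  obtain ⟨hl1, hl2⟩ := cls_word_len σ (lvJ k) N j
  obtain ⟨f1, f2⟩ := ff_count σ (lvJ k) N D hB hT j hj.le
  have hQ := cls_QQ (lvJ k)
  have h4j : 1 ≤ 4 ^ j := Nat.one_le_pow _ _ (by norm_num)
  have h1D : 1 ≤ D := le_trans (Nat.one_le_pow _ _ (by norm_num)) hD
  obtain ⟨p, hp1, hp2, hp3⟩ := cls_mem σ (lvJ k) N j s O hO
  have hplt : p < (FF σ (lvJ k) N j).length / 2 := by
    have := (List.getElem?_eq_some_iff.1 hp3).1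
    omega
  have hp4 := hp3
  unfold prs at hp4
  rw [cls_pairing hj] at hp4
  obtain ⟨g1, g2⟩ := cls_pairUp _ _ _ hp4
  -- location of v
  have hloc : 4 ^ j * (2 * p) ≤ v + 4 ^ j * D ∧ v ≤ 4 ^ j * (2 * p + 1) + 4 ^ j * D := by
    unfold labels at hv
    rw [List.mem_append] at hv
    rcases hv with hv | hv
    · obtain ⟨l1, l2⟩ := loc σ (lvJ k) N D hB hT h1D j hj.le _ _ g1 v hv
      refine ⟨l1, le_trans l2 ?_⟩
      have : 4 ^ j * (2 * p) ≤ 4 ^ j * (2 * p + 1) := Nat.mul_le_mul_left _ (by omega)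
      omega
    · obtain ⟨l1, l2⟩ := loc σ (lvJ k) N D hB hT h1D j hj.le _ _ g2 v hv
      refine ⟨le_trans ?_ l1, l2⟩
      exact Nat.mul_le_mul_left _ (by omega)
  obtain ⟨l1, l2⟩ := hloc
  generalize hlen : (FF σ (lvJ k) N j).length = len at *
  generalize hQe : QQ (lvJ k) = Q at *
  have hP0 : 0 < 2 * 4 ^ j * Q := by positivity
  set R := 4 ^ j * Q with hR
  have hPR : 2 * 4 ^ j * Q = 2 * R := by rw [hR]; ring
  have m1 : R * (2 * p) ≤ Q * v + R * D := by
    have := Nat.mul_le_mul_left Q l1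
    calc R * (2 * p) = Q * (4 ^ j * (2 * p)) := by rw [hR]; ring
      _ ≤ Q * (v + 4 ^ j * D) := this
      _ = _ := by rw [hR]; ring
  have m2 : Q * v ≤ R * (2 * p + 1) + R * D := by
    have := Nat.mul_le_mul_left Q l2
    calc Q * v ≤ Q * (4 ^ j * (2 * p + 1) + 4 ^ j * D) := this
      _ = _ := by rw [hR]; ring
  rw [hPR] at c1 hP0
  have c1' : 200 * (R * D) + 200 * R ≤ N := by
    calc _ = 100 * (2 * R * (D + 1)) := by ring
      _ ≤ N := c1
  have hRD : R ≤ R * D := Nat.le_mul_of_pos_right _ (by omega)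
  constructor
  · -- lower bound
    have hcs : cut N Q j s = s * N / (2 * R) := by
      unfold cut
      rw [if_pos hs, hPR]
    rw [hcs] at hp1
    have h2 : s * N < 2 * R * (s * N / (2 * R) + 1) := Nat.lt_mul_div_succ _ hP0
    have h3 : 2 * R * (s * N / (2 * R) + 1) ≤ 2 * R * (p + 1) := Nat.mul_le_mul_left _ (by omega)
    have h4 : 2 * R * (p + 1) = R * (2 * p) + 2 * R := by ring
    omega
  · by_cases hs1 : s + 1 < Q
    · have hcs : cut N Q j (s + 1) = (s + 1) * N / (2 * R) := by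
        unfold cut
        rw [if_pos hs1, hPR]
      rw [hcs] at hp2
      have h2 : 2 * R * ((s + 1) * N / (2 * R)) ≤ (s + 1) * N := Nat.mul_div_le _ _
      have h3 : 2 * R * (p + 1) ≤ 2 * R * ((s + 1) * N / (2 * R)) :=
        Nat.mul_le_mul_left _ (by omega)
      have h4 : 2 * R * (p + 1) = R * (2 * p + 1) + R := by ring
      omega
    · have hsQ : s + 1 = Q := by omega
      rw [hsQ]
      have h2 : R * (2 * p + 1) + R ≤ R * len := by
        have : 2 * p + 2 ≤ len := by omega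
        calc R * (2 * p + 1) + R = R * (2 * p + 2) := by ring
          _ ≤ _ := Nat.mul_le_mul_left _ this
      have h3 : R * len ≤ Q * N + R * D := by
        have := Nat.mul_le_mul_left Q f2
        calc R * len = Q * (4 ^ j * len) := by rw [hR]; ring
          _ ≤ Q * (N + 4 ^ j * D) := this
          _ = _ := by rw [hR]; ring
      omega

/-- the first pair, if its colours are opposite, is the first element of class `0` -/
theorem cls_zero (k N : ℕ) (σ : ℕ → Bool) (hk : 2 ≤ k) (hN : KK k ≤ N) (j : ℕ)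
    (hj : j < lvJ k) (O : Obj) (rest : List Obj) (ws : List Bool)
    (h1 : prs σ (lvJ k) N j = O :: rest) (h2 : word σ (lvJ k) N j = false :: ws) :
    ∃ rest', cls σ (lvJ k) N j 0 = O :: rest' := by
  have hQ := cls_QQ (lvJ k)
  have hc0 : cut N (QQ (lvJ k)) j 0 = 0 := by
    unfold cut
    rw [if_pos (by omega)]
    simp
  have hc1 : 1 ≤ cut N (QQ (lvJ k)) j 1 := by
    unfold cut
    rw [if_pos hQ, one_mul]
    have hP0 : 0 < 2 * 4 ^ j * QQ (lvJ k) := by positivity
    rw [Nat.one_le_div_iff hP0]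
    refine le_trans ?_ hN
    unfold KK
    have h1 : 1 ≤ k ^ 4 := Nat.one_le_pow _ _ (by omega)
    have h2 : (4 : ℕ) ^ j ≤ 4 ^ (lvJ k + 1) := Nat.pow_le_pow_right (by norm_num) (by omega)
    calc 2 * 4 ^ j * QQ (lvJ k) = 2 * 1 * 4 ^ j * QQ (lvJ k) := by ring
      _ ≤ 100000 * k ^ 4 * 4 ^ (lvJ k + 1) * QQ (lvJ k) := by gcongr; norm_num
  unfold cls clsOf
  rw [h1, h2, hc0, List.zip_cons_cons, List.drop_zero, Nat.sub_zero]
  obtain ⟨m, hm⟩ := Nat.exists_eq_add_of_le hc1
  rw [show 0 + 1 = 1 from rfl, hm, Nat.add_comm 1 m, List.take_succ_cons]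
  exact ⟨_, rfl⟩

end Pool.Agent.Lib_helper4.Asy
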