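import Mathlib

/-!
Odd-cycle-different Hamiltonian paths: `M_k(n) ≥ (1 - exp(-c n)) b(n)` for every `k ≥ 2`.
Definitions of the scheme.
-/

set_option autoImplicit false

namespace Pool.Agent.Lib_helper4.Asy

/-- An object: a pair of chains of labels (of the same length). -/
abbrev Obj := List ℕ × List ℕ

/-! ### lists -/

/-- alternating merge `x₀ y₀ x₁ y₁ …` -/
def il {α : Type} : List α → List α → List α
  | [], ys => ys
  | x :: xs, ys => x :: il ys xs
termination_by xs ys => xs.length + ys.length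

/-- consecutive pairs -/
def pairUp {α : Type} : List α → List (α × α)
  | x :: y :: t => (x, y) :: pairUp t
  | _ => []

def unpair {α : Type} (L : List (α × α)) : List α := L.flatMap fun p => [p.1, p.2]

/-- the window `[7n/16, 9n/16)` is put last -/
def midLast {α : Type} (A : List α) : List α :=
  A.take (7 * A.length / 16) ++ A.drop (9 * A.length / 16) ++
    (A.drop (7 * A.length / 16)).take (9 * A.length / 16 - 7 * A.length / 16)

/-- the window `[7n/16, 9n/16)` is put first -/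
def midFirst {α : Type} (A : List α) : List α :=
  (A.drop (7 * A.length / 16)).take (9 * A.length / 16 - 7 * A.length / 16) ++
    A.take (7 * A.length / 16) ++ A.drop (9 * A.length / 16)

/-- pairs `(b_i, b_{i+c})`, `i < c = n/4` -/
def alphaP {α : Type} (F : List α) : List (α × α) :=
  (F.take (F.length / 4)).zip (F.drop (F.length / 4))

/-- pairs `(b_{2c+c'+i}, b_{2c+i})`, `i < c' = n/2 - c` -/
def betaP {α : Type} (F : List α) : List (α × α) :=
  (F.drop (2 * (F.length / 4) + (F.length / 2 - F.length / 4))).zip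
    ((F.drop (2 * (F.length / 4))).take (F.length / 2 - F.length / 4))

def pairQ {α : Type} (F : List α) : List (α × α) := midLast (alphaP F) ++ midFirst (betaP F)

def pairH {α : Type} (F : List α) : List (α × α) :=
  (F.take (F.length / 2)).zip (F.drop (F.length / 2))

/-- the pairing rule of level `j` (`J` = first large level) -/
def pairing (J j : ℕ) {α : Type} (F : List α) : List (α × α) :=
  if j = J then pairQ F else if j = J + 1 then pairH F else pairUp F

/-! ### the tournament -/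

/-- do the two chains have the same colour ? -/
def same (σ : ℕ → Bool) (p : Obj) : Bool := σ (p.1.headD 0) == σ (p.2.headD 0)

/-- chains of level `j` -/
def FF (σ : ℕ → Bool) (J N : ℕ) : ℕ → List (List ℕ)
  | 0 => (List.range N).map fun v => [v]
  | j + 1 => ((pairing J j (FF σ J N j)).filter (same σ)).map fun p => p.1 ++ p.2

def prs (σ : ℕ → Bool) (J N j : ℕ) : List Obj := pairing J j (FF σ J N j)

def word (σ : ℕ → Bool) (J N j : ℕ) : List Bool := (prs σ J N j).map (same σ)

/-- objects of level `j` whose two chains have opposite colours -/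
def DD (σ : ℕ → Bool) (J N j : ℕ) : List Obj := (prs σ J N j).filter fun p => !same σ p

/-- the labels of an object -/
def labels (O : Obj) : List ℕ := O.1 ++ O.2

/-- balanced colouring of `0, …, N-1` -/
def Bal (σ : ℕ → Bool) (N : ℕ) : Prop := 2 * (List.range N).countP σ = N

/-- typical colouring: prefix discrepancies of the status words of levels `≤ J` are at most `D` -/
def Typ (σ : ℕ → Bool) (J N D : ℕ) : Prop :=
  ∀ j ≤ J, ∀ i ≤ (word σ J N j).length,
    2 * ((word σ J N j).take i).count true ≤ i + D ∧ i ≤ 2 * ((word σ J N j).take i).count true + D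

/-! ### static segments -/

/-- number of small levels: least `J ≥ 2` with `k ≤ 2 ^ J` -/
def lvJ (k : ℕ) : ℕ := max 2 (Nat.clog 2 k)

/-- number of segments -/
def QQ (J : ℕ) : ℕ := 64 ^ (3 * J + 3)

def cut (N Q j s : ℕ) : ℕ := if s < Q then s * N / (2 * 4 ^ j * Q) else N

/-- the objects of level `j` in segment `s`, as a function of pairs and statuses -/
def clsOf (N Q j s : ℕ) (ps : List Obj) (w : List Bool) : List Obj :=
  ((((ps.zip w).drop (cut N Q j s)).take (cut N Q j (s + 1) - cut N Q j s)).filter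
    fun q => !q.2).map Prod.fst

def cls (σ : ℕ → Bool) (J N j s : ℕ) : List Obj :=
  clsOf N (QQ J) j s (prs σ J N j) (word σ J N j)

/-- label `v` lies (roughly) in segment `s` -/
def InSeg (N Q s v : ℕ) : Prop := s * N ≤ Q * v + N / 10 ∧ Q * v ≤ (s + 1) * N + N / 10

/-- the labels `u`, `v` are far from each other, also cyclically -/
def FarL (N u v : ℕ) : Prop :=
  (N ≤ 16 * (u - v) ∨ N ≤ 16 * (v - u)) ∧ 16 * (u - v) ≤ 15 * N ∧ 16 * (v - u) ≤ 15 * N

def dl (j : ℕ) : ℤ := 64 ^ (2 * j)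
def ep (j : ℕ) : ℤ := 64 ^ (2 * j + 1)

def Fset (j : ℕ) (e : ℤ) : Prop :=
  e = dl j ∨ e = -dl j ∨ e = ep j ∨ e = ep j + dl j ∨ e = ep j - dl j

def Wset (J j : ℕ) (e : ℤ) : Prop :=
  e = 0 ∨ (1 ≤ j ∧ Fset j e) ∨
    (j = 0 ∧ (e = 1 ∨ e = -1 ∨
      ∃ i, 1 ≤ i ∧ i < J ∧ (e = -ep i ∨ e = -ep i - dl i ∨ e = -ep i + dl i)))

/-- a chain letter of a level-`j` object of segment `s₁` may face a letter of an object of
segment `s₂` -/
def Fr (J j s₁ s₂ : ℕ) : Prop := ∃ e, Fset j e ∧ (s₂ : ℤ) - s₁ ≡ e [ZMOD (QQ J : ℤ)]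

/-- a level-`j` object of segment `s₁` may share its block with an object of segment `s₂` -/
def Wr (J j s₁ s₂ : ℕ) : Prop := ∃ e, Wset J j e ∧ (s₂ : ℤ) - s₁ ≡ e [ZMOD (QQ J : ℤ)]

/-! ### blocks -/

/-- tagged object -/
structure Tg (α : Type) where
  o : α
  lev : ℕ
  seg : ℕ

/-- closed blocks: O-block, closing gadget, solid object -/
inductive Blk (α : Type) : Type
  | ob (As Bs : List α) : Blk α
  | gad (us : List (α × α)) : Blk α
  | sol (o : α) : Blk α

def Blk.objs {α : Type} : Blk α → List α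
  | .ob As Bs => As ++ Bs
  | .gad us => unpair us
  | .sol o => [o]

def GoodOb (k J : ℕ) {α : Type} (As Bs : List (Tg α)) : Prop :=
  (As.map fun a => 2 ^ a.lev).sum = k ∧ (Bs.map fun a => 2 ^ a.lev).sum = k - 1 ∧
  (∀ a ∈ As, ∀ b ∈ Bs, (1 ≤ a.lev → Fr J a.lev a.seg b.seg) ∧
    (1 ≤ b.lev → Fr J b.lev b.seg a.seg)) ∧
  (∀ a ∈ As ++ Bs, ∀ b ∈ As ++ Bs, Wr J a.lev a.seg b.seg)

def GoodGad (k J : ℕ) {α : Type} (us : List (Tg α × Tg α)) : Prop :=
  us.length = k / 2 ∧
  (∀ p ∈ us, p.1.lev = 1 ∧ p.2.lev = 1 ∧ Fr J 1 p.1.seg p.2.seg ∧ Fr J 1 p.2.seg p.1.seg) ∧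
  (∀ a ∈ unpair us, ∀ b ∈ unpair us, Wr J 1 a.seg b.seg)

def GoodBlk (k J : ℕ) {α : Type} : Blk (Tg α) → Prop
  | .ob As Bs => GoodOb k J As Bs
  | .gad us => GoodGad k J us
  | .sol _ => False

/-- all tagged objects of the classes `X j s`, `j < J`, `s < Q` -/
def allTags (J : ℕ) {α : Type} (X : ℕ → ℕ → List α) : List (Tg α) :=
  (List.range J).flatMap fun j => (List.range (QQ J)).flatMap fun s =>
    (X j s).map fun O => ⟨O, j, s⟩

/-! ### the labels of a block in path order; `β O` is the orientation bit of `O` -/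

def top (β : Obj → Bool) (O : Obj) : List ℕ := if β O then O.1 else O.2.reverse
def bot (β : Obj → Bool) (O : Obj) : List ℕ := if β O then O.2.reverse else O.1

def obp (β : Obj → Bool) (As Bs : List Obj) : List ℕ :=
  il (As.flatMap (top β)) (Bs.flatMap (top β)) ++ il (As.flatMap (bot β)) (Bs.flatMap (bot β))

def solp (β : Obj → Bool) (O : Obj) : List ℕ := il (top β O) (bot β O)

/-- `i`-th letter -/
def lt (l : List ℕ) (i : ℕ) : ℕ := l.getD i 0

/-- first row of a unit of the closing gadget -/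
def frow (k : ℕ) (β : Obj → Bool) (u : Obj × Obj) : List ℕ :=
  if k % 2 = 0 then
    [if β u.1 then lt u.1.1 0 else lt u.1.2 1, if β u.2 then lt u.2.1 0 else lt u.2.2 1,
     if β u.1 then lt u.1.1 1 else lt u.1.2 0, if β u.2 then lt u.2.1 1 else lt u.2.2 0]
  else
    [if β u.1 then lt u.1.1 0 else lt u.1.2 1, if β u.2 then lt u.2.1 1 else lt u.2.2 0,
     if β u.1 then lt u.1.1 1 else lt u.1.2 0, if β u.2 then lt u.2.1 0 else lt u.2.2 1]

/-- second row of a unit of the closing gadget -/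
def grow (k : ℕ) (β : Obj → Bool) (u : Obj × Obj) : List ℕ :=
  if k % 2 = 0 then
    [if β u.2 then lt u.2.2 1 else lt u.2.1 0, if β u.1 then lt u.1.2 0 else lt u.1.1 1,
     if β u.2 then lt u.2.2 0 else lt u.2.1 1, if β u.1 then lt u.1.2 1 else lt u.1.1 0]
  else
    [if β u.2 then lt u.2.2 1 else lt u.2.1 0, if β u.1 then lt u.1.2 1 else lt u.1.1 0,
     if β u.2 then lt u.2.2 0 else lt u.2.1 1, if β u.1 then lt u.1.2 0 else lt u.1.1 1]

def gadp (k : ℕ) (β : Obj → Bool) (us : List (Obj × Obj)) : List ℕ :=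
  us.flatMap (frow k β) ++ us.flatMap (grow k β)

def bp (k : ℕ) (β : Obj → Bool) : Blk (Tg Obj) → List ℕ
  | .ob As Bs => obp β (As.map Tg.o) (Bs.map Tg.o)
  | .gad us => gadp k β (us.map fun p => (p.1.o, p.2.o))
  | .sol o => solp β o.o

/-! ### adjacency on a path, cycles -/

/-- `u`, `v` are neighbours on the path `P` -/
def AdjL (P : List ℕ) (u v : ℕ) : Prop :=
  ∃ i, (P[i]? = some u ∧ P[i + 1]? = some v) ∨ (P[i]? = some v ∧ P[i + 1]? = some u)

/-- `c` is (the vertex list of) a cycle of length `2k+1` in the union of the paths `P`, `P'` -/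
def CycIn (k : ℕ) (P P' c : List ℕ) : Prop :=
  c.length = 2 * k + 1 ∧ c.Nodup ∧
  ∀ i < 2 * k + 1, AdjL P (c.getD i 0) (c.getD ((i + 1) % (2 * k + 1)) 0) ∨
    AdjL P' (c.getD i 0) (c.getD ((i + 1) % (2 * k + 1)) 0)

/-- a cycle of length `2k+1` avoiding the label `0` -/
def HasCyc (k : ℕ) (P P' : List ℕ) : Prop := ∃ c, CycIn k P P' c ∧ 0 ∉ c

/-- colouring given by a function on `Fin N` -/
def ext {N : ℕ} (f : Fin N → Bool) : ℕ → Bool := fun v => if h : v < N then f ⟨v, h⟩ else false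

/-! ### further definitions -/

/-- sizes of an O-block -/
def ObSize (k : ℕ) (As Bs : List Obj) : Prop :=
  (∀ O ∈ As ++ Bs, O.1.length = O.2.length) ∧ (∀ O ∈ As ++ Bs, O.1 ≠ []) ∧
  (As.map fun O => O.1.length).sum = k ∧ (Bs.map fun O => O.1.length).sum = k - 1

def GadSize (k : ℕ) (us : List (Obj × Obj)) : Prop :=
  us.length = k / 2 ∧ ∀ u ∈ us, u.1.1.length = 2 ∧ u.1.2.length = 2 ∧
    u.2.1.length = 2 ∧ u.2.2.length = 2

/-- the constant of the scheme -/
def KK (k : ℕ) : ℕ := 100000 * k ^ 4 * 4 ^ (lvJ k + 1) * QQ (lvJ k)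

/-- unit of the class sizes -/
def MM (k N : ℕ) : ℕ := N / (4 ^ (lvJ k + 1) * QQ (lvJ k))

structure IsSkel (k N : ℕ) (ps : ℕ → List Obj) (ws : ℕ → List Bool)
    (sk : List (Blk (Tg Obj))) : Prop where
  perm : ((sk.flatMap Blk.objs).map Tg.o).Perm ((List.range N).flatMap fun j =>
    (((ps j).zip (ws j)).filter fun q => !q.2).map Prod.fst)
  small : ∀ b ∈ sk, (∃ o, b = Blk.sol o) ∨ (GoodBlk k (lvJ k) b ∧ ∀ a ∈ b.objs,
    a.lev < lvJ k ∧ a.seg < QQ (lvJ k) ∧
      a.o ∈ clsOf N (QQ (lvJ k)) a.lev a.seg (ps a.lev) (ws a.lev))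
  solid : ∀ o, Blk.sol o ∈ sk → (∃ j, lvJ k ≤ j ∧
    o.o ∈ (((ps j).zip (ws j)).filter fun q => !q.2).map Prod.fst) ∨
      (o.o.1 = [0] ∧ o.o.2.length = 1)
  first : ∃ b rest, sk = b :: rest ∧
    ((∃ o, b = Blk.sol o ∧ o.o.1.head? = some 0) ∨
     (∃ O As Bs, b = Blk.ob (O :: As) Bs ∧ O.o.1.head? = some 0 ∧ 2 ≤ O.o.1.length))

open Classical in
/-- the skeleton, a function of the pairs and the status words only -/
noncomputable def skOf (k N : ℕ) (ps : ℕ → List Obj) (ws : ℕ → List Bool) :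
    List (Blk (Tg Obj)) :=
  if h : ∃ sk, IsSkel k N ps ws sk then h.choose else []

/-- orientation bit -/
def bet (σ : ℕ → Bool) (O : Obj) : Bool := σ (O.1.headD 0)

/-- the Hamiltonian path of a colouring -/
noncomputable def pathOf (k N : ℕ) (σ : ℕ → Bool) : List ℕ :=
  (skOf k N (prs σ (lvJ k) N) (word σ (lvJ k) N)).flatMap (bp k (bet σ))

/-- typical balanced colouring in which the label `0` has colour `true` -/
structure Ok (k N D : ℕ) (σ : ℕ → Bool) : Prop where
  bal : Bal σ N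
  typ : Typ σ (lvJ k) N D
  zero : σ 0 = true

end Pool.Agent.Lib_helper4.Asy
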