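import Pool.Agent.Lib_helper4.AsyF.Defs

set_option autoImplicit false

namespace Pool.Agent.Lib_helper4.Asy

theorem il_nil {α : Type} (ys : List α) : il [] ys = ys := by
  rw [il]

theorem il_cons {α : Type} (x : α) (xs ys : List α) : il (x :: xs) ys = x :: il ys xs := by
  rw [il]

theorem il_length {α : Type} (xs ys : List α) :
    (il xs ys).length = xs.length + ys.length := by
  induction xs, ys using il.induct with
  | case1 ys => rw [il_nil]; simp
  | case2 x xs ys ih => rw [il_cons, List.length_cons, ih, List.length_cons]; omega

theorem il_perm {α : Type} (xs ys : List α) : (il xs ys).Perm (xs ++ ys) := by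
  induction xs, ys using il.induct with
  | case1 ys => rw [il_nil]; simp
  | case2 x xs ys ih =>
    rw [il_cons, List.cons_append]
    exact List.Perm.cons x (ih.trans List.perm_append_comm)

theorem il_get {α : Type} (n : ℕ) : ∀ (xs ys : List α), xs.length + ys.length ≤ n →
    (xs.length = ys.length ∨ xs.length = ys.length + 1) → ∀ i,
    (il xs ys)[2 * i]? = xs[i]? ∧ (il xs ys)[2 * i + 1]? = ys[i]? := by
  induction n with
  | zero =>
    intro xs ys hn h i
    have h1 : xs = [] := List.length_eq_zero_iff.1 (by omega)
    have h2 : ys = [] := List.length_eq_zero_iff.1 (by omega)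
    subst h1 h2
    simp [il_nil]
  | succ n ih =>
    intro xs ys hn h i
    cases xs with
    | nil =>
      have h2 : ys = [] := by
        apply List.length_eq_zero_iff.1
        simp at h
        omega
      subst h2
      simp [il_nil]
    | cons x xs =>
      rw [il_cons]
      have hlen : ys.length = xs.length ∨ ys.length = xs.length + 1 := by
        simp only [List.length_cons] at h
        omega
      have key := ih ys xs (by simp only [List.length_cons] at hn; omega) hlen
      constructor
      · cases i with
        | zero => simp
        | succ i =>
          have := (key i).2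
          rw [show 2 * (i + 1) = (2 * i + 1) + 1 by ring, List.getElem?_cons_succ,
            List.getElem?_cons_succ]
          exact this
      · rw [List.getElem?_cons_succ]
        exact (key i).1

theorem il_even {α : Type} (xs ys : List α)
    (h : xs.length = ys.length ∨ xs.length = ys.length + 1) (i : ℕ) :
    (il xs ys)[2 * i]? = xs[i]? := (il_get _ xs ys le_rfl h i).1

theorem il_odd {α : Type} (xs ys : List α)
    (h : xs.length = ys.length ∨ xs.length = ys.length + 1) (i : ℕ) :
    (il xs ys)[2 * i + 1]? = ys[i]? := (il_get _ xs ys le_rfl h i).2

end Pool.Agent.Lib_helper4.Asy
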