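import Pool.Agent.Lib_helper4.AsyF.TRN1

set_option autoImplicit false

namespace Pool.Agent.Lib_helper4.Asy

/-! ## Block LOC : location of the chains -/

/-- element `i` of a filtered list comes from a position `p` whose prefix contains exactly `i`
elements satisfying the predicate -/
theorem loc_filter_get {α : Type} (f : α → Bool) : ∀ (L : List α) (i : ℕ) (x : α),
    (L.filter f)[i]? = some x →
      ∃ p, L[p]? = some x ∧ ((L.map f).take p).count true = i ∧ p < L.length
  | [], i, x, h => by simp at h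
  | a :: L, i, x, h => by
    by_cases ha : f a
    · rw [List.filter_cons_of_pos ha] at h
      cases i with
      | zero =>
        refine ⟨0, ?_, by simp, by simp⟩
        simpa using h
      | succ i =>
        rw [List.getElem?_cons_succ] at h
        obtain ⟨p, h1, h2, h3⟩ := loc_filter_get f L i x h
        refine ⟨p + 1, by simpa using h1, ?_, by simpa using h3⟩
        rw [List.map_cons, List.take_succ_cons, ha, List.count_cons_self, h2]
    · rw [List.filter_cons_of_neg ha] at h
      obtain ⟨p, h1, h2, h3⟩ := loc_filter_get f L i x h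
      refine ⟨p + 1, by simpa using h1, ?_, by simpa using h3⟩
      have hf : f a = false := by simpa using ha
      rw [List.map_cons, List.take_succ_cons, hf, List.count_cons_of_ne (by simp), h2]

theorem loc_pairUp_get {α : Type} : ∀ (F : List α) (p : ℕ) (x : α × α),
    (pairUp F)[p]? = some x → F[2 * p]? = some x.1 ∧ F[2 * p + 1]? = some x.2
  | [], p, x, h => by simp [pairUp] at h
  | [a], p, x, h => by simp [pairUp] at h
  | a :: b :: t, p, x, h => by
    rw [pairUp] at h
    cases p with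
    | zero =>
      simp at h
      subst h
      simp
    | succ p =>
      rw [List.getElem?_cons_succ] at h
      have := loc_pairUp_get t p x h
      have e : 2 * (p + 1) = 2 * p + 1 + 1 := by ring
      rw [e]
      simpa using this

theorem loc_range_get (N i : ℕ) (c : List ℕ)
    (h : ((List.range N).map fun v => [v])[i]? = some c) : c = [i] := by
  rw [List.getElem?_map] at h
  rcases lt_or_ge i N with hi | hi
  · rw [List.getElem?_range hi] at h
    simpa using h.symm
  · rw [List.getElem?_eq_none (by simpa using hi)] at h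
    simp at h

/-- exact error form -/
theorem loc_aux (σ : ℕ → Bool) (J N D : ℕ) (hT : Typ σ J N D)
    (j : ℕ) (hj : j ≤ J) (i : ℕ) (c : List ℕ) (hc : (FF σ J N j)[i]? = some c) :
    ∀ v ∈ c, 3 * (4 ^ j * i) + 0 ≤ 3 * v + (4 ^ j - 1) * (1 + 2 * D) ∧
      3 * v ≤ 3 * (4 ^ j * i) + (4 ^ j - 1) * (1 + 2 * D) := by
  induction j generalizing i c with
  | zero =>
    intro v hv
    simp only [FF] at hc
    have := loc_range_get N i c hc
    subst this
    simp only [List.mem_singleton] at hv
    subst hv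
    simp
  | succ j ih =>
    intro v hv
    have hjJ : j < J := hj
    simp only [FF] at hc
    rw [List.getElem?_map, Option.map_eq_some_iff] at hc
    obtain ⟨q, hq, rfl⟩ := hc
    obtain ⟨p, hp1, hp2, hp3⟩ := loc_filter_get (same σ) _ i q hq
    have hpair : pairing J j (FF σ J N j) = pairUp (FF σ J N j) := by
      unfold pairing
      rw [if_neg (by omega), if_neg (by omega)]
    have hw := hT j (by omega) p (by
      unfold word prs
      rw [List.length_map]; exact hp3.le)
    have hw2 : ((word σ J N j).take p).count true = i := hp2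
    rw [hw2] at hw
    rw [hpair] at hp1
    obtain ⟨g1, g2⟩ := loc_pairUp_get _ p q hp1
    have hpow : 1 ≤ 4 ^ j := Nat.one_le_pow _ _ (by norm_num)
    obtain ⟨E, hE⟩ : ∃ E, 4 ^ j = E + 1 := ⟨4 ^ j - 1, by omega⟩
    have hE' : 4 ^ (j + 1) - 1 = 4 * E + 3 := by rw [pow_succ, hE]; omega
    -- location of `v` at level `j`
    have hv' : (3 * (4 ^ j * (2 * p)) ≤ 3 * v + E * (1 + 2 * D)) ∧
        3 * v ≤ 3 * (4 ^ j * (2 * p + 1)) + E * (1 + 2 * D) := by
      rcases List.mem_append.1 hv with h | h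
      · have := ih (by omega) (2 * p) q.1 g1 v h
        rw [show 4 ^ j - 1 = E by omega] at this
        refine ⟨by omega, ?_⟩
        have h3 : 4 ^ j * (2 * p) ≤ 4 ^ j * (2 * p + 1) := Nat.mul_le_mul_left _ (by omega)
        omega
      · have := ih (by omega) (2 * p + 1) q.2 g2 v h
        rw [show 4 ^ j - 1 = E by omega] at this
        refine ⟨?_, by omega⟩
        have h3 : 4 ^ j * (2 * p) ≤ 4 ^ j * (2 * p + 1) := Nat.mul_le_mul_left _ (by omega)
        omega
    rw [hE']
    obtain ⟨w1, w2⟩ := hw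
    obtain ⟨v1, v2⟩ := hv'
    have e1 : 4 ^ (j + 1) = 4 * (E + 1) := by rw [pow_succ, hE]; ring
    rw [e1]
    rw [hE] at v1 v2
    constructor
    · nlinarith [Nat.mul_le_mul_left (E + 1) w1]
    · nlinarith [Nat.mul_le_mul_left (E + 1) w2]

theorem loc (σ : ℕ → Bool) (J N D : ℕ) (_hB : Bal σ N) (hT : Typ σ J N D) (hD : 1 ≤ D)
    (j : ℕ) (hj : j ≤ J) (i : ℕ) (c : List ℕ) (hc : (FF σ J N j)[i]? = some c) :
    ∀ v ∈ c, 4 ^ j * i ≤ v + 4 ^ j * D ∧ v ≤ 4 ^ j * i + 4 ^ j * D := by
  intro v hv
  obtain ⟨h1, h2⟩ := loc_aux σ J N D hT j hj i c hc v hv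
  have hpow : 1 ≤ 4 ^ j := Nat.one_le_pow _ _ (by norm_num)
  obtain ⟨E, hE⟩ : ∃ E, 4 ^ j = E + 1 := ⟨4 ^ j - 1, by omega⟩
  rw [hE] at h1 h2 ⊢
  have h3 : E + 1 - 1 = E := by omega
  rw [h3] at h1 h2
  have h4 : E * (1 + 2 * D) ≤ 3 * ((E + 1) * D) := by nlinarith [Nat.mul_le_mul_left E hD]
  constructor <;> omega

theorem ff_count (σ : ℕ → Bool) (J N D : ℕ) (hB : Bal σ N) (hT : Typ σ J N D)
    (j : ℕ) (hj : j ≤ J) :
    N ≤ 4 ^ j * (FF σ J N j).length + 4 ^ j * D ∧
      4 ^ j * (FF σ J N j).length ≤ N + 4 ^ j * D := by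
  have H : ∀ j ≤ J, 3 * N ≤ 3 * (4 ^ j * (FF σ J N j).length) + (4 ^ j - 1) * (2 * D) ∧
      3 * (4 ^ j * (FF σ J N j).length) ≤ 3 * N + (4 ^ j - 1) * (2 * D) := by
    intro j
    induction j with
    | zero => intro _; simp [FF]
    | succ j ih =>
      intro hj
      obtain ⟨i1, i2⟩ := ih (by omega)
      have hw := hT j (by omega) (word σ J N j).length le_rfl
      rw [List.take_length, trn_count_true] at hw
      have hl : (word σ J N j).length = (FF σ J N j).length / 2 := by
        unfold word prs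
        rw [List.length_map, pairing_length]
      obtain ⟨m, hm⟩ := ff_even σ J N hB j
      have hl' : (FF σ J N j).length = 2 * (word σ J N j).length := by omega
      obtain ⟨w1, w2⟩ := hw
      have hpow : 1 ≤ 4 ^ j := Nat.one_le_pow _ _ (by norm_num)
      obtain ⟨E, hE⟩ : ∃ E, 4 ^ j = E + 1 := ⟨4 ^ j - 1, by omega⟩
      have hE' : 4 ^ (j + 1) - 1 = 4 * E + 3 := by rw [pow_succ, hE]; omega
      have e1 : 4 ^ (j + 1) = 4 * (E + 1) := by rw [pow_succ, hE]; ring
      rw [hE', e1]
      rw [hE, hl'] at i1 i2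
      rw [show E + 1 - 1 = E by omega] at i1 i2
      constructor
      · nlinarith [Nat.mul_le_mul_left (E + 1) w2]
      · nlinarith [Nat.mul_le_mul_left (E + 1) w1]
  obtain ⟨h1, h2⟩ := H j hj
  have hpow : 1 ≤ 4 ^ j := Nat.one_le_pow _ _ (by norm_num)
  obtain ⟨E, hE⟩ : ∃ E, 4 ^ j = E + 1 := ⟨4 ^ j - 1, by omega⟩
  rw [hE] at h1 h2 ⊢
  rw [show E + 1 - 1 = E by omega] at h1 h2
  have h4 : E * (2 * D) ≤ 3 * ((E + 1) * D) := by nlinarith
  constructor <;> omega

end Pool.Agent.Lib_helper4.Asy
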