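import Pool.Agent.Lib_helper4.AsyF.LOC
import Pool.Agent.Lib_helper4.AsyF.TRN2

set_option autoImplicit false

namespace Pool.Agent.Lib_helper4.Asy

/-- the pairs of `P` consist of entries of `F`; index `0` is used only as first component of the
first pair -/
def ZGood {α : Type} (F : List α) (P : List (α × α)) : Prop :=
  ∀ (p : ℕ) (q : α × α), P[p]? = some q →
    ∃ a b, F[a]? = some q.1 ∧ F[b]? = some q.2 ∧ b ≠ 0 ∧ (a = 0 ↔ p = 0)

theorem zero_pairUp {α : Type} : ∀ (F : List α) (p : ℕ) (q : α × α), (pairUp F)[p]? = some q →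
    F[2 * p]? = some q.1 ∧ F[2 * p + 1]? = some q.2
  | [], p, q, h => by simp [pairUp] at h
  | [x], p, q, h => by simp [pairUp] at h
  | x :: y :: t, 0, q, h => by
    simp only [pairUp, List.getElem?_cons_zero, Option.some.injEq] at h
    subst h
    simp
  | x :: y :: t, p + 1, q, h => by
    simp only [pairUp, List.getElem?_cons_succ] at h
    have := zero_pairUp t p q h
    rw [show 2 * (p + 1) + 1 = (2 * p + 1) + 1 + 1 by ring,
      show 2 * (p + 1) = (2 * p) + 1 + 1 by ring]
    simpa using this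

theorem zgood_pairUp {α : Type} (F : List α) : ZGood F (pairUp F) := by
  intro p q h
  obtain ⟨h1, h2⟩ := zero_pairUp F p q h
  exact ⟨_, _, h1, h2, by omega, by omega⟩

theorem zgood_pairH {α : Type} (F : List α) : ZGood F (pairH F) := by
  intro p q h
  unfold pairH at h
  rw [List.getElem?_zip_eq_some, List.getElem?_take] at h
  obtain ⟨h1, h2⟩ := h
  split_ifs at h1 with hp
  rw [List.getElem?_drop] at h2
  exact ⟨_, _, h1, h2, by omega, by omega⟩

theorem zero_midLast {α : Type} (A : List α) (hA : 3 ≤ A.length) (p : ℕ) (x : α)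
    (h : (midLast A)[p]? = some x) : ∃ i, A[i]? = some x ∧ (i = 0 ↔ p = 0) := by
  unfold midLast at h
  have hT : 1 ≤ (A.take (7 * A.length / 16)).length := by
    rw [List.length_take]
    omega
  rw [List.append_assoc] at h
  by_cases hp : p < (A.take (7 * A.length / 16)).length
  · rw [List.getElem?_append_left hp, List.getElem?_take] at h
    split_ifs at h with h1
    exact ⟨p, h, Iff.rfl⟩
  · rw [List.getElem?_append_right (by omega)] at h
    have hmem := List.mem_of_getElem? h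
    rw [List.mem_append] at hmem
    rcases hmem with hmem | hmem
    · obtain ⟨i, hi⟩ := List.mem_iff_getElem?.1 hmem
      rw [List.getElem?_drop] at hi
      exact ⟨_, hi, by omega⟩
    · obtain ⟨i, hi⟩ := List.mem_iff_getElem?.1 (List.mem_of_mem_take hmem)
      rw [List.getElem?_drop] at hi
      exact ⟨_, hi, by omega⟩

theorem zero_midFirst {α : Type} (A : List α) (x : α) (h : x ∈ midFirst A) : x ∈ A := by
  unfold midFirst at h
  rw [List.append_assoc, List.mem_append, List.mem_append] at h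
  rcases h with h | h | h
  · exact List.mem_of_mem_drop (List.mem_of_mem_take h)
  · exact List.mem_of_mem_take h
  · exact List.mem_of_mem_drop h

theorem zgood_pairQ {α : Type} (F : List α) (hF : 12 ≤ F.length) : ZGood F (pairQ F) := by
  intro p q h
  unfold pairQ at h
  have hlen : (alphaP F).length = F.length / 4 := by
    unfold alphaP
    rw [List.length_zip, List.length_take, List.length_drop]
    omega
  have hml : 1 ≤ (midLast (alphaP F)).length := by
    unfold midLast
    rw [List.length_append, List.length_append, List.length_take, hlen]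
    omega
  by_cases hp : p < (midLast (alphaP F)).length
  · rw [List.getElem?_append_left hp] at h
    obtain ⟨i, hi, hip⟩ := zero_midLast _ (by omega) p q h
    unfold alphaP at hi
    rw [List.getElem?_zip_eq_some, List.getElem?_take] at hi
    obtain ⟨h1, h2⟩ := hi
    split_ifs at h1 with h3
    rw [List.getElem?_drop] at h2
    exact ⟨_, _, h1, h2, by omega, hip⟩
  · rw [List.getElem?_append_right (by omega)] at h
    have hmem := zero_midFirst _ _ (List.mem_of_getElem? h)
    obtain ⟨i, hi⟩ := List.mem_iff_getElem?.1 hmem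
    unfold betaP at hi
    rw [List.getElem?_zip_eq_some, List.getElem?_take] at hi
    obtain ⟨h1, h2⟩ := hi
    split_ifs at h2 with h3
    rw [List.getElem?_drop] at h1 h2
    exact ⟨_, _, h1, h2, by omega, by omega⟩

theorem zgood_pairing {α : Type} (J j : ℕ) (F : List α) (hF : j = J → 12 ≤ F.length) :
    ZGood F (pairing J j F) := by
  unfold pairing
  split_ifs with h1 h2
  · exact zgood_pairQ F (hF h1)
  · exact zgood_pairH F
  · exact zgood_pairUp F

/-- size of the list of level `J` -/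
theorem zero_size (k N D : ℕ) (hk : 2 ≤ k) (σ : ℕ → Bool) (hB : Bal σ N)
    (hT : Typ σ (lvJ k) N D) (hbig : KK k * (D + 1) ≤ N) :
    12 ≤ (FF σ (lvJ k) N (lvJ k)).length := by
  obtain ⟨h1, -⟩ := ff_count σ (lvJ k) N D hB hT (lvJ k) le_rfl
  by_contra hcon
  have h2 : (FF σ (lvJ k) N (lvJ k)).length ≤ 11 := by omega
  have h3 : 4 ^ lvJ k * (FF σ (lvJ k) N (lvJ k)).length ≤ 4 ^ lvJ k * 11 :=
    Nat.mul_le_mul_left _ h2
  have h4 : 4 ^ lvJ k * 12 * (D + 1) ≤ KK k * (D + 1) := by
    refine Nat.mul_le_mul_right _ ?_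
    unfold KK
    have hQ : 1 ≤ QQ (lvJ k) := Nat.one_le_pow _ _ (by norm_num)
    have hk4 : 1 ≤ k ^ 4 := Nat.one_le_pow _ _ (by omega)
    calc 4 ^ lvJ k * 12 = 12 * 1 * 4 ^ lvJ k * 1 := by ring
      _ ≤ 100000 * k ^ 4 * 4 ^ (lvJ k + 1) * QQ (lvJ k) := by
        gcongr
        · norm_num
        · norm_num
        · omega
  have h5 : 4 ^ lvJ k * 12 * (D + 1) = 4 ^ lvJ k * 11 + 4 ^ lvJ k * D +
      (4 ^ lvJ k + 11 * (4 ^ lvJ k * D)) := by ring
  have h6 : 0 < 4 ^ lvJ k := by positivity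
  omega

/-- invariant of the chains -/
def ZA (F : List (List ℕ)) : Prop :=
  ∀ (p : ℕ) (c : List ℕ), F[p]? = some c → 0 ∈ c → p = 0 ∧ c.head? = some 0

/-- invariant of the pairs -/
def ZB (P : List Obj) : Prop :=
  ∀ (p : ℕ) (O : Obj), P[p]? = some O → 0 ∈ labels O → p = 0 ∧ O.1.head? = some 0

theorem zb_of_za (F : List (List ℕ)) (P : List Obj) (hg : ZGood F P) (hA : ZA F) : ZB P := by
  intro p O hO h0
  obtain ⟨a, b, ha, hb, hb0, hap⟩ := hg p O hO
  unfold labels at h0
  rw [List.mem_append] at h0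
  rcases h0 with h0 | h0
  · obtain ⟨h1, h2⟩ := hA a _ ha h0
    exact ⟨hap.1 h1, h2⟩
  · exact absurd (hA b _ hb h0).1 hb0

theorem za_of_zb (P : List Obj) (f : Obj → Bool) (hB : ZB P) :
    ZA ((P.filter f).map fun p => p.1 ++ p.2) := by
  intro p c hc h0
  rw [List.getElem?_map, Option.map_eq_some_iff] at hc
  obtain ⟨O, hO, rfl⟩ := hc
  have hmem := List.mem_of_getElem? hO
  rcases P with _ | ⟨O₀, rest⟩
  · simp at hmem
  have hrest : ∀ O' ∈ rest, 0 ∉ labels O' := by
    intro O' hO' h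
    obtain ⟨i, hi⟩ := List.mem_iff_getElem?.1 hO'
    have := (hB (i + 1) O' (by rw [List.getElem?_cons_succ]; exact hi) h).1
    omega
  have hn : O ∉ rest := fun h => hrest O h h0
  have hOO : O = O₀ := by
    have := (List.mem_filter.1 hmem).1
    rcases List.mem_cons.1 this with h | h
    · exact h
    · exact absurd h hn
  have hfO : f O = true := (List.mem_filter.1 hmem).2
  subst hOO
  rw [List.filter_cons_of_pos hfO] at hO
  have hhead := (hB 0 O (by simp) h0).2
  refine ⟨?_, ?_⟩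
  · by_contra hp
    obtain ⟨i, rfl⟩ := Nat.exists_eq_succ_of_ne_zero hp
    rw [List.getElem?_cons_succ] at hO
    exact hn (List.mem_filter.1 (List.mem_of_getElem? hO)).1
  · rw [List.head?_append, hhead]
    rfl

theorem zero_inv (k N D : ℕ) (hk : 2 ≤ k) (σ : ℕ → Bool) (hB : Bal σ N)
    (hT : Typ σ (lvJ k) N D) (hbig : KK k * (D + 1) ≤ N) (j : ℕ) :
    ZA (FF σ (lvJ k) N j) := by
  induction j with
  | zero =>
    intro p c hc h0
    unfold FF at hc
    rw [List.getElem?_map, Option.map_eq_some_iff] at hc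
    obtain ⟨v, hv, rfl⟩ := hc
    obtain ⟨hlt, hpv⟩ := List.getElem?_eq_some_iff.1 hv
    rw [List.getElem_range] at hpv
    rw [List.mem_singleton] at h0
    subst h0
    exact ⟨hpv, rfl⟩
  | succ j ih =>
    unfold FF
    refine za_of_zb _ _ (zb_of_za _ _ (zgood_pairing _ _ _ ?_) ih)
    rintro rfl
    exact zero_size k N D hk σ hB hT hbig

theorem zero_invB (k N D : ℕ) (hk : 2 ≤ k) (σ : ℕ → Bool) (hB : Bal σ N)
    (hT : Typ σ (lvJ k) N D) (hbig : KK k * (D + 1) ≤ N) (j : ℕ) :
    ZGood (FF σ (lvJ k) N j) (prs σ (lvJ k) N j) := by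
  refine zgood_pairing _ _ _ ?_
  rintro rfl
  exact zero_size k N D hk σ hB hT hbig

theorem zero_first (k N D : ℕ) (hk : 2 ≤ k) (σ : ℕ → Bool) (hB : Bal σ N)
    (hT : Typ σ (lvJ k) N D) (hD : 4 ^ (lvJ k + 1) ≤ D) (hbig : KK k * (D + 1) ≤ N)
    (j : ℕ) (c : List ℕ) (hc : c ∈ FF σ (lvJ k) N j) (h0 : 0 ∈ c) :
    c.head? = some 0 ∧ ∃ O rest, prs σ (lvJ k) N j = O :: rest ∧ O.1 = c := by
  have hA := zero_inv k N D hk σ hB hT hbig j
  obtain ⟨i, hi⟩ := List.mem_iff_getElem?.1 hc
  obtain ⟨rfl, hh⟩ := hA i c hi h0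
  refine ⟨hh, ?_⟩
  have hlen : (prs σ (lvJ k) N j).length = (FF σ (lvJ k) N j).length / 2 :=
    pairing_length _ _ _
  have hev := ff_even σ (lvJ k) N hB j
  have hpos : 0 < (FF σ (lvJ k) N j).length := (List.getElem?_eq_some_iff.1 hi).1
  have hpos2 : 0 < (prs σ (lvJ k) N j).length := by
    obtain ⟨r, hr⟩ := hev
    omega
  have hg := zero_invB k N D hk σ hB hT hbig j
  rcases hps : prs σ (lvJ k) N j with _ | ⟨O, rest⟩
  · rw [hps] at hpos2
    simp at hpos2
  · refine ⟨O, rest, rfl, ?_⟩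
    obtain ⟨a, b, ha, -, -, hap⟩ := hg 0 O (by rw [hps]; simp)
    rw [hap.2 rfl, hi] at ha
    exact (Option.some.inj ha).symm

theorem zero_not_mem (k N D : ℕ) (hk : 2 ≤ k) (σ : ℕ → Bool) (hB : Bal σ N)
    (hT : Typ σ (lvJ k) N D) (hD : 4 ^ (lvJ k + 1) ≤ D) (hbig : KK k * (D + 1) ≤ N)
    (j p : ℕ) (hp : 1 ≤ p) (O : Obj) (hO : (prs σ (lvJ k) N j)[p]? = some O) :
    0 ∉ labels O := by
  intro h0
  have hZB := zb_of_za _ _ (zero_invB k N D hk σ hB hT hbig j) (zero_inv k N D hk σ hB hT hbig j)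
  have := (hZB p O hO h0).1
  omega

end Pool.Agent.Lib_helper4.Asy
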