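import Pool.Agent.Lib_helper4.AsyF.TRN2
import Pool.Agent.Lib_helper4.AsyF.ZERO
import Pool.Agent.Lib_helper4.AsyF.CLS
import Pool.Agent.Lib_helper4.AsyF.ARR

/-! Block SKEL -/

set_option autoImplicit false

namespace Pool.Agent.Lib_helper4.Asy

theorem skel_of_list (k N : ℕ) (ps : ℕ → List Obj) (ws : ℕ → List Bool)
    (T : List (Blk (Tg Obj)))
    (hperm : ((T.flatMap Blk.objs).map Tg.o).Perm ((List.range N).flatMap fun j =>
      (((ps j).zip (ws j)).filter fun q => !q.2).map Prod.fst))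
    (hsmall : ∀ b ∈ T, (∃ o, b = Blk.sol o) ∨ (GoodBlk k (lvJ k) b ∧ ∀ a ∈ b.objs,
      a.lev < lvJ k ∧ a.seg < QQ (lvJ k) ∧
        a.o ∈ clsOf N (QQ (lvJ k)) a.lev a.seg (ps a.lev) (ws a.lev)))
    (hsolid : ∀ o, Blk.sol o ∈ T → (∃ j, lvJ k ≤ j ∧
      o.o ∈ (((ps j).zip (ws j)).filter fun q => !q.2).map Prod.fst) ∨
        (o.o.1 = [0] ∧ o.o.2.length = 1))
    (b : Blk (Tg Obj)) (hb : b ∈ T)
    (hfirst : (∃ o, b = Blk.sol o ∧ o.o.1.head? = some 0) ∨
      (∃ O As Bs, b = Blk.ob (O :: As) Bs ∧ O.o.1.head? = some 0 ∧ 2 ≤ O.o.1.length)) :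
    ∃ sk, IsSkel k N ps ws sk := by
  obtain ⟨s, t, rfl⟩ := List.append_of_mem hb
  have hp : (s ++ b :: t).Perm (b :: (s ++ t)) := List.perm_middle
  refine ⟨b :: (s ++ t), ⟨?_, ?_, ?_, ?_⟩⟩
  · exact ((hp.symm.flatMap_right _).map _).trans hperm
  · intro x hx
    exact hsmall x (hp.mem_iff.mpr hx)
  · intro o ho
    exact hsolid o (hp.mem_iff.mpr ho)
  · exact ⟨b, s ++ t, rfl, hfirst⟩

theorem skel_sol_objs (L : List ℕ) (D : ℕ → List Obj) :
    ((L.flatMap fun j => (D j).map fun O => (Blk.sol (⟨O, j, 0⟩ : Tg Obj))).flatMap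
      Blk.objs).map Tg.o = L.flatMap D := by
  induction L with
  | nil => rfl
  | cons j L ih =>
    rw [List.flatMap_cons, List.flatMap_append, List.map_append, ih, List.flatMap_cons]
    congr 1
    induction D j with
    | nil => rfl
    | cons O l ih2 =>
      rw [List.map_cons, List.flatMap_cons, List.map_append, ih2]
      rfl

theorem skel_allTags_o (J : ℕ) (X : ℕ → ℕ → List Obj) :
    (allTags J X).map Tg.o = (List.range J).flatMap fun j => (List.range (QQ J)).flatMap
      fun s => X j s := by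
  unfold allTags
  rw [List.map_flatMap]
  congr 1
  funext j
  rw [List.map_flatMap]
  congr 1
  funext s
  rw [List.map_map]
  exact List.map_id _

theorem skel_lvJ_two (k : ℕ) : 2 ≤ lvJ k := le_max_left _ _

theorem skel_mem_allTags {J : ℕ} {X : ℕ → ℕ → List Obj} {a : Tg Obj} (h : a ∈ allTags J X) :
    a.lev < J ∧ a.seg < QQ J ∧ a.o ∈ X a.lev a.seg := by
  unfold allTags at h
  simp only [List.mem_flatMap, List.mem_range, List.mem_map] at h
  obtain ⟨j, hj, s, hs, O, hO, rfl⟩ := h
  exact ⟨hj, hs, hO⟩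

theorem skel_cons_zero {α : Type} (C : ℕ → ℕ → List α) (O0 : α) (rest : List α) (J Q : ℕ)
    (hJ : 1 ≤ J) (hQ : 1 ≤ Q) (h : C 0 0 = O0 :: rest) :
    (List.range J).flatMap (fun j => (List.range Q).flatMap fun s => C j s) =
      O0 :: (List.range J).flatMap (fun j => (List.range Q).flatMap fun s =>
        if j = 0 ∧ s = 0 then rest else C j s) := by
  obtain ⟨J', rfl⟩ : ∃ J', J = J' + 1 := ⟨J - 1, by omega⟩
  obtain ⟨Q', rfl⟩ : ∃ Q', Q = Q' + 1 := ⟨Q - 1, by omega⟩
  have e1 : (List.range Q').flatMap (fun s => C 0 (s + 1)) =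
      (List.range Q').flatMap (fun s => if 0 = 0 ∧ s + 1 = 0 then rest else C 0 (s + 1)) := by
    refine List.flatMap_congr ?_
    intro s _
    rw [if_neg (by omega)]
  have e2 : (List.range J').flatMap
        (fun j => (List.range (Q' + 1)).flatMap fun s => C (j + 1) s) =
      (List.range J').flatMap (fun j => (List.range (Q' + 1)).flatMap fun s =>
        if j + 1 = 0 ∧ s = 0 then rest else C (j + 1) s) := by
    refine List.flatMap_congr ?_
    intro j _
    refine List.flatMap_congr ?_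
    intro s _
    rw [if_neg (by omega)]
  have r1 : ∀ (n : ℕ) (f : ℕ → List α), (List.range (n + 1)).flatMap f =
      f 0 ++ (List.range n).flatMap fun i => f (i + 1) := by
    intro n f
    rw [List.range_succ_eq_map, List.flatMap_cons, List.flatMap_map]
  rw [r1 J', r1 J', e2, r1 Q', r1 Q', e1, h, if_pos ⟨rfl, rfl⟩]
  rfl

theorem skel_exists (k N D : ℕ) (hk : 2 ≤ k) (σ : ℕ → Bool) (hB : Bal σ N)
    (hT : Typ σ (lvJ k) N D) (hD : 4 ^ (lvJ k + 1) ≤ D) (hbig : KK k * (D + 1) ≤ N) :
    ∃ sk, IsSkel k N (prs σ (lvJ k) N) (word σ (lvJ k) N) sk := by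
  set J := lvJ k with hJ
  have hJ2 : 2 ≤ J := skel_lvJ_two k
  have hQ1 : 1 ≤ QQ J := Nat.one_le_pow _ _ (by norm_num)
  have h4 : 1 ≤ 4 ^ (J + 1) := Nat.one_le_pow _ _ (by norm_num)
  have hk4 : 1 ≤ k ^ 4 := Nat.one_le_pow _ _ (by omega)
  have hKK : KK k = (100000 * k ^ 4) * (4 ^ (J + 1) * QQ J) := by
    unfold KK
    rw [← hJ]
    ring
  have hKKpos : 1 ≤ KK k := by
    rw [hKK]
    exact Nat.one_le_iff_ne_zero.mpr (by positivity)
  have hKN : KK k ≤ N := le_trans (Nat.le_mul_of_pos_right _ (by omega)) hbig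
  have hJN : J ≤ N := by
    have h1 : J < 4 ^ J := Nat.lt_pow_self (by norm_num)
    have h2 : 4 ^ (J + 1) ≤ KK k := by
      rw [hKK]
      calc 4 ^ (J + 1) = 1 * (4 ^ (J + 1) * 1) := by ring
        _ ≤ (100000 * k ^ 4) * (4 ^ (J + 1) * QQ J) :=
          Nat.mul_le_mul (by omega) (Nat.mul_le_mul_left _ hQ1)
    have h3 : 4 ^ (J + 1) = 4 * 4 ^ J := by rw [pow_succ]; ring
    omega
  have hN1 : 1 ≤ N := le_trans hKKpos hKN
  -- the size of the classes
  have hM : 1000 * k ^ 4 * ((4 * D + 1) + 1) ≤ MM k N := by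
    unfold MM
    rw [← hJ, Nat.le_div_iff_mul_le (by positivity)]
    refine le_trans ?_ hbig
    rw [hKK]
    have : 1000 * k ^ 4 * (4 * D + 1 + 1) ≤ 100000 * k ^ 4 * (D + 1) := by nlinarith
    calc 1000 * k ^ 4 * (4 * D + 1 + 1) * (4 ^ (J + 1) * QQ J)
        ≤ 100000 * k ^ 4 * (D + 1) * (4 ^ (J + 1) * QQ J) := Nat.mul_le_mul_right _ this
      _ = 100000 * k ^ 4 * (4 ^ (J + 1) * QQ J) * (D + 1) := by ring
  have hcnt : ∀ j < J, ∀ s < QQ J, (cls σ J N j s).length ≤ 4 ^ (J - j) * MM k N + 4 * D ∧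
      4 ^ (J - j) * MM k N ≤ (cls σ J N j s).length + 4 * D :=
    fun j hj s hs => cls_count k N D hk σ hB hT hD hbig j hj s hs
  have hflat : ∀ j < J, (List.range (QQ J)).flatMap (fun s => cls σ J N j s) = DD σ J N j :=
    fun j hj => cls_flat k N D hk σ hB hT hD hbig j hj
  -- where is the label 0
  obtain ⟨j0, hj0, O0, hO0, h0⟩ : ∃ j0 < N, ∃ O0 ∈ DD σ J N j0, 0 ∈ labels O0 := by
    have h1 : 0 ∈ (List.range N).flatMap fun j => (DD σ J N j).flatMap labels :=
      (dd_perm σ J N hB).mem_iff.mpr (List.mem_range.mpr (by omega))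
    simp only [List.mem_flatMap, List.mem_range] at h1
    obtain ⟨j, hj, O, hO, h⟩ := h1
    exact ⟨j, hj, O, hO, h⟩
  have hO0p : O0 ∈ prs σ J N j0 := (List.mem_filter.mp hO0).1
  have hO0s : same σ O0 = false := by
    have := (List.mem_filter.mp hO0).2
    simpa using this
  obtain ⟨rest, hrest⟩ : ∃ rest, prs σ J N j0 = O0 :: rest := by
    obtain ⟨p, hp⟩ := List.getElem?_of_mem hO0p
    rcases Nat.eq_zero_or_pos p with h | h
    · subst h
      cases hpr : prs σ J N j0 with
      | nil => rw [hpr] at hp; simp at hp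
      | cons a l =>
        rw [hpr] at hp
        simp only [List.getElem?_cons_zero, Option.some.injEq] at hp
        exact ⟨l, by rw [hp]⟩
    · exact absurd h0 (zero_not_mem k N D hk σ hB hT hD hbig j0 p h O0 hp)
  have hword : word σ J N j0 = false :: rest.map (same σ) := by
    unfold word
    rw [hrest, List.map_cons, hO0s]
  have hfst : ∀ c, c ∈ FF σ J N j0 → 0 ∈ c → c.head? = some 0 ∧ O0.1 = c := by
    intro c hc h0c
    obtain ⟨h1, O, rest', h2, h3⟩ := zero_first k N D hk σ hB hT hD hbig j0 c hc h0c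
    rw [← hJ, hrest] at h2
    have h4 : O0 = O := (List.cons.inj h2).1
    exact ⟨h1, by rw [h4, h3]⟩
  have hmemFF : O0.1 ∈ FF σ J N j0 ∧ O0.2 ∈ FF σ J N j0 := by
    have h1 := pairing_perm J j0 (FF σ J N j0) (ff_even σ J N hB j0)
    have h2 : O0 ∈ pairing J j0 (FF σ J N j0) := hO0p
    constructor
    · refine h1.mem_iff.mp ?_
      unfold unpair
      rw [List.mem_flatMap]
      exact ⟨O0, h2, by simp⟩
    · refine h1.mem_iff.mp ?_
      unfold unpair
      rw [List.mem_flatMap]
      exact ⟨O0, h2, by simp⟩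
  have hhead : O0.1.head? = some 0 := by
    unfold labels at h0
    rw [List.mem_append] at h0
    rcases h0 with h | h
    · exact (hfst _ hmemFF.1 h).1
    · obtain ⟨h1, h2⟩ := hfst _ hmemFF.2 h
      rw [h2]
      exact h1
  have hlen := prs_len σ J N j0 O0 hO0p
  have hDD : ∀ j, (((prs σ J N j).zip (word σ J N j)).filter fun q => !q.2).map Prod.fst =
      DD σ J N j := fun j => (dd_eq σ J N j).symm
  -- the solid blocks
  set L : List (Blk (Tg Obj)) := ((List.range (N - J)).map (J + ·)).flatMap fun j =>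
    (DD σ J N j).map fun O => (Blk.sol (⟨O, j, 0⟩ : Tg Obj)) with hL
  have hrange : List.range N = List.range J ++ (List.range (N - J)).map (J + ·) := by
    rw [← List.range_add]
    congr 1
    omega
  have hLo : (L.flatMap Blk.objs).map Tg.o =
      ((List.range (N - J)).map (J + ·)).flatMap (DD σ J N) := skel_sol_objs _ _
  have hLmem : ∀ b ∈ L, ∃ O j, J ≤ j ∧ O ∈ DD σ J N j ∧ b = Blk.sol ⟨O, j, 0⟩ := by
    intro b hb
    rw [hL, List.mem_flatMap] at hb
    obtain ⟨j, hj, hb⟩ := hb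
    rw [List.mem_map] at hj hb
    obtain ⟨i, -, rfl⟩ := hj
    obtain ⟨O, hO, rfl⟩ := hb
    exact ⟨O, J + i, by omega, hO, rfl⟩
  -- common part of the small blocks
  have hsmall : ∀ (X : ℕ → ℕ → List Obj) (bl : List (Blk (Tg Obj))),
      (∀ j < J, ∀ s < QQ J, ∀ O ∈ X j s, O ∈ cls σ J N j s) →
      (∀ b ∈ bl, GoodBlk k J b) → (bl.flatMap Blk.objs).Perm (allTags J X) →
      ∀ b ∈ bl, (GoodBlk k J b ∧ ∀ a ∈ b.objs,
        a.lev < J ∧ a.seg < QQ J ∧
        a.o ∈ clsOf N (QQ J) a.lev a.seg (prs σ J N a.lev) (word σ J N a.lev)) := by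
    intro X bl hX hg hp b hb
    refine ⟨hg b hb, fun a ha => ?_⟩
    have h1 : a ∈ allTags J X := hp.mem_iff.mp (List.mem_flatMap.mpr ⟨b, hb, ha⟩)
    obtain ⟨h2, h3, h4⟩ := skel_mem_allTags h1
    exact ⟨h2, h3, hX _ h2 _ h3 _ h4⟩
  by_cases hz : j0 = 0
  · -- the first domino contains 0
    subst hz
    obtain ⟨rest', hrest'⟩ := cls_zero k N σ hk hKN 0 (by omega) O0 rest _ hrest hword
    rw [← hJ] at hrest'
    set X : ℕ → ℕ → List Obj := fun j s => if j = 0 ∧ s = 0 then rest' else cls σ J N j s with hX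
    have hXsub : ∀ j < J, ∀ s < QQ J, ∀ O ∈ X j s, O ∈ cls σ J N j s := by
      intro j _ s _ O hO
      simp only [hX] at hO
      split_ifs at hO with h
      · rw [h.1, h.2, hrest']
        exact List.mem_cons_of_mem _ hO
      · exact hO
    have hXlen : ∀ j < J, ∀ s < QQ J, (X j s).length ≤ 4 ^ (J - j) * MM k N + (4 * D + 1) ∧
        4 ^ (J - j) * MM k N ≤ (X j s).length + (4 * D + 1) := by
      intro j hj s hs
      have h1 := hcnt j hj s hs
      simp only [hX]
      split_ifs with h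
      · rw [h.1, h.2, hrest', List.length_cons] at h1
        rw [h.1]
        omega
      · omega
    obtain ⟨bl, hg, hp, -⟩ := arr k (MM k N) (4 * D + 1) hk X hXlen hM
    have hs := hsmall X bl hXsub hg hp
    refine skel_of_list k N _ _ (Blk.sol ⟨O0, 0, 0⟩ :: (bl ++ L)) ?_ ?_ ?_ (Blk.sol ⟨O0, 0, 0⟩)
      (List.mem_cons_self ..) (Or.inl ⟨_, rfl, hhead⟩)
    · simp only [hDD]
      rw [List.flatMap_cons, List.flatMap_append, List.map_append, List.map_append, hLo, hrange,
        List.flatMap_append, ← List.append_assoc]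
      refine List.Perm.append_right _ ?_
      have h1 : (List.range J).flatMap (DD σ J N) = O0 :: (allTags J X).map Tg.o := by
        rw [skel_allTags_o]
        have h2 : (List.range J).flatMap (DD σ J N) = (List.range J).flatMap fun j =>
            (List.range (QQ J)).flatMap fun s => cls σ J N j s := by
          refine List.flatMap_congr ?_
          intro j hj
          exact (hflat j (List.mem_range.mp hj)).symm
        rw [h2]
        exact skel_cons_zero (cls σ J N) O0 rest' J (QQ J) (by omega) hQ1 hrest'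
      rw [h1]
      exact (hp.map Tg.o).cons _
    · intro b hb
      rw [List.mem_cons, List.mem_append] at hb
      rcases hb with rfl | hb | hb
      · exact Or.inl ⟨_, rfl⟩
      · exact Or.inr (hs b hb)
      · obtain ⟨O, j, -, -, rfl⟩ := hLmem b hb
        exact Or.inl ⟨_, rfl⟩
    · intro o ho
      rw [List.mem_cons, List.mem_append] at ho
      rcases ho with ho | ho | ho
      · right
        have h1 : o = ⟨O0, 0, 0⟩ := by injection ho
        subst h1
        refine ⟨?_, by simpa using hlen.2⟩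
        obtain ⟨a, ha⟩ := List.length_eq_one_iff.mp (by simpa using hlen.1)
        have h2 : O0.1.head? = some 0 := hhead
        rw [ha] at h2
        simp only [List.head?_cons, Option.some.injEq] at h2
        show O0.1 = [0]
        rw [ha, h2]
      · exact absurd (hg _ ho) (by simp [GoodBlk])
      · obtain ⟨O, j, hj, hO, h⟩ := hLmem _ ho
        left
        have h1 : o = ⟨O, j, 0⟩ := by injection h
        subst h1
        exact ⟨j, hj, by rw [hDD]; exact hO⟩
  · -- the classes are unchanged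
    have hXlen : ∀ j < J, ∀ s < QQ J,
        (cls σ J N j s).length ≤ 4 ^ (J - j) * MM k N + (4 * D + 1) ∧
        4 ^ (J - j) * MM k N ≤ (cls σ J N j s).length + (4 * D + 1) := by
      intro j hj s hs
      have h1 := hcnt j hj s hs
      omega
    obtain ⟨bl, hg, hp, h3⟩ := arr k (MM k N) (4 * D + 1) hk (cls σ J N) hXlen hM
    have hs := hsmall (cls σ J N) bl (fun _ _ _ _ _ h => h) hg hp
    have hmain : ∀ b ∈ bl ++ L, ((∃ o, b = Blk.sol o ∧ o.o.1.head? = some 0) ∨
        (∃ O As Bs, b = Blk.ob (O :: As) Bs ∧ O.o.1.head? = some 0 ∧ 2 ≤ O.o.1.length)) →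
        ∃ sk, IsSkel k N (prs σ J N) (word σ J N) sk := by
      intro b hb hfirst
      refine skel_of_list k N _ _ (bl ++ L) ?_ ?_ ?_ b hb hfirst
      · simp only [hDD]
        rw [List.flatMap_append, List.map_append, hLo, hrange, List.flatMap_append]
        refine List.Perm.append_right _ ?_
        have h2 : (List.range J).flatMap (DD σ J N) = (allTags J (cls σ J N)).map Tg.o := by
          rw [skel_allTags_o]
          refine List.flatMap_congr ?_
          intro j hj
          exact (hflat j (List.mem_range.mp hj)).symm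
        rw [h2]
        exact hp.map Tg.o
      · intro b hb
        rw [List.mem_append] at hb
        rcases hb with hb | hb
        · exact Or.inr (hs b hb)
        · obtain ⟨O, j, -, -, rfl⟩ := hLmem b hb
          exact Or.inl ⟨_, rfl⟩
      · intro o ho
        rw [List.mem_append] at ho
        rcases ho with ho | ho
        · exact absurd (hg _ ho) (by simp [GoodBlk])
        · obtain ⟨O, j, hj, hO, h⟩ := hLmem _ ho
          left
          have h1 : o = ⟨O, j, 0⟩ := by injection h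
          subst h1
          exact ⟨j, hj, by rw [hDD]; exact hO⟩
    by_cases hzJ : j0 < J
    · obtain ⟨rest', hrest'⟩ := cls_zero k N σ hk hKN j0 hzJ O0 rest _ hrest hword
      rw [← hJ] at hrest'
      obtain ⟨As, Bs, hb⟩ := h3 j0 (by omega) hzJ O0 rest' hrest'
      refine hmain _ (List.mem_append_left _ hb) (Or.inr ⟨_, As, Bs, rfl, hhead, ?_⟩)
      show 2 ≤ O0.1.length
      rw [hlen.1]
      calc 2 = 2 ^ 1 := rfl
        _ ≤ 2 ^ j0 := Nat.pow_le_pow_right (by norm_num) (by omega)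
    · refine hmain (Blk.sol ⟨O0, j0, 0⟩) (List.mem_append_right _ ?_) (Or.inl ⟨_, rfl, hhead⟩)
      rw [hL, List.mem_flatMap]
      refine ⟨j0, ?_, List.mem_map.mpr ⟨O0, hO0, rfl⟩⟩
      rw [List.mem_map]
      exact ⟨j0 - J, List.mem_range.mpr (by omega), by omega⟩

end Pool.Agent.Lib_helper4.Asy
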