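import Pool.Agent.Lib_helper4.AsyF.Defs

set_option autoImplicit false

namespace Pool.Agent.Lib_helper4.Asy

/-! ## Block TRN1 : the tournament -/

theorem trn_unpair_append {α : Type} (A B : List (α × α)) :
    unpair (A ++ B) = unpair A ++ unpair B := by
  simp [unpair]

theorem trn_unpair_cons {α : Type} (p : α × α) (A : List (α × α)) :
    unpair (p :: A) = p.1 :: p.2 :: unpair A := by
  simp [unpair]

theorem trn_unpair_perm {α : Type} {A B : List (α × α)} (h : A.Perm B) :
    (unpair A).Perm (unpair B) := h.flatMap_right _

theorem trn_unpair_pairUp {α : Type} : ∀ (F : List α), Even F.length → unpair (pairUp F) = F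
  | [], _ => by simp [pairUp, unpair]
  | [x], h => by simp at h
  | x :: y :: t, h => by
    have ht : Even t.length := by
      simpa [Nat.even_add_one, parity_simps] using h
    simp only [pairUp, trn_unpair_cons, trn_unpair_pairUp t ht]

theorem trn_unpair_zip {α : Type} : ∀ (A B : List α), A.length = B.length →
    (unpair (A.zip B)).Perm (A ++ B)
  | [], [], _ => by simp [unpair]
  | a :: A, b :: B, h => by
    have h' : A.length = B.length := by simpa using h
    have ih := trn_unpair_zip A B h'
    rw [List.zip_cons_cons, trn_unpair_cons]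
    refine List.Perm.cons _ ?_
    refine (List.Perm.cons _ ih).trans ?_
    exact List.perm_middle.symm
  | [], _ :: _, h => by simp at h
  | _ :: _, [], h => by simp at h

theorem trn_split3 {α : Type} (A : List α) (a b : ℕ) (h : a ≤ b) :
    A = A.take a ++ ((A.drop a).take (b - a) ++ A.drop b) := by
  have h1 : A.drop b = (A.drop a).drop (b - a) := by
    rw [List.drop_drop]; congr 1; omega
  rw [h1, List.take_append_drop, List.take_append_drop]

theorem trn_midLast_perm {α : Type} (A : List α) : (midLast A).Perm A := by
  have h : 7 * A.length / 16 ≤ 9 * A.length / 16 := Nat.div_le_div_right (by omega)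
  have e := trn_split3 A _ _ h
  unfold midLast
  conv_rhs => rw [e]
  rw [List.append_assoc]
  exact List.Perm.append_left _ List.perm_append_comm

theorem trn_midFirst_perm {α : Type} (A : List α) : (midFirst A).Perm A := by
  have h : 7 * A.length / 16 ≤ 9 * A.length / 16 := Nat.div_le_div_right (by omega)
  have e := trn_split3 A _ _ h
  unfold midFirst
  conv_rhs => rw [e]
  rw [← List.append_assoc]
  exact List.Perm.append_right _ List.perm_append_comm

theorem trn_alpha_length {α : Type} (F : List α) : (alphaP F).length = F.length / 4 := by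
  simp [alphaP]; omega

theorem trn_beta_length {α : Type} (F : List α) :
    (betaP F).length = F.length / 2 - F.length / 4 := by
  simp [betaP]; omega

theorem trn_pairUp_length {α : Type} : ∀ (F : List α), (pairUp F).length = F.length / 2
  | [] => by simp [pairUp]
  | [x] => by simp [pairUp]
  | x :: y :: t => by
    simp only [pairUp, List.length_cons, trn_pairUp_length t]; omega

theorem trn_midLast_length {α : Type} (A : List α) : (midLast A).length = A.length :=
  (trn_midLast_perm A).length_eq

theorem trn_midFirst_length {α : Type} (A : List α) : (midFirst A).length = A.length :=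
  (trn_midFirst_perm A).length_eq

theorem trn_alpha_perm {α : Type} (F : List α) :
    (unpair (alphaP F)).Perm (F.take (2 * (F.length / 4))) := by
  set c := F.length / 4 with hc
  have h1 : alphaP F = (F.take c).zip ((F.drop c).take c) := by
    unfold alphaP
    rw [← hc]
    rw [List.zip_eq_zip_take_min]
    have hm : min (F.take c).length (F.drop c).length = c := by
      simp; omega
    rw [hm, List.take_take, min_self]
  rw [h1]
  refine (trn_unpair_zip _ _ (by simp; omega)).trans ?_
  rw [two_mul, List.take_add]

theorem trn_beta_perm {α : Type} (F : List α) (h : Even F.length) :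
    (unpair (betaP F)).Perm (F.drop (2 * (F.length / 4))) := by
  obtain ⟨m, hm⟩ := h
  unfold betaP
  set c := F.length / 4 with hc
  set c' := F.length / 2 - c with hc'
  refine (trn_unpair_zip _ _ (by simp; omega)).trans ?_
  refine List.perm_append_comm.trans ?_
  have h1 : F.drop (2 * c + c') = (F.drop (2 * c)).drop c' := by
    rw [List.drop_drop]
  rw [h1, List.take_append_drop]

theorem pairing_perm (J j : ℕ) {α : Type} (F : List α) (h : Even F.length) :
    (unpair (pairing J j F)).Perm F := by
  unfold pairing
  split_ifs with h1 h2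
  · unfold pairQ
    rw [trn_unpair_append]
    refine ((trn_unpair_perm (trn_midLast_perm _)).append
      (trn_unpair_perm (trn_midFirst_perm _))).trans ?_
    refine ((trn_alpha_perm F).append (trn_beta_perm F h)).trans ?_
    rw [List.take_append_drop]
  · unfold pairH
    obtain ⟨m, hm⟩ := h
    refine (trn_unpair_zip _ _ (by simp; omega)).trans ?_
    rw [List.take_append_drop]
  · rw [trn_unpair_pairUp F h]

theorem pairing_length (J j : ℕ) {α : Type} (F : List α) :
    (pairing J j F).length = F.length / 2 := by
  unfold pairing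
  split_ifs with h1 h2
  · unfold pairQ
    rw [List.length_append, trn_midLast_length, trn_midFirst_length, trn_alpha_length,
      trn_beta_length]
    omega
  · unfold pairH
    simp; omega
  · exact trn_pairUp_length F

theorem trn_pairUp_mem {α : Type} : ∀ (F : List α), ∀ p ∈ pairUp F, p.1 ∈ F ∧ p.2 ∈ F
  | [] => by simp [pairUp]
  | [x] => by simp [pairUp]
  | x :: y :: t => by
    intro p hp
    simp only [pairUp, List.mem_cons] at hp
    rcases hp with rfl | hp
    · simp
    · have := trn_pairUp_mem t p hp
      exact ⟨List.mem_cons_of_mem _ (List.mem_cons_of_mem _ this.1),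
        List.mem_cons_of_mem _ (List.mem_cons_of_mem _ this.2)⟩

theorem trn_pairing_mem (J j : ℕ) {α : Type} (F : List α) :
    ∀ p ∈ pairing J j F, p.1 ∈ F ∧ p.2 ∈ F := by
  intro p hp
  unfold pairing at hp
  split_ifs at hp with h1 h2
  · unfold pairQ at hp
    rw [List.mem_append, (trn_midLast_perm _).mem_iff, (trn_midFirst_perm _).mem_iff] at hp
    rcases hp with hp | hp
    · unfold alphaP at hp
      obtain ⟨p1, p2⟩ := p
      have := List.of_mem_zip hp
      exact ⟨List.mem_of_mem_take this.1, List.mem_of_mem_drop this.2⟩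
    · unfold betaP at hp
      obtain ⟨p1, p2⟩ := p
      have := List.of_mem_zip hp
      exact ⟨List.mem_of_mem_drop this.1, List.mem_of_mem_drop (List.mem_of_mem_take this.2)⟩
  · unfold pairH at hp
    obtain ⟨p1, p2⟩ := p
    have := List.of_mem_zip hp
    exact ⟨List.mem_of_mem_take this.1, List.mem_of_mem_drop this.2⟩
  · exact trn_pairUp_mem F p hp

theorem ff_len (σ : ℕ → Bool) (J N j : ℕ) : ∀ c ∈ FF σ J N j, c.length = 2 ^ j := by
  induction j with
  | zero =>
    intro c hc
    simp only [FF, List.mem_map] at hc
    obtain ⟨v, _, rfl⟩ := hc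
    simp
  | succ j ih =>
    intro c hc
    simp only [FF, List.mem_map, List.mem_filter] at hc
    obtain ⟨p, ⟨hp, _⟩, rfl⟩ := hc
    have := trn_pairing_mem J j _ p hp
    rw [List.length_append, ih _ this.1, ih _ this.2]
    ring

theorem trn_prs_mem (σ : ℕ → Bool) (J N j : ℕ) :
    ∀ O ∈ prs σ J N j, O.1 ∈ FF σ J N j ∧ O.2 ∈ FF σ J N j :=
  trn_pairing_mem J j _

theorem prs_len (σ : ℕ → Bool) (J N j : ℕ) :
    ∀ O ∈ prs σ J N j, O.1.length = 2 ^ j ∧ O.2.length = 2 ^ j := by
  intro O hO
  have := trn_prs_mem σ J N j O hO
  exact ⟨ff_len σ J N j _ this.1, ff_len σ J N j _ this.2⟩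

theorem trn_headD_append (a b : List ℕ) (h : a ≠ []) : (a ++ b).headD 0 = a.headD 0 := by
  cases a with
  | nil => exact absurd rfl h
  | cons x t => simp

theorem trn_ne_nil (σ : ℕ → Bool) (J N j : ℕ) : ∀ c ∈ FF σ J N j, c ≠ [] := by
  intro c hc h
  have := ff_len σ J N j c hc
  rw [h, List.length_nil] at this
  have h2 : 0 < 2 ^ j := by positivity
  omega

theorem ff_mono (σ : ℕ → Bool) (J N j : ℕ) :
    ∀ c ∈ FF σ J N j, ∀ v ∈ c, σ v = σ (c.headD 0) := by
  induction j with
  | zero =>
    intro c hc v hv
    simp only [FF, List.mem_map] at hc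
    obtain ⟨w, _, rfl⟩ := hc
    simp only [List.mem_singleton] at hv
    simp [hv]
  | succ j ih =>
    intro c hc v hv
    simp only [FF, List.mem_map, List.mem_filter] at hc
    obtain ⟨p, ⟨hp, hs⟩, rfl⟩ := hc
    have hm := trn_pairing_mem J j _ p hp
    have hne := trn_ne_nil σ J N j _ hm.1
    rw [trn_headD_append _ _ hne]
    rcases List.mem_append.1 hv with hv | hv
    · exact ih _ hm.1 v hv
    · rw [ih _ hm.2 v hv]
      have : σ (p.1.headD 0) = σ (p.2.headD 0) := by simpa [same] using hs
      exact this.symm

/-! ### parity -/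

def trn_sg (σ : ℕ → Bool) (c : List ℕ) : ℤ := if σ (c.headD 0) then 1 else -1

theorem trn_sum_parity (σ : ℕ → Bool) (L : List (List ℕ)) :
    ∃ t : ℤ, (L.map (trn_sg σ)).sum = L.length + 2 * t := by
  induction L with
  | nil => exact ⟨0, by simp⟩
  | cons a L ih =>
    obtain ⟨t, ht⟩ := ih
    rw [List.map_cons, List.sum_cons, ht]
    unfold trn_sg
    split_ifs
    · exact ⟨t, by push_cast [List.length_cons]; ring⟩
    · exact ⟨t - 1, by push_cast [List.length_cons]; ring⟩

theorem trn_sum_range (σ : ℕ → Bool) (N : ℕ) :
    (((List.range N).map fun v => [v]).map (trn_sg σ)).sum =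
      2 * ((List.range N).countP σ : ℤ) - N := by
  induction N with
  | zero => simp
  | succ N ih =>
    rw [List.range_succ, List.map_append, List.map_append, List.sum_append, ih,
      List.countP_append]
    by_cases h : σ N
    · simp [trn_sg, h]; ring
    · simp [trn_sg, h]; ring

theorem trn_sum_unpair (σ : ℕ → Bool) (ps : List Obj) (h : ∀ p ∈ ps, p.1 ≠ []) :
    ((unpair ps).map (trn_sg σ)).sum =
      2 * (((ps.filter (same σ)).map fun p => p.1 ++ p.2).map (trn_sg σ)).sum := by
  induction ps with
  | nil => simp [unpair]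
  | cons p ps ih =>
    rw [trn_unpair_cons]
    have ih' := ih (fun q hq => h q (List.mem_cons_of_mem _ hq))
    have hne := h p List.mem_cons_self
    by_cases hs : same σ p
    · rw [List.filter_cons_of_pos hs]
      simp only [List.map_cons, List.sum_cons]
      rw [ih']
      have h1 : trn_sg σ (p.1 ++ p.2) = trn_sg σ p.1 := by
        unfold trn_sg; rw [trn_headD_append _ _ hne]
      have h2 : trn_sg σ p.2 = trn_sg σ p.1 := by
        have : σ (p.1.headD 0) = σ (p.2.headD 0) := by simpa [same] using hs
        unfold trn_sg; rw [this]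
      rw [h1, h2]; ring
    · rw [List.filter_cons_of_neg hs]
      simp only [List.map_cons, List.sum_cons]
      rw [ih']
      have : σ (p.1.headD 0) ≠ σ (p.2.headD 0) := by simpa [same] using hs
      have h2 : trn_sg σ p.1 + trn_sg σ p.2 = 0 := by
        unfold trn_sg
        cases h3 : σ (p.1.headD 0) <;> cases h4 : σ (p.2.headD 0) <;> simp_all
      linarith

theorem trn_sum_zero (σ : ℕ → Bool) (J N : ℕ) (hB : Bal σ N) (j : ℕ) :
    ((FF σ J N j).map (trn_sg σ)).sum = 0 := by
  induction j with
  | zero =>
    simp only [FF]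
    rw [trn_sum_range]
    unfold Bal at hB
    have : (2 * ((List.range N).countP σ : ℤ)) = N := by exact_mod_cast hB
    linarith
  | succ j ih =>
    have hev : Even (FF σ J N j).length := by
      obtain ⟨t, ht⟩ := trn_sum_parity σ (FF σ J N j)
      rw [ih] at ht
      have : (Even ((FF σ J N j).length : ℤ)) := ⟨-t, by linarith⟩
      exact_mod_cast this
    have hp := pairing_perm J j (FF σ J N j) hev
    have h1 := trn_sum_unpair σ (pairing J j (FF σ J N j))
      (fun p hp => trn_ne_nil σ J N j _ (trn_pairing_mem J j _ p hp).1)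
    rw [((hp.map (trn_sg σ)).sum_eq), ih] at h1
    simp only [FF]
    omega

theorem ff_even (σ : ℕ → Bool) (J N : ℕ) (hB : Bal σ N) (j : ℕ) :
    Even (FF σ J N j).length := by
  obtain ⟨t, ht⟩ := trn_sum_parity σ (FF σ J N j)
  rw [trn_sum_zero σ J N hB j] at ht
  have : (Even ((FF σ J N j).length : ℤ)) := ⟨-t, by linarith⟩
  exact_mod_cast this

theorem trn_count_true (σ : ℕ → Bool) (J N j : ℕ) :
    (word σ J N j).count true = (FF σ J N (j + 1)).length := by
  simp only [FF, word, prs, List.length_map]
  rw [List.count_eq_countP, List.countP_map, List.countP_eq_length_filter]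
  congr 1
  apply List.filter_congr
  intro x _
  simp

theorem word_parity (σ : ℕ → Bool) (J N : ℕ) (hB : Bal σ N) (j : ℕ) :
    Even ((word σ J N j).count true) := by
  rw [trn_count_true]
  exact ff_even σ J N hB (j + 1)

theorem trn_flatten_unpair (ps : List Obj) : (unpair ps).flatten = ps.flatMap labels := by
  induction ps with
  | nil => simp [unpair]
  | cons p ps ih =>
    rw [trn_unpair_cons, List.flatten_cons, List.flatten_cons, ih, List.flatMap_cons, labels,
      List.append_assoc]

theorem ff_step (σ : ℕ → Bool) (J N : ℕ) (hB : Bal σ N) (j : ℕ) :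
    (FF σ J N j).flatten.Perm ((FF σ J N (j + 1)).flatten ++ (DD σ J N j).flatMap labels) := by
  have hp := pairing_perm J j (FF σ J N j) (ff_even σ J N hB j)
  refine hp.symm.flatten.trans ?_
  rw [trn_flatten_unpair]
  have h1 : (FF σ J N (j + 1)).flatten = ((prs σ J N j).filter (same σ)).flatMap labels := by
    simp only [FF, prs]
    rfl
  rw [h1, ← List.flatMap_append]
  unfold DD
  refine List.Perm.flatMap_right _ ?_
  exact (List.filter_append_perm (same σ) (prs σ J N j)).symm

theorem trn_length_bound (σ : ℕ → Bool) (J N j : ℕ) : (FF σ J N j).length * 2 ^ j ≤ N := by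
  induction j with
  | zero => simp [FF]
  | succ j ih =>
    have h1 : (FF σ J N (j + 1)).length ≤ (FF σ J N j).length / 2 := by
      simp only [FF, List.length_map]
      refine (List.length_filter_le _ _).trans ?_
      rw [pairing_length]
    calc (FF σ J N (j + 1)).length * 2 ^ (j + 1)
        = ((FF σ J N (j + 1)).length * 2) * 2 ^ j := by ring
      _ ≤ (FF σ J N j).length * 2 ^ j := by
        apply Nat.mul_le_mul_right; omega
      _ ≤ N := ih

theorem ff_end (σ : ℕ → Bool) (J N j : ℕ) (h : N < 2 ^ j) : FF σ J N j = [] := by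
  have h1 := trn_length_bound σ J N j
  have h2 : (FF σ J N j).length = 0 := by
    by_contra h3
    have : 1 ≤ (FF σ J N j).length := Nat.one_le_iff_ne_zero.2 h3
    have : 1 * 2 ^ j ≤ (FF σ J N j).length * 2 ^ j := Nat.mul_le_mul_right _ this
    omega
  exact List.eq_nil_of_length_eq_zero h2

end Pool.Agent.Lib_helper4.Asy
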